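import Pool.Agent.Lib.MP_216314_pr.Z.Til

/-!
# Convergence to the invariant vector

`tl_alt`: alternating tiles (`true` at even columns, `false` at odd columns) give the pattern `(0 1)(2 3)...` for every `α`: after the tiles
`0, .., 2m-1` the pattern `tl t α (2m)` joins `2j+1` and `2j+2` for `j < m` (tile `2m` is `e (2m+1)`, it joins `2m+1`, `2m+2`; the tile `2m+1` is
the identity, then the end of the horizontal line is the site `2m+2`... see below); equivalently prove directly: for `k` even, `k ≤ L`: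
`(tl t α k).f (2j+1) = 2j+2` for `2j+2 ≤ k`. (`e i` keeps the small arcs at `(j,j+1)` with `j+1 < i`.)
So `(row t α).f (2j) = 2j+1` for `2j+2 ≤ L`, and two patterns with this property are equal (periodicity).
Contraction: `|TT v|_1 ≤ (1 - 2^{-L}) |v|_1` if `∑ v = 0`: the part `2^{-L} lin (row t0) v = 2^{-L} (∑ v) δ_γ = 0`; the other `2^L - 1` maps are
contractions of the `ℓ¹` norm with weight `2^{-L}`. `inv_ne_zero`: the reference component at `z = 1` is a power of `q - q² ≠ 0`.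
`sum_ne_zero`: otherwise `v = TT^m v → 0`. `conv`: apply the contraction to `Pi.single α 1 - (∑ v)⁻¹ • v`.
-/

set_option autoImplicit false

noncomputable section

namespace CY

open Finset Filter Topology

/-- the alternating tile configuration -/
def alt : ℕ → Bool := fun k => k % 2 == 0

theorem Conv_ndvd {M : ℕ} {a : ℤ} (h0 : a ≠ 0) (h1 : -(M : ℤ) < a) (h2 : a < M) : ¬ (M : ℤ) ∣ a :=
  fun h => h0 (Int.eq_zero_of_abs_lt_dvd h (abs_lt.2 ⟨h1, h2⟩))

/-- a small arc survives a distant monoid -/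
theorem Conv_keep {M : ℕ} (γ : Pat M) (i x : ℤ) (h : γ.f x = x + 1) (h1 : ¬ (M : ℤ) ∣ x - i)
    (h2 : ¬ (M : ℤ) ∣ x - i - 1) (h3 : ¬ (M : ℤ) ∣ x + 1 - i) : (Pat.e i γ).f x = x + 1 := by
  rw [γ.e_of_not i x h1 h2 (by rw [h]; exact h3) (by
    rw [h]
    have e1 : x + 1 - i - 1 = x - i := by ring
    rw [e1]
    exact h1), h]

theorem Conv_tl {L : ℕ} (α : Pat L) (k : ℕ) (hk : k ≤ L) (j : ℕ) (hj : 2 * j < k) :
    (tl (ext (fun k : Fin L => alt k)) α k).f (2 * (j : ℤ) + 1) = 2 * (j : ℤ) + 2 := by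
  induction k with
  | zero => omega
  | succ k ih =>
    have hext : ext (fun k : Fin L => alt k) k = alt k := by
      unfold ext
      rw [dif_pos (by omega : k < L)]
    have hunf : tl (ext (fun k : Fin L => alt k)) α (k + 1) =
        if ext (fun k : Fin L => alt k) k then Pat.e ((k : ℤ) + 1) (tl (ext (fun k : Fin L => alt k)) α k)
        else tl (ext (fun k : Fin L => alt k)) α k := rfl
    rw [hunf, hext]
    by_cases hk2 : k % 2 = 0
    · have h1 : alt k = true := by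
        unfold alt
        rw [hk2]
        rfl
      rw [h1, if_pos rfl]
      by_cases hjk : 2 * j = k
      · have e1 : 2 * (j : ℤ) = k := by exact_mod_cast hjk
        rw [e1, Pat.e_left]
        ring
      · have h2 := ih (by omega) (by omega)
        have h3 := Conv_keep (tl (ext (fun k : Fin L => alt k)) α k) ((k : ℤ) + 1) (2 * (j : ℤ) + 1)
          (by rw [h2]; ring)
          (Conv_ndvd (by omega) (by push_cast; omega) (by push_cast; omega))
          (Conv_ndvd (by omega) (by push_cast; omega) (by push_cast; omega))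
          (Conv_ndvd (by omega) (by push_cast; omega) (by push_cast; omega))
        rw [h3]
        ring
    · have h1 : alt k = false := by
        have h2 : k % 2 = 1 := by omega
        unfold alt
        rw [h2]
        rfl
      rw [h1, if_neg Bool.false_ne_true]
      exact ih (by omega) (by omega)

theorem Conv_row {L : ℕ} (α : Pat L) (j : ℕ) (hj : 2 * j < L) :
    (row (ext (fun k : Fin L => alt k)) α).f (2 * (j : ℤ)) = 2 * (j : ℤ) + 1 := by
  obtain ⟨c, hc⟩ := α.even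
  have hL := α.pos
  have h1 := Conv_tl α L le_rfl j hj
  have h2 : (Pat.rotInv (tl (ext (fun k : Fin L => alt k)) α L)).f (2 * (j : ℤ) + 2) = 2 * (j : ℤ) + 2 + 1 := by
    show (tl (ext (fun k : Fin L => alt k)) α L).f (2 * (j : ℤ) + 2 - 1) + 1 = _
    have e1 : 2 * (j : ℤ) + 2 - 1 = 2 * (j : ℤ) + 1 := by ring
    rw [e1, h1]
  have h3 := Conv_keep (Pat.rotInv (tl (ext (fun k : Fin L => alt k)) α L)) 0 (2 * (j : ℤ) + 2) h2
    (Conv_ndvd (by omega) (by push_cast; omega) (by push_cast; omega))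
    (Conv_ndvd (by omega) (by push_cast; omega) (by push_cast; omega))
    (Conv_ndvd (by omega) (by push_cast; omega) (by push_cast; omega))
  rw [← ins_row] at h3
  have h4 : up L 0 (2 * (j : ℤ)) = 2 * (j : ℤ) + 2 := by
    unfold up
    rw [sub_zero, Int.ediv_eq_zero_of_lt (by omega) (by omega)]
    ring
  have h5 : up L 0 (2 * (j : ℤ) + 1) = 2 * (j : ℤ) + 3 := by
    unfold up
    rw [sub_zero, Int.ediv_eq_zero_of_lt (by omega) (by omega)]
    ring
  have h6 := Pat.ins_up (row (ext (fun k : Fin L => alt k)) α) 0 (2 * (j : ℤ))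
  rw [h4, h3] at h6
  have h7 : up L 0 ((row (ext (fun k : Fin L => alt k)) α).f (2 * (j : ℤ))) = up L 0 (2 * (j : ℤ) + 1) := by
    rw [h5, ← h6]
    ring
  exact (up_strictMono hL 0).injective h7

theorem Conv_key {L : ℕ} (γ : Pat L) (h : ∀ j : ℕ, 2 * j < L → γ.f (2 * (j : ℤ)) = 2 * (j : ℤ) + 1) (x : ℤ) :
    γ.f x = if x % 2 = 0 then x + 1 else x - 1 := by
  obtain ⟨c, hc⟩ := γ.even
  have hL := γ.pos
  have hL0 : (0 : ℤ) < L := by exact_mod_cast hL
  obtain ⟨r, hr⟩ : ∃ r : ℕ, (r : ℤ) = x % L :=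
    ⟨(x % L).toNat, Int.toNat_of_nonneg (Int.emod_nonneg _ hL0.ne')⟩
  have hrL : (r : ℤ) < L := by rw [hr]; exact Int.emod_lt_of_pos _ hL0
  have hx : x = r + (x / L) * L := by
    have e1 := Int.emod_add_mul_ediv x L
    rw [hr]
    linarith
  generalize x / (L : ℤ) = m at hx
  have hmL : m * (L : ℤ) = 2 * (m * c) := by
    rw [hc]
    push_cast
    ring
  rw [hx, γ.per_mul, hmL]
  generalize m * (c : ℤ) = d
  rcases Nat.even_or_odd' r with ⟨j, hj | hj⟩
  · have h1 := h j (by omega)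
    have e1 : (r : ℤ) = 2 * (j : ℤ) := by rw [hj]; push_cast; ring
    rw [e1, h1, if_pos (by omega)]
    ring
  · have h1 := h j (by omega)
    have h2 := γ.inv (2 * (j : ℤ))
    rw [h1] at h2
    have e1 : (r : ℤ) = 2 * (j : ℤ) + 1 := by rw [hj]; push_cast; ring
    rw [e1, h2, if_neg (by omega)]
    ring

theorem Conv_lin_norm {A B : Type*} [Fintype A] [Fintype B] [DecidableEq A] [DecidableEq B] (f : A → B) (v : A → ℂ) :
    ∑ b, ‖lin f v b‖ ≤ ∑ a, ‖v a‖ := by
  have h1 : ∑ b, ‖lin f v b‖ ≤ ∑ b, ∑ a, (if f a = b then ‖v a‖ else 0) := by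
    refine Finset.sum_le_sum (fun b _ => ?_)
    rw [lin_apply]
    refine (norm_sum_le _ _).trans (Finset.sum_le_sum (fun a _ => ?_))
    split_ifs
    · exact le_rfl
    · rw [norm_zero]
  refine h1.trans (le_of_eq ?_)
  rw [Finset.sum_comm]
  refine Finset.sum_congr rfl (fun a _ => ?_)
  rw [Finset.sum_ite_eq]
  simp

theorem Conv_TT_apply {L : ℕ} (v : V L) (α : Pat L) :
    TT v α = ((2 : ℂ) ^ L)⁻¹ * ∑ t : Fin L → Bool, lin (row (ext t)) v α := by
  unfold TT
  rw [LinearMap.smul_apply, Pi.smul_apply, LinearMap.sum_apply, Finset.sum_apply, smul_eq_mul]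

theorem Conv_card (L : ℕ) : Fintype.card (Fin L → Bool) = 2 ^ L := by
  rw [Fintype.card_fun, Fintype.card_bool, Fintype.card_fin]

theorem row_alt {L : ℕ} (α β : Pat L) : row (ext (fun k : Fin L => alt k)) α =
    row (ext (fun k : Fin L => alt k)) β := by
  refine Pat.ext (funext (fun x => ?_))
  rw [Conv_key _ (Conv_row α) x, Conv_key _ (Conv_row β) x]

theorem sum_TT {L : ℕ} (v : V L) : ∑ α, TT v α = ∑ α, v α := by
  simp only [Conv_TT_apply]
  rw [← Finset.mul_sum, Finset.sum_comm]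
  simp only [sum_lin]
  rw [Finset.sum_const, Finset.card_univ, Conv_card, nsmul_eq_mul, Nat.cast_pow, Nat.cast_ofNat,
    inv_mul_cancel_left₀ (pow_ne_zero _ two_ne_zero)]

theorem TT_contr {L : ℕ} (v : V L) (h : ∑ α, v α = 0) :
    ∑ α, ‖TT v α‖ ≤ (1 - (2 : ℝ)⁻¹ ^ L) * ∑ α, ‖v α‖ := by
  have hz : ∀ α, lin (row (ext (fun k : Fin L => alt k))) v α = 0 := by
    intro α
    rw [lin_apply]
    have h1 : ∀ a : Pat L, (if row (ext (fun k : Fin L => alt k)) a = α then v a else 0) =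
        if row (ext (fun k : Fin L => alt k)) α = α then v a else 0 := by
      intro a
      rw [row_alt a α]
    simp only [h1]
    split_ifs
    · exact h
    · exact Finset.sum_const_zero
  have h2 : ∀ α, ‖TT v α‖ ≤ ((2 : ℝ) ^ L)⁻¹ * ∑ t : Fin L → Bool, ‖lin (row (ext t)) v α‖ := by
    intro α
    rw [Conv_TT_apply, norm_mul, norm_inv, norm_pow, Complex.norm_ofNat]
    exact mul_le_mul_of_nonneg_left (norm_sum_le _ _) (by positivity)
  refine (Finset.sum_le_sum (fun α _ => h2 α)).trans ?_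
  rw [← Finset.mul_sum, Finset.sum_comm]
  have h3 : ∀ t : Fin L → Bool, ∑ α, ‖lin (row (ext t)) v α‖ ≤
      (∑ α, ‖v α‖) - (if t = (fun k : Fin L => alt k) then ∑ α, ‖v α‖ else 0) := by
    intro t
    split_ifs with ht
    · rw [sub_self, ht]
      simp only [hz, norm_zero, Finset.sum_const_zero]
      exact le_rfl
    · rw [sub_zero]
      exact Conv_lin_norm _ v
  have h4 := Finset.sum_le_sum (fun (t : Fin L → Bool) (_ : t ∈ Finset.univ) => h3 t)
  rw [Finset.sum_sub_distrib, Finset.sum_const, Finset.sum_ite_eq', if_pos (Finset.mem_univ _), Finset.card_univ,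
    Conv_card, nsmul_eq_mul, Nat.cast_pow, Nat.cast_ofNat] at h4
  have h5 := mul_le_mul_of_nonneg_left h4 (by positivity : 0 ≤ ((2 : ℝ) ^ L)⁻¹)
  refine h5.trans (le_of_eq ?_)
  have h6 : ((2 : ℝ) ^ L)⁻¹ * (2 : ℝ) ^ L = 1 := inv_mul_cancel₀ (pow_ne_zero _ two_ne_zero)
  rw [inv_pow]
  linear_combination (∑ α, ‖v α‖) * h6

theorem TT_tendsto_zero {L : ℕ} (v : V L) (h : ∑ α, v α = 0) :
    Tendsto (fun m => (TT^[m]) v) atTop (𝓝 0) := by
  have hp : (0 : ℝ) < (2 : ℝ)⁻¹ ^ L := by positivity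
  have hp1 : (2 : ℝ)⁻¹ ^ L ≤ 1 := pow_le_one₀ (by norm_num) (by norm_num)
  have hc0 : (0 : ℝ) ≤ 1 - (2 : ℝ)⁻¹ ^ L := by linarith
  have hc1 : 1 - (2 : ℝ)⁻¹ ^ L < 1 := by linarith
  have hsum : ∀ m, ∑ α, (TT^[m]) v α = 0 := by
    intro m
    induction m with
    | zero => exact h
    | succ m ih => rw [Function.iterate_succ_apply', sum_TT, ih]
  have hb : ∀ m, ∑ α, ‖(TT^[m]) v α‖ ≤ (1 - (2 : ℝ)⁻¹ ^ L) ^ m * ∑ α, ‖v α‖ := by
    intro m
    induction m with
    | zero =>
      rw [pow_zero, one_mul]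
      exact le_rfl
    | succ m ih =>
      rw [Function.iterate_succ_apply']
      refine (TT_contr _ (hsum m)).trans ?_
      rw [pow_succ', mul_assoc]
      exact mul_le_mul_of_nonneg_left ih hc0
  rw [tendsto_pi_nhds]
  intro α
  rw [Pi.zero_apply, tendsto_zero_iff_norm_tendsto_zero]
  refine squeeze_zero (fun m => norm_nonneg _) (fun m => (Finset.single_le_sum (f := fun α => ‖(TT^[m]) v α‖)
    (fun a _ => norm_nonneg _) (Finset.mem_univ α)).trans (hb m)) ?_
  have h9 := (tendsto_pow_atTop_nhds_zero_of_lt_one hc0 hc1).mul_const (∑ α, ‖v α‖)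
  rwa [zero_mul] at h9

section

variable {q : ℂ} (hq : q ^ 2 + q + 1 = 0) {L : ℕ} (hL : 0 < L) (hE : Even L)
  {P : Pat L → MvPolynomial ℕ ℂ} (hP : IsPsi q L P)
include hq hL hE hP

theorem hom_ne_zero : ev P (fun _ => 1) ≠ 0 := by
  intro h0
  obtain ⟨α, hα⟩ := exists_ref hE hL
  have h1 := hP.ref (fun _ => 1) α hα
  rw [h0, Pi.zero_apply] at h1
  have h2 : F q 1 1 ≠ 0 := by
    intro h3
    unfold F at h3
    have h4 : (3 : ℂ) = 0 := by
      linear_combination 4 * hq - ((q ^ 2 + q + 1) + (q * 1 - q ^ 2 * 1)) * (hq + h3)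
    exact absurd h4 (by norm_num)
  exact (Finset.prod_ne_zero_iff.2 (fun i _ => Finset.prod_ne_zero_iff.2 (fun j _ => h2))) h1.symm

theorem hom_sum_ne_zero : ∑ α, ev P (fun _ => 1) α ≠ 0 := by
  intro h0
  have h1 := TT_tendsto_zero _ h0
  have h2 : ∀ m, (TT^[m]) (ev P (fun _ => 1)) = ev P (fun _ => 1) := by
    intro m
    exact Function.iterate_fixed (row_fixed hq hL hE hP) m
  simp only [h2] at h1
  exact hom_ne_zero hq hL hE hP (tendsto_nhds_unique tendsto_const_nhds h1)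

/-- convergence to the stationary distribution -/
theorem TT_conv (v : V L) (h : ∑ α, v α = 1) :
    Tendsto (fun m => (TT^[m]) v) atTop (𝓝 ((∑ α, ev P (fun _ => 1) α)⁻¹ • ev P (fun _ => 1))) := by
  have hS := hom_sum_ne_zero hq hL hE hP
  have hfix : TT ((∑ α, ev P (fun _ => 1) α)⁻¹ • ev P (fun _ => 1)) =
      (∑ α, ev P (fun _ => 1) α)⁻¹ • ev P (fun _ => 1) := by
    rw [map_smul, row_fixed hq hL hE hP]
  have hw : ∑ α, (v - (∑ α, ev P (fun _ => 1) α)⁻¹ • ev P (fun _ => 1)) α = 0 := by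
    simp only [Pi.sub_apply, Pi.smul_apply, smul_eq_mul]
    rw [Finset.sum_sub_distrib, ← Finset.mul_sum, inv_mul_cancel₀ hS, h, sub_self]
  have h1 := TT_tendsto_zero _ hw
  have h2 : ∀ m, (TT^[m]) v = (TT^[m]) (v - (∑ α, ev P (fun _ => 1) α)⁻¹ • ev P (fun _ => 1)) +
      (∑ α, ev P (fun _ => 1) α)⁻¹ • ev P (fun _ => 1) := by
    intro m
    rw [iterate_map_sub, Function.iterate_fixed hfix m, sub_add_cancel]
  have h3 := h1.add_const ((∑ α, ev P (fun _ => 1) α)⁻¹ • ev P (fun _ => 1))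
  rw [zero_add] at h3
  exact h3.congr (fun m => (h2 m).symm)

end

end CY
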