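import Pool.Agent.Lib.MP_216314_pr.Z.PatA

/-!
# Rotation of patterns
-/

set_option autoImplicit false

noncomputable section

namespace CY

open Finset

namespace Pat

variable {L : ℕ}

/-- rotation: the site `i` goes to `i - 1` -/
def rot (α : Pat L) : Pat L where
  f x := α.f (x + 1) - 1
  pos := α.pos
  inv x := by
    rw [sub_add_cancel, α.inv]
    ring
  per x := by
    rw [show x + (L : ℤ) + 1 = x + 1 + (L : ℤ) by ring, α.per]
    ring
  ne x := by
    intro h
    exact α.ne (x + 1) (by linarith)
  nc x y h1 h2 := by
    have h := α.nc (x + 1) (y + 1) (by linarith) (by linarith)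
    exact ⟨by linarith [h.1], by linarith [h.2]⟩

/-- inverse rotation: the site `i` goes to `i + 1` -/
def rotInv (α : Pat L) : Pat L where
  f x := α.f (x - 1) + 1
  pos := α.pos
  inv x := by
    rw [add_sub_cancel_right, α.inv]
    ring
  per x := by
    rw [show x + (L : ℤ) - 1 = x - 1 + (L : ℤ) by ring, α.per]
    ring
  ne x := by
    intro h
    exact α.ne (x - 1) (by linarith)
  nc x y h1 h2 := by
    have h := α.nc (x - 1) (y - 1) (by linarith) (by linarith)
    exact ⟨by linarith [h.1], by linarith [h.2]⟩

theorem rot_rotInv (α : Pat L) : rot (rotInv α) = α := by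
  apply Pat.ext
  funext x
  show α.f (x + 1 - 1) + 1 - 1 = α.f x
  rw [add_sub_cancel_right, add_sub_cancel_right]

theorem rotInv_rot (α : Pat L) : rotInv (rot α) = α := by
  apply Pat.ext
  funext x
  show α.f (x - 1 + 1) - 1 + 1 = α.f x
  rw [sub_add_cancel, sub_add_cancel]

theorem PatR_iter (α : Pat L) (n : ℕ) (x : ℤ) : (rot^[n] α).f x = α.f (x + n) - n := by
  induction n generalizing x with
  | zero =>
    rw [Function.iterate_zero, id_eq, Nat.cast_zero, add_zero, sub_zero]
  | succ n ih =>
    rw [Function.iterate_succ_apply']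
    show (rot^[n] α).f (x + 1) - 1 = _
    rw [ih, Nat.cast_succ, show x + 1 + (n : ℤ) = x + ((n : ℤ) + 1) by ring]
    ring

/-- rotation by the period is the identity -/
theorem rot_iterate (α : Pat L) : rot^[L] α = α := by
  apply Pat.ext
  funext x
  rw [PatR_iter, α.per]
  ring

end Pat

end CY
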