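import Pool.Agent.Lib.MP_216314_pr.Z.PatE
import Pool.Agent.Lib.MP_216314_pr.Z.PatR

/-!
# Temperley-Lieb relations for the action on patterns

All proofs: extensionality (`Pat.ext`, `funext`), then evaluate both sides at `x`. It is convenient to prove first the four
evaluation rules for `(e i α).f x` (x ≡ i; x ≡ i+1; partner ≡ i or i+1; otherwise) and to use periodicity to move
everything to the representatives `i`, `i+1`, `i+2` themselves.
-/

set_option autoImplicit false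

noncomputable section

namespace CY

open Finset

namespace Pat

variable {L : ℕ} (α : Pat L)

theorem RelA_two (α : Pat L) : (2 : ℤ) ≤ L := by exact_mod_cast α.two_le

theorem RelA_one (α : Pat L) : ¬ (L : ℤ) ∣ 1 := by
  intro h
  have h1 := Int.le_of_dvd one_pos h
  have h2 := RelA_two α
  omega

theorem e_of_dvd (i x : ℤ) (h : (L : ℤ) ∣ x - i) : (e i α).f x = x + 1 := by
  rw [e_f, eFun, if_pos h]

theorem e_of_dvd' (i x : ℤ) (h : (L : ℤ) ∣ x - i - 1) : (e i α).f x = x - 1 := by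
  have h1 : ¬ (L : ℤ) ∣ x - i := by
    intro h2
    apply RelA_one α
    have h3 := dvd_sub h2 h
    rw [sub_sub_cancel] at h3
    exact h3
  rw [e_f, eFun, if_neg h1, if_pos h]

theorem e_of_partner (i x : ℤ) (h1 : ¬ (L : ℤ) ∣ x - i) (h2 : ¬ (L : ℤ) ∣ x - i - 1)
    (h : (L : ℤ) ∣ α.f x - i) : (e i α).f x = α.f (α.f x + 1) := by
  rw [e_f, eFun, if_neg h1, if_neg h2, if_pos h]

theorem e_of_partner' (i x : ℤ) (h1 : ¬ (L : ℤ) ∣ x - i) (h2 : ¬ (L : ℤ) ∣ x - i - 1)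
    (h : (L : ℤ) ∣ α.f x - i - 1) : (e i α).f x = α.f (α.f x - 1) := by
  have h3 : ¬ (L : ℤ) ∣ α.f x - i := by
    intro h4
    apply RelA_one α
    have h5 := dvd_sub h4 h
    rw [sub_sub_cancel] at h5
    exact h5
  rw [e_f, eFun, if_neg h1, if_neg h2, if_neg h3, if_pos h]

theorem e_of_not (i x : ℤ) (h1 : ¬ (L : ℤ) ∣ x - i) (h2 : ¬ (L : ℤ) ∣ x - i - 1)
    (h3 : ¬ (L : ℤ) ∣ α.f x - i) (h4 : ¬ (L : ℤ) ∣ α.f x - i - 1) : (e i α).f x = α.f x := by
  rw [e_f, eFun, if_neg h1, if_neg h2, if_neg h3, if_neg h4]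

/-- congruent sites -/
theorem RelA_dvd {x y : ℤ} (h : (L : ℤ) ∣ x - y) : ∃ k : ℤ, x = y + k * L := by
  obtain ⟨k, hk⟩ := h
  exact ⟨k, by linarith [mul_comm (L : ℤ) k]⟩

theorem RelA_dvd1 {x y : ℤ} (h : (L : ℤ) ∣ x - y - 1) : ∃ k : ℤ, x = y + 1 + k * L := by
  obtain ⟨k, hk⟩ := h
  exact ⟨k, by linarith [mul_comm (L : ℤ) k]⟩

/-- the partner of a site congruent to `y` -/
theorem RelA_inv {x y : ℤ} (k : ℤ) (h : α.f x = y + k * L) : x = α.f y + k * L := by
  rw [← α.per_mul, ← h, α.inv]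

/-- if the small arc is already there, nothing changes -/
theorem e_of_small (i : ℤ) (h : α.f i = i + 1) : e i α = α := by
  have h' : α.f (i + 1) = i := by rw [← h, α.inv]
  apply Pat.ext
  funext x
  by_cases h1 : (L : ℤ) ∣ x - i
  · rw [e_of_dvd α i x h1]
    obtain ⟨k, rfl⟩ := RelA_dvd h1
    rw [α.per_mul, h]
    ring
  by_cases h2 : (L : ℤ) ∣ x - i - 1
  · rw [e_of_dvd' α i x h2]
    obtain ⟨k, rfl⟩ := RelA_dvd1 h2
    rw [α.per_mul, h']
    ring
  refine e_of_not α i x h1 h2 ?_ ?_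
  · intro h3
    obtain ⟨k, hk⟩ := RelA_dvd h3
    apply h2
    rw [RelA_inv α k hk, h]
    exact ⟨k, by ring⟩
  · intro h3
    obtain ⟨k, hk⟩ := RelA_dvd1 h3
    apply h1
    rw [RelA_inv α k hk, h']
    exact ⟨k, by ring⟩

/-- if `i` and `i+1` are joined around the cylinder, only this pair changes -/
theorem e_of_around (i x : ℤ) (h : α.f i = i + 1 - L) (h1 : ¬ (L : ℤ) ∣ x - i)
    (h2 : ¬ (L : ℤ) ∣ x - i - 1) : (e i α).f x = α.f x := by
  have h' : α.f (i + 1) = i + L := by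
    have h3 := α.per (α.f i)
    rw [α.inv, h] at h3
    rw [← h3]
    congr 1
    ring
  refine e_of_not α i x h1 h2 ?_ ?_
  · intro h3
    obtain ⟨k, hk⟩ := RelA_dvd h3
    apply h2
    rw [RelA_inv α k hk, h]
    exact ⟨k - 1, by ring⟩
  · intro h3
    obtain ⟨k, hk⟩ := RelA_dvd1 h3
    apply h1
    rw [RelA_inv α k hk, h']
    exact ⟨k + 1, by ring⟩

theorem e_add_period (i : ℤ) : e (i + L) α = e i α := by
  have h1 : ∀ y : ℤ, ((L : ℤ) ∣ y - (i + L)) = ((L : ℤ) ∣ y - i) := by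
    intro y
    rw [← sub_sub, dvd_sub_self_right]
  have h2 : ∀ y : ℤ, ((L : ℤ) ∣ y - (i + L) - 1) = ((L : ℤ) ∣ y - i - 1) := by
    intro y
    have h3 : y - (i + L) - 1 = y - i - 1 - L := by ring
    rw [h3, dvd_sub_self_right]
  apply Pat.ext
  funext x
  rw [e_f, e_f]
  unfold eFun
  simp only [h1, h2]

theorem e_idem (i : ℤ) : e i (e i α) = e i α := e_of_small _ i (e_left α i)

theorem RelA_nd {a : ℤ} (h : 2 < L) (h1 : a = 1 ∨ a = -1 ∨ a = 2 ∨ a = -2) : ¬ (L : ℤ) ∣ a := by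
  intro h2
  have h3 : (L : ℤ) ∣ 1 ∨ (L : ℤ) ∣ 2 := by
    rcases h1 with rfl | rfl | rfl | rfl
    · exact Or.inl h2
    · exact Or.inl (by rwa [← dvd_neg])
    · exact Or.inr h2
    · exact Or.inr (by rwa [← dvd_neg])
  rcases h3 with h3 | h3
  · have := Int.le_of_dvd one_pos h3
    omega
  · have := Int.le_of_dvd two_pos h3
    omega

theorem e_braid (h : 2 < L) (i : ℤ) : e i (e (i + 1) (e i α)) = e i α := by
  set γ := e i α with hγ
  set δ := e (i + 1) γ with hδ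
  have g1 : γ.f i = i + 1 := e_left α i
  have g2 : γ.f (i + 1) = i := e_right α i
  have d1 : δ.f (i + 1) = i + 2 := by rw [hδ, e_left]; ring
  have d2 : δ.f (i + 2) = i + 1 := by
    have := e_right γ (i + 1)
    rw [← hδ] at this
    rw [← this]
    congr 1
    ring
  have d0 : δ.f i = γ.f (i + 2) := by
    rw [hδ, e_of_partner γ (i + 1) i, g1]
    · congr 1
      ring
    · exact RelA_nd h (Or.inr (Or.inl (by ring)))
    · exact RelA_nd h (Or.inr (Or.inr (Or.inr (by ring))))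
    · rw [g1]
      exact ⟨0, by ring⟩
  apply Pat.ext
  funext x
  by_cases h1 : (L : ℤ) ∣ x - i
  · rw [e_of_dvd δ i x h1]
    obtain ⟨k, rfl⟩ := RelA_dvd h1
    rw [γ.per_mul, g1]
    ring
  by_cases h2 : (L : ℤ) ∣ x - i - 1
  · rw [e_of_dvd' δ i x h2]
    obtain ⟨k, rfl⟩ := RelA_dvd1 h2
    rw [γ.per_mul, g2]
    ring
  by_cases h3 : (L : ℤ) ∣ δ.f x - i
  · rw [e_of_partner δ i x h1 h2 h3]
    obtain ⟨k, hk⟩ := RelA_dvd h3
    have hx := RelA_inv δ k hk
    have e1 : δ.f x + 1 = i + 1 + k * L := by rw [hk]; ring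
    rw [e1, δ.per_mul, d1]
    have e2 : γ.f x = i + 2 + k * L := by
      rw [hx, d0, γ.per_mul, γ.inv]
    rw [e2]
  by_cases h4 : (L : ℤ) ∣ δ.f x - i - 1
  · rw [e_of_partner' δ i x h1 h2 h4]
    obtain ⟨k, hk⟩ := RelA_dvd1 h4
    have hx := RelA_inv δ k hk
    have e1 : δ.f x - 1 = i + k * L := by rw [hk]; ring
    rw [e1, δ.per_mul, d0, hx, d1, γ.per_mul]
  · rw [e_of_not δ i x h1 h2 h3 h4]
    refine e_of_not γ (i + 1) x ?_ ?_ ?_ ?_
    · rw [← sub_sub]
      exact h2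
    · intro h5
      obtain ⟨k, hk⟩ := RelA_dvd1 h5
      apply h4
      have e1 : x = i + 2 + k * L := by rw [hk]; ring
      rw [e1, δ.per_mul, d2]
      exact ⟨k, by ring⟩
    · intro h5
      obtain ⟨k, hk⟩ := RelA_dvd h5
      apply h1
      rw [RelA_inv γ k hk, g2]
      exact ⟨k, by ring⟩
    · intro h5
      obtain ⟨k, hk⟩ := RelA_dvd1 h5
      apply h3
      have e1 : γ.f x = i + 2 + k * L := by rw [hk]; ring
      rw [RelA_inv γ k e1, ← d0, δ.per_mul, δ.inv]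
      exact ⟨k, by ring⟩

theorem e_braid' (h : 2 < L) (i : ℤ) : e (i + 1) (e i (e (i + 1) α)) = e (i + 1) α := by
  set γ := e (i + 1) α with hγ
  set δ := e i γ with hδ
  have g1 : γ.f (i + 1) = i + 2 := by rw [hγ, e_left]; ring
  have g2 : γ.f (i + 2) = i + 1 := by
    have := e_right α (i + 1)
    rw [← hγ] at this
    rw [← this]
    congr 1
    ring
  have d1 : δ.f i = i + 1 := e_left γ i
  have d2 : δ.f (i + 1) = i := e_right γ i
  have d0 : δ.f (i + 2) = γ.f i := by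
    rw [hδ, e_of_partner' γ i (i + 2), g2]
    · congr 1
      ring
    · exact RelA_nd h (Or.inr (Or.inr (Or.inl (by ring))))
    · exact RelA_nd h (Or.inl (by ring))
    · rw [g2]
      exact ⟨0, by ring⟩
  apply Pat.ext
  funext x
  by_cases h1 : (L : ℤ) ∣ x - (i + 1)
  · rw [e_of_dvd δ (i + 1) x h1]
    obtain ⟨k, rfl⟩ := RelA_dvd h1
    rw [γ.per_mul, g1]
    ring
  by_cases h2 : (L : ℤ) ∣ x - (i + 1) - 1
  · rw [e_of_dvd' δ (i + 1) x h2]
    obtain ⟨k, hk⟩ := RelA_dvd1 h2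
    have e1 : x = i + 2 + k * L := by rw [hk]; ring
    rw [e1, γ.per_mul, g2]
    ring
  by_cases h3 : (L : ℤ) ∣ δ.f x - (i + 1)
  · rw [e_of_partner δ (i + 1) x h1 h2 h3]
    obtain ⟨k, hk⟩ := RelA_dvd h3
    have hx := RelA_inv δ k hk
    have e1 : δ.f x + 1 = i + 2 + k * L := by rw [hk]; ring
    rw [e1, δ.per_mul, d0, hx, d2, γ.per_mul]
  by_cases h4 : (L : ℤ) ∣ δ.f x - (i + 1) - 1
  · rw [e_of_partner' δ (i + 1) x h1 h2 h4]
    obtain ⟨k, hk⟩ := RelA_dvd1 h4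
    have hk' : δ.f x = i + 2 + k * L := by rw [hk]; ring
    have hx := RelA_inv δ k hk'
    have e1 : δ.f x - 1 = i + 1 + k * L := by rw [hk]; ring
    rw [e1, δ.per_mul, d2, hx, d0, γ.per_mul, γ.inv]
  · rw [e_of_not δ (i + 1) x h1 h2 h3 h4]
    refine e_of_not γ i x ?_ ?_ ?_ ?_
    · intro h5
      obtain ⟨k, hk⟩ := RelA_dvd h5
      apply h3
      rw [hk, δ.per_mul, d1]
      exact ⟨k, by ring⟩
    · rw [sub_sub]
      exact h1
    · intro h5
      obtain ⟨k, hk⟩ := RelA_dvd h5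
      apply h4
      rw [RelA_inv γ k hk, ← d0, δ.per_mul, δ.inv]
      exact ⟨k, by ring⟩
    · intro h5
      obtain ⟨k, hk⟩ := RelA_dvd1 h5
      apply h2
      rw [RelA_inv γ k hk, g1]
      exact ⟨k, by ring⟩

/-- the sites congruent to `i` or `i + 1` -/
def RelA_In (L : ℕ) (i x : ℤ) : Prop := (L : ℤ) ∣ x - i ∨ (L : ℤ) ∣ x - i - 1

open Classical in
/-- the neighbour -/
def RelA_nb (L : ℕ) (i x : ℤ) : ℤ := if (L : ℤ) ∣ x - i then x + 1 else x - 1

theorem RelA_e_in {i x : ℤ} (h : RelA_In L i x) : (e i α).f x = RelA_nb L i x := by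
  unfold RelA_nb
  by_cases h1 : (L : ℤ) ∣ x - i
  · rw [if_pos h1, e_of_dvd α i x h1]
  · rw [if_neg h1, e_of_dvd' α i x (h.resolve_left h1)]

theorem RelA_e_par {i x : ℤ} (h : ¬ RelA_In L i x) (h' : RelA_In L i (α.f x)) :
    (e i α).f x = α.f (RelA_nb L i (α.f x)) := by
  unfold RelA_nb
  unfold RelA_In at h
  push Not at h
  by_cases h1 : (L : ℤ) ∣ α.f x - i
  · rw [if_pos h1, e_of_partner α i x h.1 h.2 h1]
  · rw [if_neg h1, e_of_partner' α i x h.1 h.2 (h'.resolve_left h1)]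

theorem RelA_e_out {i x : ℤ} (h : ¬ RelA_In L i x) (h' : ¬ RelA_In L i (α.f x)) :
    (e i α).f x = α.f x := by
  unfold RelA_In at h h'
  push Not at h h'
  exact e_of_not α i x h.1 h.2 h'.1 h'.2

theorem RelA_nb_in {i x : ℤ} (h : RelA_In L i x) : RelA_In L i (RelA_nb L i x) := by
  unfold RelA_nb
  by_cases h1 : (L : ℤ) ∣ x - i
  · rw [if_pos h1]
    right
    have h2 : x + 1 - i - 1 = x - i := by ring
    rw [h2]
    exact h1
  · rw [if_neg h1]
    left
    have h2 : x - 1 - i = x - i - 1 := by ring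
    rw [h2]
    exact h.resolve_left h1

/-- two sites of a pair -/
theorem RelA_pair {i x y : ℤ} (h : RelA_In L i x) (h' : RelA_In L i y) :
    (∃ k : ℤ, y = x + k * L) ∨ ∃ k : ℤ, y = RelA_nb L i x + k * L := by
  unfold RelA_nb
  by_cases h1 : (L : ℤ) ∣ x - i
  · rw [if_pos h1]
    obtain ⟨k, hk⟩ := RelA_dvd h1
    rcases h' with h' | h'
    · obtain ⟨m, hm⟩ := RelA_dvd h'
      exact Or.inl ⟨m - k, by rw [hk, hm]; ring⟩
    · obtain ⟨m, hm⟩ := RelA_dvd1 h'
      exact Or.inr ⟨m - k, by rw [hk, hm]; ring⟩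
  · rw [if_neg h1]
    obtain ⟨k, hk⟩ := RelA_dvd1 (h.resolve_left h1)
    rcases h' with h' | h'
    · obtain ⟨m, hm⟩ := RelA_dvd h'
      exact Or.inr ⟨m - k, by rw [hk, hm]; ring⟩
    · obtain ⟨m, hm⟩ := RelA_dvd1 h'
      exact Or.inl ⟨m - k, by rw [hk, hm]; ring⟩

theorem RelA_In_add {i x : ℤ} (k : ℤ) (h : RelA_In L i (x + k * L)) : RelA_In L i x := by
  rcases h with h | h
  · left
    have h1 : x - i = (x + k * L - i) - L * k := by ring
    rw [h1]
    exact dvd_sub h ⟨k, rfl⟩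
  · right
    have h1 : x - i - 1 = (x + k * L - i - 1) - L * k := by ring
    rw [h1]
    exact dvd_sub h ⟨k, rfl⟩

theorem RelA_disj {i j : ℤ} (h1 : ¬ (L : ℤ) ∣ i - j) (h2 : ¬ (L : ℤ) ∣ i - j - 1)
    (h3 : ¬ (L : ℤ) ∣ i - j + 1) {x : ℤ} (h : RelA_In L i x) : ¬ RelA_In L j x := by
  intro h'
  rcases h with h | h <;> rcases h' with h' | h'
  · apply h1
    have e1 : i - j = (x - j) - (x - i) := by ring
    rw [e1]
    exact dvd_sub h' h
  · apply h2
    have e1 : i - j - 1 = (x - j - 1) - (x - i) := by ring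
    rw [e1]
    exact dvd_sub h' h
  · apply h3
    have e1 : i - j + 1 = (x - j) - (x - i - 1) := by ring
    rw [e1]
    exact dvd_sub h' h
  · apply h1
    have e1 : i - j = (x - j - 1) - (x - i - 1) := by ring
    rw [e1]
    exact dvd_sub h' h

/-- the case of a site in the pair `i` -/
theorem RelA_comm1 {i j x : ℤ} (hij : ∀ y, RelA_In L i y → ¬ RelA_In L j y) (h : RelA_In L i x) :
    (e i (e j α)).f x = (e j (e i α)).f x := by
  have h1 : (e i α).f x = RelA_nb L i x := RelA_e_in α h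
  rw [RelA_e_in (e j α) h, RelA_e_out (e i α) (hij x h), h1]
  rw [h1]
  exact hij _ (RelA_nb_in h)

/-- the case of a site with partner in the pair `j` -/
theorem RelA_comm2 {i j x : ℤ} (hij : ∀ y, RelA_In L i y → ¬ RelA_In L j y)
    (hji : ∀ y, RelA_In L j y → ¬ RelA_In L i y) (hi : ¬ RelA_In L i x) (hj : ¬ RelA_In L j x)
    (h : RelA_In L j (α.f x)) : (e i (e j α)).f x = (e j (e i α)).f x := by
  set u' := RelA_nb L j (α.f x) with hu'
  have hu1 : RelA_In L j u' := RelA_nb_in h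
  have hb : (e j α).f x = α.f u' := RelA_e_par α hj h
  have hg : (e i α).f x = α.f x := RelA_e_out α hi (hji _ h)
  have hR : (e j (e i α)).f x = (e i α).f u' := by
    have h1 : RelA_In L j ((e i α).f x) := by rw [hg]; exact h
    rw [RelA_e_par (e i α) hj h1, hg]
  rw [hR]
  by_cases hw : RelA_In L i (α.f u')
  · have h1 : RelA_In L i ((e j α).f x) := by rw [hb]; exact hw
    rw [RelA_e_par (e j α) hi h1, hb, RelA_e_par α (hji _ hu1) hw]
    refine RelA_e_out α (hij _ (RelA_nb_in hw)) ?_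
    intro h2
    rcases RelA_pair h h2 with ⟨k, hk⟩ | ⟨k, hk⟩
    · have h3 := RelA_inv α k hk
      rw [α.inv] at h3
      apply hi
      refine RelA_In_add k ?_
      rw [← h3]
      exact RelA_nb_in hw
    · rw [← hu'] at hk
      have h3 := RelA_inv α k hk
      apply RelA_one α
      have h4 : RelA_nb L i (α.f u') - α.f u' = k * L := by
        conv_lhs => rw [h3]
        ring
      unfold RelA_nb at h4
      split_ifs at h4
      · exact ⟨k, by linarith [mul_comm k (L : ℤ)]⟩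
      · exact ⟨-k, by linarith [mul_comm k (L : ℤ), neg_mul k (L : ℤ), mul_neg (L : ℤ) k]⟩
  · have h1 : ¬ RelA_In L i ((e j α).f x) := by rw [hb]; exact hw
    rw [RelA_e_out (e j α) hi h1, hb, RelA_e_out α (hji _ hu1) hw]

theorem e_comm (i j : ℤ) (h1 : ¬ (L : ℤ) ∣ i - j) (h2 : ¬ (L : ℤ) ∣ i - j - 1)
    (h3 : ¬ (L : ℤ) ∣ i - j + 1) : e i (e j α) = e j (e i α) := by
  have hij : ∀ y, RelA_In L i y → ¬ RelA_In L j y := fun y hy => RelA_disj h1 h2 h3 hy
  have hji : ∀ y, RelA_In L j y → ¬ RelA_In L i y := fun y hy hy' => hij y hy' hy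
  apply Pat.ext
  funext x
  by_cases a1 : RelA_In L i x
  · exact RelA_comm1 α hij a1
  by_cases a2 : RelA_In L j x
  · exact (RelA_comm1 α hji a2).symm
  by_cases a3 : RelA_In L j (α.f x)
  · exact RelA_comm2 α hij hji a1 a2 a3
  by_cases a4 : RelA_In L i (α.f x)
  · exact (RelA_comm2 α hji hij a2 a1 a4).symm
  · have b1 : (e j α).f x = α.f x := RelA_e_out α a2 a3
    have b2 : (e i α).f x = α.f x := RelA_e_out α a1 a4
    rw [RelA_e_out (e j α) a1 (by rw [b1]; exact a4), RelA_e_out (e i α) a2 (by rw [b2]; exact a3), b1, b2]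

theorem rot_e (i : ℤ) : rot (e i α) = e (i - 1) (rot α) := by
  apply Pat.ext
  funext x
  show eFun L i α.f (x + 1) - 1 = eFun L (i - 1) (fun y => α.f (y + 1) - 1) x
  unfold eFun
  have e1 : x - (i - 1) = x + 1 - i := by ring
  have e2 : α.f (x + 1) - 1 - (i - 1) = α.f (x + 1) - i := by ring
  have e3 : α.f (x + 1) - 1 + 1 + 1 = α.f (x + 1) + 1 := by ring
  have e4 : α.f (x + 1) - 1 - 1 + 1 = α.f (x + 1) - 1 := by ring
  beta_reduce
  rw [e1, e2, e3, e4]
  split_ifs <;> ring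

theorem rotInv_e (i : ℤ) : rotInv (e i α) = e (i + 1) (rotInv α) := by
  have h1 := rot_e (rotInv α) (i + 1)
  rw [rot_rotInv, add_sub_cancel_right] at h1
  rw [← h1, rotInv_rot]

end Pat

end CY
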