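import Pool.Agent.Lib.MP_216314_pr.Z.PatI
import Pool.Agent.Lib.MP_216314_pr.Z.RelA

/-!
# Insertion and monoids

`ins i α` on the sites `up i k` is `up i (α k)`; on `i`, `i+1` it is the small arc.
`e_ins_succ`: with `y = up i i = i + 2` (the old site `i`), `ins (i+1) α` differs from `ins i α` only by the position of the
old sites `k ≡ i (mod L)`: `up (i+1) k = up i k - 2` (`up_succ_of_dvd`).
-/

set_option autoImplicit false

noncomputable section

namespace CY

open Finset

namespace Pat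

variable {L : ℕ} (α : Pat L)

theorem RelB_one (α : Pat L) : ¬ (L : ℤ) ∣ 1 := by
  intro h
  have h1 := Int.le_of_dvd one_pos h
  have h2 : (2 : ℤ) ≤ L := by exact_mod_cast α.two_le
  omega

theorem RelB_dvd {N : ℕ} {x y : ℤ} (h : (N : ℤ) ∣ x - y) : ∃ k : ℤ, x = y + k * N := by
  obtain ⟨k, hk⟩ := h
  exact ⟨k, by linarith [mul_comm (N : ℤ) k]⟩

theorem RelB_dvd1 {N : ℕ} {x y : ℤ} (h : (N : ℤ) ∣ x - y - 1) : ∃ k : ℤ, x = y + 1 + k * N := by
  obtain ⟨k, hk⟩ := h
  exact ⟨k, by linarith [mul_comm (N : ℤ) k]⟩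

/-- the partner of a site congruent to `y` -/
theorem RelB_inv {x y : ℤ} (k : ℤ) (h : α.f x = y + k * L) : x = α.f y + k * L := by
  rw [← α.per_mul, ← h, α.inv]

theorem RelB_cast : ((L + 2 : ℕ) : ℤ) = (L : ℤ) + 2 := by push_cast; ring

theorem RelB_up_mul (hL : 0 < L) (i k a : ℤ) : up L i (k + a * L) = up L i k + a * ((L + 2 : ℕ) : ℤ) := by
  have h0 : (L : ℤ) ≠ 0 := by exact_mod_cast hL.ne'
  unfold up
  have h1 : k + a * L - i = (k - i) + a * L := by ring
  rw [h1, Int.add_mul_ediv_right _ _ h0]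
  push_cast
  ring

theorem RelB_nl (hL : 0 < L) (i k : ℤ) : ¬ ((L + 2 : ℕ) : ℤ) ∣ up L i k - i := by
  rw [RelB_cast]
  exact up_not_left hL i k

theorem RelB_nr (hL : 0 < L) (i k : ℤ) : ¬ ((L + 2 : ℕ) : ℤ) ∣ up L i k - i - 1 := by
  rw [RelB_cast]
  exact up_not_right hL i k

/-- every site is in the new pair or an old site -/
theorem RelB_cases (hL : 0 < L) (i x : ℤ) : ((L + 2 : ℕ) : ℤ) ∣ x - i ∨ ((L + 2 : ℕ) : ℤ) ∣ x - i - 1 ∨
    ∃ k, x = up L i k := by
  by_cases h1 : ((L + 2 : ℕ) : ℤ) ∣ x - i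
  · exact Or.inl h1
  by_cases h2 : ((L + 2 : ℕ) : ℤ) ∣ x - i - 1
  · exact Or.inr (Or.inl h2)
  refine Or.inr (Or.inr ⟨dn L i x, ?_⟩)
  rw [RelB_cast] at h1 h2
  exact (up_dn hL i x h1 h2).symm

theorem RelB_ins_dvd (i x : ℤ) (h : ((L + 2 : ℕ) : ℤ) ∣ x - i) : (ins i α).f x = x + 1 := by
  obtain ⟨k, rfl⟩ := RelB_dvd h
  rw [(ins i α).per_mul, ins_left]
  ring

theorem RelB_ins_dvd1 (i x : ℤ) (h : ((L + 2 : ℕ) : ℤ) ∣ x - i - 1) : (ins i α).f x = x - 1 := by
  obtain ⟨k, rfl⟩ := RelB_dvd1 h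
  rw [(ins i α).per_mul, ins_right]
  ring

/-- the partner of a site congruent to `i` is not congruent to `i` -/
theorem RelB_nself {i k : ℤ} (h : (L : ℤ) ∣ k - i) : ¬ (L : ℤ) ∣ α.f k - i := by
  intro h1
  apply α.not_dvd_self k
  have h2 : α.f k - k = (α.f k - i) - (k - i) := by ring
  rw [h2]
  exact dvd_sub h1 h

theorem e_ins (i : ℤ) : e i (ins i α) = ins i α := e_of_small _ i (ins_left α i)

/-- `e_{i+1} ι_i = ι_{i+1}` -/
theorem e_ins_right (i : ℤ) : e (i + 1) (ins i α) = ins (i + 1) α := by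
  have hL : 0 < L := α.pos
  set β := ins i α with hβ
  apply Pat.ext
  funext x
  rcases RelB_cases hL (i + 1) x with h1 | h1 | ⟨k, rfl⟩
  · rw [e_of_dvd β _ _ h1, RelB_ins_dvd α _ _ h1]
  · rw [e_of_dvd' β _ _ h1, RelB_ins_dvd1 α _ _ h1]
  · rw [ins_up]
    have n1 := RelB_nl hL (i + 1) k
    have n2 := RelB_nr hL (i + 1) k
    by_cases hk : (L : ℤ) ∣ k - i
    · have hak := RelB_nself α hk
      have u1 := up_succ_of_dvd hL i k hk
      obtain ⟨m, hm⟩ := RelB_dvd hk
      have u2 : up L i k = i + 2 + m * ((L + 2 : ℕ) : ℤ) := by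
        rw [hm, RelB_up_mul hL, up_self]
      have b1 : β.f (up L (i + 1) k) = up L (i + 1) k + 1 := by
        rw [hβ]
        refine RelB_ins_dvd α i _ ?_
        rw [u1, u2]
        exact ⟨m, by ring⟩
      rw [e_of_partner β (i + 1) _ n1 n2, b1, u1]
      · have h3 : up L i k - 2 + 1 + 1 = up L i k := by ring
        rw [h3, hβ, ins_up, up_succ_of_not hL i _ hak]
      · rw [b1, u1, u2]
        exact ⟨m, by ring⟩
    · have u1 := up_succ_of_not hL i k hk
      have b1 : β.f (up L (i + 1) k) = up L i (α.f k) := by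
        rw [u1, hβ, ins_up]
      by_cases hak : (L : ℤ) ∣ α.f k - i
      · obtain ⟨m, hm⟩ := RelB_dvd hak
        have u2 : up L i (α.f k) = i + 2 + m * ((L + 2 : ℕ) : ℤ) := by
          rw [hm, RelB_up_mul hL, up_self]
        rw [e_of_partner' β (i + 1) _ n1 n2, b1, up_succ_of_dvd hL i _ hak]
        · have h3 : β.f (up L i (α.f k) - 1) = up L i (α.f k) - 1 - 1 := by
            rw [hβ]
            refine RelB_ins_dvd1 α i _ ?_
            rw [u2]
            exact ⟨m, by ring⟩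
          rw [h3]
          ring
        · rw [b1, u2]
          exact ⟨m, by ring⟩
      · have u3 := up_succ_of_not hL i (α.f k) hak
        rw [e_of_not β (i + 1) _ n1 n2, b1, u3]
        · rw [b1, ← u3]
          exact RelB_nl hL _ _
        · rw [b1, ← u3]
          exact RelB_nr hL _ _

/-- `e_i ι_{i+1} = ι_i` -/
theorem e_ins_left (i : ℤ) : e i (ins (i + 1) α) = ins i α := by
  have hL : 0 < L := α.pos
  set β := ins (i + 1) α with hβ
  apply Pat.ext
  funext x
  rcases RelB_cases hL i x with h1 | h1 | ⟨k, rfl⟩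
  · rw [e_of_dvd β _ _ h1, RelB_ins_dvd α _ _ h1]
  · rw [e_of_dvd' β _ _ h1, RelB_ins_dvd1 α _ _ h1]
  · rw [ins_up]
    have n1 := RelB_nl hL i k
    have n2 := RelB_nr hL i k
    by_cases hk : (L : ℤ) ∣ k - i
    · have hak := RelB_nself α hk
      have u1 := up_succ_of_dvd hL i k hk
      obtain ⟨m, hm⟩ := RelB_dvd hk
      have u2 : up L i k = i + 2 + m * ((L + 2 : ℕ) : ℤ) := by
        rw [hm, RelB_up_mul hL, up_self]
      have b1 : β.f (up L i k) = up L i k - 1 := by
        rw [hβ]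
        refine RelB_ins_dvd1 α (i + 1) _ ?_
        rw [u2]
        exact ⟨m, by ring⟩
      rw [e_of_partner' β i _ n1 n2, b1]
      · have h3 : up L i k - 1 - 1 = up L (i + 1) k := by rw [u1]; ring
        rw [h3, hβ, ins_up, up_succ_of_not hL i _ hak]
      · rw [b1, u2]
        exact ⟨m, by ring⟩
    · have u1 := up_succ_of_not hL i k hk
      have b1 : β.f (up L i k) = up L (i + 1) (α.f k) := by
        rw [← u1, hβ, ins_up]
      by_cases hak : (L : ℤ) ∣ α.f k - i
      · obtain ⟨m, hm⟩ := RelB_dvd hak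
        have u2 : up L i (α.f k) = i + 2 + m * ((L + 2 : ℕ) : ℤ) := by
          rw [hm, RelB_up_mul hL, up_self]
        have u3 := up_succ_of_dvd hL i _ hak
        rw [e_of_partner β i _ n1 n2, b1, u3]
        · have h3 : β.f (up L i (α.f k) - 2 + 1) = up L i (α.f k) - 2 + 1 + 1 := by
            rw [hβ]
            refine RelB_ins_dvd α (i + 1) _ ?_
            rw [u2]
            exact ⟨m, by ring⟩
          rw [h3]
          ring
        · rw [b1, u3, u2]
          exact ⟨m, by ring⟩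
      · have u3 := up_succ_of_not hL i (α.f k) hak
        rw [e_of_not β i _ n1 n2, b1, u3]
        · rw [b1, u3]
          exact RelB_nl hL _ _
        · rw [b1, u3]
          exact RelB_nr hL _ _

/-- distant monoids -/
theorem e_ins_far (i k : ℤ) (h : ¬ (L : ℤ) ∣ k + 1 - i) : e (up L i k) (ins i α) = ins i (e k α) := by
  have hL : 0 < L := α.pos
  set β := ins i α with hβ
  have hs : up L i (k + 1) = up L i k + 1 := up_step hL i k h
  have hinj : Function.Injective (up L i) := (up_strictMono hL i).injective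
  have c1 : ∀ m : ℤ, ((L + 2 : ℕ) : ℤ) ∣ up L i m - up L i k ↔ (L : ℤ) ∣ m - k := by
    intro m
    constructor
    · intro h1
      obtain ⟨a, ha⟩ := RelB_dvd h1
      rw [← RelB_up_mul hL] at ha
      exact ⟨a, by rw [hinj ha]; ring⟩
    · intro h1
      obtain ⟨a, ha⟩ := RelB_dvd h1
      rw [ha, RelB_up_mul hL]
      exact ⟨a, by ring⟩
  have c2 : ∀ m : ℤ, ((L + 2 : ℕ) : ℤ) ∣ up L i m - up L i k - 1 ↔ (L : ℤ) ∣ m - k - 1 := by
    intro m
    constructor
    · intro h1
      obtain ⟨a, ha⟩ := RelB_dvd1 h1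
      rw [← hs, ← RelB_up_mul hL] at ha
      exact ⟨a, by rw [hinj ha]; ring⟩
    · intro h1
      obtain ⟨a, ha⟩ := RelB_dvd1 h1
      rw [ha, RelB_up_mul hL, hs]
      exact ⟨a, by ring⟩
  have k1 := RelB_nl hL i k
  have k2 := RelB_nr hL i k
  have k3 := RelB_nl hL i (k + 1)
  have k4 := RelB_nr hL i (k + 1)
  rw [hs] at k3 k4
  -- the sites `i`, `i + 1` are different from the sites of the pair
  have hd : ∀ y : ℤ, ((L + 2 : ℕ) : ℤ) ∣ y - i ∨ ((L + 2 : ℕ) : ℤ) ∣ y - i - 1 →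
      ¬ ((L + 2 : ℕ) : ℤ) ∣ y - up L i k ∧ ¬ ((L + 2 : ℕ) : ℤ) ∣ y - up L i k - 1 := by
    intro y hy
    constructor
    · intro h1
      rcases hy with hy | hy
      · apply k1
        have e1 : up L i k - i = (y - i) - (y - up L i k) := by ring
        rw [e1]
        exact dvd_sub hy h1
      · apply k2
        have e1 : up L i k - i - 1 = (y - i - 1) - (y - up L i k) := by ring
        rw [e1]
        exact dvd_sub hy h1
    · intro h1
      rcases hy with hy | hy
      · apply k3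
        have e1 : up L i k + 1 - i = (y - i) - (y - up L i k - 1) := by ring
        rw [e1]
        exact dvd_sub hy h1
      · apply k4
        have e1 : up L i k + 1 - i - 1 = (y - i - 1) - (y - up L i k - 1) := by ring
        rw [e1]
        exact dvd_sub hy h1
  apply Pat.ext
  funext x
  rcases RelB_cases hL i x with h1 | h1 | ⟨m, rfl⟩
  · have hx := RelB_ins_dvd α _ _ h1
    rw [RelB_ins_dvd (e k α) _ _ h1]
    have h2 := hd x (Or.inl h1)
    have h3 := hd (x + 1) (Or.inr (by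
      have e1 : x + 1 - i - 1 = x - i := by ring
      rw [e1]
      exact h1))
    rw [← hβ] at hx
    rw [e_of_not β _ _ h2.1 h2.2, hx]
    · rw [hx]
      exact h3.1
    · rw [hx]
      exact h3.2
  · have hx := RelB_ins_dvd1 α _ _ h1
    rw [RelB_ins_dvd1 (e k α) _ _ h1]
    have h2 := hd x (Or.inr h1)
    have h3 := hd (x - 1) (Or.inl (by
      have e1 : x - 1 - i = x - i - 1 := by ring
      rw [e1]
      exact h1))
    rw [← hβ] at hx
    rw [e_of_not β _ _ h2.1 h2.2, hx]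
    · rw [hx]
      exact h3.1
    · rw [hx]
      exact h3.2
  · rw [ins_up]
    by_cases m1 : (L : ℤ) ∣ m - k
    · rw [e_of_dvd β _ _ ((c1 m).2 m1), e_of_dvd α _ _ m1, up_step hL i m]
      intro h2
      apply h
      have e1 : k + 1 - i = (m + 1 - i) - (m - k) := by ring
      rw [e1]
      exact dvd_sub h2 m1
    by_cases m2 : (L : ℤ) ∣ m - k - 1
    · rw [e_of_dvd' β _ _ ((c2 m).2 m2), e_of_dvd' α _ _ m2]
      have h2 := up_step hL i (m - 1) (by
        intro h2
        apply h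
        have e1 : k + 1 - i = (m - 1 + 1 - i) - (m - k - 1) := by ring
        rw [e1]
        exact dvd_sub h2 m2)
      rw [sub_add_cancel] at h2
      rw [h2]
      ring
    have hb : β.f (up L i m) = up L i (α.f m) := by rw [hβ, ins_up]
    have n1 : ¬ ((L + 2 : ℕ) : ℤ) ∣ up L i m - up L i k := fun h2 => m1 ((c1 m).1 h2)
    have n2 : ¬ ((L + 2 : ℕ) : ℤ) ∣ up L i m - up L i k - 1 := fun h2 => m2 ((c2 m).1 h2)
    by_cases m3 : (L : ℤ) ∣ α.f m - k
    · have h2 := up_step hL i (α.f m) (by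
        intro h2
        apply h
        have e1 : k + 1 - i = (α.f m + 1 - i) - (α.f m - k) := by ring
        rw [e1]
        exact dvd_sub h2 m3)
      rw [e_of_partner β _ _ n1 n2 (by rw [hb]; exact (c1 _).2 m3), e_of_partner α _ _ m1 m2 m3, hb, ← h2,
        hβ, ins_up]
    by_cases m4 : (L : ℤ) ∣ α.f m - k - 1
    · have h2 := up_step hL i (α.f m - 1) (by
        intro h2
        apply h
        have e1 : k + 1 - i = (α.f m - 1 + 1 - i) - (α.f m - k - 1) := by ring
        rw [e1]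
        exact dvd_sub h2 m4)
      rw [sub_add_cancel] at h2
      have h3 : up L i (α.f m) - 1 = up L i (α.f m - 1) := by rw [h2]; ring
      rw [e_of_partner' β _ _ n1 n2 (by rw [hb]; exact (c2 _).2 m4), e_of_partner' α _ _ m1 m2 m4, hb, h3,
        hβ, ins_up]
    · rw [e_of_not β _ _ n1 n2 (by rw [hb]; exact fun h2 => m3 ((c1 _).1 h2))
        (by rw [hb]; exact fun h2 => m4 ((c2 _).1 h2)), e_of_not α _ _ m1 m2 m3 m4, hb]

/-- `e_{k+2} ι_0 = ι_0 e_k` for `0 ≤ k ≤ L - 2` -/
theorem e_ins_zero (k : ℤ) (h0 : 0 ≤ k) (h1 : k + 1 < L) : e (k + 2) (ins 0 α) = ins 0 (e k α) := by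
  have h2 : up L 0 k = k + 2 := by
    unfold up
    rw [sub_zero, Int.ediv_eq_zero_of_lt h0 (by omega)]
    ring
  rw [← h2]
  refine e_ins_far α 0 k ?_
  rw [sub_zero]
  intro h3
  have := Int.le_of_dvd (by omega) h3
  omega

theorem rot_ins (i : ℤ) : rot (ins i α) = ins (i - 1) (rot α) := by
  apply Pat.ext
  funext x
  show insFun L i α.f (x + 1) - 1 = insFun L (i - 1) (fun y => α.f (y + 1) - 1) x
  unfold insFun
  have e1 : x - (i - 1) = x + 1 - i := by ring
  have e2 : dn L (i - 1) x + 1 = dn L i (x + 1) := by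
    unfold dn
    rw [e1]
    ring
  have e3 : ∀ y, up L (i - 1) (y - 1) = up L i y - 1 := by
    intro y
    unfold up
    have e4 : y - 1 - (i - 1) = y - i := by ring
    rw [e4]
    ring
  beta_reduce
  rw [e1, e2, e3]
  split_ifs <;> ring

theorem rotInv_ins (i : ℤ) : rotInv (ins i α) = ins (i + 1) (rotInv α) := by
  have h1 := rot_ins (rotInv α) (i + 1)
  rw [rot_rotInv, add_sub_cancel_right] at h1
  rw [← h1, rotInv_rot]

theorem ins_add_period (i : ℤ) : ins (i + (L + 2)) α = ins i (rot (rot α)) := by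
  have hL : 0 < L := α.pos
  apply Pat.ext
  funext x
  show insFun L (i + (L + 2)) α.f x = insFun L i (fun y => α.f (y + 1 + 1) - 1 - 1) x
  have h1 : ∀ y : ℤ, ((L + 2 : ℤ) ∣ y - (i + (L + 2))) ↔ ((L + 2 : ℤ) ∣ y - i) := by
    intro y
    rw [← sub_sub, dvd_sub_self_right]
  have h2 : ∀ y : ℤ, ((L + 2 : ℤ) ∣ y - (i + (L + 2)) - 1) ↔ ((L + 2 : ℤ) ∣ y - i - 1) := by
    intro y
    have h3 : y - (i + (L + 2)) - 1 = y - i - 1 - (L + 2 : ℤ) := by ring
    rw [h3, dvd_sub_self_right]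
  have h3 : dn L (i + (L + 2)) x = dn L i x + 1 + 1 := by
    unfold dn
    have e1 : x - (i + (L + 2)) = (x - i) + (-1) * (L + 2 : ℤ) := by ring
    have e2 : (L + 2 : ℤ) ≠ 0 := by positivity
    rw [e1, Int.add_mul_ediv_right _ _ e2]
    ring
  have h4 : ∀ y : ℤ, up L (i + (L + 2)) y = up L i (y - 1 - 1) := by
    intro y
    rw [up_period hL]
    congr 1
    ring
  unfold insFun
  simp only [h1, h2, h3, h4]

/-- insertion at the seam: the small arc `(-1, 0)`, inside of the marked gap -/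
def insS (α : Pat L) : Pat (L + 2) := rot (ins 0 α)

theorem insS_eq : insS α = ins (-1) (rot α) := by
  unfold insS
  rw [rot_ins, zero_sub]

/-- `ρ⁻¹ ι_L = ι_S` where `L + 2` is the new period -/
theorem rotInv_ins_last : rotInv (ins (L : ℤ) α) = insS α := by
  have h1 := ins_add_period (rotInv α) (-1)
  have h2 : (-1 : ℤ) + (L + 2) = L + 1 := by ring
  rw [h2, rot_rotInv] at h1
  rw [rotInv_ins, h1, insS_eq]

/-- `(ins 0 α) x = x + 1` only at the inserted arcs: every pattern fixed by `e i` (period at least 4) is an insertion -/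
theorem exists_ins_e (hL : 0 < L) (i : ℤ) (β : Pat (L + 2)) : ∃ α : Pat L, ins i α = e i β :=
  exists_ins hL i (e i β) (e_left β i)

/-- closing the sites `i`, `i+1` -/
def cap (hL : 0 < L) (i : ℤ) (β : Pat (L + 2)) : Pat L := Classical.choose (exists_ins_e hL i β)

theorem ins_cap (hL : 0 < L) (i : ℤ) (β : Pat (L + 2)) : ins i (cap hL i β) = e i β :=
  Classical.choose_spec (exists_ins_e hL i β)

theorem cap_ins (hL : 0 < L) (i : ℤ) : cap hL i (ins i α) = α := by
  apply ins_injective i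
  rw [ins_cap, e_ins]

end Pat

/-- the reference pattern: nested arcs centered at the seam -/
def IsRef {L : ℕ} (α : Pat L) : Prop := ∀ x : ℤ, -(L : ℤ) ≤ 2 * x → 2 * x < L → α.f x = -1 - x

/-- division with remainder -/
theorem RelB_div {L : ℕ} (hL : 0 < L) (h x : ℤ) : ∃ q r : ℤ, 0 ≤ r ∧ r < L ∧ x = q * L + r - h ∧ (x + h) / L = q := by
  have h0 : (0 : ℤ) < L := by exact_mod_cast hL
  refine ⟨(x + h) / L, (x + h) % L, Int.emod_nonneg _ h0.ne', Int.emod_lt_of_pos _ h0, ?_, rfl⟩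
  have := Int.emod_add_mul_ediv (x + h) L
  linarith [mul_comm (L : ℤ) ((x + h) / L)]

theorem RelB_q {L : ℕ} (hL : 0 < L) {h q r x : ℤ} (h0 : 0 ≤ r) (h1 : r < L) (hx : x = q * L + r - h) :
    (x + h) / L = q := by
  have h2 : (0 : ℤ) < L := by exact_mod_cast hL
  have h3 : x + h = r + q * L := by rw [hx]; ring
  rw [h3, Int.add_mul_ediv_right _ _ h2.ne', Int.ediv_eq_zero_of_lt h0 h1, zero_add]

theorem exists_ref {L : ℕ} (hE : Even L) (hL : 0 < L) : ∃ α : Pat L, IsRef α := by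
  obtain ⟨h, hh⟩ := hE
  have hL2 : (L : ℤ) = 2 * h := by rw [hh]; push_cast; ring
  have hL0 : (0 : ℤ) < L := by exact_mod_cast hL
  set f : ℤ → ℤ := fun x => -1 - x + 2 * ((x + h) / L * L) with hf
  -- the value of `f`
  have hv : ∀ q r : ℤ, 0 ≤ r → r < L → f (q * L + r - h) = q * L + (L - 1 - r) - h := by
    intro q r h0 h1
    show -1 - (q * L + r - h) + 2 * ((q * L + r - h + h) / L * L) = _
    rw [RelB_q hL h0 h1 rfl]
    linarith
  refine ⟨⟨f, hL, ?_, ?_, ?_, ?_⟩, ?_⟩
  · intro x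
    obtain ⟨q, r, h0, h1, rfl, -⟩ := RelB_div hL h x
    rw [hv q r h0 h1, hv q _ (by omega) (by omega)]
    ring
  · intro x
    obtain ⟨q, r, h0, h1, rfl, -⟩ := RelB_div hL h x
    have e1 : q * L + r - h + (L : ℤ) = (q + 1) * L + r - h := by ring
    rw [e1, hv q r h0 h1, hv (q + 1) r h0 h1]
    ring
  · intro x
    obtain ⟨q, r, h0, h1, rfl, -⟩ := RelB_div hL h x
    rw [hv q r h0 h1]
    intro h2
    have h3 : (L : ℤ) - 1 - r = r := by linarith
    omega
  · intro x y hxy hyx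
    obtain ⟨q, r, h0, h1, hx, -⟩ := RelB_div hL h x
    have hfx : f x = q * L + (L - 1 - r) - h := by rw [hx, hv q r h0 h1]
    rw [hfx] at hyx
    obtain ⟨s, hs⟩ : ∃ s, y = q * L + s - h := ⟨y + h - q * L, by ring⟩
    have s0 : r < s := by linarith
    have s1 : s < L - 1 - r := by linarith
    have hfy : f y = q * L + (L - 1 - s) - h := by rw [hs, hv q s (by omega) (by omega)]
    rw [hfx, hfy, hx]
    constructor <;> linarith
  · intro x h1 h2
    show f x = -1 - x
    have h3 := hv 0 (x + h) (by linarith) (by linarith)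
    have h4 : 0 * (L : ℤ) + (x + h) - h = x := by ring
    rw [h4] at h3
    rw [h3]
    linarith

theorem RelB_red {L : ℕ} (α : Pat L) (x : ℤ) : ∃ q y : ℤ, -(L : ℤ) ≤ 2 * y ∧ 2 * y < L ∧ x = y + q * L := by
  obtain ⟨h, hh⟩ := α.even
  have hL2 : (L : ℤ) = 2 * h := by
    have : ((L : ℕ) : ℤ) = ((h + h : ℕ) : ℤ) := by exact_mod_cast hh
    rw [this]
    push_cast
    ring
  obtain ⟨q, r, h0, h1, hx, -⟩ := RelB_div α.pos h x
  exact ⟨q, r - h, by linarith, by linarith, by linarith⟩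

theorem IsRef.unique {L : ℕ} {α β : Pat L} (h1 : IsRef α) (h2 : IsRef β) : α = β := by
  apply Pat.ext
  funext x
  obtain ⟨q, y, hy1, hy2, rfl⟩ := RelB_red α x
  rw [α.per_mul, β.per_mul, h1 y hy1 hy2, h2 y hy1 hy2]

theorem IsRef.insS {L : ℕ} {α : Pat L} (h : IsRef α) : IsRef (Pat.insS α) := by
  have hL : 0 < L := α.pos
  have hL0 : (0 : ℤ) < L := by exact_mod_cast hL
  have hup1 : ∀ k : ℤ, 0 ≤ k → k < L → up L 0 k = k + 2 := by
    intro k h0 h1
    unfold up
    rw [sub_zero, Int.ediv_eq_zero_of_lt h0 h1]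
    ring
  have hup2 : ∀ k : ℤ, -(L : ℤ) ≤ k → k < 0 → up L 0 k = k := by
    intro k h0 h1
    unfold up
    have h2 : (k - 0) / (L : ℤ) = -1 := by
      have h3 : k - 0 = (k + L) + (-1) * L := by ring
      rw [h3, Int.add_mul_ediv_right _ _ hL0.ne', Int.ediv_eq_zero_of_lt (by linarith) (by linarith)]
      ring
    rw [h2]
    ring
  intro x hx1 hx2
  rw [Nat.cast_add, Nat.cast_ofNat] at hx1 hx2
  show (Pat.ins 0 α).f (x + 1) - 1 = -1 - x
  obtain ⟨y, rfl⟩ : ∃ y, x = y - 1 := ⟨x + 1, by ring⟩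
  rw [sub_add_cancel]
  rcases lt_trichotomy y 0 with hy | hy | hy
  · have h1 := Pat.ins_up α 0 y
    rw [hup2 y (by omega) hy, h y (by omega) (by omega), hup1 _ (by omega) (by omega)] at h1
    rw [h1]
    ring
  · rw [hy]
    have h1 := Pat.ins_left α 0
    rw [h1]
    ring
  · by_cases hy1 : y = 1
    · rw [hy1]
      have h1 := Pat.ins_right α 0
      rw [zero_add] at h1
      rw [h1]
      ring
    · have h1 := Pat.ins_up α 0 (y - 2)
      rw [hup1 _ (by omega) (by omega), h (y - 2) (by omega) (by omega), hup2 _ (by omega) (by omega),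
        sub_add_cancel] at h1
      rw [h1]
      ring

theorem insS_injective {L : ℕ} : Function.Injective (Pat.insS : Pat L → Pat (L + 2)) := by
  intro α β h
  apply Pat.ins_injective 0
  have h1 : Pat.rotInv (Pat.rot (Pat.ins 0 α)) = Pat.rotInv (Pat.rot (Pat.ins 0 β)) := congrArg Pat.rotInv h
  rw [Pat.rotInv_rot, Pat.rotInv_rot] at h1
  exact h1

end CY
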