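import Pool.Agent.Lib.MP_216314_pr.Z.HomC

/-!
# Expansion of the kernel

`1/(1 - s t) = ∑ (s t)^k` and `1/(1 - s - t) = ∑_m (s+t)^m = ∑_{k,l} choose (k+l) k s^k t^l` for `|s|, |t| < 1/4` (absolutely convergent, sum over `ℕ × ℕ`: the
terms with `k + l = m`, `Finset.antidiagonal`, `summable_prod...`; or first the sum over `l` of `choose (k+l) k t^l = (1-t)^(-k-1)`, then over `k`).
-/

set_option autoImplicit false

noncomputable section

namespace CY

open Finset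

/-- the coefficients of the kernel -/
def ck (w : ℂ) (k l : ℕ) : ℂ := (if k = l then 1 else 0) + w * ((k + l).choose k : ℂ)

theorem ck_bound (w : ℂ) (k l : ℕ) : ‖ck w k l‖ ≤ (1 + ‖w‖) * 2 ^ (k + l) := by
  unfold ck
  have h1 : ‖(if k = l then (1 : ℂ) else 0)‖ ≤ 1 := by
    split_ifs <;> simp
  have h2 : ‖w * ((k + l).choose k : ℂ)‖ ≤ ‖w‖ * 2 ^ (k + l) := by
    rw [norm_mul, Complex.norm_natCast]
    refine mul_le_mul_of_nonneg_left ?_ (norm_nonneg w)
    exact_mod_cast Nat.choose_le_two_pow (k + l) k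
  have h3 : (1 : ℝ) ≤ 2 ^ (k + l) := one_le_pow₀ (by norm_num)
  refine (norm_add_le _ _).trans ?_
  rw [add_mul, one_mul]
  linarith

private theorem HomK_A {s t : ℂ} (hs : ‖s‖ < 1 / 4) (ht : ‖t‖ < 1 / 4) :
    HasSum (fun p : ℕ × ℕ => (if p.1 = p.2 then (1 : ℂ) else 0) * s ^ p.1 * t ^ p.2)
      (1 - s * t)⁻¹ := by
  have hst : ‖s * t‖ < 1 := by
    rw [norm_mul]
    nlinarith [norm_nonneg s, norm_nonneg t]
  have hinj : Function.Injective (fun k : ℕ => (k, k)) := fun a b h => (Prod.mk.inj h).1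
  rw [← hinj.hasSum_iff (f := fun p : ℕ × ℕ =>
    (if p.1 = p.2 then (1 : ℂ) else 0) * s ^ p.1 * t ^ p.2)]
  · have h1 := hasSum_geometric_of_norm_lt_one hst
    refine h1.congr_fun ?_
    intro k
    simp [mul_pow]
  · rintro ⟨a, b⟩ hab
    have hne : a ≠ b := by
      intro h
      apply hab
      exact ⟨a, by rw [h]⟩
    simp [hne]

private theorem HomK_sum {s t : ℂ} (hs : ‖s‖ < 1 / 4) (ht : ‖t‖ < 1 / 4) :
    Summable (fun p : ℕ × ℕ => ((p.1 + p.2).choose p.1 : ℂ) * s ^ p.1 * t ^ p.2) := by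
  have h1 : Summable (fun k : ℕ => (2 * ‖s‖) ^ k) :=
    summable_geometric_of_lt_one (by positivity) (by linarith)
  have h2 : Summable (fun k : ℕ => (2 * ‖t‖) ^ k) :=
    summable_geometric_of_lt_one (by positivity) (by linarith)
  have h3 := h1.mul_of_nonneg h2 (fun k => by positivity) (fun k => by positivity)
  refine Summable.of_norm_bounded h3 ?_
  rintro ⟨k, l⟩
  have h4 : ((k + l).choose k : ℝ) ≤ 2 ^ (k + l) := by
    exact_mod_cast Nat.choose_le_two_pow (k + l) k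
  show ‖((k + l).choose k : ℂ) * s ^ k * t ^ l‖ ≤ (2 * ‖s‖) ^ k * (2 * ‖t‖) ^ l
  rw [norm_mul, norm_mul, norm_pow, norm_pow, Complex.norm_natCast]
  have h5 : (2 * ‖s‖) ^ k * (2 * ‖t‖) ^ l = 2 ^ (k + l) * (‖s‖ ^ k * ‖t‖ ^ l) := by
    rw [mul_pow, mul_pow, pow_add]
    ring
  rw [h5, mul_assoc]
  exact mul_le_mul_of_nonneg_right h4 (by positivity)

private theorem HomK_B {s t : ℂ} (hs : ‖s‖ < 1 / 4) (ht : ‖t‖ < 1 / 4) :
    HasSum (fun p : ℕ × ℕ => ((p.1 + p.2).choose p.1 : ℂ) * s ^ p.1 * t ^ p.2)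
      (1 - (s + t))⁻¹ := by
  have hst : ‖s + t‖ < 1 := by
    have := norm_add_le s t
    linarith
  have h1 := (HomK_sum hs ht).hasSum
  have h2 := (Finset.HasAntidiagonal.sigmaAntidiagonalEquivProd (A := ℕ)).hasSum_iff.2 h1
  have h3 := h2.sigma (g := fun n => (s + t) ^ n) (fun n => by
    have h4 := hasSum_fintype (fun c : Finset.HasAntidiagonal.antidiagonal n =>
      ((c.1.1 + c.1.2).choose c.1.1 : ℂ) * s ^ c.1.1 * t ^ c.1.2)
    have h5 : ∑ c : Finset.HasAntidiagonal.antidiagonal n,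
        ((c.1.1 + c.1.2).choose c.1.1 : ℂ) * s ^ c.1.1 * t ^ c.1.2 = (s + t) ^ n := by
      rw [(Commute.all s t).add_pow' n]
      rw [Finset.sum_coe_sort (Finset.HasAntidiagonal.antidiagonal n)
        (fun c : ℕ × ℕ => ((c.1 + c.2).choose c.1 : ℂ) * s ^ c.1 * t ^ c.2)]
      refine Finset.sum_congr rfl fun c hc => ?_
      rw [Finset.HasAntidiagonal.mem_antidiagonal.1 hc, nsmul_eq_mul, mul_assoc]
    rw [h5] at h4
    exact h4)
  have h6 := h3.unique (hasSum_geometric_of_norm_lt_one hst)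
  rw [← h6]
  exact h1

theorem KK_hasSum (w : ℂ) {s t : ℂ} (hs : ‖s‖ < 1 / 4) (ht : ‖t‖ < 1 / 4) :
    HasSum (fun p : ℕ × ℕ => ck w p.1 p.2 * s ^ p.1 * t ^ p.2) (KK w s t) := by
  have h1 := (HomK_A hs ht).add ((HomK_B hs ht).mul_left w)
  have h2 : KK w s t = (1 - s * t)⁻¹ + w * (1 - (s + t))⁻¹ := by
    unfold KK
    rw [one_div, div_eq_mul_inv, sub_sub]
  rw [h2]
  refine h1.congr_fun ?_
  rintro ⟨k, l⟩
  show ck w k l * s ^ k * t ^ l = (if k = l then (1 : ℂ) else 0) * s ^ k * t ^ l +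
    w * (((k + l).choose k : ℂ) * s ^ k * t ^ l)
  unfold ck
  ring

end CY
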