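import Pool.Agent.Lib.MP_216314_pr.Z.EDef

/-!
# Recursion of `E_x` (proof in the header of `EDef`)
-/

set_option autoImplicit false

noncomputable section

namespace CY

open Finset

section

variable (x : ℂ) {q : ℂ} (hq : q ^ 2 + q + 1 = 0) {L : ℕ}
include hq

theorem EE_fus (hL : 0 < L) (hE : Even L) {Pb P : Pat (L + 2) → MvPolynomial ℕ ℂ}
    (hPb : IsPsi (q ^ 2) (L + 2) Pb) (hP : IsPsi q (L + 2) P)
    {Pb' P' : Pat L → MvPolynomial ℕ ℂ} (hPb' : IsPsi (q ^ 2) L Pb') (hP' : IsPsi q L P')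
    {a : ℂ} (ha : a ≠ 0) (y : ℕ → ℂ) :
    EE x Pb P (insP 0 a (q ^ 2 * a) y) =
      3 * q ^ 2 * a ^ 2 * (∏ j ∈ range L, (y j - q * a) ^ 4) * EE x Pb' P' y := by
  have hq2 : (q ^ 2) ^ 2 + q ^ 2 + 1 = 0 := by linear_combination (q ^ 2 - q + 1) * hq
  have hq3 : q ^ 3 = 1 := q_cube hq
  have hq0 : q ≠ 0 := by
    intro h
    rw [h] at hq3
    norm_num at hq3
  have hb : q ^ 2 * a ≠ 0 := mul_ne_zero (pow_ne_zero _ hq0) ha
  have e0 : (q ^ 2) ^ 2 * (q ^ 2 * a) = a := by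
    linear_combination (a * (q ^ 3 + 1)) * hq3
  have f1 := fusion hq hL hE hP hP' a y
  have f2 := fusion' hq2 hL hE hPb hPb' hb y
  rw [e0] at f2
  have hd : ¬ ((L + 2 : ℕ) : ℤ) ∣ 0 + 1 := by
    intro h
    have h2 := Int.le_of_dvd (by norm_num) h
    push_cast at h2
    omega
  have g1 : BB x (ev Pb (insP 0 a (q ^ 2 * a) y)) (I 0 (ev P' y)) =
      Kf (q ^ 2) L (q ^ 2 * a) y * BB x (ev Pb' y) (ev P' y) := by
    have h1 : (I 0 (ev P' y) : V (L + 2)) = E 0 (I 0 (ev P' y)) := (E_I 0 _).symm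
    rw [h1, ← BB_E x hd, f2, map_smul, LinearMap.smul_apply, BB_I x le_rfl (by positivity), smul_eq_mul]
  unfold EE
  rw [f1, map_smul, g1, smul_eq_mul]
  have k1 : Kf (q ^ 2) L (q ^ 2 * a) y = (1 - q) * (q ^ 2 * a) * ∏ j ∈ range L, (y j - q * a) ^ 2 := by
    unfold Kf
    have h1 : (1 - (q ^ 2) ^ 2 : ℂ) = 1 - q := by linear_combination (-q) * hq3
    have h2 : ∀ j, (y j - q ^ 2 * (q ^ 2 * a)) = y j - q * a := by
      intro j
      linear_combination (-(q * a)) * hq3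
    rw [h1]
    simp only [h2]
  rw [k1]
  unfold Kf
  have h4 : ∏ j ∈ range L, (y j - q * a) ^ 4 = (∏ j ∈ range L, (y j - q * a) ^ 2) * ∏ j ∈ range L, (y j - q * a) ^ 2 := by
    rw [← Finset.prod_mul_distrib]
    exact Finset.prod_congr rfl fun j _ => by ring
  rw [h4]
  generalize (∏ j ∈ range L, (y j - q * a) ^ 2) = T
  generalize ((BB x) (ev Pb' y)) (ev P' y) = Bv
  linear_combination (a ^ 2 * q ^ 2 * T ^ 2 * Bv * (q - 2)) * hq

end

end CY
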