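import Pool.Agent.Lib.MP_216314_pr.Z.EDef

/-!
# Symmetry of `E_x` (proof in the header of `EDef`)
-/

set_option autoImplicit false

noncomputable section

namespace CY

open Finset

/-- the polynomial whose values are `EE` -/
def ESw_pol (x : ℂ) {L : ℕ} (Pb P : Pat L → MvPolynomial ℕ ℂ) : MvPolynomial ℕ ℂ :=
  ∑ β, ∑ α, Pb β * P α * MvPolynomial.C (x ^ NL β α)

theorem ESw_eval (x : ℂ) {L : ℕ} (Pb P : Pat L → MvPolynomial ℕ ℂ) (z : ℕ → ℂ) :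
    MvPolynomial.eval z (ESw_pol x Pb P) = EE x Pb P z := by
  unfold ESw_pol EE
  rw [BB_apply, map_sum]
  refine Finset.sum_congr rfl fun β _ => ?_
  rw [map_sum]
  refine Finset.sum_congr rfl fun α _ => ?_
  rw [map_mul, map_mul, MvPolynomial.eval_C]
  rfl

theorem ESw_eval_sw (x : ℂ) {L : ℕ} (Pb P : Pat L → MvPolynomial ℕ ℂ) (i : ℕ) (z : ℕ → ℂ) :
    MvPolynomial.eval z (MvPolynomial.rename (Equiv.swap i (i + 1)) (ESw_pol x Pb P)) =
      EE x Pb P (sw i z) := by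
  rw [MvPolynomial.eval_rename, ← ESw_eval]
  rfl

section

variable (x : ℂ) {q : ℂ} (hq : q ^ 2 + q + 1 = 0) {L : ℕ}
include hq

theorem ESw_key {Pb P : Pat L → MvPolynomial ℕ ℂ} (hPb : IsPsi (q ^ 2) L Pb) (hP : IsPsi q L P)
    {i : ℕ} (hi : i + 1 < L) (z : ℕ → ℂ) :
    (z i ^ 2 + z i * z (i + 1) + z (i + 1) ^ 2) * (EE x Pb P (sw i z) - EE x Pb P z) = 0 := by
  have hL : ¬ (L : ℤ) ∣ (i : ℤ) + 1 := by
    intro h
    have h1 := Int.le_of_dvd (by omega) h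
    omega
  have e1 := hPb.exch z i hi
  have e2 := hP.exch z i hi
  have h1 : BB x (F (q ^ 2) (z (i + 1)) (z i) • ev Pb z + (z (i + 1) - z i) • E (i : ℤ) (ev Pb z))
      (F q (z (i + 1)) (z i) • ev P z + (z (i + 1) - z i) • E (i : ℤ) (ev P z)) =
      BB x (F (q ^ 2) (z i) (z (i + 1)) • ev Pb (sw i z)) (F q (z i) (z (i + 1)) • ev P (sw i z)) := by
    rw [e1, e2]
  have h2 : BB x (E (i : ℤ) (ev Pb z)) (ev P z) = BB x (ev Pb z) (E (i : ℤ) (ev P z)) :=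
    BB_E x hL _ _
  have h3 : BB x (E (i : ℤ) (ev Pb z)) (E (i : ℤ) (ev P z)) = BB x (ev Pb z) (E (i : ℤ) (ev P z)) := by
    rw [BB_E x hL, E_E]
  simp only [map_add, LinearMap.add_apply, map_smul, LinearMap.smul_apply, smul_eq_mul] at h1
  rw [h2, h3] at h1
  have h4 : EE x Pb P z = BB x (ev Pb z) (ev P z) := rfl
  have h5 : EE x Pb P (sw i z) = BB x (ev Pb (sw i z)) (ev P (sw i z)) := rfl
  rw [h4, h5]
  have hq3 : q ^ 3 = 1 := by linear_combination (q - 1) * hq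
  obtain ⟨a, ha⟩ : ∃ a, a = z i := ⟨_, rfl⟩
  obtain ⟨b, hb⟩ : ∃ b, b = z (i + 1) := ⟨_, rfl⟩
  obtain ⟨s, hs⟩ : ∃ s, s = BB x (ev Pb z) (ev P z) := ⟨_, rfl⟩
  obtain ⟨t, ht⟩ : ∃ t, t = BB x (ev Pb z) (E (i : ℤ) (ev P z)) := ⟨_, rfl⟩
  obtain ⟨u, hu⟩ : ∃ u, u = BB x (ev Pb (sw i z)) (ev P (sw i z)) := ⟨_, rfl⟩
  rw [← ha, ← hb, ← hs, ← ht, ← hu] at h1
  rw [← ha, ← hb, ← hs, ← hu]
  unfold F at h1
  have hq4 : (q ^ 2) ^ 2 = q := by linear_combination q * hq3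
  rw [hq4] at h1
  linear_combination -h1 + ((u - s) * ((1 - q) * (a ^ 2 + b ^ 2) + (1 - q + q ^ 2) * a * b) +
    (b - a) ^ 2 * t) * hq

theorem EE_sw {Pb P : Pat L → MvPolynomial ℕ ℂ} (hPb : IsPsi (q ^ 2) L Pb) (hP : IsPsi q L P)
    {i : ℕ} (hi : i + 1 < L) (z : ℕ → ℂ) : EE x Pb P (sw i z) = EE x Pb P z := by
  have h0 : (MvPolynomial.X i ^ 2 + MvPolynomial.X i * MvPolynomial.X (i + 1) +
      MvPolynomial.X (i + 1) ^ 2 : MvPolynomial ℕ ℂ) ≠ 0 := by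
    intro h
    have h1 := congrArg (MvPolynomial.eval (fun _ => (1 : ℂ))) h
    simp only [map_add, map_mul, map_pow, MvPolynomial.eval_X, map_zero] at h1
    norm_num at h1
  have h1 : MvPolynomial.rename (Equiv.swap i (i + 1)) (ESw_pol x Pb P) - ESw_pol x Pb P = 0 := by
    apply poly_generic h0
    intro y hy
    simp only [map_add, map_mul, map_pow, MvPolynomial.eval_X] at hy
    rw [map_sub, ESw_eval_sw, ESw_eval]
    have h2 := ESw_key x hq hPb hP hi y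
    exact (mul_eq_zero.1 h2).resolve_left hy
  have h2 := congrArg (MvPolynomial.eval z) h1
  rw [map_sub, ESw_eval_sw, ESw_eval, map_zero] at h2
  exact sub_eq_zero.1 h2

end

end CY
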