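import Pool.Agent.Lib.MP_216314_pr.Z.EDef

/-!
# Highest coefficients of `E_x` (proof in the header of `EDef`)
-/

set_option autoImplicit false

noncomputable section

namespace CY

open Finset

private theorem ETop_bil {L n : ℕ} (x s t : ℂ) (ω' ω : ℕ → ℕ → V L) :
    BB x (∑ a ∈ range n, ∑ b ∈ range n, (s ^ a * t ^ b) • ω' a b)
        (∑ a ∈ range n, ∑ b ∈ range n, (s ^ a * t ^ b) • ω a b) =
      ∑ τ ∈ (range n ×ˢ range n) ×ˢ (range n ×ˢ range n),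
        s ^ (τ.1.1 + τ.2.1) * t ^ (τ.1.2 + τ.2.2) * BB x (ω' τ.1.1 τ.1.2) (ω τ.2.1 τ.2.2) := by
  have e1 : ∑ a ∈ range n, ∑ b ∈ range n, (s ^ a * t ^ b) • ω' a b =
      ∑ p ∈ range n ×ˢ range n, (s ^ p.1 * t ^ p.2) • ω' p.1 p.2 :=
    (sum_product' (range n) (range n) (fun a b => (s ^ a * t ^ b) • ω' a b)).symm
  have e2 : ∑ a ∈ range n, ∑ b ∈ range n, (s ^ a * t ^ b) • ω a b =
      ∑ p ∈ range n ×ˢ range n, (s ^ p.1 * t ^ p.2) • ω p.1 p.2 :=
    (sum_product' (range n) (range n) (fun a b => (s ^ a * t ^ b) • ω a b)).symm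
  have e3 : ∑ τ ∈ (range n ×ˢ range n) ×ˢ (range n ×ˢ range n),
        s ^ (τ.1.1 + τ.2.1) * t ^ (τ.1.2 + τ.2.2) * BB x (ω' τ.1.1 τ.1.2) (ω τ.2.1 τ.2.2) =
      ∑ p ∈ range n ×ˢ range n, ∑ p' ∈ range n ×ˢ range n,
        s ^ (p.1 + p'.1) * t ^ (p.2 + p'.2) * BB x (ω' p.1 p.2) (ω p'.1 p'.2) :=
    sum_product _ _ _
  rw [e1, e2, e3, LinearMap.map_sum₂]
  refine sum_congr rfl fun p _ => ?_
  rw [map_sum]
  refine sum_congr rfl fun p' _ => ?_
  rw [LinearMap.map_smul₂, map_smul, smul_eq_mul, smul_eq_mul, pow_add, pow_add]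
  ring

private theorem ETop_fib {n N : ℕ} (hN : 2 * n ≤ N + 1) (s t : ℂ) (B : (ℕ × ℕ) × (ℕ × ℕ) → ℂ) :
    ∑ τ ∈ (range n ×ˢ range n) ×ˢ (range n ×ˢ range n),
        s ^ (τ.1.1 + τ.2.1) * t ^ (τ.1.2 + τ.2.2) * B τ =
      ∑ a ∈ range N, ∑ b ∈ range N, s ^ a * t ^ b *
        ∑ τ ∈ ((range n ×ˢ range n) ×ˢ (range n ×ˢ range n)).filter
          (fun τ => (τ.1.1 + τ.2.1, τ.1.2 + τ.2.2) = (a, b)), B τ := by
  rw [← sum_product' (range N) (range N) (fun a b => s ^ a * t ^ b *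
        ∑ τ ∈ ((range n ×ˢ range n) ×ˢ (range n ×ˢ range n)).filter
          (fun τ => (τ.1.1 + τ.2.1, τ.1.2 + τ.2.2) = (a, b)), B τ)]
  have hmaps : ∀ τ ∈ (range n ×ˢ range n) ×ˢ (range n ×ˢ range n),
      (τ.1.1 + τ.2.1, τ.1.2 + τ.2.2) ∈ range N ×ˢ range N := by
    intro τ hτ
    rw [mem_product, mem_product, mem_product, mem_range, mem_range, mem_range, mem_range] at hτ
    rw [mem_product, mem_range, mem_range]
    exact ⟨by have := hτ.1.1; have := hτ.2.1; show τ.1.1 + τ.2.1 < N; omega,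
      by have := hτ.1.2; have := hτ.2.2; show τ.1.2 + τ.2.2 < N; omega⟩
  rw [← sum_fiberwise_of_maps_to hmaps]
  refine sum_congr rfl fun p _ => ?_
  rw [mul_sum]
  refine sum_congr rfl fun τ hτ => ?_
  rw [mem_filter] at hτ
  have h1 := hτ.2
  have h2 : τ.1.1 + τ.2.1 = p.1 := congrArg Prod.fst h1
  have h3 : τ.1.2 + τ.2.2 = p.2 := congrArg Prod.snd h1
  rw [h2, h3]

section

variable (x : ℂ) {q : ℂ} (hq : q ^ 2 + q + 1 = 0) {L : ℕ}
include hq

theorem EE_top (hL : 0 < L) (hE : Even L) {Pb P : Pat (L + 2) → MvPolynomial ℕ ℂ}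
    (hPb : IsPsi (q ^ 2) (L + 2) Pb) (hP : IsPsi q (L + 2) P)
    {Pb' P' : Pat L → MvPolynomial ℕ ℂ} (hPb' : IsPsi (q ^ 2) L Pb') (hP' : IsPsi q L P')
    (y : ℕ → ℂ) :
    ∃ c : ℕ → ℕ → ℂ, (∀ s t : ℂ, EE x Pb P (insP 0 s t y) =
        ∑ a ∈ range (2 * L + 3), ∑ b ∈ range (2 * L + 3), s ^ a * t ^ b * c a b) ∧
      (∀ b, 2 * L < b → c (2 * L + 2) b = 0) ∧ c (2 * L + 2) (2 * L) = (x + 2) * EE x Pb' P' y := by
  have hq2 : (q ^ 2) ^ 2 + q ^ 2 + 1 = 0 := by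
    linear_combination (q ^ 2 - q + 1) * hq
  obtain ⟨ω', hb', h0'⟩ := expand hPb (k := 1) (by omega) (by omega) y
  obtain ⟨ω, hb, h0⟩ := expand hP (k := 1) (by omega) (by omega) y
  have hb1 : Bip (L + 2) (fun s t => ev Pb (insP 0 s t y)) ω' := by
    intro s t
    have := hb' s t
    simp only [pt_one] at this
    exact this
  have hb2 : Bip (L + 2) (fun s t => ev P (insP 0 s t y)) ω := by
    intro s t
    have := hb s t
    simp only [pt_one] at this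
    exact this
  refine ⟨fun a b => ∑ τ ∈ ((range (L + 2) ×ˢ range (L + 2)) ×ˢ (range (L + 2) ×ˢ range (L + 2))).filter
      (fun τ => (τ.1.1 + τ.2.1, τ.1.2 + τ.2.2) = (a, b)),
        BB x (ω' τ.1.1 τ.1.2) (ω τ.2.1 τ.2.2), ?_, ?_, ?_⟩
  · intro s t
    have e1 : ev Pb (insP 0 s t y) =
      ∑ a ∈ range (L + 2), ∑ b ∈ range (L + 2), (s ^ a * t ^ b) • ω' a b := hb1 s t
    have e2 : ev P (insP 0 s t y) =
      ∑ a ∈ range (L + 2), ∑ b ∈ range (L + 2), (s ^ a * t ^ b) • ω a b := hb2 s t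
    unfold EE
    rw [e1, e2, ETop_bil]
    exact ETop_fib (by omega) s t (fun τ => BB x (ω' τ.1.1 τ.1.2) (ω τ.2.1 τ.2.2))
  · intro b hb3
    refine sum_eq_zero fun τ hτ => ?_
    rw [mem_filter, mem_product, mem_product, mem_product, mem_range, mem_range, mem_range,
      mem_range] at hτ
    obtain ⟨⟨⟨g1, g2⟩, g3, g4⟩, g5⟩ := hτ
    have g6 : τ.1.1 + τ.2.1 = 2 * L + 2 := congrArg Prod.fst g5
    have g7 : τ.1.2 + τ.2.2 = b := congrArg Prod.snd g5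
    by_cases g8 : L < τ.1.2
    · rw [h0' τ.1.1 τ.1.2 (by omega), map_zero, LinearMap.zero_apply]
    · rw [h0 τ.2.1 τ.2.2 (by omega), map_zero]
  · show ∑ τ ∈ ((range (L + 2) ×ˢ range (L + 2)) ×ˢ (range (L + 2) ×ˢ range (L + 2))).filter
      (fun τ => (τ.1.1 + τ.2.1, τ.1.2 + τ.2.2) = (2 * L + 2, 2 * L)),
        BB x (ω' τ.1.1 τ.1.2) (ω τ.2.1 τ.2.2) = (x + 2) * EE x Pb' P' y
    rw [sum_eq_single ((L + 1, L), (L + 1, L))]
    · obtain ⟨t1, t2⟩ := top_coeff hq2 hL hE hPb hPb' y hb1 h0'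
      obtain ⟨t3, t4⟩ := top_coeff hq hL hE hP hP' y hb2 h0
      show BB x (ω' (L + 1) L) (ω (L + 1) L) = (x + 2) * EE x Pb' P' y
      rw [t1, t3]
      exact form_top hq x hL (ev Pb' y) (ev P' y) t2 t4
    · intro τ hτ hne
      rw [mem_filter, mem_product, mem_product, mem_product, mem_range, mem_range, mem_range,
        mem_range] at hτ
      obtain ⟨⟨⟨g1, g2⟩, g3, g4⟩, g5⟩ := hτ
      have g6 : τ.1.1 + τ.2.1 = 2 * L + 2 := congrArg Prod.fst g5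
      have g7 : τ.1.2 + τ.2.2 = 2 * L := congrArg Prod.snd g5
      by_cases g8 : L < τ.1.2
      · rw [h0' τ.1.1 τ.1.2 (by omega), map_zero, LinearMap.zero_apply]
      by_cases g9 : L < τ.2.2
      · rw [h0 τ.2.1 τ.2.2 (by omega), map_zero]
      exfalso
      apply hne
      refine Prod.ext (Prod.ext ?_ ?_) (Prod.ext ?_ ?_)
      · show τ.1.1 = L + 1
        omega
      · show τ.1.2 = L
        omega
      · show τ.2.1 = L + 1
        omega
      · show τ.2.2 = L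
        omega
    · intro hn
      exfalso
      apply hn
      simp only [mem_filter, mem_product, mem_range]
      refine ⟨⟨⟨?_, ?_⟩, ?_, ?_⟩, Prod.ext ?_ ?_⟩
      · omega
      · omega
      · omega
      · omega
      · show L + 1 + (L + 1) = 2 * L + 2
        omega
      · show L + L = 2 * L
        omega

end

end CY
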