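import Pool.Agent.Lib.MP_216314_pr.Z.EDef

/-!
# `E_x` for period `2`

`Pat 2` has exactly two elements: the reference pattern `r` (`f x = -1 - x` on `{-1, 0}`: `f x = x - 1` for even `x`, `x + 1` for odd `x`) and `c = rot r` (`f x = x + 1` for even `x`). `ev P z r = F q (z 0) (z 1)`,
`ev P z c = F q (z 1) (z 0)` (`rot` at the point `cyc 2 z`, `cyc 2 z 0 = z 1`, `cyc 2 z 1 = z 0`). `NL r r = 1` (the class `{-1, 0}`), `NL c c = 0`, `NL r c = NL c r = 0` (one infinite class). Then `ring` with `q² + q + 1 = 0`.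
-/

set_option autoImplicit false

noncomputable section

namespace CY

open Finset

private theorem ETwo_f {r : Pat 2} (hr : IsRef r) (k : ℤ) : r.f (2 * k) = 2 * k - 1 ∧ r.f (2 * k - 1) = 2 * k := by
  have h0 : r.f 0 = -1 := by
    have h := hr 0 (by norm_num) (by norm_num)
    rw [h]
    norm_num
  have h1 : r.f (-1) = 0 := by
    have h := hr (-1) (by norm_num) (by norm_num)
    rw [h]
    norm_num
  have h2 := Pat.per_mul r 0 k
  have h3 := Pat.per_mul r (-1) k
  rw [h0] at h2
  rw [h1] at h3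
  push_cast at h2 h3
  have e1 : (2 * k : ℤ) = 0 + k * 2 := by ring
  have e2 : (2 * k - 1 : ℤ) = -1 + k * 2 := by ring
  constructor
  · rw [e1, h2]
    ring
  · rw [e2, h3]
    ring

private theorem ETwo_g {r : Pat 2} (hr : IsRef r) (k : ℤ) : (Pat.rot r).f (2 * k) = 2 * k + 1 ∧ (Pat.rot r).f (2 * k + 1) = 2 * k := by
  have h1 := (ETwo_f hr (k + 1)).1
  have h2 := (ETwo_f hr (k + 1)).2
  constructor
  · show r.f (2 * k + 1) - 1 = 2 * k + 1
    have e1 : (2 * k + 1 : ℤ) = 2 * (k + 1) - 1 := by ring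
    rw [e1, h2]
  · show r.f (2 * k + 1 + 1) - 1 = 2 * k
    have e1 : (2 * k + 1 + 1 : ℤ) = 2 * (k + 1) := by ring
    rw [e1, h1]
    omega

private theorem ETwo_cases {r : Pat 2} (hr : IsRef r) (α : Pat 2) : α = r ∨ α = Pat.rot r := by
  have h1 := Pat.lt_per α 0
  have h2 := α.ne 0
  have h3 : α.f 0 = 1 ∨ α.f 0 = -1 := by
    rw [abs_lt] at h1
    push_cast at h1
    omega
  rcases h3 with h | h
  · right
    have h4 : α.f 1 = 0 := by
      have := α.inv 0
      rw [h] at this
      exact this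
    have h5 : α.f (-1) = -2 := by
      have := Pat.per_sub α 1
      rw [h4] at this
      push_cast at this
      exact this
    have h6 : α.f (-2) = -1 := by
      have := Pat.per_sub α 0
      rw [h] at this
      push_cast at this
      exact this
    have h7 : IsRef (Pat.rotInv α) := by
      intro x hx1 hx2
      push_cast at hx1 hx2
      have h8 : x = 0 ∨ x = -1 := by omega
      rcases h8 with rfl | rfl
      · show α.f (0 - 1) + 1 = -1 - 0
        have e : (0 - 1 : ℤ) = -1 := by norm_num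
        rw [e, h5]
        norm_num
      · show α.f (-1 - 1) + 1 = -1 - -1
        have e : (-1 - 1 : ℤ) = -2 := by norm_num
        rw [e, h6]
        norm_num
    have h9 := IsRef.unique h7 hr
    rw [← h9, Pat.rot_rotInv]
  · left
    have h4 : α.f (-1) = 0 := by
      have := α.inv 0
      rw [h] at this
      exact this
    refine IsRef.unique ?_ hr
    intro x hx1 hx2
    push_cast at hx1 hx2
    have h8 : x = 0 ∨ x = -1 := by omega
    rcases h8 with rfl | rfl
    · rw [h]
      norm_num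
    · rw [h4]
      norm_num

private theorem ETwo_cls {α : Pat 2} {m x : ℤ} (h1 : α.f m = m + 1) (h2 : α.f (m + 1) = m) (hx : x = m ∨ x = m + 1) :
    cls α α x = {m, m + 1} := by
  apply Set.Subset.antisymm
  · apply cls_subset
    · rcases hx with rfl | rfl
      · exact Or.inl rfl
      · exact Or.inr rfl
    · rintro y (rfl | hy)
      · rw [h1]
        exact Or.inr rfl
      · have hy' : y = m + 1 := hy
        rw [hy', h2]
        exact Or.inl rfl
    · rintro y (rfl | hy)
      · rw [h1]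
        exact Or.inr rfl
      · have hy' : y = m + 1 := hy
        rw [hy', h2]
        exact Or.inl rfl
  · have h3 := mem_cls_self α α x
    have h4 := cls_closed_left α α h3
    rintro y (rfl | hy)
    · rcases hx with rfl | rfl
      · exact h3
      · rw [h2] at h4
        exact h4
    · have hy' : y = m + 1 := hy
      rw [hy']
      rcases hx with rfl | rfl
      · rw [h1] at h4
        exact h4
      · exact h3

private theorem ETwo_inter (m : ℤ) (hm : m ≠ -1) : ¬ Odd (({m, m + 1} : Set ℤ) ∩ Set.Iio 0).ncard := by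
  rcases lt_or_ge m 0 with h | h
  · have h1 : ({m, m + 1} : Set ℤ) ∩ Set.Iio 0 = {m, m + 1} := by
      ext y
      simp only [Set.mem_inter_iff, Set.mem_insert_iff, Set.mem_singleton_iff, Set.mem_Iio]
      omega
    rw [h1, Set.ncard_pair (by omega)]
    decide
  · have h1 : ({m, m + 1} : Set ℤ) ∩ Set.Iio 0 = ∅ := by
      rw [Set.eq_empty_iff_forall_notMem]
      rintro y ⟨h1, h2⟩
      have h3 : y = m ∨ y = m + 1 := h1
      have h4 : y < 0 := h2
      omega
    rw [h1, Set.ncard_empty]
    decide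

private theorem ETwo_rr {r : Pat 2} (hr : IsRef r) : NL r r = 1 := by
  show (loopsAt 0 r r).ncard = 1
  have h : loopsAt 0 r r = {({-1, 0} : Set ℤ)} := by
    ext C
    constructor
    · rintro ⟨x, hC, -, hodd⟩
      obtain ⟨m, hm⟩ := Int.even_or_odd' x
      have h1 : ∃ k : ℤ, x = 2 * k - 1 ∨ x = 2 * k - 1 + 1 := by
        rcases hm with h | h
        · exact ⟨m, Or.inr (by omega)⟩
        · exact ⟨m + 1, Or.inl (by omega)⟩
      obtain ⟨k, hk⟩ := h1
      have h2 : cls r r x = {2 * k - 1, 2 * k - 1 + 1} := by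
        refine ETwo_cls ?_ ?_ hk
        · rw [(ETwo_f hr k).2]
          ring
        · have e : (2 * k - 1 + 1 : ℤ) = 2 * k := by ring
          rw [e, (ETwo_f hr k).1]
      rw [hC, h2] at hodd
      by_cases h3 : 2 * k - 1 = -1
      · rw [hC, h2, h3]
        rfl
      · exact absurd hodd (ETwo_inter _ h3)
    · intro hC
      have hC' : C = {-1, 0} := hC
      have h2 : cls r r 0 = {-1, -1 + 1} := by
        refine ETwo_cls ?_ ?_ (Or.inr (by norm_num))
        · have := (ETwo_f hr 0).2
          norm_num at this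
          rw [this]
          norm_num
        · have := (ETwo_f hr 0).1
          norm_num at this
          norm_num
          exact this
      have e : (-1 + 1 : ℤ) = 0 := by norm_num
      rw [e] at h2
      refine ⟨0, hC'.trans h2.symm, ?_, ?_⟩
      · rw [hC']
        exact (Set.finite_singleton 0).insert (-1)
      · have h1 : C ∩ Set.Iio 0 = {-1} := by
          rw [hC']
          ext y
          simp only [Set.mem_inter_iff, Set.mem_insert_iff, Set.mem_singleton_iff, Set.mem_Iio]
          omega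
        rw [h1, Set.ncard_singleton]
        exact odd_one
  rw [h, Set.ncard_singleton]

private theorem ETwo_cc {r : Pat 2} (hr : IsRef r) : NL (Pat.rot r) (Pat.rot r) = 0 := by
  show (loopsAt 0 (Pat.rot r) (Pat.rot r)).ncard = 0
  have h : loopsAt 0 (Pat.rot r) (Pat.rot r) = ∅ := by
    rw [Set.eq_empty_iff_forall_notMem]
    rintro C ⟨x, hC, -, hodd⟩
    obtain ⟨m, hm⟩ := Int.even_or_odd' x
    have h2 : cls (Pat.rot r) (Pat.rot r) x = {2 * m, 2 * m + 1} :=
      ETwo_cls (ETwo_g hr m).1 (ETwo_g hr m).2 hm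
    rw [hC, h2] at hodd
    exact ETwo_inter _ (by omega) hodd
  rw [h, Set.ncard_empty]

private theorem ETwo_rc {r : Pat 2} (hr : IsRef r) : NL r (Pat.rot r) = 0 := by
  show (loopsAt 0 r (Pat.rot r)).ncard = 0
  have h : loopsAt 0 r (Pat.rot r) = ∅ := by
    rw [Set.eq_empty_iff_forall_notMem]
    rintro C ⟨x, hC, hfin, -⟩
    have h1 : ∀ y ∈ cls r (Pat.rot r) x, y + 1 ∈ cls r (Pat.rot r) x := by
      intro y hy
      obtain ⟨m, hm | hm⟩ := Int.even_or_odd' y
      · have h2 := cls_closed_right r (Pat.rot r) hy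
        rw [hm, (ETwo_g hr m).1] at h2
        rw [hm]
        exact h2
      · have h2 := cls_closed_left r (Pat.rot r) hy
        have e : y = 2 * (m + 1) - 1 := by omega
        rw [e, (ETwo_f hr (m + 1)).2] at h2
        have e2 : y + 1 = 2 * (m + 1) := by omega
        rw [e2]
        exact h2
    have h3 : ∀ n : ℕ, x + (n : ℤ) ∈ cls r (Pat.rot r) x := by
      intro n
      induction n with
      | zero =>
        push_cast
        rw [add_zero]
        exact mem_cls_self r (Pat.rot r) x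
      | succ n ih =>
        have h4 := h1 _ ih
        push_cast
        rw [← add_assoc]
        exact h4
    refine Set.infinite_of_injective_forall_mem (f := fun n : ℕ => x + (n : ℤ)) ?_ h3 (hC ▸ hfin)
    intro a b hab
    have hab' : x + (a : ℤ) = x + (b : ℤ) := hab
    omega
  rw [h, Set.ncard_empty]

private theorem ETwo_ev {q : ℂ} {P : Pat 2 → MvPolynomial ℕ ℂ} (hP : IsPsi q 2 P) {r : Pat 2} (hr : IsRef r) (z : ℕ → ℂ) :
    ev P z r = F q (z 0) (z 1) ∧ ev P z (Pat.rot r) = F q (z 1) (z 0) := by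
  have h1 : ∀ z : ℕ → ℂ, ev P z r = F q (z 0) (z 1) := by
    intro z
    rw [hP.ref z r hr]
    have e1 : Ioo 0 2 = {1} := by decide
    have e2 : Ioo 1 2 = ∅ := by decide
    rw [Finset.prod_range_succ, Finset.prod_range_succ, Finset.prod_range_zero, e1, e2, Finset.prod_singleton,
      Finset.prod_empty, one_mul, mul_one]
  refine ⟨h1 z, ?_⟩
  have h2 : cyc 2 (cyc 2 z) = z := by
    funext k
    unfold cyc
    rcases Nat.lt_or_ge k 1 with h | h
    · have hk : k = 0 := by omega
      subst hk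
      simp
    · rcases Nat.lt_or_ge k 2 with h' | h'
      · have hk : k = 1 := by omega
        subst hk
        simp
      · rw [if_neg (by omega), if_neg (by omega), if_neg (by omega), if_neg (by omega)]
  have h3 := congrFun (hP.rot (cyc 2 z)) (Pat.rot r)
  rw [h2, R_apply, h1] at h3
  rw [h3]
  have e3 : cyc 2 z 0 = z 1 := by
    unfold cyc
    simp
  have e4 : cyc 2 z 1 = z 0 := by
    unfold cyc
    simp
  rw [e3, e4]

/-- `E_x` for period `2` -/
theorem EE_two (x : ℂ) {q : ℂ} (hq : q ^ 2 + q + 1 = 0) {Pb P : Pat 2 → MvPolynomial ℕ ℂ}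
    (hPb : IsPsi (q ^ 2) 2 Pb) (hP : IsPsi q 2 P) (z : ℕ → ℂ) :
    EE x Pb P z = (x + 2) * (z 0 ^ 2 + z 1 ^ 2) + (x + 5) * (z 0 * z 1) := by
  obtain ⟨r, hr⟩ := exists_ref (L := 2) (by decide) (by norm_num)
  have hne : r ≠ Pat.rot r := by
    intro h
    have h1 := (ETwo_f hr 0).1
    have h2 := (ETwo_g hr 0).1
    rw [← h, h1] at h2
    omega
  have hsum : ∀ g : Pat 2 → ℂ, ∑ α, g α = g r + g (Pat.rot r) := by
    intro g
    refine Fintype.sum_eq_add r (Pat.rot r) hne ?_
    rintro α ⟨h1, h2⟩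
    rcases ETwo_cases hr α with h | h
    · exact absurd h h1
    · exact absurd h h2
  unfold EE
  rw [BB_apply, hsum, hsum, hsum, (ETwo_ev hP hr z).1, (ETwo_ev hP hr z).2, (ETwo_ev hPb hr z).1, (ETwo_ev hPb hr z).2,
    ETwo_rr hr, ETwo_cc hr, ETwo_rc hr, NL_comm (Pat.rot r) r, ETwo_rc hr]
  unfold F
  have hq3 : q ^ 3 = 1 := by
    linear_combination (q - 1) * hq
  set a := z 0
  set b := z 1
  have k1 : (q ^ 2 * a - (q ^ 2) ^ 2 * b) * (q * a - q ^ 2 * b) = a ^ 2 + a * b + b ^ 2 := by
    linear_combination (a ^ 2 + b ^ 2 * (q ^ 3 + 1) - a * b * (q ^ 2 + q)) * hq3 - a * b * hq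
  have k2 : (q ^ 2 * a - (q ^ 2) ^ 2 * b) * (q * b - q ^ 2 * a) + (q ^ 2 * b - (q ^ 2) ^ 2 * a) * (q * a - q ^ 2 * b) =
      a ^ 2 + b ^ 2 + 4 * (a * b) := by
    linear_combination (2 * a * b + 2 * a * b * (q ^ 3 + 1) - (a ^ 2 + b ^ 2) * (q ^ 2 + q)) * hq3 - (a ^ 2 + b ^ 2) * hq
  have k3 : (q ^ 2 * b - (q ^ 2) ^ 2 * a) * (q * b - q ^ 2 * a) = a ^ 2 + a * b + b ^ 2 := by
    linear_combination (b ^ 2 + a ^ 2 * (q ^ 3 + 1) - a * b * (q ^ 2 + q)) * hq3 - a * b * hq
  linear_combination x * k1 + k2 + k3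

end CY
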