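import Pool.Agent.Lib.MP_216314_pr.Z.UStp
import Pool.Agent.Lib.MP_216314_pr.Z.ESw
import Pool.Agent.Lib.MP_216314_pr.Z.EFus
import Pool.Agent.Lib.MP_216314_pr.Z.ETop
import Pool.Agent.Lib.MP_216314_pr.Z.ETwo

/-!
# The exact formula for `E_x`

Induction on `n`, period `2n + 2`. Base: `EE_two` and a direct computation of `WW q w 2 z`: `(1 + w²) T + w ((b - q² a)³ - (a - q² b)³)/(b - a)` and
`(b - q² a)³ - (a - q² b)³ = (b - a)(2T + 3ab)`, `w x = w² + 1`. Step: `step` applied to `f z = w^(n+2) * EE z`, `f' z = w^(n+1) * EE' z`: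
`EE_sw`, `EE_fus`, `EE_top`, with `w (x + 2) = (1 + w)²`.
-/

set_option autoImplicit false

noncomputable section

namespace CY

open Finset

private theorem Main1_key {q : ℂ} (hq : q ^ 2 + q + 1 = 0) {a b : ℂ} (h : a ≠ b) :
    (b - q ^ 2 * a) ^ 3 / (b - a) + (a - q ^ 2 * b) ^ 3 / (a - b) =
      2 * (a ^ 2 + a * b + b ^ 2) + 3 * (a * b) := by
  have hba : b - a ≠ 0 := sub_ne_zero.2 (Ne.symm h)
  have e1 : a - b = -(b - a) := by ring
  have key : (b - q ^ 2 * a) ^ 3 - (a - q ^ 2 * b) ^ 3 =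
      (b - a) * (2 * (a ^ 2 + a * b + b ^ 2) + 3 * (a * b)) := by
    linear_combination ((b ^ 3 - a ^ 3) * (q - 1) * (q ^ 3 + 1) +
      3 * (q ^ 2 - q + 1) * (a ^ 2 * b - a * b ^ 2)) * hq
  rw [e1, div_neg, ← sub_eq_add_neg, ← sub_div, key, mul_div_cancel_left₀ _ hba]

theorem WW_two {q : ℂ} (hq : q ^ 2 + q + 1 = 0) (w : ℂ) (z : ℕ → ℂ) (h : z 0 ≠ z 1) :
    WW q w 2 z = (1 + w) ^ 2 * (z 0 ^ 2 + z 1 ^ 2) + (1 + 5 * w + w ^ 2) * (z 0 * z 1) := by
  unfold WW
  have e0 : ∑ σ : Fin 2 → Bool, wt w σ * pp q σ z =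
      ∑ s : Bool × Bool, wt w ![s.1, s.2] * pp q ![s.1, s.2] z := by
    rw [← Equiv.sum_comp (finTwoArrowEquiv Bool).symm]
    rfl
  have e1 : ∀ s t : Bool, wt w ![s, t] = (if s then w else 1) * (if t then w else 1) := by
    intro s t
    unfold wt
    rw [Fin.prod_univ_two]
    rfl
  have i0 : (Ioi (0 : Fin 2)) = {1} := by decide
  have i1 : (Ioi (1 : Fin 2)) = ∅ := by decide
  have e2 : ∀ s t : Bool, pp q ![s, t] z = gg q s t (z 0) (z 1) := by
    intro s t
    unfold pp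
    rw [Fin.prod_univ_two, i0, i1, prod_empty, prod_singleton, mul_one]
    rfl
  rw [e0, Fintype.sum_prod_type, Fintype.sum_bool, Fintype.sum_bool, Fintype.sum_bool]
  simp only [e1, e2]
  have h2 := Main1_key hq h
  unfold gg
  simp only [if_true, Bool.false_eq_true, if_false, reduceCtorEq]
  linear_combination w * h2

theorem EE_eq {q : ℂ} (hq : q ^ 2 + q + 1 = 0) {x w : ℂ} (hw : x * w = w ^ 2 + 1) (n : ℕ)
    {Pb P : Pat (2 * n + 2) → MvPolynomial ℕ ℂ}
    (hPb : IsPsi (q ^ 2) (2 * n + 2) Pb) (hP : IsPsi q (2 * n + 2) P) {z : ℕ → ℂ}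
    (hz : Gen (2 * n + 2) z) : w ^ (n + 1) * EE x Pb P z = WW q w (2 * n + 2) z := by
  have hq2 : (q ^ 2) ^ 2 + q ^ 2 + 1 = 0 := by
    linear_combination (q ^ 2 - q + 1) * hq
  have key : ∀ n L : ℕ, L = 2 * n + 2 → ∀ (Pb P : Pat L → MvPolynomial ℕ ℂ),
      IsPsi (q ^ 2) L Pb → IsPsi q L P → ∀ z : ℕ → ℂ, Gen L z →
        w ^ (n + 1) * EE x Pb P z = WW q w L z := by
    intro n
    induction n with
    | zero =>
      intro L hL Pb P hPb hP z hz
      obtain rfl : L = 2 := by omega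
      have h01 : z 0 ≠ z 1 := fun h => hz.2 0 1 (by omega) (by omega) (by omega) (by rw [h])
      rw [EE_two x hq hPb hP z, WW_two hq w z h01]
      linear_combination (z 0 ^ 2 + z 1 ^ 2 + z 0 * z 1) * hw
    | succ n ih =>
      intro L hL Pb P hPb hP z hz
      obtain ⟨M, hM⟩ : ∃ M, M = 2 * n + 2 := ⟨_, rfl⟩
      obtain rfl : L = M + 2 := by omega
      have hM0 : 0 < M := by omega
      have hME : Even M := ⟨n + 1, by omega⟩
      obtain ⟨Pb', hPb'⟩ := exists_psi hq2 hM0 hME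
      obtain ⟨P', hP'⟩ := exists_psi hq hM0 hME
      have hf : SymF (M + 2) (fun z => w ^ (n + 2) * EE x Pb P z) := by
        intro i hi z
        show w ^ (n + 2) * EE x Pb P (sw i z) = w ^ (n + 2) * EE x Pb P z
        rw [EE_sw x hq hPb hP hi z]
      have h1 : ∀ a, a ≠ 0 → ∀ y, (fun z => w ^ (n + 2) * EE x Pb P z) (insP 0 a (q ^ 2 * a) y) =
          w * (3 * q ^ 2 * a ^ 2) * (∏ j ∈ range M, (y j - q * a) ^ 4) *
            (fun z => w ^ (n + 1) * EE x Pb' P' z) y := by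
        intro a ha y
        show w ^ (n + 2) * EE x Pb P (insP 0 a (q ^ 2 * a) y) =
          w * (3 * q ^ 2 * a ^ 2) * (∏ j ∈ range M, (y j - q * a) ^ 4) *
            (w ^ (n + 1) * EE x Pb' P' y)
        rw [EE_fus x hq hM0 hME hPb hP hPb' hP' ha y]
        ring
      have hc : ∀ y, ∃ c : ℕ → ℕ → ℂ,
          (∀ s t : ℂ, (fun z => w ^ (n + 2) * EE x Pb P z) (insP 0 s t y) =
            ∑ a ∈ range (2 * M + 3), ∑ b ∈ range (2 * M + 3), s ^ a * t ^ b * c a b) ∧
          (∀ b, 2 * M < b → c (2 * M + 2) b = 0) ∧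
            c (2 * M + 2) (2 * M) = (1 + w) ^ 2 * (fun z => w ^ (n + 1) * EE x Pb' P' z) y := by
        intro y
        obtain ⟨c, hc1, hc2, hc3⟩ := EE_top x hq hM0 hME hPb hP hPb' hP' y
        refine ⟨fun a b => w ^ (n + 2) * c a b, ?_, ?_, ?_⟩
        · intro s t
          show w ^ (n + 2) * EE x Pb P (insP 0 s t y) = _
          rw [hc1 s t, mul_sum]
          refine sum_congr rfl fun a _ => ?_
          rw [mul_sum]
          refine sum_congr rfl fun b _ => ?_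
          ring
        · intro b hb
          show w ^ (n + 2) * c (2 * M + 2) b = 0
          rw [hc2 b hb, mul_zero]
        · show w ^ (n + 2) * c (2 * M + 2) (2 * M) = (1 + w) ^ 2 * (w ^ (n + 1) * EE x Pb' P' y)
          rw [hc3]
          linear_combination (w ^ (n + 1) * EE x Pb' P' y) * hw
      have h3 : ∀ y, Gen M y → (fun z => w ^ (n + 1) * EE x Pb' P' z) y = WW q w M y := by
        intro y hy
        exact ih M hM Pb' P' hPb' hP' y hy
      exact step hq w hf h1 hc h3 hz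
  exact key n (2 * n + 2) rfl Pb P hPb hP z hz

end CY
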