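import Pool.Agent.Lib.MP_216314_pr.Z.HomD
import Pool.Agent.Lib.MP_216314_pr.Z.HomK
import Pool.Agent.Lib.MP_216314_pr.Z.Main1

/-!
# The homogeneous value

Put `a_i = i + 1`, `s_i = ε a_i` (`ε > 0` small), `z_i = zs q s_i → 1`. `Gen L z` for small `ε` (`z_i ≠ z_j` by `zs_sub`; `z_i³ = z_j³` would give `z_i/z_j ∈ {1, q, q²}`, near
`1`). `ts (ε a_j) = ε b_j(ε)`, `b_j(ε) = -a_j/(1 - ε a_j) → -a_j`. By `EE_eq`, `WW_det`, `MM_det`:
`w^(n+1) EE(z) ∏_{i<j} (z_i - z_j)² = ∏ z_i ∏_{i<j} T_ij² ∏ (1 + q s_i)²/(1 - s_i) det KK`. Divide by `ε^(L(L-1))` and let `ε → 0`: `(z_i - z_j)²/ε² → (q²-q)² (a_i - a_j)² = -3 (a_i-a_j)²`,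
`T_ij² → 9`, `det KK/ε^(L(L-1)) → vdm(a) vdm(-a) det(c)`, `vdm(-a) = (-1)^(L(L-1)/2) vdm(a)`, `vdm(a)² = ∏_{i<j}(a_i - a_j)²` (`Matrix.det_vandermonde`).
So `w^(n+1) EE(1) (-3)^N = 9^N (-1)^N det(c)`, `N = L(L-1)/2` = the number of pairs, i.e. `w^(n+1) EE(1) = 3^N det(c)`.
-/

set_option autoImplicit false

noncomputable section

namespace CY

open Finset Filter Topology

/-- `1 + w B`, `B` the matrix of the binomial coefficients `choose (i+j) i` -/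
def IB (w : ℂ) (L : ℕ) : Matrix (Fin L) (Fin L) ℂ :=
  Matrix.of fun i j => (if i = j then 1 else 0) + w * (((i : ℕ) + (j : ℕ)).choose (i : ℕ) : ℂ)

/-- the small parameters -/
def HomE_s (ε : ℝ) (k : ℕ) : ℂ := (ε : ℂ) * ((k : ℂ) + 1)

theorem HomE_s_tendsto (k : ℕ) : Tendsto (fun ε : ℝ => HomE_s ε k) (𝓝[>] 0) (𝓝 0) := by
  have h : Continuous (fun ε : ℝ => HomE_s ε k) := by
    unfold HomE_s
    exact Complex.continuous_ofReal.mul continuous_const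
  have h2 := h.tendsto 0
  have h3 : HomE_s 0 k = 0 := by
    unfold HomE_s
    rw [Complex.ofReal_zero, zero_mul]
  rw [h3] at h2
  exact h2.mono_left nhdsWithin_le_nhds

theorem HomE_lin_tendsto (c : ℂ) (k : ℕ) :
    Tendsto (fun ε : ℝ => 1 + c * HomE_s ε k) (𝓝[>] 0) (𝓝 1) := by
  have h1 : Tendsto (fun ε : ℝ => 1 + c * HomE_s ε k) (𝓝[>] 0) (𝓝 (1 + c * 0)) :=
    tendsto_const_nhds.add (tendsto_const_nhds.mul (HomE_s_tendsto k))
  rw [mul_zero, add_zero] at h1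
  exact h1

theorem HomE_one_sub_tendsto (k : ℕ) :
    Tendsto (fun ε : ℝ => 1 - HomE_s ε k) (𝓝[>] 0) (𝓝 1) := by
  have h1 : Tendsto (fun ε : ℝ => 1 - HomE_s ε k) (𝓝[>] 0) (𝓝 (1 - 0)) :=
    tendsto_const_nhds.sub (HomE_s_tendsto k)
  rw [sub_zero] at h1
  exact h1

theorem HomE_z_tendsto (q : ℂ) (k : ℕ) :
    Tendsto (fun ε : ℝ => zs q (HomE_s ε k)) (𝓝[>] 0) (𝓝 1) := by
  have h2 : Tendsto (fun ε : ℝ => zs q (HomE_s ε k)) (𝓝[>] 0) (𝓝 (1 / 1)) := by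
    unfold zs
    exact (HomE_lin_tendsto (q ^ 2) k).div (HomE_lin_tendsto q k) one_ne_zero
  rw [div_one] at h2
  exact h2

theorem HomE_T_tendsto (q : ℂ) (i j : ℕ) :
    Tendsto (fun ε : ℝ => zs q (HomE_s ε i) ^ 2 + zs q (HomE_s ε i) * zs q (HomE_s ε j) +
      zs q (HomE_s ε j) ^ 2) (𝓝[>] 0) (𝓝 3) := by
  have h1 := HomE_z_tendsto q i
  have h2 := HomE_z_tendsto q j
  have h3 := ((h1.pow 2).add (h1.mul h2)).add (h2.pow 2)
  have h4 : (1 : ℂ) ^ 2 + 1 * 1 + 1 ^ 2 = 3 := by norm_num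
  rw [h4] at h3
  exact h3

theorem HomE_q {q : ℂ} (hq : q ^ 2 + q + 1 = 0) : (q ^ 2 - q) ^ 2 = -3 := by
  linear_combination (q ^ 2 - 3 * q + 3) * hq

theorem HomE_q0 {q : ℂ} (hq : q ^ 2 + q + 1 = 0) : q ^ 2 - q ≠ 0 := by
  intro h
  have h1 := HomE_q hq
  rw [h] at h1
  norm_num at h1

theorem HomE_card (L : ℕ) : 2 * ∑ i : Fin L, (Ioi i).card = L * (L - 1) := by
  have h1 : ∑ i : Fin L, (Ioi i).card = ∑ i ∈ range L, (L - 1 - i) := by
    rw [Finset.sum_range]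
    exact Finset.sum_congr rfl fun i _ => Fin.card_Ioi i
  rw [h1, Finset.sum_range_reflect (fun i => i) L, mul_comm, Finset.sum_range_id_mul_two]

theorem HomE_pairs (L : ℕ) (c : ℂ) :
    ∏ i : Fin L, ∏ _j ∈ Ioi i, c = c ^ (∑ i : Fin L, (Ioi i).card) := by
  rw [← Finset.prod_pow_eq_pow_sum]
  exact Finset.prod_congr rfl fun i _ => Finset.prod_const c

theorem HomE_EE_cont (x : ℂ) {L : ℕ} (Pb P : Pat L → MvPolynomial ℕ ℂ) :
    Continuous (fun z : ℕ → ℂ => EE x Pb P z) := by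
  unfold EE
  simp only [BB_apply, ev]
  refine continuous_finsetSum _ fun β _ => continuous_finsetSum _ fun α _ => ?_
  exact ((MvPolynomial.continuous_eval (Pb β)).mul (MvPolynomial.continuous_eval (P α))).mul
    continuous_const

theorem HomE_EE_tendsto (q x : ℂ) {L : ℕ} (Pb P : Pat L → MvPolynomial ℕ ℂ) :
    Tendsto (fun ε : ℝ => EE x Pb P (fun k => zs q (HomE_s ε k))) (𝓝[>] 0)
      (𝓝 (EE x Pb P (fun _ => 1))) := by
  have h1 : Tendsto (fun (ε : ℝ) (k : ℕ) => zs q (HomE_s ε k)) (𝓝[>] 0) (𝓝 (fun _ => 1)) :=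
    tendsto_pi_nhds.2 fun k => HomE_z_tendsto q k
  exact ((HomE_EE_cont x Pb P).tendsto _).comp h1

/-- the condition of genericity for small `ε` -/
theorem HomE_gen {q : ℂ} (hq : q ^ 2 + q + 1 = 0) (L : ℕ) :
    ∀ᶠ ε : ℝ in 𝓝[>] 0, Gen L (fun k => zs q (HomE_s ε k)) ∧
      (∀ i, i < L → 1 + q * HomE_s ε i ≠ 0 ∧ HomE_s ε i ≠ 1) ∧
      ∀ i j, i < L → j < L → 1 - HomE_s ε j + HomE_s ε i * HomE_s ε j ≠ 0 := by
  have e1 : ∀ᶠ ε : ℝ in 𝓝[>] 0, ∀ i : Fin L, 1 + q * HomE_s ε i ≠ 0 :=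
    Filter.eventually_all.2 fun i => (HomE_lin_tendsto q i).eventually_ne one_ne_zero
  have e2 : ∀ᶠ ε : ℝ in 𝓝[>] 0, ∀ i : Fin L, 1 - HomE_s ε i ≠ 0 :=
    Filter.eventually_all.2 fun i => (HomE_one_sub_tendsto i).eventually_ne one_ne_zero
  have e3 : ∀ᶠ ε : ℝ in 𝓝[>] 0, ∀ i : Fin L, zs q (HomE_s ε i) ≠ 0 :=
    Filter.eventually_all.2 fun i => (HomE_z_tendsto q i).eventually_ne one_ne_zero
  have e4 : ∀ᶠ ε : ℝ in 𝓝[>] 0, ∀ i : Fin L, ∀ j : Fin L,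
      zs q (HomE_s ε i) ^ 2 + zs q (HomE_s ε i) * zs q (HomE_s ε j) + zs q (HomE_s ε j) ^ 2 ≠ 0 :=
    Filter.eventually_all.2 fun i => Filter.eventually_all.2 fun j =>
      (HomE_T_tendsto q i j).eventually_ne (by norm_num)
  have e5 : ∀ᶠ ε : ℝ in 𝓝[>] 0, ∀ i : Fin L, ∀ j : Fin L,
      1 - HomE_s ε j + HomE_s ε i * HomE_s ε j ≠ 0 := by
    refine Filter.eventually_all.2 fun i => Filter.eventually_all.2 fun j => ?_
    have h1 : Tendsto (fun ε : ℝ => 1 - HomE_s ε j + HomE_s ε i * HomE_s ε j) (𝓝[>] 0)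
        (𝓝 (1 + 0 * 0)) :=
      (HomE_one_sub_tendsto j).add ((HomE_s_tendsto i).mul (HomE_s_tendsto j))
    exact h1.eventually_ne (by norm_num)
  filter_upwards [e1, e2, e3, e4, e5, self_mem_nhdsWithin] with ε h1 h2 h3 h4 h5 h6
  have h6' : (0 : ℝ) < ε := h6
  refine ⟨⟨fun i hi => h3 ⟨i, hi⟩, ?_⟩, fun i hi => ⟨h1 ⟨i, hi⟩, ?_⟩,
    fun i j hi hj => h5 ⟨i, hi⟩ ⟨j, hj⟩⟩
  · intro i j hi hj hij heq
    have h7 : (zs q (HomE_s ε i) - zs q (HomE_s ε j)) *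
        (zs q (HomE_s ε i) ^ 2 + zs q (HomE_s ε i) * zs q (HomE_s ε j) + zs q (HomE_s ε j) ^ 2) = 0 := by
      have h8 : zs q (HomE_s ε i) ^ 3 = zs q (HomE_s ε j) ^ 3 := heq
      linear_combination h8
    rcases mul_eq_zero.1 h7 with h8 | h8
    · rw [zs_sub hq (h1 ⟨i, hi⟩) (h1 ⟨j, hj⟩), div_eq_zero_iff] at h8
      rcases h8 with h9 | h9
      · rcases mul_eq_zero.1 h9 with h10 | h10
        · exact HomE_q0 hq h10
        · have h11 : (ε : ℂ) * ((i : ℂ) - j) = 0 := by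
            unfold HomE_s at h10
            linear_combination h10
          rcases mul_eq_zero.1 h11 with h12 | h12
          · exact h6'.ne' (Complex.ofReal_eq_zero.1 h12)
          · have h13 : (i : ℂ) = j := by linear_combination h12
            exact hij (Nat.cast_injective h13)
      · exact (mul_ne_zero (h1 ⟨i, hi⟩) (h1 ⟨j, hj⟩)) h9
    · exact h4 ⟨i, hi⟩ ⟨j, hj⟩ h8
  · intro h7
    apply h2 ⟨i, hi⟩
    have h8 : HomE_s ε i = 1 := h7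
    show 1 - HomE_s ε i = 0
    rw [h8, sub_self]

/-- the vectors of the kernel determinant -/
def HomE_a (L : ℕ) (i : Fin L) : ℂ := ((i : ℕ) : ℂ) + 1

def HomE_b (L : ℕ) (ε : ℝ) (i : Fin L) : ℂ := -HomE_a L i / (1 - HomE_s ε i)

theorem HomE_a_inj (L : ℕ) : Function.Injective (HomE_a L) := by
  intro i j h
  unfold HomE_a at h
  have h1 : ((i : ℕ) : ℂ) = ((j : ℕ) : ℂ) := by linear_combination h
  exact Fin.ext (Nat.cast_injective h1)

theorem HomE_kernel (w : ℂ) (L : ℕ) :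
    Tendsto (fun ε : ℝ => (Matrix.of fun i j : Fin L =>
        KK w (HomE_s ε i) (ts (HomE_s ε j))).det / (ε : ℂ) ^ (L * (L - 1)))
      (𝓝[>] 0) (𝓝 ((Matrix.vandermonde (HomE_a L)).det *
        (Matrix.vandermonde (fun i => -HomE_a L i)).det * (IB w L).det)) := by
  have hb : Tendsto (HomE_b L) (𝓝[>] 0) (𝓝 (fun i => -HomE_a L i)) := by
    refine tendsto_pi_nhds.2 fun i => ?_
    have h1 : Tendsto (fun ε : ℝ => -HomE_a L i / (1 - HomE_s ε i)) (𝓝[>] 0)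
        (𝓝 (-HomE_a L i / 1)) :=
      tendsto_const_nhds.div (HomE_one_sub_tendsto i) one_ne_zero
    rw [div_one] at h1
    exact h1
  have hb0 : Function.Injective (fun i => -HomE_a L i) := by
    intro i j h
    exact HomE_a_inj L (neg_injective h)
  have h1 := tendsto_det_kernel (L := L) (ck w) (1 + ‖w‖) 2 (ck_bound w) (KK w) (1 / 4)
    (by norm_num) (fun s t hs ht => KK_hasSum w hs ht) (HomE_a L) (HomE_a_inj L) (HomE_b L)
    (fun i => -HomE_a L i) hb0 hb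
  have h2 : (Matrix.of fun k l : Fin L => ck w k l) = IB w L := by
    ext k l
    simp only [Matrix.of_apply, ck, IB, Fin.val_inj]
  rw [h2] at h1
  have h3 : ∀ ε : ℝ, (Matrix.of fun i j : Fin L => KK w (HomE_s ε i) (ts (HomE_s ε j)))
      = Matrix.of fun i j : Fin L => KK w ((ε : ℂ) * HomE_a L i) ((ε : ℂ) * HomE_b L ε j) := by
    intro ε
    ext i j
    simp only [Matrix.of_apply]
    have h4 : ts (HomE_s ε j) = (ε : ℂ) * HomE_b L ε j := by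
      unfold ts HomE_b HomE_a HomE_s
      ring
    have h5 : HomE_s ε i = (ε : ℂ) * HomE_a L i := rfl
    rw [h4, h5]
  simp only [h3]
  exact h1

/-- THE HOMOGENEOUS VALUE: `E_x(1) = 3^(L(L-1)/2) w^(-L/2) det(1 + w B)`, `L = 2n+2` -/
theorem EE_hom {q : ℂ} (hq : q ^ 2 + q + 1 = 0) {x w : ℂ} (hw : x * w = w ^ 2 + 1) (n : ℕ)
    {Pb P : Pat (2 * n + 2) → MvPolynomial ℕ ℂ}
    (hPb : IsPsi (q ^ 2) (2 * n + 2) Pb) (hP : IsPsi q (2 * n + 2) P) :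
    w ^ (n + 1) * EE x Pb P (fun _ => 1) = 3 ^ ((n + 1) * (2 * n + 1)) * (IB w (2 * n + 2)).det := by
  obtain ⟨L, hL⟩ : ∃ L, L = 2 * n + 2 := ⟨_, rfl⟩
  have hN : ∑ i : Fin L, (Ioi i).card = (n + 1) * (2 * n + 1) := by
    have h1 := HomE_card L
    have h2 : L * (L - 1) = 2 * ((n + 1) * (2 * n + 1)) := by
      rw [hL]
      have h3 : 2 * n + 2 - 1 = 2 * n + 1 := by omega
      rw [h3]
      ring
    rw [h2] at h1
    exact Nat.eq_of_mul_eq_mul_left two_pos h1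
  have hexact := fun z hz => EE_eq hq hw n hPb hP (z := z) hz
  clear hPb hP
  revert Pb P
  rw [← hL, ← hN]
  intro Pb P hexact
  -- the quotients of the squares of the differences
  have hG : ∀ i j : Fin L, Tendsto (fun ε : ℝ => ((q ^ 2 - q) * (HomE_a L i - HomE_a L j) /
      ((1 + q * HomE_s ε i) * (1 + q * HomE_s ε j))) ^ 2) (𝓝[>] 0)
      (𝓝 (-3 * (HomE_a L i - HomE_a L j) ^ 2)) := by
    intro i j
    have h1 : Tendsto (fun ε : ℝ => ((q ^ 2 - q) * (HomE_a L i - HomE_a L j) /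
      ((1 + q * HomE_s ε i) * (1 + q * HomE_s ε j))) ^ 2) (𝓝[>] 0)
      (𝓝 (((q ^ 2 - q) * (HomE_a L i - HomE_a L j) / (1 * 1)) ^ 2)) :=
      (tendsto_const_nhds.div ((HomE_lin_tendsto q i).mul (HomE_lin_tendsto q j))
        (by norm_num)).pow 2
    have h2 : ((q ^ 2 - q) * (HomE_a L i - HomE_a L j) / (1 * 1)) ^ 2
        = -3 * (HomE_a L i - HomE_a L j) ^ 2 := by
      rw [mul_one, div_one, mul_pow, HomE_q hq]
    rw [h2] at h1
    exact h1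
  have hlhs : Tendsto (fun ε : ℝ => w ^ (n + 1) * EE x Pb P (fun k => zs q (HomE_s ε k)) *
      ∏ i : Fin L, ∏ j ∈ Ioi i, ((q ^ 2 - q) * (HomE_a L i - HomE_a L j) /
        ((1 + q * HomE_s ε i) * (1 + q * HomE_s ε j))) ^ 2) (𝓝[>] 0)
      (𝓝 (w ^ (n + 1) * EE x Pb P (fun _ => 1) *
        ∏ i : Fin L, ∏ j ∈ Ioi i, (-3 * (HomE_a L i - HomE_a L j) ^ 2))) :=
    (tendsto_const_nhds.mul (HomE_EE_tendsto q x Pb P)).mul
      (tendsto_finsetProd _ fun i _ => tendsto_finsetProd _ fun j _ => hG i j)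
  have hrhs : Tendsto (fun ε : ℝ => (∏ i : Fin L, zs q (HomE_s ε i)) *
      (∏ i : Fin L, ∏ j ∈ Ioi i, (zs q (HomE_s ε i) ^ 2 + zs q (HomE_s ε i) * zs q (HomE_s ε j) +
        zs q (HomE_s ε j) ^ 2) ^ 2) *
      ((∏ i : Fin L, (1 + q * HomE_s ε i) ^ 2 / (1 - HomE_s ε i)) *
        ((Matrix.of fun i j : Fin L =>
        KK w (HomE_s ε i) (ts (HomE_s ε j))).det / (ε : ℂ) ^ (L * (L - 1))))) (𝓝[>] 0)
      (𝓝 ((∏ _i : Fin L, (1 : ℂ)) * (∏ i : Fin L, ∏ _j ∈ Ioi i, (3 : ℂ) ^ 2) *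
        ((∏ _i : Fin L, (1 : ℂ) ^ 2 / 1) * ((Matrix.vandermonde (HomE_a L)).det *
        (Matrix.vandermonde (fun i => -HomE_a L i)).det * (IB w L).det)))) := by
    have t1 : Tendsto (fun ε : ℝ => ∏ i : Fin L, zs q (HomE_s ε i)) (𝓝[>] 0)
        (𝓝 (∏ _i : Fin L, (1 : ℂ))) :=
      tendsto_finsetProd _ fun i _ => HomE_z_tendsto q i
    have t2 : Tendsto (fun ε : ℝ => ∏ i : Fin L, ∏ j ∈ Ioi i, (zs q (HomE_s ε i) ^ 2 +
        zs q (HomE_s ε i) * zs q (HomE_s ε j) + zs q (HomE_s ε j) ^ 2) ^ 2) (𝓝[>] 0)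
        (𝓝 (∏ i : Fin L, ∏ _j ∈ Ioi i, (3 : ℂ) ^ 2)) := by
      refine tendsto_finsetProd _ fun i _ => ?_
      refine tendsto_finsetProd _ fun j _ => ?_
      exact (HomE_T_tendsto q i j).pow 2
    have t3 : Tendsto (fun ε : ℝ => ∏ i : Fin L, (1 + q * HomE_s ε i) ^ 2 / (1 - HomE_s ε i))
        (𝓝[>] 0) (𝓝 (∏ _i : Fin L, (1 : ℂ) ^ 2 / 1)) := by
      refine tendsto_finsetProd _ fun i _ => ?_
      exact ((HomE_lin_tendsto q i).pow 2).div (HomE_one_sub_tendsto i) one_ne_zero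
    exact (t1.mul t2).mul (t3.mul (HomE_kernel w L))
  have hev : (fun ε : ℝ => w ^ (n + 1) * EE x Pb P (fun k => zs q (HomE_s ε k)) *
      ∏ i : Fin L, ∏ j ∈ Ioi i, ((q ^ 2 - q) * (HomE_a L i - HomE_a L j) /
        ((1 + q * HomE_s ε i) * (1 + q * HomE_s ε j))) ^ 2) =ᶠ[𝓝[>] 0]
      (fun ε : ℝ => (∏ i : Fin L, zs q (HomE_s ε i)) *
      (∏ i : Fin L, ∏ j ∈ Ioi i, (zs q (HomE_s ε i) ^ 2 + zs q (HomE_s ε i) * zs q (HomE_s ε j) +
        zs q (HomE_s ε j) ^ 2) ^ 2) *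
      ((∏ i : Fin L, (1 + q * HomE_s ε i) ^ 2 / (1 - HomE_s ε i)) *
        ((Matrix.of fun i j : Fin L =>
        KK w (HomE_s ε i) (ts (HomE_s ε j))).det / (ε : ℂ) ^ (L * (L - 1))))) := by
    filter_upwards [HomE_gen hq L, self_mem_nhdsWithin] with ε h1 h2
    have h2' : (0 : ℝ) < ε := h2
    have hε : (ε : ℂ) ≠ 0 := Complex.ofReal_ne_zero.2 h2'.ne'
    obtain ⟨hgen, h3, h4⟩ := h1
    have h5 := WW_det hq w hgen
    rw [← hexact _ hgen, MM_det hq w (fun k => HomE_s ε k) h3 h4] at h5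
    have h6 : ∏ i : Fin L, ∏ j ∈ Ioi i, (zs q (HomE_s ε i) - zs q (HomE_s ε j)) ^ 2
        = (ε : ℂ) ^ (L * (L - 1)) * ∏ i : Fin L, ∏ j ∈ Ioi i,
          ((q ^ 2 - q) * (HomE_a L i - HomE_a L j) /
          ((1 + q * HomE_s ε i) * (1 + q * HomE_s ε j))) ^ 2 := by
      rw [← HomE_card L, pow_mul, ← HomE_pairs, ← Finset.prod_mul_distrib]
      refine Finset.prod_congr rfl fun i _ => ?_
      rw [← Finset.prod_mul_distrib]
      refine Finset.prod_congr rfl fun j _ => ?_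
      rw [zs_sub hq (h3 i i.2).1 (h3 j j.2).1, ← mul_pow]
      have h7 : HomE_s ε i - HomE_s ε j = (ε : ℂ) * (HomE_a L i - HomE_a L j) := by
        unfold HomE_s HomE_a
        ring
      rw [h7]
      ring
    have h8 : w ^ (n + 1) * EE x Pb P (fun k => zs q (HomE_s ε k)) *
        ∏ i : Fin L, ∏ j ∈ Ioi i, (zs q (HomE_s ε i) - zs q (HomE_s ε j)) ^ 2 =
        (∏ i : Fin L, zs q (HomE_s ε i)) *
        (∏ i : Fin L, ∏ j ∈ Ioi i, (zs q (HomE_s ε i) ^ 2 + zs q (HomE_s ε i) * zs q (HomE_s ε j) +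
          zs q (HomE_s ε j) ^ 2) ^ 2) *
        ((∏ i : Fin L, (1 + q * HomE_s ε i) ^ 2 / (1 - HomE_s ε i)) *
          (Matrix.of fun i j : Fin L => KK w (HomE_s ε i) (ts (HomE_s ε j))).det) := h5
    rw [h6] at h8
    have h9 : (ε : ℂ) ^ (L * (L - 1)) ≠ 0 := pow_ne_zero _ hε
    rw [← mul_div_assoc, ← mul_div_assoc, ← h8]
    field_simp
  have hfin := tendsto_nhds_unique_of_eventuallyEq hlhs hrhs hev
  have hv : (Matrix.vandermonde (HomE_a L)).det * (Matrix.vandermonde (fun i => -HomE_a L i)).det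
      = ∏ i : Fin L, ∏ j ∈ Ioi i, (-(HomE_a L i - HomE_a L j) ^ 2) := by
    rw [Matrix.det_vandermonde, Matrix.det_vandermonde, ← Finset.prod_mul_distrib]
    refine Finset.prod_congr rfl fun i _ => ?_
    rw [← Finset.prod_mul_distrib]
    refine Finset.prod_congr rfl fun j _ => ?_
    ring
  have hne : ∏ i : Fin L, ∏ j ∈ Ioi i, (-3 * (HomE_a L i - HomE_a L j) ^ 2) ≠ 0 := by
    refine Finset.prod_ne_zero_iff.2 fun i _ => Finset.prod_ne_zero_iff.2 fun j hj => ?_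
    have h1 : i < j := Finset.mem_Ioi.1 hj
    refine mul_ne_zero (by norm_num) (pow_ne_zero _ (sub_ne_zero.2 fun h2 => ?_))
    exact h1.ne (HomE_a_inj L h2)
  have h9 : (∏ i : Fin L, ∏ _j ∈ Ioi i, (3 : ℂ) ^ 2) *
      ∏ i : Fin L, ∏ j ∈ Ioi i, (-(HomE_a L i - HomE_a L j) ^ 2)
      = 3 ^ (∑ i : Fin L, (Ioi i).card) *
        ∏ i : Fin L, ∏ j ∈ Ioi i, (-3 * (HomE_a L i - HomE_a L j) ^ 2) := by
    rw [← HomE_pairs, ← Finset.prod_mul_distrib, ← Finset.prod_mul_distrib]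
    refine Finset.prod_congr rfl fun i _ => ?_
    rw [← Finset.prod_mul_distrib, ← Finset.prod_mul_distrib]
    refine Finset.prod_congr rfl fun j _ => ?_
    ring
  rw [hv] at hfin
  have h10 : (∏ _i : Fin L, (1 : ℂ)) = 1 := Finset.prod_const_one
  have h11 : (∏ _i : Fin L, (1 : ℂ) ^ 2 / 1) = 1 := by
    rw [one_pow, div_one]
    exact Finset.prod_const_one
  rw [h10, h11, one_mul, one_mul, ← mul_assoc, h9] at hfin
  refine mul_right_cancel₀ hne ?_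
  rw [hfin]
  ring

end CY
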