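import Pool.Agent.Lib.MP_216314_pr.Z.Conv
import Pool.Agent.Lib.MP_216314_pr.Z.HomE

/-!
# The law of the number of loops around a face of the infinite cylinder
-/

set_option autoImplicit false

noncomputable section

namespace CY

open Finset Filter Topology

theorem EE_one {L : ℕ} (Pb P : Pat L → MvPolynomial ℕ ℂ) (z : ℕ → ℂ) :
    EE 1 Pb P z = (∑ α, ev Pb z α) * ∑ α, ev P z α := BB_one _ _

/-- the form is continuous -/
theorem tendsto_BB (x : ℂ) {L : ℕ} {u v : ℕ → V L} {a b : V L} (hu : Tendsto u atTop (𝓝 a))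
    (hv : Tendsto v atTop (𝓝 b)) : Tendsto (fun m => BB x (u m) (v m)) atTop (𝓝 (BB x a b)) := by
  simp only [BB_apply]
  refine tendsto_finsetSum _ fun β _ => tendsto_finsetSum _ fun α _ => ?_
  exact ((tendsto_pi_nhds.1 hu β).mul (tendsto_pi_nhds.1 hv α)).mul tendsto_const_nhds

/-- convergence of the generating function of the number of loops to the exact value -/
theorem tendsto_law {q : ℂ} (hq : q ^ 2 + q + 1 = 0) (x : ℂ) {L : ℕ} (hL : 0 < L) (hE : Even L)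
    {Pb P : Pat L → MvPolynomial ℕ ℂ} (hPb : IsPsi (q ^ 2) L Pb) (hP : IsPsi q L P) (β α : Pat L) :
    Tendsto (fun m : ℕ => BB x ((TT^[2 * m]) (Pi.single β 1)) ((TT^[2 * m]) (Pi.single α 1))) atTop
      (𝓝 (EE x Pb P (fun _ => 1) / EE 1 Pb P (fun _ => 1))) := by
  have hq2 : (q ^ 2) ^ 2 + q ^ 2 + 1 = 0 := by linear_combination (q ^ 2 - q + 1) * hq
  have h2 : Tendsto (fun m : ℕ => 2 * m) atTop atTop :=
    tendsto_id.const_mul_atTop' (by norm_num)
  have s1 : ∀ γ : Pat L, ∑ δ, (Pi.single γ (1 : ℂ) : V L) δ = 1 := by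
    intro γ
    rw [Finset.sum_eq_single γ]
    · simp
    · intro b _ hb
      simp [hb]
    · intro h
      exact absurd (Finset.mem_univ _) h
  have hb := (TT_conv hq2 hL hE hPb (Pi.single β 1) (s1 β)).comp h2
  have ha := (TT_conv hq hL hE hP (Pi.single α 1) (s1 α)).comp h2
  have h := tendsto_BB x hb ha
  have e : BB x ((∑ α, ev Pb (fun _ => 1) α)⁻¹ • ev Pb (fun _ => 1))
      ((∑ α, ev P (fun _ => 1) α)⁻¹ • ev P (fun _ => 1)) =
      EE x Pb P (fun _ => 1) / EE 1 Pb P (fun _ => 1) := by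
    rw [map_smul, map_smul, LinearMap.smul_apply, EE_one]
    unfold EE
    simp only [smul_eq_mul]
    rw [div_eq_mul_inv, mul_inv]
    ring
  rw [← e]
  exact h

/-- the quotient as a quotient of determinants -/
theorem law_det {q : ℂ} (hq : q ^ 2 + q + 1 = 0) {x w w1 : ℂ} (hw : x * w = w ^ 2 + 1) (hw1 : w1 = w1 ^ 2 + 1)
    (h0 : w ≠ 0) (h1 : w1 ≠ 0) (n : ℕ)
    {Pb P : Pat (2 * n + 2) → MvPolynomial ℕ ℂ}
    (hPb : IsPsi (q ^ 2) (2 * n + 2) Pb) (hP : IsPsi q (2 * n + 2) P) :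
    EE x Pb P (fun _ => 1) / EE 1 Pb P (fun _ => 1) =
      (w1 / w) ^ (n + 1) * ((IB w (2 * n + 2)).det / (IB w1 (2 * n + 2)).det) := by
  have e1 := EE_hom hq hw n hPb hP
  have e2 := EE_hom hq (x := 1) (w := w1) (by rw [one_mul]; exact hw1) n hPb hP
  have h3 : (3 : ℂ) ^ ((n + 1) * (2 * n + 1)) ≠ 0 := pow_ne_zero _ (by norm_num)
  have a1 : EE x Pb P (fun _ => 1) = 3 ^ ((n + 1) * (2 * n + 1)) * (IB w (2 * n + 2)).det / w ^ (n + 1) := by
    rw [← e1]
    field_simp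
  have a2 : EE 1 Pb P (fun _ => 1) = 3 ^ ((n + 1) * (2 * n + 1)) * (IB w1 (2 * n + 2)).det / w1 ^ (n + 1) := by
    rw [← e2]
    field_simp
  rw [a1, a2, div_pow]
  by_cases hd : (IB w1 (2 * n + 2)).det = 0
  · rw [hd]
    simp
  · field_simp

end CY
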