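import Pool.Agent.Lib.MP_216314_pr.Z.NFin

/-!
# The monoid `e i` can be moved from one side to the other if the gap is not inside

Proof. Let `R` be the set of the sites congruent to `i` or `i+1`, `ε : R → R` the exchange. For an `(α, e_i β)`-closed set ... :
Let `S` be closed under `β` and `e_i α`. Put `S* = (S \ R) ∪ {r ∈ R | α r ∈ S \ R}`. Then `S*` is closed under `e_i β` and `α`:
* `x ∈ S \ R`: if `α x ∉ R` then `α x = (e_i α) x ∈ S`; if `α x = r ∈ R` then `α r = x ∈ S \ R`, so `r ∈ S*`;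
  if `β x ∉ R` then `(e_i β) x = β x ∈ S \ R`; if `β x = r ∈ R` then `(e_i β) x = β (ε r)`, and `r ∈ S`, `ε r = (e_i α) r ∈ S`,
  `β (ε r) ∈ S`, not in `R`.
* `r ∈ R` with `α r ∈ S \ R`: `α r ∈ S*`; `(e_i β) r = ε r` and `α (ε r) = (e_i α) (α r) ∈ S` (partner rule), not in `R`.
By symmetry (exchange of `α` and `β`) the same with the roles interchanged. Hence for `x, y ∉ R`: `y` is in the `(e_i β, α)`-class of
`x` iff it is in the `(β, e_i α)`-class (take `S` = the class). The `(e_i β, α)`-classes contained in `R` are `{r, ε r}` (an even number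
of its sites is to the left of `g`, as `g` is not congruent to `i + 1`) or infinite; the others are determined by `C \ R`; `C ∩ R` is
a union of pairs `{r, ε r}`, finite iff `C \ R` is finite (each pair in `C ∩ R` meets `α (C \ R)`), and it does not change the parity.
So `C ↦ C \ R` is injective on `loopsAt g (e_i β) α`, and the image is symmetric in the two situations.
-/

set_option autoImplicit false

noncomputable section

namespace CY

open Finset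

/-- the sites congruent to `i` or `i+1` -/
def NE_R (L : ℕ) (i : ℤ) : Set ℤ := {x | (L : ℤ) ∣ x - i ∨ (L : ℤ) ∣ x - i - 1}

theorem NE_nd {L : ℕ} (α : Pat L) {i x : ℤ} (h : (L : ℤ) ∣ x - i - 1) : ¬ (L : ℤ) ∣ x - i := by
  intro h'
  have h2 : 2 ≤ L := α.two_le
  have h3 : (L : ℤ) ∣ 1 := by
    have := dvd_sub h' h
    rwa [sub_sub_cancel] at this
  have := Int.le_of_dvd one_pos h3
  omega

theorem NE_e1 {L : ℕ} (α : Pat L) {i x : ℤ} (h : (L : ℤ) ∣ x - i) : (Pat.e i α).f x = x + 1 := by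
  rw [Pat.e_f, eFun, if_pos h]

theorem NE_e2 {L : ℕ} (α : Pat L) {i x : ℤ} (h : (L : ℤ) ∣ x - i - 1) : (Pat.e i α).f x = x - 1 := by
  rw [Pat.e_f, eFun, if_neg (NE_nd α h), if_pos h]

theorem NE_e3 {L : ℕ} (α : Pat L) {i x : ℤ} (h : x ∉ NE_R L i) (h' : α.f x ∉ NE_R L i) :
    (Pat.e i α).f x = α.f x := by
  have h1 : ¬ (L : ℤ) ∣ x - i := fun hh => h (Or.inl hh)
  have h2 : ¬ (L : ℤ) ∣ x - i - 1 := fun hh => h (Or.inr hh)
  have h3 : ¬ (L : ℤ) ∣ α.f x - i := fun hh => h' (Or.inl hh)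
  have h4 : ¬ (L : ℤ) ∣ α.f x - i - 1 := fun hh => h' (Or.inr hh)
  rw [Pat.e_f, eFun, if_neg h1, if_neg h2, if_neg h3, if_neg h4]

theorem NE_e4 {L : ℕ} (α : Pat L) {i x : ℤ} (h : x ∉ NE_R L i) (h' : (L : ℤ) ∣ α.f x - i) :
    (Pat.e i α).f x = α.f (α.f x + 1) := by
  have h1 : ¬ (L : ℤ) ∣ x - i := fun hh => h (Or.inl hh)
  have h2 : ¬ (L : ℤ) ∣ x - i - 1 := fun hh => h (Or.inr hh)
  rw [Pat.e_f, eFun, if_neg h1, if_neg h2, if_pos h']

theorem NE_e5 {L : ℕ} (α : Pat L) {i x : ℤ} (h : x ∉ NE_R L i) (h' : (L : ℤ) ∣ α.f x - i - 1) :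
    (Pat.e i α).f x = α.f (α.f x - 1) := by
  have h1 : ¬ (L : ℤ) ∣ x - i := fun hh => h (Or.inl hh)
  have h2 : ¬ (L : ℤ) ∣ x - i - 1 := fun hh => h (Or.inr hh)
  rw [Pat.e_f, eFun, if_neg h1, if_neg h2, if_neg (NE_nd α h'), if_pos h']

/-- symmetry of the partner relation modulo the period -/
theorem NE_sym {L : ℕ} (α : Pat L) {x y : ℤ} (h : (L : ℤ) ∣ α.f y - x) : (L : ℤ) ∣ α.f x - y := by
  obtain ⟨k, hk⟩ := h
  have h1 : α.f y = x + k * L := by linear_combination hk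
  have h2 : α.f (α.f y) = α.f x + k * L := by rw [h1, α.per_mul]
  rw [α.inv] at h2
  exact ⟨-k, by linear_combination -h2⟩

theorem NE_p1 {L : ℕ} (α : Pat L) {i r : ℤ} (h : (L : ℤ) ∣ r - i) (h' : α.f r ∉ NE_R L i) :
    α.f (r + 1) ∉ NE_R L i := by
  rintro (h1 | h1)
  · apply h'
    right
    have h2 : (L : ℤ) ∣ α.f (r + 1) - r := by
      have := dvd_sub h1 h
      rwa [sub_sub_sub_cancel_right] at this
    have h3 := dvd_add (NE_sym α h2) h
    have e : α.f r - (r + 1) + (r - i) = α.f r - i - 1 := by ring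
    rwa [e] at h3
  · have h2 := dvd_sub h1 h
    have e : α.f (r + 1) - i - 1 - (r - i) = α.f (r + 1) - (r + 1) := by ring
    rw [e] at h2
    exact α.not_dvd_self _ h2

theorem NE_p2 {L : ℕ} (α : Pat L) {i r : ℤ} (h : (L : ℤ) ∣ r - i - 1) (h' : α.f r ∉ NE_R L i) :
    α.f (r - 1) ∉ NE_R L i := by
  rintro (h1 | h1)
  · have h2 := dvd_sub h1 h
    have e : α.f (r - 1) - i - (r - i - 1) = α.f (r - 1) - (r - 1) := by ring
    rw [e] at h2
    exact α.not_dvd_self _ h2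
  · apply h'
    left
    have h2 : (L : ℤ) ∣ α.f (r - 1) - r := by
      have := dvd_sub h1 h
      have e : α.f (r - 1) - i - 1 - (r - i - 1) = α.f (r - 1) - r := by ring
      rwa [e] at this
    have h3 := dvd_add (NE_sym α h2) h
    have e : α.f r - (r - 1) + (r - i - 1) = α.f r - i := by ring
    rwa [e] at h3

/-- the modified set -/
def NE_T {L : ℕ} (α : Pat L) (i : ℤ) (S : Set ℤ) : Set ℤ :=
  {x | (x ∈ S ∧ x ∉ NE_R L i) ∨ (x ∈ NE_R L i ∧ α.f x ∈ S ∧ α.f x ∉ NE_R L i)}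

theorem NE_closed {L : ℕ} (β α : Pat L) (i : ℤ) (S : Set ℤ) (h1 : ∀ y ∈ S, β.f y ∈ S)
    (h2 : ∀ y ∈ S, (Pat.e i α).f y ∈ S) :
    (∀ y ∈ NE_T α i S, (Pat.e i β).f y ∈ NE_T α i S) ∧ (∀ y ∈ NE_T α i S, α.f y ∈ NE_T α i S) := by
  constructor
  · rintro x (⟨hx, hxR⟩ | ⟨hxR, hx, hx'⟩)
    · by_cases hb : β.f x ∈ NE_R L i
      · have hs := h1 x hx
        rcases hb with hb | hb
        · rw [NE_e4 β hxR hb]
          left
          refine ⟨h1 _ ?_, ?_⟩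
          · have h3 := h2 _ hs
            rwa [NE_e1 α hb] at h3
          · exact NE_p1 β hb (by rwa [β.inv])
        · rw [NE_e5 β hxR hb]
          left
          refine ⟨h1 _ ?_, ?_⟩
          · have h3 := h2 _ hs
            rwa [NE_e2 α hb] at h3
          · exact NE_p2 β hb (by rwa [β.inv])
      · rw [NE_e3 β hxR hb]
        exact Or.inl ⟨h1 x hx, hb⟩
    · have h3 := h2 _ hx
      rcases hxR with hr | hr
      · rw [NE_e4 α hx' (by rwa [α.inv]), α.inv] at h3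
        rw [NE_e1 β hr]
        right
        refine ⟨Or.inr ?_, h3, NE_p1 α hr hx'⟩
        have e : x + 1 - i - 1 = x - i := by ring
        rwa [e]
      · rw [NE_e5 α hx' (by rwa [α.inv]), α.inv] at h3
        rw [NE_e2 β hr]
        right
        refine ⟨Or.inl ?_, h3, NE_p2 α hr hx'⟩
        have e : x - 1 - i = x - i - 1 := by ring
        rwa [e]
  · rintro x (⟨hx, hxR⟩ | ⟨hxR, hx, hx'⟩)
    · by_cases ha : α.f x ∈ NE_R L i
      · right
        refine ⟨ha, ?_, ?_⟩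
        · rwa [α.inv]
        · rwa [α.inv]
      · left
        refine ⟨?_, ha⟩
        have h3 := h2 _ hx
        rwa [NE_e3 α hxR ha] at h3
    · exact Or.inl ⟨hx, hx'⟩

theorem NE_sub {L : ℕ} (β α : Pat L) (i : ℤ) {x : ℤ} (hx : x ∉ NE_R L i) :
    cls (Pat.e i β) α x ⊆ NE_T α i (cls β (Pat.e i α) x) := by
  have h := NE_closed β α i (cls β (Pat.e i α) x) (fun y hy => cls_closed_left _ _ hy)
    (fun y hy => cls_closed_right _ _ hy)
  exact cls_subset _ _ (Or.inl ⟨mem_cls_self _ _ x, hx⟩) h.1 h.2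

theorem NE_sub2 {L : ℕ} (β α : Pat L) (i : ℤ) {x : ℤ} (hx : x ∉ NE_R L i) :
    cls β (Pat.e i α) x ⊆ NE_T β i (cls (Pat.e i β) α x) := by
  rw [cls_comm β (Pat.e i α) x, cls_comm (Pat.e i β) α x]
  exact NE_sub α β i hx

theorem NE_diff {L : ℕ} (β α : Pat L) (i : ℤ) {x : ℤ} (hx : x ∉ NE_R L i) :
    cls β (Pat.e i α) x \ NE_R L i = cls (Pat.e i β) α x \ NE_R L i := by
  ext y
  constructor
  · rintro ⟨hy, hyR⟩
    rcases NE_sub2 β α i hx hy with h | h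
    · exact h
    · exact absurd h.1 hyR
  · rintro ⟨hy, hyR⟩
    rcases NE_sub β α i hx hy with h | h
    · exact h
    · exact absurd h.1 hyR

theorem NE_fin {L : ℕ} (α : Pat L) (i : ℤ) {S : Set ℤ} (hS : S.Finite) : (NE_T α i S).Finite := by
  refine (hS.union (hS.image α.f)).subset ?_
  rintro x (⟨h, _⟩ | ⟨_, h, _⟩)
  · exact Or.inl h
  · exact Or.inr ⟨α.f x, h, α.inv x⟩

theorem NE_even {L : ℕ} (α : Pat L) {g i : ℤ} (h : ¬ (L : ℤ) ∣ g - i - 1) {S : Set ℤ} (hS : S.Finite)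
    (hc : ∀ y ∈ S, (Pat.e i α).f y ∈ S) : Even (S ∩ Set.Iio g ∩ NE_R L i).ncard := by
  have e : S ∩ Set.Iio g ∩ NE_R L i = {r | r ∈ S ∧ r < g ∧ (L : ℤ) ∣ r - i} ∪
      (fun r => r + 1) '' {r | r ∈ S ∧ r < g ∧ (L : ℤ) ∣ r - i} := by
    ext r
    constructor
    · rintro ⟨⟨h1, h2⟩, h3 | h3⟩
      · exact Or.inl ⟨h1, h2, h3⟩
      · right
        have h4 := hc r h1
        rw [NE_e2 α h3] at h4
        have h5 : r < g := h2
        refine ⟨r - 1, ⟨h4, by omega, ?_⟩, by ring⟩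
        have e : r - 1 - i = r - i - 1 := by ring
        rwa [e]
    · rintro (⟨h1, h2, h3⟩ | ⟨a, ⟨h1, h2, h3⟩, rfl⟩)
      · exact ⟨⟨h1, h2⟩, Or.inl h3⟩
      · have h4 := hc a h1
        rw [NE_e1 α h3] at h4
        refine ⟨⟨h4, ?_⟩, Or.inr ?_⟩
        · show a + 1 < g
          by_contra h5
          have h6 : a = g - 1 := by omega
          apply h
          rw [h6] at h3
          have e : g - i - 1 = g - 1 - i := by ring
          rwa [e]
        · have e : a + 1 - i - 1 = a - i := by ring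
          show (L : ℤ) ∣ a + 1 - i - 1
          rwa [e]
  have hA : {r | r ∈ S ∧ r < g ∧ (L : ℤ) ∣ r - i}.Finite := hS.subset fun r hr => hr.1
  have hd : Disjoint {r | r ∈ S ∧ r < g ∧ (L : ℤ) ∣ r - i}
      ((fun r => r + 1) '' {r | r ∈ S ∧ r < g ∧ (L : ℤ) ∣ r - i}) := by
    rw [Set.disjoint_left]
    rintro _ ⟨_, _, h3⟩ ⟨a, ⟨_, _, h6⟩, rfl⟩
    refine NE_nd α (i := i) (x := a + 1) ?_ h3
    have e : a + 1 - i - 1 = a - i := by ring
    rwa [e]
  rw [e, Set.ncard_union_eq hd hA (hA.image _),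
    Set.ncard_image_of_injective _ (add_left_injective 1)]
  exact ⟨_, rfl⟩

theorem NE_odd {L : ℕ} (α : Pat L) {g i : ℤ} (h : ¬ (L : ℤ) ∣ g - i - 1) {S : Set ℤ} (hS : S.Finite)
    (hc : ∀ y ∈ S, (Pat.e i α).f y ∈ S) :
    Odd (S ∩ Set.Iio g).ncard ↔ Odd ((S \ NE_R L i) ∩ Set.Iio g).ncard := by
  have h1 := NE_even α h hS hc
  have e : S ∩ Set.Iio g = (S ∩ Set.Iio g ∩ NE_R L i) ∪ ((S \ NE_R L i) ∩ Set.Iio g) := by
    ext r
    constructor
    · rintro ⟨h1, h2⟩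
      by_cases hr : r ∈ NE_R L i
      · exact Or.inl ⟨⟨h1, h2⟩, hr⟩
      · exact Or.inr ⟨⟨h1, hr⟩, h2⟩
    · rintro (⟨h1, _⟩ | ⟨⟨h1, _⟩, h2⟩)
      · exact h1
      · exact ⟨h1, h2⟩
  have hd : Disjoint (S ∩ Set.Iio g ∩ NE_R L i) ((S \ NE_R L i) ∩ Set.Iio g) := by
    rw [Set.disjoint_left]
    rintro r ⟨_, h1⟩ ⟨⟨_, h2⟩, _⟩
    exact h2 h1
  have h2 : (S ∩ Set.Iio g).ncard = (S ∩ Set.Iio g ∩ NE_R L i).ncard +
      ((S \ NE_R L i) ∩ Set.Iio g).ncard := by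
    conv_lhs => rw [e]
    exact Set.ncard_union_eq hd (hS.subset fun r hr => hr.1.1) (hS.subset fun r hr => hr.1.1)
  rw [h2, Nat.odd_add']
  exact ⟨fun hh => hh.2 h1, fun hh => ⟨fun _ => h1, fun _ => hh⟩⟩

theorem NE_out {L : ℕ} (β α : Pat L) {g i : ℤ} (h : ¬ (L : ℤ) ∣ g - i - 1) {C : Set ℤ}
    (hC : C ∈ loopsAt g (Pat.e i β) α) : ∃ x ∈ C, x ∉ NE_R L i ∧ C = cls (Pat.e i β) α x := by
  obtain ⟨x0, rfl, hf, ho⟩ := hC
  rw [NE_odd β h hf (fun y hy => cls_closed_left _ _ hy)] at ho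
  obtain ⟨x, ⟨hx, hxR⟩, _⟩ : ((cls (Pat.e i β) α x0 \ NE_R L i) ∩ Set.Iio g).Nonempty := by
    by_contra hn
    rw [Set.not_nonempty_iff_eq_empty] at hn
    rw [hn, Set.ncard_empty] at ho
    exact absurd ho (by decide)
  exact ⟨x, hx, hxR, (cls_eq _ _ hx).symm⟩

theorem NE_img {L : ℕ} (β α : Pat L) {g i : ℤ} (h : ¬ (L : ℤ) ∣ g - i - 1) :
    (fun C => C \ NE_R L i) '' loopsAt g (Pat.e i β) α ⊆
      (fun C => C \ NE_R L i) '' loopsAt g β (Pat.e i α) := by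
  rintro _ ⟨C, hC, rfl⟩
  obtain ⟨x, _, hxR, rfl⟩ := NE_out β α h hC
  obtain ⟨x0, hx0, hf, ho⟩ := hC
  have hf' : (cls β (Pat.e i α) x).Finite := (NE_fin β i hf).subset (NE_sub2 β α i hxR)
  refine ⟨cls β (Pat.e i α) x, ⟨x, rfl, hf', ?_⟩, NE_diff β α i hxR⟩
  rw [NE_odd α h hf' (fun y hy => cls_closed_right _ _ hy), NE_diff β α i hxR,
    ← NE_odd β h hf (fun y hy => cls_closed_left _ _ hy)]
  exact ho

theorem NE_inj {L : ℕ} (β α : Pat L) {g i : ℤ} (h : ¬ (L : ℤ) ∣ g - i - 1) :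
    Set.InjOn (fun C => C \ NE_R L i) (loopsAt g (Pat.e i β) α) := by
  intro C hC C' hC' hh
  obtain ⟨x, hx, hxR, e⟩ := NE_out β α h hC
  obtain ⟨x', _, _, e'⟩ := NE_out β α h hC'
  have h1 : x ∈ C' \ NE_R L i := by
    have h2 : C \ NE_R L i = C' \ NE_R L i := hh
    rw [← h2]
    exact ⟨hx, hxR⟩
  rw [e, e', cls_eq _ _ (e' ▸ h1.1 : x ∈ cls (Pat.e i β) α x')]

theorem NE_comm {L : ℕ} (β α : Pat L) (g : ℤ) : loopsAt g β α = loopsAt g α β := by
  unfold loopsAt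
  simp only [cls_comm β α]

theorem NAt_e {L : ℕ} (β α : Pat L) (g i : ℤ) (h : ¬ (L : ℤ) ∣ g - i - 1) :
    NAt g (Pat.e i β) α = NAt g β (Pat.e i α) := by
  unfold NAt
  rw [← (NE_inj β α h).ncard_image]
  have h1 : Set.InjOn (fun C => C \ NE_R L i) (loopsAt g β (Pat.e i α)) := by
    rw [NE_comm]
    exact NE_inj α β h
  rw [← h1.ncard_image]
  congr 1
  refine Set.Subset.antisymm (NE_img β α h) ?_
  rw [NE_comm β (Pat.e i α), NE_comm (Pat.e i β) α]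
  exact NE_img α β h

/-- the monoids with `i ≠ -1` modulo `L` are self adjoint for the number of loops around the marked gap -/
theorem NL_e {L : ℕ} (β α : Pat L) (i : ℤ) (h : ¬ (L : ℤ) ∣ i + 1) :
    NL (Pat.e i β) α = NL β (Pat.e i α) := by
  refine NAt_e β α 0 i ?_
  rintro ⟨c, hc⟩
  exact h ⟨-c, by linarith [mul_neg (L : ℤ) c]⟩

end CY
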