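import Pool.Agent.Lib.MP_216314_pr.Z.NFin

/-!
# Loops and insertion

`(ins i α) (up k) = up (α k)`: the classes of `(ins i β, ins i α)` are the images `up '' C` of the classes `C` of `(β, α)` and the
pairs `{i, i+1} + (L+2) ℤ`. For `0 ≤ i ≤ L`: `up k < 0 ↔ k < 0` (`up_neg_iff`), and the pairs do not straddle the gap `0`. For the seam
insertion (`insS = rot ∘ ins 0`, the pair `(-1, 0)`): the sites `up 0 k - 1`, negative iff `k < 0`, and exactly one pair, `{-1, 0}`,
surrounds the gap `0`.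
-/

set_option autoImplicit false

noncomputable section

namespace CY

open Finset

theorem cls_ins {L : ℕ} (β α : Pat L) (i k : ℤ) :
    cls (Pat.ins i β) (Pat.ins i α) (up L i k) = up L i '' cls β α k := by
  apply Set.Subset.antisymm
  · refine cls_subset _ _ ⟨k, mem_cls_self β α k, rfl⟩ ?_ ?_
    · rintro _ ⟨m, hm, rfl⟩
      rw [Pat.ins_up]
      exact ⟨β.f m, cls_closed_left β α hm, rfl⟩
    · rintro _ ⟨m, hm, rfl⟩
      rw [Pat.ins_up]
      exact ⟨α.f m, cls_closed_right β α hm, rfl⟩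
  · have h : cls β α k ⊆ {m | up L i m ∈ cls (Pat.ins i β) (Pat.ins i α) (up L i k)} := by
      refine cls_subset _ _ (mem_cls_self _ _ _) ?_ ?_
      · intro m hm
        show up L i (β.f m) ∈ cls (Pat.ins i β) (Pat.ins i α) (up L i k)
        rw [← Pat.ins_up]
        exact cls_closed_left _ _ hm
      · intro m hm
        show up L i (α.f m) ∈ cls (Pat.ins i β) (Pat.ins i α) (up L i k)
        rw [← Pat.ins_up]
        exact cls_closed_right _ _ hm
    rintro _ ⟨m, hm, rfl⟩
    exact h hm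

theorem NI_left {L : ℕ} (α : Pat L) (i x : ℤ) (h : (L + 2 : ℤ) ∣ x - i) :
    (Pat.ins i α).f x = x + 1 := by
  rw [Pat.ins_f, insFun, if_pos h]

theorem NI_right {L : ℕ} (α : Pat L) (i x : ℤ) (h : (L + 2 : ℤ) ∣ x - i) :
    (Pat.ins i α).f (x + 1) = x := by
  have h1 : ¬ (L + 2 : ℤ) ∣ x + 1 - i := by
    intro h2
    have h3 := dvd_sub h2 h
    rw [show x + 1 - i - (x - i) = 1 by ring] at h3
    have h4 := Int.le_of_dvd one_pos h3
    have h5 : (0 : ℤ) ≤ L := Int.natCast_nonneg L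
    linarith
  have h2 : (L + 2 : ℤ) ∣ x + 1 - i - 1 := by
    rw [show x + 1 - i - 1 = x - i by ring]
    exact h
  rw [Pat.ins_f, insFun, if_neg h1, if_pos h2]
  ring

theorem cls_ins_pair {L : ℕ} (β α : Pat L) (i x : ℤ) (h : (L + 2 : ℤ) ∣ x - i) :
    cls (Pat.ins i β) (Pat.ins i α) x = {x, x + 1} := by
  apply Set.Subset.antisymm
  · refine cls_subset _ _ (Or.inl rfl) ?_ ?_
    · rintro y (rfl | rfl)
      · rw [NI_left β i _ h]
        exact Or.inr rfl
      · rw [NI_right β i x h]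
        exact Or.inl rfl
    · rintro y (rfl | rfl)
      · rw [NI_left α i _ h]
        exact Or.inr rfl
      · rw [NI_right α i x h]
        exact Or.inl rfl
  · rintro y (rfl | rfl)
    · exact mem_cls_self _ _ _
    · have h1 := cls_closed_left (Pat.ins i β) (Pat.ins i α)
        (mem_cls_self (Pat.ins i β) (Pat.ins i α) x)
      rw [NI_left β i x h] at h1
      exact h1

theorem NI_odd (x g : ℤ) : Odd (({x, x + 1} : Set ℤ) ∩ Set.Iio g).ncard ↔ x = g - 1 := by
  rcases lt_trichotomy x (g - 1) with h | h | h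
  · have h1 : ({x, x + 1} : Set ℤ) ∩ Set.Iio g = {x, x + 1} := by
      apply Set.inter_eq_left.2
      rintro y (rfl | rfl)
      · show y < g
        linarith
      · show x + 1 < g
        linarith
    rw [h1, Set.ncard_pair (by omega)]
    constructor
    · intro h2
      exact absurd h2 (by decide)
    · intro h2
      omega
  · have h1 : ({x, x + 1} : Set ℤ) ∩ Set.Iio g = {x} := by
      apply Set.Subset.antisymm
      · rintro y ⟨rfl | rfl, h2⟩
        · rfl
        · have h3 : x + 1 < g := h2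
          omega
      · rintro y rfl
        exact ⟨Or.inl rfl, by show y < g; omega⟩
    rw [h1, Set.ncard_singleton]
    exact ⟨fun _ => h, fun _ => odd_one⟩
  · have h1 : ({x, x + 1} : Set ℤ) ∩ Set.Iio g = ∅ := by
      rw [Set.eq_empty_iff_forall_notMem]
      rintro y ⟨rfl | rfl, h2⟩
      · have h3 : y < g := h2
        omega
      · have h3 : x + 1 < g := h2
        omega
    rw [h1, Set.ncard_empty]
    constructor
    · intro h2
      exact absurd h2 (by decide)
    · intro h2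
      omega

theorem NI_loops {L : ℕ} (β α : Pat L) (i g : ℤ) (hg : ∀ k, up L i k < g ↔ k < 0) :
    loopsAt g (Pat.ins i β) (Pat.ins i α) =
      {C | (L + 2 : ℤ) ∣ g - 1 - i ∧ C = {g - 1, g}} ∪ (fun C => up L i '' C) '' loopsAt 0 β α := by
  have hL := α.pos
  have hinj : Function.Injective (up L i) := (up_strictMono hL i).injective
  have himg : ∀ C0 : Set ℤ, (up L i '' C0) ∩ Set.Iio g = up L i '' (C0 ∩ Set.Iio 0) := by
    intro C0
    apply Set.Subset.antisymm
    · rintro _ ⟨⟨k, hk, rfl⟩, h2⟩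
      exact ⟨k, ⟨hk, (hg k).1 h2⟩, rfl⟩
    · rintro _ ⟨k, ⟨hk, h2⟩, rfl⟩
      exact ⟨⟨k, hk, rfl⟩, (hg k).2 h2⟩
  have hcard : ∀ C0 : Set ℤ, ((up L i '' C0) ∩ Set.Iio g).ncard = (C0 ∩ Set.Iio 0).ncard := by
    intro C0
    rw [himg, Set.ncard_image_of_injective _ hinj]
  have hpair : ∀ x : ℤ, (L + 2 : ℤ) ∣ x - i →
      Odd ((cls (Pat.ins i β) (Pat.ins i α) x) ∩ Set.Iio g).ncard →
      (L + 2 : ℤ) ∣ g - 1 - i ∧ cls (Pat.ins i β) (Pat.ins i α) x = {g - 1, g} := by
    intro x hx ho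
    rw [cls_ins_pair β α i x hx] at ho ⊢
    have h1 := (NI_odd x g).1 ho
    rw [h1] at hx ⊢
    rw [sub_add_cancel]
    exact ⟨hx, rfl⟩
  apply Set.Subset.antisymm
  · rintro C ⟨x, rfl, hf, ho⟩
    by_cases h1 : (L + 2 : ℤ) ∣ x - i
    · exact Or.inl (hpair x h1 ho)
    · by_cases h2 : (L + 2 : ℤ) ∣ x - i - 1
      · left
        have h3 : (L + 2 : ℤ) ∣ (x - 1) - i := by
          rw [show (x - 1) - i = x - i - 1 by ring]
          exact h2
        have h4 : x ∈ cls (Pat.ins i β) (Pat.ins i α) (x - 1) := by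
          rw [cls_ins_pair β α i (x - 1) h3]
          right
          show x = x - 1 + 1
          ring
        have h5 := cls_eq _ _ h4
        rw [h5] at ho ⊢
        exact hpair (x - 1) h3 ho
      · right
        have h3 := up_dn hL i x h1 h2
        rw [← h3, cls_ins] at hf ho ⊢
        rw [hcard] at ho
        exact ⟨cls β α (dn L i x), ⟨dn L i x, rfl, hf.of_finite_image hinj.injOn, ho⟩, rfl⟩
  · rintro C (⟨h1, rfl⟩ | ⟨C0, ⟨k, rfl, hf, ho⟩, rfl⟩)
    · refine ⟨g - 1, ?_, Set.toFinite _, ?_⟩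
      · rw [cls_ins_pair β α i (g - 1) h1, sub_add_cancel]
      · have h2 := (NI_odd (g - 1) g).2 rfl
        rw [sub_add_cancel] at h2
        exact h2
    · refine ⟨up L i k, (cls_ins β α i k).symm, hf.image _, ?_⟩
      show Odd ((up L i '' cls β α k) ∩ Set.Iio g).ncard
      rw [hcard]
      exact ho

theorem NL_ins {L : ℕ} (β α : Pat L) (i : ℤ) (h0 : 0 ≤ i) (h1 : i ≤ L) :
    NL (Pat.ins i β) (Pat.ins i α) = NL β α := by
  have hL := α.pos
  have hinj : Function.Injective (up L i) := (up_strictMono hL i).injective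
  show (loopsAt 0 (Pat.ins i β) (Pat.ins i α)).ncard = (loopsAt 0 β α).ncard
  rw [NI_loops β α i 0 (up_neg_iff hL h0 h1)]
  have h2 : ({C | (L + 2 : ℤ) ∣ 0 - 1 - i ∧ C = {0 - 1, 0}} : Set (Set ℤ)) = ∅ := by
    rw [Set.eq_empty_iff_forall_notMem]
    rintro C ⟨h3, -⟩
    have h4 : (L + 2 : ℤ) ∣ i + 1 := by
      rw [show i + 1 = -(0 - 1 - i) by ring]
      exact (dvd_neg).2 h3
    have h5 := Int.le_of_dvd (by linarith) h4
    linarith
  rw [h2, Set.empty_union, Set.ncard_image_of_injective _ (Set.image_injective.2 hinj)]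

theorem NL_insS {L : ℕ} (β α : Pat L) : NL (Pat.insS β) (Pat.insS α) = NL β α + 1 := by
  have hL := α.pos
  have hinj : Function.Injective (up L 0) := (up_strictMono hL 0).injective
  have hne : ∀ k, up L 0 k ≠ 0 := by
    intro k hk
    apply up_not_left hL 0 k
    rw [hk]
    exact ⟨0, by ring⟩
  have hg : ∀ k, up L 0 k < 1 ↔ k < 0 := by
    intro k
    rw [← up_neg_iff hL le_rfl (Int.natCast_nonneg L) k]
    constructor
    · intro h
      have := hne k
      omega
    · intro h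
      omega
  have h1 : NL (Pat.insS β) (Pat.insS α) = NAt (0 + 1) (Pat.ins 0 β) (Pat.ins 0 α) :=
    NAt_rot (Pat.ins 0 β) (Pat.ins 0 α) 0
  rw [h1, zero_add]
  show (loopsAt 1 (Pat.ins 0 β) (Pat.ins 0 α)).ncard = (loopsAt 0 β α).ncard + 1
  rw [NI_loops β α 0 1 hg]
  have h2 : ({C | (L + 2 : ℤ) ∣ 1 - 1 - 0 ∧ C = {1 - 1, 1}} : Set (Set ℤ)) = {{0, 1}} := by
    apply Set.Subset.antisymm
    · rintro C ⟨-, rfl⟩
      rw [sub_self]
      rfl
    · rintro C rfl
      exact ⟨⟨0, by ring⟩, by rw [sub_self]⟩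
  rw [h2, Set.singleton_union, Set.ncard_insert_of_notMem ?_ ((loopsAt_finite β α 0).image _),
    Set.ncard_image_of_injective _ (Set.image_injective.2 hinj)]
  · rintro ⟨C0, -, h3⟩
    have h4 : (0 : ℤ) ∈ up L 0 '' C0 := by
      have h5 : up L 0 '' C0 = {0, 1} := h3
      rw [h5]
      exact Or.inl rfl
    obtain ⟨k, -, hk⟩ := h4
    exact hne k hk

end CY
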