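import Pool.Agent.Lib.MP_216314_pr.Z.Lin
import Pool.Agent.Lib.MP_216314_pr.Z.NE
import Pool.Agent.Lib.MP_216314_pr.Z.NI

/-!
# The bilinear form with weight `x` for every loop around the marked gap

`BB_lin` : unfold `lin`, exchange sums, `Finset.sum_ite_eq`. `BB_E`: `BB_lin` with `NL_e`. `BB_I`, `BB_IS`: `NL_ins`, `NL_insS`.
-/

set_option autoImplicit false

noncomputable section

namespace CY

open Finset

theorem Form_push {A B : Type*} [Fintype A] [Fintype B] [DecidableEq B] (f : A → B) (v : A → ℂ) (h : B → ℂ) :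
    ∑ b, lin f v b * h b = ∑ a, v a * h (f a) := by
  simp only [lin_apply, Finset.sum_mul, ite_mul, zero_mul]
  rw [Finset.sum_comm]
  refine Finset.sum_congr rfl (fun a _ => ?_)
  rw [Finset.sum_ite_eq]
  simp

theorem Form_NL_comm {L : ℕ} (β α : Pat L) : NL β α = NL α β := by
  have h : loopsAt 0 β α = loopsAt 0 α β := by
    unfold loopsAt
    simp only [cls_comm β α]
  unfold NL NAt
  rw [h]

/-- `∑ v(β) w(α) x^{N(β, α)}` -/
def BB (x : ℂ) {L : ℕ} : V L →ₗ[ℂ] V L →ₗ[ℂ] ℂ :=
  LinearMap.mk₂ ℂ (fun v w => ∑ β, ∑ α, v β * w α * x ^ NL β α)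
    (by
      intro v v' w
      simp only [Pi.add_apply, add_mul, Finset.sum_add_distrib])
    (by
      intro c v w
      simp only [Pi.smul_apply, smul_eq_mul, Finset.mul_sum, mul_assoc])
    (by
      intro v w w'
      simp only [Pi.add_apply, mul_add, add_mul, Finset.sum_add_distrib])
    (by
      intro c v w
      simp only [Pi.smul_apply, smul_eq_mul, Finset.mul_sum]
      refine Finset.sum_congr rfl (fun β _ => Finset.sum_congr rfl (fun α _ => ?_))
      ring)

section

variable (x : ℂ) {L : ℕ}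

theorem BB_apply (v w : V L) : BB x v w = ∑ β, ∑ α, v β * w α * x ^ NL β α := rfl

theorem BB_lin {A B : Type*} [Fintype A] [Fintype B] (f : A → Pat L) (g : B → Pat L) (v : A → ℂ) (w : B → ℂ) :
    BB x (lin f v) (lin g w) = ∑ b, ∑ a, v b * w a * x ^ NL (f b) (g a) := by
  rw [BB_apply]
  simp only [mul_assoc, ← Finset.mul_sum]
  rw [Form_push f v (fun β => ∑ α, lin g w α * x ^ NL β α)]
  refine Finset.sum_congr rfl (fun b _ => ?_)
  rw [Form_push g w (fun α => x ^ NL (f b) α)]

theorem BB_comm (v w : V L) : BB x v w = BB x w v := by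
  rw [BB_apply, BB_apply, Finset.sum_comm]
  refine Finset.sum_congr rfl (fun β _ => Finset.sum_congr rfl (fun α _ => ?_))
  rw [Form_NL_comm α β, mul_comm (v α)]

theorem BB_E {i : ℤ} (h : ¬ (L : ℤ) ∣ i + 1) (v w : V L) : BB x (E i v) w = BB x v (E i w) := by
  have h1 : BB x (E i v) w = ∑ b, ∑ a, v b * w a * x ^ NL (Pat.e i b) a := by
    have := BB_lin x (Pat.e i) (fun a : Pat L => a) v w
    rw [lin_id] at this
    exact this
  have h2 : BB x v (E i w) = ∑ b, ∑ a, v b * w a * x ^ NL b (Pat.e i a) := by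
    have := BB_lin x (fun a : Pat L => a) (Pat.e i) v w
    rw [lin_id] at this
    exact this
  rw [h1, h2]
  refine Finset.sum_congr rfl (fun b _ => Finset.sum_congr rfl (fun a _ => ?_))
  rw [NL_e b a i h]

theorem BB_Xo (q : ℂ) {i : ℤ} (h : ¬ (L : ℤ) ∣ i + 1) (v w : V L) :
    BB x (Xo q i v) w = BB x v (Xo q i w) := by
  rw [Xo_apply, Xo_apply, map_add, map_smul, map_smul, LinearMap.add_apply, LinearMap.smul_apply,
    LinearMap.smul_apply, BB_E x h, map_add, map_smul, map_smul]

theorem BB_I {i : ℤ} (h0 : 0 ≤ i) (h1 : i ≤ L) (v w : V L) : BB x (I i v) (I i w) = BB x v w := by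
  refine (BB_lin x (Pat.ins i) (Pat.ins i) v w).trans ?_
  rw [BB_apply]
  refine Finset.sum_congr rfl (fun b _ => Finset.sum_congr rfl (fun a _ => ?_))
  rw [NL_ins b a i h0 h1]

theorem BB_IS (v w : V L) : BB x (IS v) (IS w) = x * BB x v w := by
  refine (BB_lin x Pat.insS Pat.insS v w).trans ?_
  rw [BB_apply, Finset.mul_sum]
  refine Finset.sum_congr rfl (fun b _ => ?_)
  rw [Finset.mul_sum]
  refine Finset.sum_congr rfl (fun a _ => ?_)
  rw [NL_insS b a, pow_succ]
  ring

theorem BB_one (v w : V L) : BB 1 v w = (∑ β, v β) * ∑ α, w α := by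
  rw [BB_apply, Finset.sum_mul_sum]
  refine Finset.sum_congr rfl (fun b _ => Finset.sum_congr rfl (fun a _ => ?_))
  rw [one_pow, mul_one]

end

end CY
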