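import Pool.Agent.Lib.MP_216314_pr.Z.NDef

/-!
# Finitely many loops around a gap, symmetry, rotation

`exists_cross`: `C ∩ Iio g` has an odd number of elements, so it is not closed under the fixed point free involution `α`
(a finite set closed under a fixed point free involution has even cardinality); so there is `x ∈ C`, `x < g`, `α x ≥ g`.
`loopsAt_finite`: by `lt_per` such an `x` is in the interval `[g - L, g)`, and `C = cls x`.
`NAt_rot`: the classes of the rotated patterns are the translates by `-1`. `NAt_add_period`: translation by `L` (`cls_add_period`).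
-/

set_option autoImplicit false

noncomputable section

namespace CY

open Finset

section

variable {L : ℕ} (β α : Pat L)

private theorem NFin_sub (g : ℤ) : loopsAt g β α ⊆ loopsAt g α β := by
  rintro C ⟨x, hx, h1, h2⟩
  exact ⟨x, hx.trans (cls_comm β α x), h1, h2⟩

theorem NAt_comm (g : ℤ) : NAt g β α = NAt g α β := by
  unfold NAt
  rw [Set.Subset.antisymm (NFin_sub β α g) (NFin_sub α β g)]

theorem NL_comm : NL β α = NL α β := NAt_comm β α 0

/-- a loop around `g` crosses the gap `g`: it contains two sites `x < g ≤ y` with `y = β x` or `y = α x` -/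
theorem exists_cross {g : ℤ} {C : Set ℤ} (h : C ∈ loopsAt g β α) :
    ∃ x ∈ C, x < g ∧ (g ≤ β.f x ∨ g ≤ α.f x) := by
  obtain ⟨x0, hx0, hfin, hodd⟩ := h
  by_contra hcon
  push Not at hcon
  have hcl : ∀ x ∈ C ∩ Set.Iio g, α.f x ∈ C ∩ Set.Iio g := by
    rintro x ⟨hx, hxg⟩
    refine ⟨?_, (hcon x hx hxg).2⟩
    rw [hx0] at hx ⊢
    exact cls_closed_right β α hx
  have hfin2 : (C ∩ Set.Iio g).Finite := hfin.subset Set.inter_subset_left
  have hsum : ∑ _x ∈ hfin2.toFinset, (1 : ZMod 2) = 0 := by
    refine Finset.sum_involution (fun a _ => α.f a) ?_ ?_ ?_ ?_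
    · intro a _
      decide
    · intro a _ _
      exact α.ne a
    · intro a ha
      rw [Set.Finite.mem_toFinset] at ha ⊢
      exact hcl a ha
    · intro a _
      exact α.inv a
  rw [Finset.sum_const, nsmul_eq_mul, mul_one, ZMod.natCast_eq_zero_iff_even,
    ← Set.ncard_eq_toFinset_card _ hfin2] at hsum
  exact Nat.not_even_iff_odd.mpr hodd hsum

/-- there are finitely many loops around a gap -/
theorem loopsAt_finite (g : ℤ) : (loopsAt g β α).Finite := by
  refine ((Set.finite_Ioo (g - L) g).image (cls β α)).subset ?_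
  intro C hC
  obtain ⟨x, hx, hxg, hor⟩ := exists_cross β α hC
  obtain ⟨x0, hx0, _, _⟩ := hC
  refine ⟨x, ⟨?_, hxg⟩, ?_⟩
  · rcases hor with h1 | h1
    · have h2 := β.lt_per x
      have h3 := (abs_lt.mp h2).2
      linarith
    · have h2 := α.lt_per x
      have h3 := (abs_lt.mp h2).2
      linarith
  · rw [hx0] at hx ⊢
    exact cls_eq β α hx

private theorem NFin_cls (c : ℤ) (β' α' : Pat L) (h1 : ∀ x, β'.f x = β.f (x + c) - c)
    (h2 : ∀ x, α'.f x = α.f (x + c) - c) (x : ℤ) :
    cls β α (x + c) = (fun y => y + c) '' cls β' α' x := by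
  apply Set.Subset.antisymm
  · refine cls_subset β α ⟨x, mem_cls_self β' α' x, rfl⟩ ?_ ?_
    · rintro _ ⟨y, hy, rfl⟩
      refine ⟨β'.f y, cls_closed_left β' α' hy, ?_⟩
      simp only [h1]
      ring
    · rintro _ ⟨y, hy, rfl⟩
      refine ⟨α'.f y, cls_closed_right β' α' hy, ?_⟩
      simp only [h2]
      ring
  · have h3 : cls β' α' x ⊆ {y | y + c ∈ cls β α (x + c)} := by
      refine cls_subset β' α' (mem_cls_self β α (x + c)) ?_ ?_
      · intro y hy
        show β'.f y + c ∈ cls β α (x + c)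
        rw [h1, sub_add_cancel]
        exact cls_closed_left β α hy
      · intro y hy
        show α'.f y + c ∈ cls β α (x + c)
        rw [h2, sub_add_cancel]
        exact cls_closed_right β α hy
    rintro _ ⟨y, hy, rfl⟩
    exact h3 hy

private theorem NFin_inter (c g : ℤ) (C : Set ℤ) :
    ((fun y => y + c) '' C) ∩ Set.Iio (g + c) = (fun y => y + c) '' (C ∩ Set.Iio g) := by
  ext z
  constructor
  · rintro ⟨⟨y, hy, rfl⟩, hz⟩
    exact ⟨y, ⟨hy, by simpa using hz⟩, rfl⟩
  · rintro ⟨y, ⟨hy, hyg⟩, rfl⟩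
    exact ⟨⟨y, hy, rfl⟩, by simpa using hyg⟩

private theorem NFin_shift (c : ℤ) (β' α' : Pat L) (h1 : ∀ x, β'.f x = β.f (x + c) - c)
    (h2 : ∀ x, α'.f x = α.f (x + c) - c) (g : ℤ) : NAt g β' α' = NAt (g + c) β α := by
  have hinj : Function.Injective (fun y : ℤ => y + c) := add_left_injective c
  have key : loopsAt (g + c) β α = (Set.image (fun y : ℤ => y + c)) '' loopsAt g β' α' := by
    ext D
    constructor
    · rintro ⟨x0, hx0, hfin, hodd⟩
      have h3 := NFin_cls β α c β' α' h1 h2 (x0 - c)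
      rw [sub_add_cancel] at h3
      refine ⟨cls β' α' (x0 - c), ⟨x0 - c, rfl, ?_, ?_⟩, ?_⟩
      · rw [hx0, h3] at hfin
        exact Set.Finite.of_finite_image hfin hinj.injOn
      · rw [hx0, h3, NFin_inter, Set.ncard_image_of_injective _ hinj] at hodd
        exact hodd
      · rw [hx0, h3]
    · rintro ⟨C, ⟨x, hx, hfin, hodd⟩, rfl⟩
      refine ⟨x + c, ?_, hfin.image _, ?_⟩
      · rw [NFin_cls β α c β' α' h1 h2 x, hx]
      · rw [NFin_inter, Set.ncard_image_of_injective _ hinj]
        exact hodd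
  unfold NAt
  rw [key, Set.ncard_image_of_injective _ hinj.image_injective]

/-- rotation -/
theorem NAt_rot (g : ℤ) : NAt g (Pat.rot β) (Pat.rot α) = NAt (g + 1) β α := by
  exact NFin_shift β α 1 (Pat.rot β) (Pat.rot α) (fun _ => rfl) (fun _ => rfl) g

theorem NAt_add_period (g : ℤ) : NAt (g + L) β α = NAt g β α := by
  refine (NFin_shift β α (L : ℤ) β α (fun x => ?_) (fun x => ?_) g).symm
  · rw [β.per, add_sub_cancel_right]
  · rw [α.per, add_sub_cancel_right]

end

end CY
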