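import Pool.Agent.Lib.MP_216314_pr.Z.NKa
import Pool.Agent.Lib.MP_216314_pr.Z.NFin

/-!
# No loop around a gap iff its class is infinite (items (2), (3) of the header of `NKa`)
-/

set_option autoImplicit false

noncomputable section

namespace CY

open Finset

section

variable {L : ℕ} (β α : Pat L)

theorem NKb_tail {g a b : ℤ} (ha : a ∈ gcls β α g) (h : Reg β a b ∨ Reg α a b) :
    b ∈ gcls β α g :=
  Relation.ReflTransGen.tail ha h

theorem NKb_step {γ : Pat L} {K : Set ℤ} (hK : ∀ a b, a ∈ K → Reg γ a b → b ∈ K) (y : ℤ)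
    (hy : y ∈ K ∨ y + 1 ∈ K) : γ.f y ∈ K ∨ γ.f y + 1 ∈ K := by
  rcases lt_trichotomy y (γ.f y) with h | h | h
  · rcases hy with h1 | h1
    · exact Or.inr (hK _ _ h1 (reg_outside γ y h))
    · exact Or.inl (hK _ _ h1 (reg_inside γ y h))
  · exact absurd h.symm (γ.ne y)
  · obtain ⟨t, ht⟩ : ∃ t, t = γ.f y := ⟨_, rfl⟩
    have hty : γ.f t = y := by rw [ht, γ.inv]
    rw [← ht] at h ⊢
    have h2 : t < γ.f t := by rw [hty]; exact h
    have h3 := reg_outside γ t h2
    have h4 := reg_inside γ t h2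
    rw [hty] at h3 h4
    rcases hy with h1 | h1
    · exact Or.inr (hK _ _ h1 (reg_symm γ h4))
    · exact Or.inl (hK _ _ h1 (reg_symm γ h3))

theorem NKb_inf {g : ℤ} (hinf : (gcls β α g).Infinite) : loopsAt g β α = ∅ := by
  rw [Set.eq_empty_iff_forall_notMem]
  rintro C ⟨x, hCx, hfin, hodd⟩
  apply hinf
  have hcα : ∀ y ∈ C, α.f y ∈ C := by
    intro y hy
    rw [hCx] at hy ⊢
    exact cls_closed_right β α hy
  have hcβ : ∀ y ∈ C, β.f y ∈ C := by
    intro y hy
    rw [hCx] at hy ⊢
    exact cls_closed_left β α hy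
  obtain ⟨a, ha⟩ := hfin.bddBelow
  obtain ⟨b, hb⟩ := hfin.bddAbove
  refine (Set.finite_Icc a b).subset ?_
  intro g' hg'
  have h1 := (parity_gcls β α hfin hcα hcβ hg').1 hodd
  rw [Set.mem_Icc]
  constructor
  · by_contra hlt
    have h2 : C ∩ Set.Iio g' = ∅ := by
      rw [Set.eq_empty_iff_forall_notMem]
      rintro y ⟨hy, hy2⟩
      have h3 := ha hy
      have h4 : y < g' := hy2
      omega
    rw [h2, Set.ncard_empty] at h1
    exact absurd h1 (by decide)
  · by_contra hlt
    have h2 : C ∩ Set.Iio g' = C := by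
      apply Set.inter_eq_left.2
      intro y hy
      have h3 := hb hy
      have h4 : y < g' := by omega
      exact h4
    rw [h2] at h1
    exact (Nat.not_odd_iff_even.2 (even_card α hfin hcα)) h1

theorem NKb_fin {g : ℤ} (hfin : (gcls β α g).Finite) : (loopsAt g β α).Nonempty := by
  obtain ⟨K, hK⟩ : ∃ K, K = gcls β α g := ⟨_, rfl⟩
  rw [← hK] at hfin
  have hgK : g ∈ K := by
    rw [hK]
    exact Relation.ReflTransGen.refl
  obtain ⟨m, hmK, hmin⟩ := Set.exists_min_image K id hfin ⟨g, hgK⟩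
  have hKβ : ∀ a b, a ∈ K → Reg β a b → b ∈ K := by
    intro a b ha hab
    rw [hK] at ha ⊢
    exact NKb_tail β α ha (Or.inl hab)
  have hKα : ∀ a b, a ∈ K → Reg α a b → b ∈ K := by
    intro a b ha hab
    rw [hK] at ha ⊢
    exact NKb_tail β α ha (Or.inr hab)
  obtain ⟨S, hS⟩ : ∃ S : Set ℤ, S = {y | y ∈ K ∨ y + 1 ∈ K} := ⟨_, rfl⟩
  have hsS : m - 1 ∈ S := by
    rw [hS]
    right
    rw [sub_add_cancel]
    exact hmK
  have hsub : cls β α (m - 1) ⊆ S := by
    refine cls_subset β α hsS ?_ ?_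
    · intro y hy
      rw [hS] at hy ⊢
      exact NKb_step hKβ y hy
    · intro y hy
      rw [hS] at hy ⊢
      exact NKb_step hKα y hy
  have hSfin : S.Finite := by
    refine (hfin.union (hfin.image (fun y => y - 1))).subset ?_
    intro y hy
    rw [hS] at hy
    rcases hy with h | h
    · exact Or.inl h
    · exact Or.inr ⟨y + 1, h, by simp⟩
  have hCfin := hSfin.subset hsub
  have hlow : ∀ y ∈ cls β α (m - 1), m - 1 ≤ y := by
    intro y hy
    have h1 := hsub hy
    rw [hS] at h1
    rcases h1 with h | h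
    · have h2 := hmin y h
      simp only [id] at h2
      omega
    · have h2 := hmin (y + 1) h
      simp only [id] at h2
      omega
  have h1 : cls β α (m - 1) ∩ Set.Iio m = {m - 1} := by
    apply Set.Subset.antisymm
    · rintro y ⟨hy, hy2⟩
      have h3 := hlow y hy
      have h4 : y < m := hy2
      have h5 : y = m - 1 := by omega
      exact h5
    · intro y hy
      have h5 : y = m - 1 := hy
      rw [h5]
      refine ⟨mem_cls_self β α (m - 1), ?_⟩
      have h6 : m - 1 < m := by omega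
      exact h6
  have h2 : Odd (cls β α (m - 1) ∩ Set.Iio m).ncard := by
    rw [h1, Set.ncard_singleton]
    exact odd_one
  have hmg : m ∈ gcls β α g := by
    rw [← hK]
    exact hmK
  refine ⟨cls β α (m - 1), m - 1, rfl, hCfin, ?_⟩
  exact (parity_gcls β α hCfin (fun y hy => cls_closed_right β α hy)
    (fun y hy => cls_closed_left β α hy) hmg).2 h2

/-- no loop around `g` iff the class of the gap `g` is infinite -/
theorem NAt_eq_zero_iff (g : ℤ) : NAt g β α = 0 ↔ (gcls β α g).Infinite := by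
  constructor
  · intro h hfin
    have h1 := NKb_fin β α hfin
    unfold NAt at h
    rw [Set.ncard_eq_zero (loopsAt_finite β α g)] at h
    rw [h] at h1
    exact Set.not_nonempty_empty h1
  · intro h
    unfold NAt
    rw [NKb_inf β α h, Set.ncard_empty]

end

end CY
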