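import Pool.Agent.Lib.MP_216314_pr.Z.FusD

/-!
# The tile row and its invariant vector

`row t α`: a horizontal line is put above the pattern `α`; at the column `k` the tile `t k` connects left-below and above-right if it is
true, left-above and below-right if it is false; the line is closed around the cylinder.

`row_fixed`: let `v = ev P' 1` (`P'` for `L`), `P` for `L + 2`. Fusion at `a = -q²`, `q² a = -q` (as `q^4 = q`): `Ψ(-q², -q, 1, .., 1) = K I_0 v` with
`K = Kf q L (-q²) 1 = (1-q²)(-q²) 2^(2L) ≠ 0`. Exchange relation for neighbours `(-q, 1)`: `F q 1 (-q) = q + 1 = -q²`, `1 - (-q) = -q²`,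
`F q (-q) 1 = -2 q²`: so `Ψ(sw) = (1/2)(1 + E_j) Ψ` with `j = 1, .., L` moving `-q` to the last place. `rot`: `Ψ(-q², 1, .., 1, -q) =
R Ψ(-q, -q², 1, .., 1)`, and `E 0 Ψ(-q, -q², 1, ..) = K I_0 v` (`fusion'` with `a = -q²`). So
`E 0 (RI (∏ (1/2)(1+E_j) (I_0 v))) = I_0 v`. On patterns `e 0 (rotInv (tl ..)) = ins 0 (cap 0 (rotInv (tl ..)))` (`ins_cap`) and
`2^L ∏ (1/2)(1+E_j) (I_0 v) = ∑_t lin (tl t L) v` (induction on the number of tiles; the sum over `t : Fin L → Bool`).
-/

set_option autoImplicit false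

noncomputable section

namespace CY

open Finset

/-- the pattern after `k` tiles -/
def tl {L : ℕ} (t : ℕ → Bool) (α : Pat L) : ℕ → Pat (L + 2)
  | 0 => Pat.ins 0 α
  | k + 1 => if t k then Pat.e ((k : ℤ) + 1) (tl t α k) else tl t α k

/-- the tile row -/
def row {L : ℕ} (t : ℕ → Bool) (α : Pat L) : Pat L := Pat.cap α.pos 0 (Pat.rotInv (tl t α L))

/-- extension of a finite tile configuration by `false` -/
def ext {L : ℕ} (t : Fin L → Bool) : ℕ → Bool := fun k => if h : k < L then t ⟨k, h⟩ else false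

/-- the transfer operator: average over all tile rows -/
def TT {L : ℕ} : V L →ₗ[ℂ] V L := ((2 : ℂ) ^ L)⁻¹ • ∑ t : Fin L → Bool, lin (row (ext t))

theorem ins_row {L : ℕ} (t : ℕ → Bool) (α : Pat L) :
    Pat.ins 0 (row t α) = Pat.e 0 (Pat.rotInv (tl t α L)) := Pat.ins_cap α.pos 0 _

theorem Til_congr {L : ℕ} (t t' : ℕ → Bool) (α : Pat L) (N : ℕ) (h : ∀ k < N, t k = t' k) :
    tl t α N = tl t' α N := by
  induction N with
  | zero => rfl
  | succ N ih =>
    show (if t N then Pat.e ((N : ℤ) + 1) (tl t α N) else tl t α N) =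
      if t' N then Pat.e ((N : ℤ) + 1) (tl t' α N) else tl t' α N
    rw [ih (fun k hk => h k (by omega)), h N (Nat.lt_succ_self N)]

/-- the sum over all tile configurations with `N` tiles -/
def Til_S {L : ℕ} (v : V L) (N : ℕ) : V (L + 2) := ∑ t : Fin N → Bool, lin (fun α => tl (ext t) α N) v

theorem Til_S_zero {L : ℕ} (v : V L) : Til_S v 0 = I 0 v := by
  unfold Til_S
  rw [Fintype.sum_unique]
  rfl

theorem Til_S_succ {L : ℕ} (v : V L) (N : ℕ) :
    Til_S v (N + 1) = Til_S v N + E ((N : ℤ) + 1) (Til_S v N) := by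
  unfold Til_S
  rw [← Equiv.sum_comp (Fin.snocEquiv fun _ : Fin (N + 1) => Bool), Fintype.sum_prod_type, Fintype.sum_bool,
    map_sum]
  refine (add_comm _ _).trans ?_
  have h1 : ∀ (b : Bool) (t : Fin N → Bool) (α : Pat L),
      tl (ext (Fin.snocEquiv (fun _ : Fin (N + 1) => Bool) (b, t))) α (N + 1) =
      if b then Pat.e ((N : ℤ) + 1) (tl (ext t) α N) else tl (ext t) α N := by
    intro b t α
    have h2 : ext (Fin.snocEquiv (fun _ : Fin (N + 1) => Bool) (b, t)) N = b := by
      unfold ext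
      rw [dif_pos (Nat.lt_succ_self N)]
      exact Fin.snoc_last (α := fun _ => Bool) b t
    have h3 : ∀ k < N, ext (Fin.snocEquiv (fun _ : Fin (N + 1) => Bool) (b, t)) k = ext t k := by
      intro k hk
      unfold ext
      rw [dif_pos (Nat.lt_succ_of_lt hk), dif_pos hk]
      exact Fin.snoc_castSucc (α := fun _ => Bool) b t ⟨k, hk⟩
    show (if ext (Fin.snocEquiv (fun _ : Fin (N + 1) => Bool) (b, t)) N then Pat.e ((N : ℤ) + 1)
      (tl (ext (Fin.snocEquiv (fun _ : Fin (N + 1) => Bool) (b, t))) α N) else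
      tl (ext (Fin.snocEquiv (fun _ : Fin (N + 1) => Bool) (b, t))) α N) = _
    rw [h2, Til_congr _ _ α N h3]
  refine congrArg₂ _ (Finset.sum_congr rfl fun t _ => ?_) (Finset.sum_congr rfl fun t _ => ?_)
  · refine lin_congr (fun α => ?_) v
    rw [h1]
    exact if_neg Bool.false_ne_true
  · unfold E
    rw [lin_lin]
    refine lin_congr (fun α => ?_) v
    rw [h1]
    exact if_pos rfl

/-- the point `(-q², 1, .., 1, -q, 1, ..)` with `-q` at the place `N + 1` -/
def Til_pt (q : ℂ) (N : ℕ) : ℕ → ℂ := fun k => if k = 0 then -q ^ 2 else if k = N + 1 then -q else 1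

theorem Til_sw (q : ℂ) (N : ℕ) : sw (N + 1) (Til_pt q N) = Til_pt q (N + 1) := by
  funext k
  by_cases h1 : k = N + 1
  · rw [h1, sw_left]
    unfold Til_pt
    rw [if_neg (by omega), if_neg (by omega), if_neg (by omega), if_neg (by omega)]
  by_cases h2 : k = N + 1 + 1
  · rw [h2, sw_right]
    unfold Til_pt
    rw [if_neg (by omega), if_pos rfl, if_neg (by omega), if_pos rfl]
  · rw [sw_of_ne _ _ h1 h2]
    unfold Til_pt
    rw [if_neg h1, if_neg h2]

theorem Til_ins (q : ℂ) : insP 0 (-q ^ 2) (-q) (fun _ => 1) = Til_pt q 0 := by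
  funext k
  unfold insP Til_pt
  rw [if_neg (Nat.not_lt_zero k)]

theorem Til_cyc (q : ℂ) (L : ℕ) :
    cyc (L + 2) (insP 0 (-q) (-q ^ 2) (fun _ => 1)) = Til_pt q L := by
  funext k
  rw [cyc_insP_zero]
  unfold Til_pt
  by_cases h0 : k = 0
  · rw [if_pos h0, if_pos h0]
  rw [if_neg h0, if_neg h0]
  by_cases h1 : k ≤ L
  · rw [if_pos h1, if_neg (by omega)]
  · rw [if_neg h1]

/-- the homogeneous vector is invariant -/
theorem row_fixed {q : ℂ} (hq : q ^ 2 + q + 1 = 0) {L : ℕ} (hL : 0 < L) (hE : Even L)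
    {P' : Pat L → MvPolynomial ℕ ℂ} (hP' : IsPsi q L P') :
    TT (ev P' (fun _ => 1)) = ev P' (fun _ => 1) := by
  have hE2 : Even (L + 2) := hE.add (by decide)
  obtain ⟨P, hP⟩ := exists_psi hq (L := L + 2) (by omega) hE2
  set v := ev P' (fun _ => 1) with hv
  have hq0 : q ≠ 0 := by
    intro h
    rw [h] at hq
    norm_num at hq
  have hq3 : q ^ 3 = 1 := q_cube hq
  have hq4 : q ^ 2 * -q ^ 2 = -q := by linear_combination (-q) * hq3
  have ha : -q ^ 2 ≠ 0 := neg_ne_zero.2 (pow_ne_zero 2 hq0)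
  set K := Kf q L (-q ^ 2) (fun _ => 1) with hK
  have hK0 : K ≠ 0 := by
    rw [hK]
    unfold Kf
    refine mul_ne_zero (mul_ne_zero ?_ ha) (Finset.prod_ne_zero_iff.2 fun j _ => ?_)
    · intro h
      have h1 : q ^ 2 = 1 := by linear_combination -h
      have h2 : q = -2 := by linear_combination hq - h1
      rw [h2] at h1
      norm_num at h1
    · have h1 : (1 : ℂ) - q * -q ^ 2 = 2 := by linear_combination hq3
      rw [h1]
      norm_num
  have f1 := fusion hq hL hE hP hP' (-q ^ 2) (fun _ => 1)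
  have f2 := fusion' hq hL hE hP hP' ha (fun _ => 1)
  rw [hq4, ← hK, ← hv] at f1 f2
  rw [Til_ins] at f1
  have step : ∀ N, N ≤ L → ev P (Til_pt q N) = ((2 : ℂ) ^ N)⁻¹ • K • Til_S v N := by
    intro N
    induction N with
    | zero =>
      intro _
      rw [pow_zero, inv_one, one_smul, Til_S_zero, f1]
    | succ N ih =>
      intro hN
      have h1 := hP.exch (Til_pt q N) (N + 1) (by omega)
      rw [Til_sw] at h1
      have e1 : Til_pt q N (N + 1 + 1) = 1 := by
        unfold Til_pt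
        rw [if_neg (by omega), if_neg (by omega)]
      have e2 : Til_pt q N (N + 1) = -q := by
        unfold Til_pt
        rw [if_neg (by omega), if_pos rfl]
      have e3 : F q 1 (-q) = -q ^ 2 := by
        unfold F
        linear_combination hq3 + hq
      have e4 : (1 : ℂ) - -q = -q ^ 2 := by linear_combination hq
      have e5 : F q (-q) 1 = -q ^ 2 * 2 := by
        unfold F
        ring
      rw [e1, e2, e3, e4, e5, ← smul_add, mul_smul] at h1
      have h2 := smul_right_injective _ ha h1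
      have h3 : ev P (Til_pt q (N + 1)) = (2 : ℂ)⁻¹ • (ev P (Til_pt q N) +
          E ((N + 1 : ℕ) : ℤ) (ev P (Til_pt q N))) := by
        have h2' : ev P (Til_pt q N) + E ((N + 1 : ℕ) : ℤ) (ev P (Til_pt q N)) =
            (2 : ℂ) • ev P (Til_pt q (N + 1)) := h2
        rw [h2', smul_smul, inv_mul_cancel₀ two_ne_zero, one_smul]
      have h4 : ((N + 1 : ℕ) : ℤ) = (N : ℤ) + 1 := by push_cast; ring
      rw [h3, ih (by omega), h4, LinearMap.map_smul, LinearMap.map_smul, ← smul_add, ← smul_add,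
        ← Til_S_succ, smul_smul, pow_succ, mul_inv, mul_comm]
  have h5 := hP.rot (insP 0 (-q) (-q ^ 2) (fun _ => 1))
  rw [Til_cyc, step L le_rfl] at h5
  have h6 : ev P (insP 0 (-q) (-q ^ 2) (fun _ => 1)) = RI (((2 : ℂ) ^ L)⁻¹ • K • Til_S v L) := by
    rw [h5, RI_R]
  rw [h6, LinearMap.map_smul, LinearMap.map_smul, LinearMap.map_smul, LinearMap.map_smul, smul_comm] at f2
  have h7 := smul_right_injective _ hK0 f2
  have h8 : ((2 : ℂ) ^ L)⁻¹ • E 0 (RI (Til_S v L)) = I 0 v := h7
  have h9 : E 0 (RI (Til_S v L)) = ∑ t : Fin L → Bool, I 0 (lin (row (ext t)) v) := by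
    unfold Til_S
    rw [map_sum, map_sum]
    refine Finset.sum_congr rfl fun t _ => ?_
    unfold E RI I
    rw [lin_lin, lin_lin, lin_lin]
    refine lin_congr (fun α => ?_) v
    exact (ins_row (ext t) α).symm
  have h10 : I 0 (TT v) = I 0 v := by
    rw [← h8, h9]
    unfold TT
    rw [LinearMap.smul_apply, LinearMap.sum_apply, LinearMap.map_smul, map_sum]
  exact I_inj 0 h10

end CY
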