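import Pool.Agent.Lib.MP_216314_pr.Z.Lin

/-!
# The exchange relations and the solution `Psi` (definitions; existence and uniqueness are proved elsewhere)
-/

set_option autoImplicit false

noncomputable section

namespace CY

open Finset

/-- `F(a,b) = q a - q² b` -/
def F (q a b : ℂ) : ℂ := q * a - q ^ 2 * b

/-- exchange of the entries `i` and `i+1` -/
def sw (i : ℕ) (z : ℕ → ℂ) : ℕ → ℂ := fun k => z (Equiv.swap i (i + 1) k)

/-- cyclic shift of the first `L` entries: `(z_1, ..., z_{L-1}, z_0)` -/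
def cyc (L : ℕ) (z : ℕ → ℂ) : ℕ → ℂ := fun k => if k + 1 < L then z (k + 1) else if k + 1 = L then z 0 else z k

/-- evaluation of a vector of polynomials -/
def ev {L : ℕ} (P : Pat L → MvPolynomial ℕ ℂ) (z : ℕ → ℂ) : V L := fun α => MvPolynomial.eval z (P α)

/-- `P` is the polynomial solution of the exchange relations for the period `L` -/
structure IsPsi (q : ℂ) (L : ℕ) (P : Pat L → MvPolynomial ℕ ℂ) : Prop where
  exch : ∀ (z : ℕ → ℂ) (i : ℕ), i + 1 < L →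
    F q (z (i + 1)) (z i) • ev P z + (z (i + 1) - z i) • E (i : ℤ) (ev P z) =
      F q (z i) (z (i + 1)) • ev P (sw i z)
  rot : ∀ z : ℕ → ℂ, ev P (cyc L z) = R (ev P z)
  ref : ∀ (z : ℕ → ℂ) (α : Pat L), IsRef α →
    ev P z α = ∏ i ∈ range L, ∏ j ∈ Ioo i L, F q (z i) (z j)
  vars : ∀ α, ↑(P α).vars ⊆ {k : ℕ | k < L}
  deg : ∀ α, ∀ m ∈ (P α).support, ∀ i : ℕ, m i ≤ L - 1
  pair : ∀ α, ∀ m ∈ (P α).support, ∀ i j : ℕ, i < L → j < L → i ≠ j → m i + m j ≤ 2 * L - 3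

/-- the set of points `S` is stable under exchanges and rotation and consists of points with distinct entries -/
structure Orb (L : ℕ) (S : Set (ℕ → ℂ)) : Prop where
  sw : ∀ z ∈ S, ∀ i, i + 1 < L → CY.sw i z ∈ S
  cyc : ∀ z ∈ S, CY.cyc L z ∈ S
  ne : ∀ z ∈ S, ∀ i j, i < L → j < L → i ≠ j → z i ≠ z j

/-- `χ` satisfies the exchange relations on `S` -/
structure SolOn (q : ℂ) (L : ℕ) (S : Set (ℕ → ℂ)) (χ : (ℕ → ℂ) → V L) : Prop where
  exch : ∀ z ∈ S, ∀ i : ℕ, i + 1 < L →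
    F q (z (i + 1)) (z i) • χ z + (z (i + 1) - z i) • E (i : ℤ) (χ z) = F q (z i) (z (i + 1)) • χ (CY.sw i z)
  rot : ∀ z ∈ S, χ (CY.cyc L z) = R (χ z)

end CY
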