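import Pool.Agent.Lib.MP_216314_pr.Z.TopF

/-!
# The symmetric polynomial `E_x`

`EE x Pb P z = BB x (ev Pb z) (ev P z)` where `Pb` is the solution for `q²` and `P` the solution for `q`.
`EE_sw`: with `a = z i`, `b = z (i+1)`: multiply by `F (q²) a b * F q a b`: by `exch` for both, `BB_E` (`i + 1 < L`, so `L` does not divide `i + 1`):
`BB ((F (q²) b a + (b-a) E) Ψb) ((F q b a + (b-a) E) Ψ) = BB Ψb ((F (q²) b a + (b-a) E)(F q b a + (b-a) E) Ψ)`, and the operator is the scalar
`F (q²) b a * F q b a`, since `F q b a + F (q²) b a + (b - a) = 0`; moreover `F (q²) b a = - F q a b` (`(q²)² = q`), so the two scalars are equal: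
`F (q²) a b * F q a b = F (q²) b a * F q b a = a² + a b + b²`. So `(a²+ab+b²) (EE (sw i z) - EE z) = 0` for all `z`; both factors are polynomials in `z`
and the first one is not zero (`poly_generic`).
`EE_fus` (`a ≠ 0`): `ev P (insP 0 a (q² a) y) = Kf q L a y • I 0 (ev P' y)` (`fusion`); with `b = q² a`, `(q²)² b = a`: `E 0 (ev Pb (insP 0 a b y)) =
Kf (q²) L b y • I 0 (ev Pb' y)` (`fusion'` for `q²`); `BB v (I 0 w) = BB v (E 0 (I 0 w)) = BB (E 0 v) (I 0 w)`; the product of the factors is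
`(1-q²) a (1-q) q² a ∏ (y_j - q a)^4 = 3 q² a² ∏ (y_j - q a)^4`.
`EE_top`: `expand` for `P` and `Pb` (`k = 1`, `pt_one`), product of double sums; the coefficient of `s^(2L+2) t^b` is the sum of
`BB (ω' (L+1) b') (ω (L+1) b'')` over `b' + b'' = b`, `b', b'' ≤ L` (the others vanish), so it is `0` for `b > 2L` and
`BB (ω' (L+1) L) (ω (L+1) L)` for `b = 2L`: `top_coeff` for `q²` and `q`, `form_top`.
-/

set_option autoImplicit false

noncomputable section

namespace CY

open Finset

/-- `E_x(z)` -/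
def EE (x : ℂ) {L : ℕ} (Pb P : Pat L → MvPolynomial ℕ ℂ) (z : ℕ → ℂ) : ℂ := BB x (ev Pb z) (ev P z)

end CY
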