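import Pool.Agent.Lib.MP_216314_pr.Z.FusA

/-!
# The explicit symmetric sum
-/

set_option autoImplicit false

noncomputable section

namespace CY

open Finset

/-- the factor of a pair -/
def gg (q : ℂ) (s t : Bool) (a b : ℂ) : ℂ :=
  if s = t then a ^ 2 + a * b + b ^ 2
  else if s then (b - q ^ 2 * a) ^ 3 / (b - a) else (a - q ^ 2 * b) ^ 3 / (a - b)

/-- the weight `w` for every index with value `true` -/
def wt (w : ℂ) {L : ℕ} (σ : Fin L → Bool) : ℂ := ∏ i, if σ i then w else 1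

/-- product over all pairs -/
def pp (q : ℂ) {L : ℕ} (σ : Fin L → Bool) (z : ℕ → ℂ) : ℂ :=
  ∏ i : Fin L, ∏ j ∈ Ioi i, gg q (σ i) (σ j) (z i) (z j)

/-- the symmetric sum -/
def WW (q w : ℂ) (L : ℕ) (z : ℕ → ℂ) : ℂ := ∑ σ : Fin L → Bool, wt w σ * pp q σ z

/-- the point `(a, z_0, z_1, ...)` -/
def consN (a : ℂ) (z : ℕ → ℂ) : ℕ → ℂ := fun k => if k = 0 then a else z (k - 1)

theorem gg_symm (q : ℂ) (s t : Bool) (a b : ℂ) : gg q s t a b = gg q t s b a := by
  unfold gg
  cases s <;> cases t <;> simp <;> ring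

theorem consN_consN (a b : ℂ) (z : ℕ → ℂ) : consN a (consN b z) = insP 0 a b z := by
  funext k
  unfold consN insP
  rcases k with _ | _ | k
  · simp
  · simp
  · simp

private theorem WDef_val {L : ℕ} (a : ℂ) (z : ℕ → ℂ) (j : Fin L) : consN a z ((j.succ : Fin (L + 1)) : ℕ) = z j := by
  unfold consN
  rw [if_neg (by simp), Fin.val_succ, Nat.add_sub_cancel]

private theorem WDef_wt (w : ℂ) {L : ℕ} (s : Bool) (σ : Fin L → Bool) :
    wt w (Fin.cons s σ : Fin (L + 1) → Bool) = (if s then w else 1) * wt w σ := by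
  unfold wt
  rw [Fin.prod_univ_succ, Fin.cons_zero]
  congr 1

private theorem WDef_pp (q : ℂ) {L : ℕ} (s : Bool) (σ : Fin L → Bool) (a : ℂ) (z : ℕ → ℂ) :
    pp q (Fin.cons s σ : Fin (L + 1) → Bool) (consN a z) = (∏ j : Fin L, gg q s (σ j) a (z j)) * pp q σ z := by
  unfold pp
  rw [Fin.prod_univ_succ, Fin.prod_Ioi_zero]
  refine congrArg₂ (· * ·) ?_ ?_
  · refine Finset.prod_congr rfl fun j _ => ?_
    rw [Fin.cons_zero, Fin.cons_succ, WDef_val]
    rfl
  · refine Finset.prod_congr rfl fun i _ => ?_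
    rw [Fin.prod_Ioi_succ]
    refine Finset.prod_congr rfl fun j _ => ?_
    rw [Fin.cons_succ, Fin.cons_succ, WDef_val, WDef_val]

/-- the first variable separated -/
theorem WW_cons (q w : ℂ) (L : ℕ) (a : ℂ) (z : ℕ → ℂ) :
    WW q w (L + 1) (consN a z) = ∑ σ : Fin L → Bool, wt w σ * pp q σ z *
      ((∏ j : Fin L, gg q false (σ j) a (z j)) + w * ∏ j : Fin L, gg q true (σ j) a (z j)) := by
  unfold WW
  rw [← (Fin.consEquiv (fun _ : Fin (L + 1) => Bool)).sum_comp, Fintype.sum_prod_type_right]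
  refine Finset.sum_congr rfl fun σ _ => ?_
  rw [Fintype.sum_bool]
  have e1 : ∀ s, Fin.consEquiv (fun _ : Fin (L + 1) => Bool) (s, σ) = Fin.cons s σ := fun s => rfl
  rw [e1, e1, WDef_wt, WDef_wt, WDef_pp, WDef_pp]
  simp only [if_true, Bool.false_eq_true, if_false]
  ring

/-- the sum only depends on the first `L` entries -/
theorem WW_congr (q w : ℂ) {L : ℕ} {z z' : ℕ → ℂ} (h : ∀ k, k < L → z k = z' k) : WW q w L z = WW q w L z' := by
  unfold WW pp
  refine Finset.sum_congr rfl fun σ _ => ?_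
  congr 1
  refine Finset.prod_congr rfl fun i _ => Finset.prod_congr rfl fun j _ => ?_
  rw [h i i.isLt, h j j.isLt]

end CY
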