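import Pool.Agent.Lib.MP_216314_pr.Z.PatU

/-!
# Insertion of a small arc

On the sites `up i k`: `insFun (up i k) = up i (α k)` (`dn_up`, `up_not_left`, `up_not_right`); every other site is congruent to `i` or
`i+1` modulo `L+2` (`up_dn`). Noncrossing: `up` is strictly monotone; a pair `{i, i+1}` of neighbours cannot be separated by an arc
with ends in the range of `up`. `exists_ins`: the pattern `k ↦ dn (β (up k))`; `β` maps the range of `up` to itself, since it preserves the
sites congruent to `i`, `i+1`.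
-/

set_option autoImplicit false

noncomputable section

namespace CY

open Finset

variable {L : ℕ}

theorem PatI_up (f : ℤ → ℤ) (hL : 0 < L) (i k : ℤ) : insFun L i f (up L i k) = up L i (f k) := by
  unfold insFun
  rw [if_neg (up_not_left hL i k), if_neg (up_not_right hL i k), dn_up hL]

theorem PatI_left (f : ℤ → ℤ) (i x : ℤ) (h : (L + 2 : ℤ) ∣ x - i) : insFun L i f x = x + 1 := by
  unfold insFun
  rw [if_pos h]

theorem PatI_not {i x : ℤ} (h : (L + 2 : ℤ) ∣ x - i - 1) : ¬ (L + 2 : ℤ) ∣ x - i := by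
  intro h1
  have h2 : (L + 2 : ℤ) ∣ 1 := by
    have := dvd_sub h1 h
    have e : x - i - (x - i - 1) = 1 := by ring
    rwa [e] at this
  have h3 := Int.le_of_dvd one_pos h2
  omega

theorem PatI_right (f : ℤ → ℤ) (i x : ℤ) (h : (L + 2 : ℤ) ∣ x - i - 1) : insFun L i f x = x - 1 := by
  unfold insFun
  rw [if_neg (PatI_not h), if_pos h]

theorem PatI_cases (hL : 0 < L) (i x : ℤ) :
    (L + 2 : ℤ) ∣ x - i ∨ (L + 2 : ℤ) ∣ x - i - 1 ∨ ∃ k, x = up L i k := by
  by_cases h1 : (L + 2 : ℤ) ∣ x - i
  · exact Or.inl h1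
  · by_cases h2 : (L + 2 : ℤ) ∣ x - i - 1
    · exact Or.inr (Or.inl h2)
    · exact Or.inr (Or.inr ⟨dn L i x, (up_dn hL i x h1 h2).symm⟩)

namespace Pat

variable (α : Pat L)

theorem insFun_inv (i x : ℤ) : insFun L i α.f (insFun L i α.f x) = x := by
  rcases PatI_cases α.pos i x with h | h | ⟨k, rfl⟩
  · rw [PatI_left _ i x h, PatI_right _ i (x + 1) (by
      have e : x + 1 - i - 1 = x - i := by ring
      rw [e]
      exact h)]
    ring
  · rw [PatI_right _ i x h, PatI_left _ i (x - 1) (by
      have e : x - 1 - i = x - i - 1 := by ring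
      rw [e]
      exact h)]
    ring
  · rw [PatI_up _ α.pos, PatI_up _ α.pos, α.inv]

theorem insFun_per (i x : ℤ) : insFun L i α.f (x + (L + 2 : ℕ)) = insFun L i α.f x + (L + 2 : ℕ) := by
  have hc : ((L + 2 : ℕ) : ℤ) = (L : ℤ) + 2 := by push_cast; ring
  rw [hc]
  rcases PatI_cases α.pos i x with h | h | ⟨k, rfl⟩
  · rw [PatI_left _ i x h, PatI_left _ i (x + (L + 2)) (by
      have e : x + ((L : ℤ) + 2) - i = (x - i) + (L + 2) := by ring
      rw [e]
      exact dvd_add h dvd_rfl)]
    ring
  · rw [PatI_right _ i x h, PatI_right _ i (x + (L + 2)) (by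
      have e : x + ((L : ℤ) + 2) - i - 1 = (x - i - 1) + (L + 2) := by ring
      rw [e]
      exact dvd_add h dvd_rfl)]
    ring
  · rw [← up_add α.pos, PatI_up _ α.pos, PatI_up _ α.pos, α.per, up_add α.pos]

theorem insFun_ne (i x : ℤ) : insFun L i α.f x ≠ x := by
  rcases PatI_cases α.pos i x with h | h | ⟨k, rfl⟩
  · rw [PatI_left _ i x h]
    omega
  · rw [PatI_right _ i x h]
    omega
  · rw [PatI_up _ α.pos]
    intro h
    exact α.ne k ((up_strictMono α.pos i).injective h)

theorem insFun_nc (i x y : ℤ) (h1 : x < y) (h2 : y < insFun L i α.f x) :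
    x < insFun L i α.f y ∧ insFun L i α.f y < insFun L i α.f x := by
  rcases PatI_cases α.pos i x with h | h | ⟨k, rfl⟩
  · rw [PatI_left _ i x h] at h2
    omega
  · rw [PatI_right _ i x h] at h2
    omega
  · rw [PatI_up _ α.pos] at h2 ⊢
    rcases PatI_cases α.pos i y with g | g | ⟨j, rfl⟩
    · rw [PatI_left _ i y g]
      have hne : up L i (α.f k) ≠ y + 1 := by
        intro e
        apply up_not_right α.pos i (α.f k)
        rw [e]
        have e2 : y + 1 - i - 1 = y - i := by ring
        rw [e2]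
        exact g
      omega
    · rw [PatI_right _ i y g]
      have hne : up L i k ≠ y - 1 := by
        intro e
        apply up_not_left α.pos i k
        rw [e]
        have e2 : y - 1 - i = y - i - 1 := by ring
        rw [e2]
        exact g
      omega
    · rw [PatI_up _ α.pos]
      have m := up_strictMono α.pos i
      have a1 := m.lt_iff_lt.1 h1
      have a2 := m.lt_iff_lt.1 h2
      obtain ⟨b1, b2⟩ := α.nc k j a1 a2
      exact ⟨m b1, m b2⟩

/-- insertion of the small arc `(i, i+1)` -/
def ins (i : ℤ) (α : Pat L) : Pat (L + 2) :=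
  ⟨insFun L i α.f, by omega, α.insFun_inv i, α.insFun_per i, α.insFun_ne i, α.insFun_nc i⟩

theorem ins_f (i x : ℤ) : (ins i α).f x = insFun L i α.f x := rfl

theorem ins_up (i k : ℤ) : (ins i α).f (up L i k) = up L i (α.f k) := by
  rw [ins_f, PatI_up _ α.pos]

theorem ins_left (i : ℤ) : (ins i α).f i = i + 1 := by
  rw [ins_f, PatI_left _ i i (by rw [sub_self]; exact dvd_zero _)]

theorem ins_right (i : ℤ) : (ins i α).f (i + 1) = i := by
  rw [ins_f, PatI_right _ i (i + 1) (by
    have e : i + 1 - i - 1 = 0 := by ring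
    rw [e]
    exact dvd_zero _)]
  ring

theorem ins_injective (i : ℤ) : Function.Injective (ins i : Pat L → Pat (L + 2)) := by
  intro α β h
  apply Pat.ext
  funext k
  have h1 : (ins i α).f (up L i k) = (ins i β).f (up L i k) := by rw [h]
  rw [ins_up, ins_up] at h1
  exact (up_strictMono α.pos i).injective h1

private theorem PatI_perz (β : Pat (L + 2)) (x t : ℤ) :
    β.f (x + (L + 2) * t) = β.f x + (L + 2) * t := by
  have hc : ((L + 2 : ℕ) : ℤ) = (L : ℤ) + 2 := by push_cast; ring
  have hper : ∀ x, β.f (x + (L + 2)) = β.f x + (L + 2) := by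
    intro x
    have := β.per x
    rwa [hc] at this
  induction t using Int.induction_on with
  | zero => simp
  | succ n ih =>
    have e : x + ((L : ℤ) + 2) * ((n : ℤ) + 1) = x + (L + 2) * n + (L + 2) := by ring
    rw [e, hper, ih]
    ring
  | pred n ih =>
    have e : x + ((L : ℤ) + 2) * (-(n : ℤ)) = (x + (L + 2) * (-(n : ℤ) - 1)) + (L + 2) := by ring
    rw [e, hper] at ih
    linarith

private theorem PatI_bl (β : Pat (L + 2)) {i : ℤ} (h : β.f i = i + 1) {x : ℤ}
    (hx : (L + 2 : ℤ) ∣ x - i) : β.f x = x + 1 := by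
  obtain ⟨t, ht⟩ := hx
  have e : x = i + (L + 2) * t := by linarith
  rw [e, PatI_perz, h]
  ring

private theorem PatI_br (β : Pat (L + 2)) {i : ℤ} (h : β.f i = i + 1) {x : ℤ}
    (hx : (L + 2 : ℤ) ∣ x - i - 1) : β.f x = x - 1 := by
  have h1 : β.f (x - 1) = x := by
    have := PatI_bl β h (x := x - 1) (by
      have e : x - 1 - i = x - i - 1 := by ring
      rw [e]
      exact hx)
    rw [this]
    ring
  have h2 := β.inv (x - 1)
  rw [h1] at h2
  exact h2

/-- a pattern of period at least `4` which joins `i`, `i+1` is obtained by insertion -/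
theorem exists_ins (hL : 0 < L) (i : ℤ) (β : Pat (L + 2)) (h : β.f i = i + 1) :
    ∃ α : Pat L, ins i α = β := by
  have hc : ((L + 2 : ℕ) : ℤ) = (L : ℤ) + 2 := by push_cast; ring
  have m := up_strictMono hL i
  have hg : ∀ k, up L i (dn L i (β.f (up L i k))) = β.f (up L i k) := by
    intro k
    refine up_dn hL i _ ?_ ?_
    · intro hd
      have h1 := PatI_bl β h hd
      rw [β.inv] at h1
      apply up_not_right hL i k
      rw [h1]
      have e : β.f (up L i k) + 1 - i - 1 = β.f (up L i k) - i := by ring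
      rw [e]
      exact hd
    · intro hd
      have h1 := PatI_br β h hd
      rw [β.inv] at h1
      apply up_not_left hL i k
      rw [h1]
      have e : β.f (up L i k) - 1 - i = β.f (up L i k) - i - 1 := by ring
      rw [e]
      exact hd
  refine ⟨⟨fun k => dn L i (β.f (up L i k)), hL, ?_, ?_, ?_, ?_⟩, ?_⟩
  · intro k
    show dn L i (β.f (up L i (dn L i (β.f (up L i k))))) = k
    rw [hg, β.inv, dn_up hL]
  · intro k
    show dn L i (β.f (up L i (k + L))) = dn L i (β.f (up L i k)) + L
    have h1 : β.f (up L i (k + L)) = up L i (dn L i (β.f (up L i k)) + L) := by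
      have h2 := β.per (up L i k)
      rw [hc] at h2
      rw [up_add hL, up_add hL, hg, h2]
    rw [h1, dn_up hL]
  · intro k
    show dn L i (β.f (up L i k)) ≠ k
    intro h1
    have h2 := hg k
    rw [h1] at h2
    exact β.ne _ h2.symm
  · intro k j h1 h2
    have h2' : j < dn L i (β.f (up L i k)) := h2
    show k < dn L i (β.f (up L i j)) ∧ dn L i (β.f (up L i j)) < dn L i (β.f (up L i k))
    have a1 := m h1
    have a2 := m h2'
    rw [hg] at a2
    obtain ⟨b1, b2⟩ := β.nc _ _ a1 a2
    rw [← hg j] at b1 b2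
    rw [← hg k] at b2
    exact ⟨m.lt_iff_lt.1 b1, m.lt_iff_lt.1 b2⟩
  · apply Pat.ext
    funext x
    show insFun L i (fun k => dn L i (β.f (up L i k))) x = β.f x
    rcases PatI_cases hL i x with g | g | ⟨k, rfl⟩
    · rw [PatI_left _ i x g, PatI_bl β h g]
    · rw [PatI_right _ i x g, PatI_br β h g]
    · rw [PatI_up _ hL]
      exact hg k

end Pat

end CY
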