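import Pool.Agent.Lib.MP_216314_pr.W.Bridge

/-!
# Existence and uniqueness (stream of helper99)
-/

set_option autoImplicit false

noncomputable section

namespace CY

open Finset

/-- uniqueness: a solution on an orbit whose reference component vanishes is zero -/
theorem sol_unique {q : ℂ} (_hq : q ^ 2 + q + 1 = 0) {L : ℕ} {S : Set (ℕ → ℂ)} (hS : Orb L S)
    {χ : (ℕ → ℂ) → V L} (h : SolOn q L S χ) (h0 : ∀ z ∈ S, ∀ α, IsRef α → χ z α = 0) :
    ∀ z ∈ S, χ z = 0 :=
  sol_unique' hS h h0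

theorem exists_psi {q : ℂ} (hq : q ^ 2 + q + 1 = 0) {L : ℕ} (hL : 0 < L) (hE : Even L) :
    ∃ P : Pat L → MvPolynomial ℕ ℂ, IsPsi q L P :=
  exists_psi' hq hL hE

end CY
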