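import Mathlib

/-!
# The Cauchy determinant

Induction on `n`. Subtract the last row from the others, `1/(x_i - y_j) - 1/(x_n - y_j) = (x_n - x_i)/((x_i - y_j)(x_n - y_j))`, take the factors out of the
rows and columns, subtract the last column from the others. (Or any other proof, for instance by Lagrange interpolation / `Matrix.det_eval...`.)
The case that two of the `x_i` (or two of the `y_j`) are equal is trivial (two equal rows, and a factor `0`), so one may assume distinct `x_i`.
-/

set_option autoImplicit false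

noncomputable section

namespace CY

open Finset

theorem det_cauchy (n : ℕ) (x y : Fin n → ℂ) (h : ∀ i j, x i ≠ y j) :
    Matrix.det (Matrix.of fun i j => (x i - y j)⁻¹) =
      (∏ i : Fin n, ∏ j ∈ Ioi i, ((x j - x i) * (y i - y j))) / ∏ i, ∏ j, (x i - y j) := by
  induction n with
  | zero => simp
  | succ n ih =>
    have h00 : x 0 - y 0 ≠ 0 := sub_ne_zero.mpr (h 0 0)
    set M : Matrix (Fin (n + 1)) (Fin (n + 1)) ℂ := Matrix.of fun i j => (x i - y j)⁻¹ with hM
    set c : Fin (n + 1) → ℂ := fun i => if i = 0 then 0 else -((x 0 - y 0) / (x i - y 0)) with hc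
    set A : Matrix (Fin (n + 1)) (Fin (n + 1)) ℂ := Matrix.of fun i j => M i j + c i * M 0 j with hA
    have hdet : A.det = M.det := by
      refine Matrix.det_eq_of_forall_row_eq_smul_add_const c 0 (by simp [hc]) ?_
      intro i j
      rfl
    rw [← hdet, Matrix.det_succ_column_zero, Fin.sum_univ_succ]
    have hz : ∀ i : Fin n, A i.succ 0 = 0 := by
      intro i
      have hi : x i.succ - y 0 ≠ 0 := sub_ne_zero.mpr (h _ _)
      simp only [hA, hM, hc, Matrix.of_apply, if_neg (Fin.succ_ne_zero i)]
      field_simp
      ring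
    have hsum : ∑ i : Fin n, (-1 : ℂ) ^ ((i.succ : Fin (n + 1)) : ℕ) * A i.succ 0 *
        (A.submatrix i.succ.succAbove Fin.succ).det = 0 := by
      refine Finset.sum_eq_zero fun i _ => ?_
      rw [hz i]; ring
    have hA00 : A 0 0 = (x 0 - y 0)⁻¹ := by
      simp [hA, hM, hc]
    have hsub : A.submatrix (Fin.succAbove 0) Fin.succ =
        Matrix.of fun i j : Fin n => ((x i.succ - x 0) / (x i.succ - y 0)) *
          (Matrix.of fun i j : Fin n => ((y 0 - y j.succ) / (x 0 - y j.succ)) *
            (Matrix.of fun i j : Fin n => (x i.succ - y j.succ)⁻¹) i j) i j := by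
      ext i j
      have hi : x i.succ - y 0 ≠ 0 := sub_ne_zero.mpr (h _ _)
      have hj : x 0 - y j.succ ≠ 0 := sub_ne_zero.mpr (h _ _)
      have hij : x i.succ - y j.succ ≠ 0 := sub_ne_zero.mpr (h _ _)
      simp only [Matrix.submatrix_apply, Fin.succAbove_zero, hA, hM, hc, Matrix.of_apply,
        if_neg (Fin.succ_ne_zero i)]
      field_simp
      ring
    rw [hsum, hA00, hsub, Matrix.det_mul_column, Matrix.det_mul_row,
      ih (fun i => x i.succ) (fun j => y j.succ) (fun i j => h _ _)]
    simp only [Fin.prod_univ_succ, Fin.prod_Ioi_zero, Fin.prod_Ioi_succ, Finset.prod_mul_distrib,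
      Finset.prod_div_distrib]
    simp only [Fin.coe_ofNat_eq_mod, Nat.zero_mod, pow_zero, one_mul, add_zero]
    rw [inv_eq_one_div, div_mul_div_comm, div_mul_div_comm, div_mul_div_comm]
    congr 1 <;> ring

end CY
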