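import Pool.Agent.Lib.MP_216314_pr.Z.RelB

/-!
# Two-colourings of the gaps which are compatible with a pattern

`p : ℤ → Bool` colours the gaps (the gap `g` is between the sites `g-1` and `g`; the site `x` is between the gaps `x` and `x+1`). The site `x` is a
boundary site if `p x ≠ p (x+1)`. `Cpt α p`: the set of the boundary sites is closed under `α`.

`cpt_ins`: the arc `{x, x+1}`, `x ≡ i (mod L+2)`: `(P x ≠ P (x+1)) ↔ (P (x+1) ≠ P (x+2))` iff `P x = P (x+2)` (Bool). The site `up i k`: gaps `up i k` and `up i k + 1`;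
if `L ∤ k + 1 - i` then `up i (k+1) = up i k + 1` (`up_step`); otherwise `up i k + 1 ≡ i`, `up i (k+1) = up i k + 3` and `P (up i k + 1) = P (up i k + 3)`.
`cpt_e` (←): `P = P'` except at the gaps `≡ i+1`; `P x = P (x+2)` for `x ≡ i`, so the sites `i`, `i+1` are both boundary sites of `P` or both not; sites not
congruent to `i`, `i+1` are boundary sites of `P` iff of `P'`; follow `α`. (→): let `x ≡ i`, `u = α x`. If `u` is not congruent to `i`, `i+1`: put `P (x+1) := P' x`
if `u` is not a boundary site of `P'`, `! P' x` if it is. If `u = x + 1` put `P (x+1) = P' (x+1)`; if `u ≡ i + 1` but `u ≠ x+1` (then `α i = i + 1 - L`) put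
`P (x+1) = P' x` for all these `x`.
-/

set_option autoImplicit false

noncomputable section

namespace CY

open Finset

/-- the boundary sites of the colouring are closed under the pattern -/
def Cpt {L : ℕ} (α : Pat L) (p : ℤ → Bool) : Prop :=
  ∀ x, (p x ≠ p (x + 1)) ↔ (p (α.f x) ≠ p (α.f x + 1))

theorem CpA_bool {a b c : Bool} (h : a = c) : (a ≠ b) ↔ (b ≠ c) := by
  subst h
  exact ne_comm

theorem CpA_bool' {a b c : Bool} (h : (a ≠ b) ↔ (b ≠ c)) : a = c := by
  revert h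
  cases a <;> cases b <;> cases c <;> simp

theorem CpA_up {L : ℕ} (hL : 0 < L) (i k : ℤ) (h : (L : ℤ) ∣ k + 1 - i) :
    up L i (k + 1) = up L i k + 3 ∧ (L + 2 : ℤ) ∣ up L i k + 1 - i := by
  obtain ⟨c, hc⟩ := h
  have hL' : (0 : ℤ) < L := by exact_mod_cast hL
  have h1 : (k + 1 - i) / (L : ℤ) = c := by
    rw [hc]
    exact Int.mul_ediv_cancel_left c hL'.ne'
  have h2 : (k - i) / (L : ℤ) = c - 1 := by
    have h3 : k - i = ((L : ℤ) - 1) + (L : ℤ) * (c - 1) := by
      have : k - i = (k + 1 - i) - 1 := by ring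
      rw [this, hc]
      ring
    rw [h3, Int.add_mul_ediv_left _ _ hL'.ne', Int.ediv_eq_zero_of_lt (by omega) (by omega)]
    ring
  unfold up
  rw [h1, h2]
  refine ⟨by ring, ⟨c, ?_⟩⟩
  have h4 : k + 2 + 2 * (c - 1) + 1 - i = (k + 1 - i) + 2 * c := by ring
  rw [h4, hc]
  ring

theorem CpA_step {L : ℕ} (hL : 0 < L) (i : ℤ) {P : ℤ → Bool}
    (h : ∀ x, (L + 2 : ℤ) ∣ x - i → P x = P (x + 2)) (k : ℤ) :
    P (up L i (k + 1)) = P (up L i k + 1) := by
  by_cases h1 : (L : ℤ) ∣ k + 1 - i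
  · obtain ⟨h2, h3⟩ := CpA_up hL i k h1
    rw [h2, h _ h3]
    congr 1
    ring
  · rw [up_step hL i k h1]

theorem cpt_ins {L : ℕ} (α : Pat L) (i : ℤ) (P : ℤ → Bool) :
    Cpt (Pat.ins i α) P ↔ (∀ x, (L + 2 : ℤ) ∣ x - i → P x = P (x + 2)) ∧ Cpt α (fun k => P (up L i k)) := by
  have hL := α.pos
  have hleft : ∀ x, (L + 2 : ℤ) ∣ x - i → (Pat.ins i α).f x = x + 1 := by
    intro x h
    rw [Pat.ins_f, insFun, if_pos h]
  have hright : ∀ x, (L + 2 : ℤ) ∣ x - i - 1 → (Pat.ins i α).f x = x - 1 := by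
    intro x h
    have h1 : ¬ (L + 2 : ℤ) ∣ x - i := by
      intro h2
      have h3 := dvd_sub h2 h
      rw [show x - i - (x - i - 1) = 1 by ring] at h3
      have h4 := Int.le_of_dvd one_pos h3
      omega
    rw [Pat.ins_f, insFun, if_neg h1, if_pos h]
  constructor
  · intro h
    have h1 : ∀ x, (L + 2 : ℤ) ∣ x - i → P x = P (x + 2) := by
      intro x hx
      have h2 := h x
      rw [hleft x hx, add_assoc] at h2
      exact CpA_bool' h2
    refine ⟨h1, fun k => ?_⟩
    have h2 := h (up L i k)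
    rw [Pat.ins_up] at h2
    show (P (up L i k) ≠ P (up L i (k + 1))) ↔ (P (up L i (α.f k)) ≠ P (up L i (α.f k + 1)))
    rw [CpA_step hL i h1, CpA_step hL i h1]
    exact h2
  · rintro ⟨h1, h2⟩ x
    by_cases hx : (L + 2 : ℤ) ∣ x - i
    · rw [hleft x hx, add_assoc]
      exact CpA_bool (h1 x hx)
    · by_cases hx' : (L + 2 : ℤ) ∣ x - i - 1
      · rw [hright x hx', sub_add_cancel]
        have h3 := h1 (x - 1) (by
          rw [show x - 1 - i = x - i - 1 by ring]
          exact hx')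
        rw [show x - 1 + 2 = x + 1 by ring] at h3
        exact (CpA_bool h3).symm
      · have h3 := h2 (dn L i x)
        have h4 := up_dn hL i x hx hx'
        have h5 : (P (up L i (dn L i x)) ≠ P (up L i (dn L i x + 1))) ↔
          (P (up L i (α.f (dn L i x))) ≠ P (up L i (α.f (dn L i x) + 1))) := h3
        rw [CpA_step hL i h1, CpA_step hL i h1, ← Pat.ins_up, h4] at h5
        exact h5

/-- the sites congruent to `i`, `i+1` -/
def CpA_R (L : ℕ) (i x : ℤ) : Prop := (L : ℤ) ∣ x - i ∨ (L : ℤ) ∣ x - i - 1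

theorem CpA_R_add {L : ℕ} {i x : ℤ} (m : ℤ) : CpA_R L i (x + m * L) ↔ CpA_R L i x := by
  unfold CpA_R
  have h1 : x + m * (L : ℤ) - i = (x - i) + (L : ℤ) * m := by ring
  have h2 : x + m * (L : ℤ) - i - 1 = (x - i - 1) + (L : ℤ) * m := by ring
  rw [h2, h1]
  exact or_congr ((Int.dvd_add_left (dvd_mul_right _ _))) ((Int.dvd_add_left (dvd_mul_right _ _)))

theorem CpA_L {L : ℕ} (α : Pat L) {x i : ℤ} (h : (L : ℤ) ∣ x - i) : ¬ (L : ℤ) ∣ x - i - 1 := by
  intro h2
  have h3 := dvd_sub h h2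
  rw [show x - i - (x - i - 1) = 1 by ring] at h3
  have h4 := Int.le_of_dvd one_pos h3
  have := α.two_le
  omega

theorem CpA_L2 {L : ℕ} (α : Pat L) {x i : ℤ} (h : (L : ℤ) ∣ x - i) :
    ¬ (L : ℤ) ∣ x + 2 - i - 1 := by
  intro h2
  have h3 := dvd_sub h2 h
  rw [show x + 2 - i - 1 - (x - i) = 1 by ring] at h3
  have h4 := Int.le_of_dvd one_pos h3
  have := α.two_le
  omega

/-- if the partner of `x ≡ i` is in `R` then it is congruent to `i + 1` -/
theorem CpA_part {L : ℕ} (α : Pat L) {x i : ℤ} (h : (L : ℤ) ∣ x - i) (hR : CpA_R L i (α.f x)) :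
    ∃ m : ℤ, α.f x = x + 1 + m * L ∧ α.f (x + 1) = x - m * L := by
  rcases hR with h1 | h1
  · exfalso
    have h2 := dvd_sub h1 h
    rw [show α.f x - i - (x - i) = α.f x - x by ring] at h2
    exact α.not_dvd_self x h2
  · have h2 := dvd_sub h1 h
    obtain ⟨m, hm⟩ := h2
    have h3 : α.f x = x + 1 + m * L := by linarith [mul_comm (L : ℤ) m]
    refine ⟨m, h3, ?_⟩
    have h4 := α.inv x
    rw [h3, α.per_mul] at h4
    linarith

theorem CpA_part' {L : ℕ} (α : Pat L) {x i : ℤ} (h : (L : ℤ) ∣ x - i)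
    (hR : CpA_R L i (α.f (x + 1))) : CpA_R L i (α.f x) := by
  rcases hR with h1 | h1
  · have h2 := dvd_sub h1 h
    obtain ⟨m, hm⟩ := h2
    have h3 : α.f (x + 1) = x + m * L := by linarith [mul_comm (L : ℤ) m]
    have h4 := α.inv (x + 1)
    rw [h3, α.per_mul] at h4
    have h5 : α.f x = x + 1 + (-m) * L := by linarith
    rw [h5, CpA_R_add]
    right
    rw [show x + 1 - i - 1 = x - i by ring]
    exact h
  · exfalso
    have h2 := dvd_sub h1 h
    rw [show α.f (x + 1) - i - 1 - (x - i) = α.f (x + 1) - (x + 1) by ring] at h2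
    exact α.not_dvd_self (x + 1) h2

theorem CpA_part_iff {L : ℕ} (α : Pat L) {x i : ℤ} (h : (L : ℤ) ∣ x - i) :
    CpA_R L i (α.f x) ↔ CpA_R L i (α.f (x + 1)) := by
  constructor
  · intro h1
    obtain ⟨m, _, h3⟩ := CpA_part α h h1
    rw [h3, show x - m * (L : ℤ) = x + (-m) * L by ring, CpA_R_add]
    exact Or.inl h
  · exact CpA_part' α h

theorem CpA_e1 {L : ℕ} (α : Pat L) {x i : ℤ} (h : (L : ℤ) ∣ x - i) (hR : ¬ CpA_R L i (α.f x)) :
    (Pat.e i α).f (α.f x) = α.f (x + 1) := by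
  have h1 := Pat.e_of_partner α i (α.f x) (fun h => hR (Or.inl h)) (fun h => hR (Or.inr h))
    (by rw [α.inv]; exact h)
  rw [h1, α.inv]

theorem CpA_e2 {L : ℕ} (α : Pat L) {x i : ℤ} (h : (L : ℤ) ∣ x - i) (hR : ¬ CpA_R L i (α.f x)) :
    (Pat.e i α).f (α.f (x + 1)) = α.f x := by
  have hR' : ¬ CpA_R L i (α.f (x + 1)) := fun h2 => hR ((CpA_part_iff α h).2 h2)
  have h1 := Pat.e_of_partner' α i (α.f (x + 1)) (fun h => hR' (Or.inl h)) (fun h => hR' (Or.inr h))
    (by rw [α.inv, show x + 1 - i - 1 = x - i by ring]; exact h)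
  rw [h1, α.inv, add_sub_cancel_right]

/-- outside of `R` the boundary sites of two colourings which agree except at the gaps `≡ i+1` are the same -/
theorem CpA_out {L : ℕ} {i : ℤ} {P P' : ℤ → Bool} (hP : ∀ x, ¬ (L : ℤ) ∣ x - i - 1 → P x = P' x)
    {z : ℤ} (hz : ¬ CpA_R L i z) : (P z ≠ P (z + 1)) ↔ (P' z ≠ P' (z + 1)) := by
  rw [hP z (fun h => hz (Or.inr h)), hP (z + 1) (fun h => hz (Or.inl (by
    rw [show z + 1 - i - 1 = z - i by ring] at h
    exact h)))]

theorem CpA_mp {L : ℕ} (α : Pat L) (i : ℤ) (P P' : ℤ → Bool)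
    (ha : ∀ x, (L : ℤ) ∣ x - i → P' x = P' (x + 2))
    (hP : ∀ x, ¬ (L : ℤ) ∣ x - i - 1 → P x = P' x) (hc : Cpt α P) : Cpt (Pat.e i α) P' := by
  have hB' : ∀ x, (L : ℤ) ∣ x - i → ((P' x ≠ P' (x + 1)) ↔ (P' (x + 1) ≠ P' (x + 1 + 1))) := by
    intro x hx
    rw [add_assoc]
    exact CpA_bool (ha x hx)
  have hB : ∀ x, (L : ℤ) ∣ x - i → ((P x ≠ P (x + 1)) ↔ (P (x + 1) ≠ P (x + 1 + 1))) := by
    intro x hx
    have h3 : x + 1 + 1 = x + 2 := by ring
    rw [h3]
    refine CpA_bool ?_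
    rw [hP x (CpA_L α hx), hP (x + 2) (CpA_L2 α hx)]
    exact ha x hx
  intro z
  by_cases h1 : (L : ℤ) ∣ z - i
  · rw [Pat.e_of_dvd α i z h1]
    exact hB' z h1
  · by_cases h2 : (L : ℤ) ∣ z - i - 1
    · rw [Pat.e_of_dvd' α i z h2, sub_add_cancel]
      have h3 := hB' (z - 1) (by
        rw [show z - 1 - i = z - i - 1 by ring]
        exact h2)
      rw [sub_add_cancel] at h3
      exact h3.symm
    · have hz : ¬ CpA_R L i z := fun h => h.elim h1 h2
      rw [← CpA_out hP hz, hc z]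
      by_cases h3 : (L : ℤ) ∣ α.f z - i
      · have h4 : ¬ CpA_R L i (α.f (α.f z)) := by
          rw [α.inv]
          exact hz
        have h5 := CpA_e1 α h3 h4
        rw [α.inv] at h5
        rw [h5, hB _ h3, hc (α.f z + 1), CpA_out hP (fun h6 => h4 ((CpA_part_iff α h3).2 h6))]
      · by_cases h4 : (L : ℤ) ∣ α.f z - i - 1
        · have h3' : (L : ℤ) ∣ (α.f z - 1) - i := by
            rw [show (α.f z - 1) - i = α.f z - i - 1 by ring]
            exact h4
          have h5 : ¬ CpA_R L i (α.f (α.f z - 1)) := by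
            rw [CpA_part_iff α h3', sub_add_cancel, α.inv]
            exact hz
          have h6 := CpA_e2 α h3' h5
          rw [sub_add_cancel, α.inv] at h6
          have h7 := hB _ h3'
          rw [sub_add_cancel] at h7
          have h8 := hc (α.f z - 1)
          rw [sub_add_cancel] at h8
          rw [h6, ← h7, h8, CpA_out hP h5]
        · rw [Pat.e_of_not α i z h1 h2 h3 h4, CpA_out hP (fun h => h.elim h3 h4)]

theorem cpt_e {L : ℕ} (α : Pat L) (i : ℤ) (P' : ℤ → Bool) :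
    Cpt (Pat.e i α) P' ↔ (∀ x, (L : ℤ) ∣ x - i → P' x = P' (x + 2)) ∧
      ∃ P : ℤ → Bool, (∀ x, ¬ (L : ℤ) ∣ x - i - 1 → P x = P' x) ∧ Cpt α P := by
  classical
  constructor
  · intro h
    have ha : ∀ x, (L : ℤ) ∣ x - i → P' x = P' (x + 2) := by
      intro x hx
      have h2 := h x
      rw [Pat.e_of_dvd α i x hx, add_assoc] at h2
      exact CpA_bool' h2
    refine ⟨ha, ?_⟩
    obtain ⟨P, hPd⟩ : ∃ P : ℤ → Bool, ∀ y, P y = if (L : ℤ) ∣ y - i - 1 then
        (if ¬ CpA_R L i (α.f (y - 1)) ∧ P' (α.f (y - 1)) ≠ P' (α.f (y - 1) + 1) then ! P' (y - 1)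
        else P' (y - 1)) else P' y := ⟨_, fun _ => rfl⟩
    have hP : ∀ x, ¬ (L : ℤ) ∣ x - i - 1 → P x = P' x := by
      intro x hx
      rw [hPd, if_neg hx]
    have hB : ∀ x, (L : ℤ) ∣ x - i → ((P x ≠ P (x + 1)) ↔ (P (x + 1) ≠ P (x + 1 + 1))) := by
      intro x hx
      have h3 : x + 1 + 1 = x + 2 := by ring
      rw [h3]
      refine CpA_bool ?_
      rw [hP x (CpA_L α hx), hP (x + 2) (CpA_L2 α hx)]
      exact ha x hx
    have hBx : ∀ x, (L : ℤ) ∣ x - i → ((P x ≠ P (x + 1)) ↔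
        (¬ CpA_R L i (α.f x) ∧ P' (α.f x) ≠ P' (α.f x + 1))) := by
      intro x hx
      have h3 : (L : ℤ) ∣ x + 1 - i - 1 := by
        rw [show x + 1 - i - 1 = x - i by ring]
        exact hx
      rw [hP x (CpA_L α hx), hPd (x + 1), if_pos h3, add_sub_cancel_right]
      split_ifs with h4
      · constructor
        · intro _
          exact h4
        · intro _ h5
          cases h6 : P' x <;> rw [h6] at h5 <;> exact absurd h5 (by decide)
      · constructor
        · intro h5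
          exact absurd rfl h5
        · intro h5
          exact absurd h5 h4
    refine ⟨P, hP, ?_⟩
    have hF : ∀ x, (L : ℤ) ∣ x - i → CpA_R L i (α.f x) → ¬ (P x ≠ P (x + 1)) := by
      intro x hx hR h3
      exact ((hBx x hx).1 h3).1 hR
    have hdvd : ∀ x m : ℤ, (L : ℤ) ∣ x - i → (L : ℤ) ∣ x + m * L - i := by
      intro x m hx
      rw [show x + m * (L : ℤ) - i = (x - i) + (L : ℤ) * m by ring]
      exact dvd_add hx (dvd_mul_right _ _)
    -- the sites congruent to `i`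
    have F1 : ∀ x, (L : ℤ) ∣ x - i → ((P x ≠ P (x + 1)) ↔ (P (α.f x) ≠ P (α.f x + 1))) := by
      intro x hx
      by_cases hR : CpA_R L i (α.f x)
      · obtain ⟨m, h3, _⟩ := CpA_part α hx hR
        have h5 := hF (x + m * L) (hdvd x m hx) (by rw [α.per_mul, CpA_R_add]; exact hR)
        have h6 := hB (x + m * L) (hdvd x m hx)
        rw [show x + m * (L : ℤ) + 1 = x + 1 + m * L by ring] at h5 h6
        rw [h3, ← h6]
        exact iff_of_false (hF x hx hR) h5
      · rw [hBx x hx, CpA_out hP hR]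
        exact and_iff_right hR
    -- the sites congruent to `i + 1`
    have F2 : ∀ x, (L : ℤ) ∣ x - i →
        ((P (x + 1) ≠ P (x + 1 + 1)) ↔ (P (α.f (x + 1)) ≠ P (α.f (x + 1) + 1))) := by
      intro x hx
      rw [← hB x hx]
      by_cases hR : CpA_R L i (α.f x)
      · obtain ⟨m, _, h3⟩ := CpA_part α hx hR
        have h5 := hF (x + (-m) * L) (hdvd x (-m) hx) (by rw [α.per_mul, CpA_R_add]; exact hR)
        rw [show x + (-m) * (L : ℤ) = x - m * L by ring] at h5
        rw [h3]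
        exact iff_of_false (hF x hx hR) h5
      · have hR' : ¬ CpA_R L i (α.f (x + 1)) := fun h3 => hR ((CpA_part_iff α hx).2 h3)
        have h3 := h (α.f x)
        rw [CpA_e1 α hx hR] at h3
        rw [hBx x hx, CpA_out hP hR', ← h3]
        exact and_iff_right hR
    intro z
    by_cases h1 : (L : ℤ) ∣ z - i
    · exact F1 z h1
    · by_cases h2 : (L : ℤ) ∣ z - i - 1
      · have h3 := F2 (z - 1) (by
          rw [show z - 1 - i = z - i - 1 by ring]
          exact h2)
        rw [sub_add_cancel] at h3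
        exact h3
      · by_cases h3 : (L : ℤ) ∣ α.f z - i
        · have h4 := F1 (α.f z) h3
          rw [α.inv] at h4
          exact h4.symm
        · by_cases h4 : (L : ℤ) ∣ α.f z - i - 1
          · have h5 := F2 (α.f z - 1) (by
              rw [show α.f z - 1 - i = α.f z - i - 1 by ring]
              exact h4)
            rw [sub_add_cancel, α.inv] at h5
            exact h5.symm
          · have h5 := h z
            rw [Pat.e_of_not α i z h1 h2 h3 h4] at h5
            rw [CpA_out hP (fun h => h.elim h1 h2), CpA_out hP (fun h => h.elim h3 h4)]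
            exact h5
  · rintro ⟨ha, P, hP, hc⟩
    exact CpA_mp α i P P' ha hP hc

theorem cpt_rotInv {L : ℕ} (α : Pat L) (P : ℤ → Bool) :
    Cpt (Pat.rotInv α) P ↔ Cpt α (fun g => P (g + 1)) := by
  constructor
  · intro h y
    have h1 : (P (y + 1) ≠ P (y + 1 + 1)) ↔
      (P (α.f (y + 1 - 1) + 1) ≠ P (α.f (y + 1 - 1) + 1 + 1)) := h (y + 1)
    rw [add_sub_cancel_right] at h1
    exact h1
  · intro h x
    have h1 : (P (x - 1 + 1) ≠ P (x - 1 + 1 + 1)) ↔
      (P (α.f (x - 1) + 1) ≠ P (α.f (x - 1) + 1 + 1)) := h (x - 1)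
    rw [sub_add_cancel] at h1
    exact h1

end CY
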