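import Pool.Agent.Lib.MP_216314_pr.Z.CpA
import Pool.Agent.Lib.MP_216314_pr.Z.NFin

/-!
# There is a loop around the marked gap iff there is a compatible colouring with finite support containing it

(→) a class `C ∈ loopsAt 0 β α`: `p g = true` iff `|C ∩ (-∞, g)|` is odd; boundary sites = `C`; `|C|` is even (closed under a fixed point free involution), so `p`
vanishes outside of a bounded interval. (←) `C = {x | p x ≠ p (x+1)}` is finite, closed under both involutions, and `|C ∩ (-∞,0)|` is odd (`p` is `false` far on the left,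
`true` at `0`: the number of changes is odd). `C` is the disjoint union of its classes; the numbers `|D ∩ (-∞,0)|` of the classes `D ⊆ C` add up to an odd
number, so one of them is odd: `D ∈ loopsAt 0 β α`, which is finite (`loopsAt_finite`), so `ncard ≠ 0`.
-/

set_option autoImplicit false

noncomputable section

namespace CY

open Finset

private theorem CpN_even {S : Finset ℤ} {f : ℤ → ℤ} (hf : ∀ x, f (f x) = x) (hne : ∀ x, f x ≠ x)
    (hS : ∀ x ∈ S, f x ∈ S) : Even S.card := by
  have h : ∑ _x ∈ S, (1 : ZMod 2) = 0 :=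
    Finset.sum_involution (fun x _ => f x) (fun _ _ => by decide) (fun x _ _ => hne x)
      (fun x hx => hS x hx) (fun x _ => hf x)
  rw [Finset.sum_const, nsmul_eq_mul, mul_one] at h
  exact (ZMod.natCast_eq_zero_iff_even).1 h

private theorem CpN_succ {C : Set ℤ} (hC : C.Finite) (x : ℤ) :
    (Odd (C ∩ Set.Iio (x + 1)).ncard ↔ Odd (C ∩ Set.Iio x).ncard) ↔ x ∉ C := by
  by_cases hx : x ∈ C
  · have h1 : C ∩ Set.Iio (x + 1) = insert x (C ∩ Set.Iio x) := by
      ext y
      simp only [Set.mem_inter_iff, Set.mem_Iio, Set.mem_insert_iff]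
      constructor
      · rintro ⟨h2, h3⟩
        rcases eq_or_ne y x with h4 | h4
        · exact Or.inl h4
        · exact Or.inr ⟨h2, by omega⟩
      · rintro (h2 | ⟨h2, h3⟩)
        · rw [h2]
          exact ⟨hx, by omega⟩
        · exact ⟨h2, by omega⟩
    have h2 : x ∉ C ∩ Set.Iio x := fun h => lt_irrefl x h.2
    rw [h1, Set.ncard_insert_of_notMem h2 (hC.subset Set.inter_subset_left), Nat.odd_add_one]
    simp only [hx, not_true_eq_false, iff_false]
    tauto
  · have h1 : C ∩ Set.Iio (x + 1) = C ∩ Set.Iio x := by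
      ext y
      simp only [Set.mem_inter_iff, Set.mem_Iio]
      constructor
      · rintro ⟨h2, h3⟩
        have h4 : y ≠ x := fun h => hx (h ▸ h2)
        exact ⟨h2, by omega⟩
      · rintro ⟨h2, h3⟩
        exact ⟨h2, by omega⟩
    rw [h1]
    simp only [hx, not_false_eq_true]

open Classical in
private theorem CpN_change {C : Set ℤ} (hC : C.Finite) (x : ℤ) :
    (decide (Odd (C ∩ Set.Iio x).ncard) ≠ decide (Odd (C ∩ Set.Iio (x + 1)).ncard)) ↔ x ∈ C := by
  rw [Ne, decide_eq_decide, iff_comm (a := Odd (C ∩ Set.Iio x).ncard), CpN_succ hC x, not_not]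

private theorem CpN_bound {C : Set ℤ} (hC : C.Finite) : ∃ B : ℤ, ∀ x ∈ C, |x| ≤ B := by
  obtain ⟨B, hB⟩ := (hC.image fun x => |x|).bddAbove
  exact ⟨B, fun x hx => hB ⟨x, hx, rfl⟩⟩

private theorem CpN_forward {L : ℕ} (β α : Pat L) (h : NL β α ≠ 0) :
    ∃ p : ℤ → Bool, Cpt α p ∧ Cpt β p ∧ p 0 = true ∧ ∃ B : ℤ, ∀ g, B < |g| → p g = false := by
  classical
  obtain ⟨C, x, hCx, hfin, hodd⟩ := Set.nonempty_of_ncard_ne_zero (s := loopsAt 0 β α) h
  have hα : ∀ y, y ∈ C → α.f y ∈ C := by
    intro y hy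
    rw [hCx] at hy ⊢
    exact cls_closed_right β α hy
  have hβ : ∀ y, y ∈ C → β.f y ∈ C := by
    intro y hy
    rw [hCx] at hy ⊢
    exact cls_closed_left β α hy
  have hα' : ∀ y, y ∈ C ↔ α.f y ∈ C := fun y =>
    ⟨hα y, fun hy => by have h1 := hα _ hy; rwa [α.inv] at h1⟩
  have hβ' : ∀ y, y ∈ C ↔ β.f y ∈ C := fun y =>
    ⟨hβ y, fun hy => by have h1 := hβ _ hy; rwa [β.inv] at h1⟩
  refine ⟨fun g => decide (Odd (C ∩ Set.Iio g).ncard), ?_, ?_, ?_, ?_⟩
  · intro y
    show (decide (Odd (C ∩ Set.Iio y).ncard) ≠ decide (Odd (C ∩ Set.Iio (y + 1)).ncard)) ↔ _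
    rw [CpN_change hfin y, hα' y, ← CpN_change hfin (α.f y)]
  · intro y
    show (decide (Odd (C ∩ Set.Iio y).ncard) ≠ decide (Odd (C ∩ Set.Iio (y + 1)).ncard)) ↔ _
    rw [CpN_change hfin y, hβ' y, ← CpN_change hfin (β.f y)]
  · exact decide_eq_true hodd
  · obtain ⟨B, hB⟩ := CpN_bound hfin
    refine ⟨B, fun g hg => decide_eq_false ?_⟩
    rcases lt_or_ge g 0 with h0 | h0
    · have h1 : C ∩ Set.Iio g = ∅ := by
        ext y
        simp only [Set.mem_inter_iff, Set.mem_Iio, Set.mem_empty_iff_false, iff_false, not_and]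
        intro hy hyg
        have h2 := hB y hy
        rw [abs_of_neg h0] at hg
        rw [abs_of_neg (by omega : y < 0)] at h2
        omega
      rw [h1, Set.ncard_empty]
      decide
    · have h1 : C ∩ Set.Iio g = C := by
        ext y
        simp only [Set.mem_inter_iff, Set.mem_Iio, and_iff_left_iff_imp]
        intro hy
        have h2 := hB y hy
        rw [abs_of_nonneg h0] at hg
        have h3 := le_abs_self y
        omega
      rw [h1, Nat.not_odd_iff_even, Set.ncard_eq_toFinset_card C hfin]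
      exact CpN_even α.inv α.ne fun y hy => (hfin.mem_toFinset).2 (hα y ((hfin.mem_toFinset).1 hy))

private theorem CpN_parity (p : ℤ → Bool) (a : ℤ) (ha : p a = false) (n : ℕ) :
    p (a + n) = true ↔ Odd ((Finset.Ico a (a + n)).filter fun x => p x ≠ p (x + 1)).card := by
  induction n with
  | zero =>
    rw [Nat.cast_zero, add_zero, ha, Finset.Ico_self, Finset.filter_empty, Finset.card_empty]
    simp
  | succ n ih =>
    have h1 : Finset.Ico a (a + ((n + 1 : ℕ) : ℤ)) = insert (a + n) (Finset.Ico a (a + n)) := by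
      ext y
      simp only [Finset.mem_Ico, Finset.mem_insert, Nat.cast_add, Nat.cast_one]
      omega
    have h2 : a + n ∉ (Finset.Ico a (a + n)).filter fun x => p x ≠ p (x + 1) := by
      simp only [Finset.mem_filter, Finset.mem_Ico, lt_irrefl, and_false, false_and,
        not_false_eq_true]
    have h3 : a + ((n + 1 : ℕ) : ℤ) = a + n + 1 := by push_cast; ring
    rw [h1, Finset.filter_insert, h3]
    by_cases h4 : p (a + n) ≠ p (a + n + 1)
    · rw [if_pos h4, Finset.card_insert_of_notMem h2, Nat.odd_add_one, ← ih]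
      cases h5 : p (a + n) <;> cases h6 : p (a + n + 1) <;> simp_all
    · rw [if_neg h4, ← ih]
      rw [not_not] at h4
      rw [h4]

private theorem CpN_backward {L : ℕ} (β α : Pat L) (p : ℤ → Bool) (hα : Cpt α p) (hβ : Cpt β p)
    (h0 : p 0 = true) (B : ℤ) (hB : ∀ g, B < |g| → p g = false) : NL β α ≠ 0 := by
  classical
  set S : Finset ℤ := (Finset.Ico (-(|B| + 1)) 0).filter fun x => p x ≠ p (x + 1) with hS
  have hodd : Odd S.card := by
    have h1 : p (-(|B| + 1)) = false := by
      apply hB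
      rw [abs_neg, abs_of_nonneg (by positivity)]
      have := le_abs_self B
      omega
    have h2 := (CpN_parity p (-(|B| + 1)) h1 (|B| + 1).toNat).1
    have h3 : -(|B| + 1) + (((|B| + 1).toNat : ℕ) : ℤ) = 0 := by
      rw [Int.toNat_of_nonneg (by positivity)]
      ring
    rw [h3] at h2
    exact h2 h0
  have hfar : ∀ x, p x ≠ p (x + 1) → -(|B| + 1) ≤ x ∧ x ≤ |B| := by
    intro x hx
    have hBa := le_abs_self B
    have hBn := abs_nonneg B
    constructor
    · by_contra hlt
      apply hx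
      rw [hB x (by rw [abs_of_neg (by omega)]; omega), hB (x + 1) (by rw [abs_of_neg (by omega)]; omega)]
    · by_contra hlt
      apply hx
      rw [hB x (by rw [abs_of_nonneg (by omega)]; omega),
        hB (x + 1) (by rw [abs_of_nonneg (by omega)]; omega)]
  have hmemS : ∀ x, x ∈ S ↔ p x ≠ p (x + 1) ∧ x < 0 := by
    intro x
    rw [hS, Finset.mem_filter, Finset.mem_Ico]
    constructor
    · rintro ⟨h1, h2⟩
      exact ⟨h2, h1.2⟩
    · rintro ⟨h1, h2⟩
      exact ⟨⟨(hfar x h1).1, h2⟩, h1⟩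
  have hCsub : ∀ x, p x ≠ p (x + 1) → cls β α x ⊆ {y | p y ≠ p (y + 1)} := fun x hx =>
    cls_subset β α (S := {y | p y ≠ p (y + 1)}) hx (fun y hy => (hβ y).1 hy)
      (fun y hy => (hα y).1 hy)
  have hfin : ({y | p y ≠ p (y + 1)} : Set ℤ).Finite :=
    (Set.finite_Icc (-(|B| + 1)) |B|).subset fun x hx => Set.mem_Icc.2 (hfar x hx)
  by_contra hNL
  have hempty : loopsAt 0 β α = ∅ := by
    have h1 : (loopsAt 0 β α).ncard = 0 := hNL
    rwa [Set.ncard_eq_zero (loopsAt_finite β α 0)] at h1
  have heven : ∀ x ∈ S, Even (S.filter fun y => cls β α y = cls β α x).card := by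
    intro x hx
    have hx1 := (hmemS x).1 hx
    have hDfin : (cls β α x).Finite := hfin.subset (hCsub x hx1.1)
    have h1 : ¬ Odd (cls β α x ∩ Set.Iio 0).ncard := by
      intro h2
      have h3 : cls β α x ∈ loopsAt 0 β α := ⟨x, rfl, hDfin, h2⟩
      rw [hempty] at h3
      exact h3
    rw [Nat.not_odd_iff_even] at h1
    have h2 : (cls β α x ∩ Set.Iio 0) = ((S.filter fun y => cls β α y = cls β α x : Finset ℤ) : Set ℤ) := by
      ext y
      simp only [Set.mem_inter_iff, Set.mem_Iio, Finset.coe_filter, Set.mem_ofPred_eq]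
      constructor
      · rintro ⟨h3, h4⟩
        exact ⟨(hmemS y).2 ⟨hCsub x hx1.1 h3, h4⟩, cls_eq β α h3⟩
      · rintro ⟨h3, h4⟩
        refine ⟨?_, ((hmemS y).1 h3).2⟩
        rw [← h4]
        exact mem_cls_self β α y
    rw [h2, Set.ncard_coe_finset] at h1
    exact h1
  have htot : Even S.card := by
    rw [Finset.card_eq_sum_card_image (fun y => cls β α y) S]
    refine Finset.even_sum _ fun D hD => ?_
    obtain ⟨x, hx, rfl⟩ := Finset.mem_image.1 hD
    exact heven x hx
  exact (Nat.not_odd_iff_even.2 htot) hodd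

theorem NL_ne_zero_iff {L : ℕ} (β α : Pat L) : NL β α ≠ 0 ↔ ∃ p : ℤ → Bool, Cpt α p ∧ Cpt β p ∧ p 0 = true ∧
    ∃ B : ℤ, ∀ g, B < |g| → p g = false := by
  constructor
  · exact CpN_forward β α
  · rintro ⟨p, h1, h2, h3, B, hB⟩
    exact CpN_backward β α p h1 h2 h3 B hB

end CY
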