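import Pool.Agent.Lib.MP_216314_pr.Z.CpA
import Pool.Agent.Lib.MP_216314_pr.Z.Til

/-!
# Colourings and a row of tiles

`stage`: induction on `k`. Gaps of the stage `k` pattern (period `M = L+2`): `0 + cM` and `g + cM`, `k+2 ≤ g ≤ L+1` are faces below the new line, `g + cM`, `1 ≤ g ≤ k+1` are
faces above it. `k = 0`: `cpt_ins` with `i = 0`: `p k = P' (up 0 k)`, `up L 0 (g + c L) = g + 2 + c (L+2)` for `0 ≤ g < L`.
Step, tile `true` (`Pat.e (k+1)`): `cpt_e`: `P' (k+1+cM) = P' (k+3+cM)` and `P = P'` except at the gaps `≡ k+2`; the induction hypothesis for `P`; the new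
constraint `P' (k+1+cM) = p (k+1+cL)` is `P' (k+3+cM) = p(k+1+cL)` (`k+3 ≤ L+1`, or `k + 3 = M`: the gap `(c+1)M`). In the converse direction put `P (k+2+cM) = p (k+cL)`.
Step, tile `false`: the pattern does not change; the value `P' (k+2+cM) = p(k+cL)` is the new constraint.
`cpt_row`: `ins_row : ins 0 (row t α) = e 0 (rotInv (tl t α L))`. Given `p'`, put `P (g + cM) = p' (g - 2 + cL)` for `2 ≤ g ≤ L+1`, `P (cM) = P(1 + cM) = p' (cL)`; so `P ∘ up 0 = p'`, `P (cM) = P (cM+2)`,
and `cpt_ins`, `cpt_e`, `cpt_rotInv` reduce `Cpt (row t α) p'` to: there is `P3` with `Cpt (tl t α L) P3` and `P3 (g + cM) = p' (g-1+cL)` for `1 ≤ g ≤ L+1`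
(`P3 (cM)` is free). Apply `stage` with `k = L`.
-/

set_option autoImplicit false

noncomputable section

namespace CY

open Finset

/-- the tile of the lifted column `k` -/
def tp (L : ℕ) (t : ℕ → Bool) (k : ℤ) : Bool := t (k % L).toNat

private theorem CpR_dm {M g c : ℤ} (h0 : 0 ≤ g) (h1 : g < M) : (g + c * M) / M = c ∧ (g + c * M) % M = g := by
  refine (Int.ediv_emod_unique (by omega)).2 ⟨?_, h0, h1⟩
  ring

private theorem CpR_nd {M a : ℤ} (c : ℤ) (h0 : 0 < a) (h1 : a < M) : ¬ M ∣ a + c * M := by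
  intro h
  have h2 : M ∣ a := (Int.dvd_add_left (Dvd.intro_left c rfl)).1 h
  have h3 := Int.le_of_dvd h0 h2
  omega

private theorem CpR_nd' {M a : ℤ} (c : ℤ) (h0 : a < 0) (h1 : -M < a) : ¬ M ∣ a + c * M := by
  intro h
  have h2 : M ∣ a := (Int.dvd_add_left (Dvd.intro_left c rfl)).1 h
  have h4 : M ∣ -a := (dvd_neg).2 h2
  have h3 := Int.le_of_dvd (by omega) h4
  omega

private theorem CpR_up {L : ℕ} {g : ℤ} (c : ℤ) (h0 : 0 ≤ g) (h1 : g < L) :
    up L 0 (g + c * L) = g + 2 + c * (L + 2) := by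
  unfold up
  rw [sub_zero, (CpR_dm (c := c) h0 h1).1]
  ring

private theorem CpR_decomp {L : ℕ} (hL : 0 < L) (k : ℤ) : ∃ c g : ℤ, k = g + c * L ∧ 0 ≤ g ∧ g < L ∧ g = k % L := by
  have hL' : (0 : ℤ) < L := by exact_mod_cast hL
  refine ⟨k / L, k % L, ?_, Int.emod_nonneg k (by omega), Int.emod_lt_of_pos k hL', rfl⟩
  have := Int.emod_add_mul_ediv k L
  linarith [mul_comm (L : ℤ) (k / L)]

private theorem CpR_zero {L : ℕ} (hL : 0 < L) (α : Pat L) (P' : ℤ → Bool) :
    Cpt (Pat.ins 0 α) P' ↔ ∃ p : ℤ → Bool, Cpt α p ∧ (∀ c : ℤ, P' (c * (L + 2)) = p (c * L)) ∧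
      (∀ c g : ℤ, 2 ≤ g → g ≤ L + 1 → P' (g + c * (L + 2)) = p (g - 2 + c * L)) := by
  have hL' : (0 : ℤ) < L := by exact_mod_cast hL
  rw [cpt_ins]
  constructor
  · rintro ⟨h1, h2⟩
    refine ⟨fun k => P' (up L 0 k), h2, ?_, ?_⟩
    · intro c
      show P' (c * (L + 2)) = P' (up L 0 (c * L))
      have h3 := CpR_up (L := L) (g := 0) c le_rfl hL'
      rw [zero_add] at h3
      rw [h3, h1 (c * (L + 2)) (by rw [sub_zero]; exact Dvd.intro_left c rfl)]
      have h4 : c * ((L : ℤ) + 2) + 2 = 0 + 2 + c * (L + 2) := by ring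
      rw [h4]
    · intro c g hg1 hg2
      show P' (g + c * (L + 2)) = P' (up L 0 (g - 2 + c * L))
      rw [CpR_up c (by omega) (by omega)]
      have h4 : g - 2 + 2 + c * ((L : ℤ) + 2) = g + c * (L + 2) := by ring
      rw [h4]
  · rintro ⟨p, hp, hA, hB⟩
    constructor
    · intro x hx
      rw [sub_zero] at hx
      obtain ⟨c, hc⟩ := hx
      have e1 : x = c * ((L : ℤ) + 2) := by rw [hc]; ring
      have e2 : x + 2 = 2 + c * ((L : ℤ) + 2) := by rw [hc]; ring
      rw [e2, hB c 2 le_rfl (by omega), e1, hA c]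
      have e3 : (2 : ℤ) - 2 + c * L = c * L := by ring
      rw [e3]
    · have h1 : (fun k => P' (up L 0 k)) = p := by
        funext k
        obtain ⟨c, g, hk, hg0, hg1, -⟩ := CpR_decomp hL k
        show P' (up L 0 k) = p k
        rw [hk, CpR_up c hg0 hg1, hB c (g + 2) (by omega) (by omega)]
        have e3 : g + 2 - 2 + c * (L : ℤ) = g + c * L := by ring
        rw [e3]
      rw [h1]
      exact hp

private theorem CpR_e {L : ℕ} (β : Pat (L + 2)) (i : ℤ) (P' : ℤ → Bool) :
    Cpt (Pat.e i β) P' ↔ (∀ x, ((L : ℤ) + 2) ∣ x - i → P' x = P' (x + 2)) ∧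
      ∃ P : ℤ → Bool, (∀ x, ¬ ((L : ℤ) + 2) ∣ x - i - 1 → P x = P' x) ∧ Cpt β P := by
  have h := cpt_e β i P'
  push_cast at h
  exact h

theorem stage {L : ℕ} (t : ℕ → Bool) (α : Pat L) (k : ℕ) (hk : k ≤ L) (P' : ℤ → Bool) :
    Cpt (tl t α k) P' ↔ ∃ p : ℤ → Bool, Cpt α p ∧ (∀ c : ℤ, P' (c * (L + 2)) = p (c * L)) ∧
      (∀ c g : ℤ, (k : ℤ) + 2 ≤ g → g ≤ L + 1 → P' (g + c * (L + 2)) = p (g - 2 + c * L)) ∧
      ∀ (c : ℤ) (j : ℕ), j < k → (t j = true → P' ((j : ℤ) + 1 + c * (L + 2)) = p ((j : ℤ) + 1 + c * L)) ∧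
        (t j = false → p ((j : ℤ) + c * L) = P' ((j : ℤ) + 2 + c * (L + 2))) := by
  have hL := α.pos
  have hL' : (0 : ℤ) < L := by exact_mod_cast hL
  induction k generalizing P' with
  | zero =>
    have h0 : tl t α 0 = Pat.ins 0 α := rfl
    rw [h0, CpR_zero hL]
    constructor
    · rintro ⟨p, hp, hA, hB⟩
      refine ⟨p, hp, hA, fun c g hg1 hg2 => hB c g (by push_cast at hg1; omega) hg2, ?_⟩
      intro c j hj
      exact absurd hj (Nat.not_lt_zero j)
    · rintro ⟨p, hp, hA, hB, -⟩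
      exact ⟨p, hp, hA, fun c g hg1 hg2 => hB c g (by push_cast; omega) hg2⟩
  | succ k ih =>
    have hk' : (k : ℤ) + 1 ≤ L := by exact_mod_cast hk
    have ih' := fun P' => ih (Nat.le_of_succ_le hk) P'
    by_cases ht : t k = true
    · have h0 : tl t α (k + 1) = Pat.e ((k : ℤ) + 1) (tl t α k) := by
        show (if t k then Pat.e ((k : ℤ) + 1) (tl t α k) else tl t α k) = _
        rw [if_pos ht]
      rw [h0, CpR_e]
      constructor
      · rintro ⟨h1, P, h2, h3⟩
        obtain ⟨p, hp, hA, hB, hC⟩ := (ih' P).1 h3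
        have hA' : ∀ c : ℤ, P' (c * (L + 2)) = p (c * L) := by
          intro c
          rw [← hA c, h2]
          have e1 : c * ((L : ℤ) + 2) - (k + 1) - 1 = -((k : ℤ) + 2) + c * (L + 2) := by ring
          rw [e1]
          exact CpR_nd' c (by omega) (by omega)
        have hB' : ∀ c g : ℤ, ((k + 1 : ℕ) : ℤ) + 2 ≤ g → g ≤ L + 1 → P' (g + c * (L + 2)) = p (g - 2 + c * L) := by
          intro c g hg1 hg2
          push_cast at hg1
          rw [← hB c g (by omega) hg2, h2]
          have e1 : g + c * ((L : ℤ) + 2) - (k + 1) - 1 = (g - k - 2) + c * (L + 2) := by ring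
          rw [e1]
          exact CpR_nd c (by omega) (by omega)
        refine ⟨p, hp, hA', hB', ?_⟩
        intro c j hj
        rcases Nat.lt_succ_iff_lt_or_eq.1 hj with hj' | hj'
        · have hj2 : (j : ℤ) < k := by exact_mod_cast hj'
          constructor
          · intro htj
            rw [← (hC c j hj').1 htj, h2]
            have e1 : (j : ℤ) + 1 + c * (L + 2) - (k + 1) - 1 = ((j : ℤ) - k - 1) + c * (L + 2) := by ring
            rw [e1]
            exact CpR_nd' c (by omega) (by omega)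
          · intro htj
            rw [(hC c j hj').2 htj, h2]
            have e1 : (j : ℤ) + 2 + c * (L + 2) - (k + 1) - 1 = ((j : ℤ) - k) + c * (L + 2) := by ring
            rw [e1]
            exact CpR_nd' c (by omega) (by omega)
        · subst hj'
          refine ⟨fun _ => ?_, fun h => ?_⟩
          · rw [h1 ((j : ℤ) + 1 + c * (L + 2)) ⟨c, by ring⟩]
            rcases lt_or_eq_of_le hk' with h4 | h4
            · have e1 : (j : ℤ) + 1 + c * (L + 2) + 2 = ((j : ℤ) + 3) + c * (L + 2) := by ring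
              have e2 : (j : ℤ) + 1 + c * L = ((j : ℤ) + 3) - 2 + c * L := by ring
              rw [e1, e2]
              exact hB' c (j + 3) (by push_cast; omega) (by omega)
            · have e1 : (j : ℤ) + 1 + c * (L + 2) + 2 = (c + 1) * (L + 2) := by rw [h4]; ring
              have e2 : (j : ℤ) + 1 + c * L = (c + 1) * L := by rw [h4]; ring
              rw [e1, e2]
              exact hA' (c + 1)
          · rw [ht] at h
            exact absurd h (by decide)
      · rintro ⟨p, hp, hA, hB, hC⟩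
        constructor
        · rintro x ⟨c, hc⟩
          have e0 : x = (k : ℤ) + 1 + c * (L + 2) := by
            have : x = ((L : ℤ) + 2) * c + ((k : ℤ) + 1) := by linarith
            rw [this]
            ring
          rw [e0, (hC c k (Nat.lt_succ_self k)).1 ht]
          rcases lt_or_eq_of_le hk' with h4 | h4
          · have e1 : (k : ℤ) + 1 + c * (L + 2) + 2 = ((k : ℤ) + 3) + c * (L + 2) := by ring
            have e2 : (k : ℤ) + 1 + c * L = ((k : ℤ) + 3) - 2 + c * L := by ring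
            rw [e1, e2]
            exact (hB c (k + 3) (by push_cast; omega) (by omega)).symm
          · have e1 : (k : ℤ) + 1 + c * (L + 2) + 2 = (c + 1) * (L + 2) := by rw [h4]; ring
            have e2 : (k : ℤ) + 1 + c * L = (c + 1) * L := by rw [h4]; ring
            rw [e1, e2]
            exact (hA (c + 1)).symm
        · classical
          refine ⟨fun x => if ((L : ℤ) + 2) ∣ x - ((k : ℤ) + 1) - 1 then p ((k : ℤ) + (x - ((k : ℤ) + 1) - 1) / (L + 2) * L) else P' x,
            fun x hx => if_neg hx, ?_⟩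
          refine (ih' _).2 ⟨p, hp, ?_, ?_, ?_⟩
          · intro c
            have e1 : c * ((L : ℤ) + 2) - (k + 1) - 1 = -((k : ℤ) + 2) + c * (L + 2) := by ring
            have h5 : ¬ ((L : ℤ) + 2) ∣ c * ((L : ℤ) + 2) - ((k : ℤ) + 1) - 1 := by
              rw [e1]
              exact CpR_nd' c (by omega) (by omega)
            show (if ((L : ℤ) + 2) ∣ c * ((L : ℤ) + 2) - ((k : ℤ) + 1) - 1 then _ else P' (c * ((L : ℤ) + 2))) = _
            rw [if_neg h5]
            exact hA c
          · intro c g hg1 hg2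
            show (if ((L : ℤ) + 2) ∣ g + c * ((L : ℤ) + 2) - ((k : ℤ) + 1) - 1 then
              p ((k : ℤ) + (g + c * ((L : ℤ) + 2) - ((k : ℤ) + 1) - 1) / (L + 2) * L) else P' (g + c * ((L : ℤ) + 2))) = _
            rcases eq_or_lt_of_le hg1 with h5 | h5
            · have e1 : g + c * ((L : ℤ) + 2) - (k + 1) - 1 = 0 + c * (L + 2) := by rw [← h5]; ring
              rw [e1, (CpR_dm (c := c) (le_refl (0 : ℤ)) (by omega : (0 : ℤ) < (L : ℤ) + 2)).1,
                if_pos (by rw [zero_add]; exact Dvd.intro_left c rfl)]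
              have e2 : g - 2 + c * (L : ℤ) = k + c * L := by rw [← h5]; ring
              rw [e2]
            · have e1 : g + c * ((L : ℤ) + 2) - (k + 1) - 1 = (g - k - 2) + c * (L + 2) := by ring
              rw [if_neg (by rw [e1]; exact CpR_nd c (by omega) (by omega))]
              exact hB c g (by push_cast; omega) hg2
          · intro c j hj
            have hj2 : (j : ℤ) < k := by exact_mod_cast hj
            have e1 : (j : ℤ) + 1 + c * (L + 2) - (k + 1) - 1 = ((j : ℤ) - k - 1) + c * (L + 2) := by ring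
            have e2 : (j : ℤ) + 2 + c * (L + 2) - (k + 1) - 1 = ((j : ℤ) - k) + c * (L + 2) := by ring
            have h5 : ¬ ((L : ℤ) + 2) ∣ (j : ℤ) + 1 + c * (L + 2) - (k + 1) - 1 := by
              rw [e1]
              exact CpR_nd' c (by omega) (by omega)
            have h6 : ¬ ((L : ℤ) + 2) ∣ (j : ℤ) + 2 + c * (L + 2) - (k + 1) - 1 := by
              rw [e2]
              exact CpR_nd' c (by omega) (by omega)
            constructor
            · intro htj
              refine (if_neg h5).trans ?_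
              exact (hC c j (Nat.lt_succ_of_lt hj)).1 htj
            · intro htj
              refine Eq.trans ?_ (if_neg h6).symm
              exact (hC c j (Nat.lt_succ_of_lt hj)).2 htj
    · have ht' : t k = false := by
        cases h : t k
        · rfl
        · exact absurd h ht
      have h0 : tl t α (k + 1) = tl t α k := by
        show (if t k then Pat.e ((k : ℤ) + 1) (tl t α k) else tl t α k) = _
        rw [if_neg ht]
      rw [h0]
      refine (ih' P').trans ?_
      constructor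
      · rintro ⟨p, hp, hA, hB, hC⟩
        refine ⟨p, hp, hA, fun c g hg1 hg2 => hB c g (by push_cast at hg1; omega) hg2, ?_⟩
        intro c j hj
        rcases Nat.lt_succ_iff_lt_or_eq.1 hj with hj' | hj'
        · exact hC c j hj'
        · subst hj'
          refine ⟨fun h => absurd h ht, fun _ => ?_⟩
          rw [hB c (j + 2) le_rfl (by omega)]
          have e2 : (j : ℤ) + 2 - 2 + c * (L : ℤ) = j + c * L := by ring
          rw [e2]
      · rintro ⟨p, hp, hA, hB, hC⟩
        refine ⟨p, hp, hA, ?_, fun c j hj => hC c j (Nat.lt_succ_of_lt hj)⟩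
        intro c g hg1 hg2
        rcases eq_or_lt_of_le hg1 with h5 | h5
        · rw [← h5, ← (hC c k (Nat.lt_succ_self k)).2 ht']
          have e2 : (k : ℤ) + 2 - 2 + c * (L : ℤ) = k + c * L := by ring
          rw [e2]
        · exact hB c g (by push_cast; omega) hg2

/-- THE ROW LEMMA -/
theorem cpt_row {L : ℕ} (t : ℕ → Bool) (α : Pat L) (p' : ℤ → Bool) :
    Cpt (row t α) p' ↔ ∃ p : ℤ → Bool, Cpt α p ∧
      ∀ k : ℤ, (tp L t k = true → p' k = p (k + 1)) ∧ (tp L t k = false → p k = p' (k + 1)) := by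
  have hL := α.pos
  have hL' : (0 : ℤ) < L := by exact_mod_cast hL
  -- the colouring for the period `L + 2`
  obtain ⟨P, hP1, hP2⟩ : ∃ P : ℤ → Bool, (∀ c g : ℤ, 2 ≤ g → g ≤ L + 1 → P (g + c * (L + 2)) = p' (g - 2 + c * L)) ∧
      (∀ c : ℤ, P (c * (L + 2)) = p' (c * L)) := by
    refine ⟨fun x => if 2 ≤ x % ((L : ℤ) + 2) then p' (x % ((L : ℤ) + 2) - 2 + x / ((L : ℤ) + 2) * L)
      else p' (x / ((L : ℤ) + 2) * L), ?_, ?_⟩
    · intro c g hg1 hg2
      have h := CpR_dm (M := (L : ℤ) + 2) (c := c) (by omega : 0 ≤ g) (by omega)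
      show (if 2 ≤ (g + c * ((L : ℤ) + 2)) % ((L : ℤ) + 2) then
        p' ((g + c * ((L : ℤ) + 2)) % ((L : ℤ) + 2) - 2 + (g + c * ((L : ℤ) + 2)) / ((L : ℤ) + 2) * L)
        else p' ((g + c * ((L : ℤ) + 2)) / ((L : ℤ) + 2) * L)) = _
      rw [h.1, h.2, if_pos hg1]
    · intro c
      have h := CpR_dm (M := (L : ℤ) + 2) (c := c) (le_refl 0) (by omega)
      rw [zero_add] at h
      show (if 2 ≤ (c * ((L : ℤ) + 2)) % ((L : ℤ) + 2) then
        p' ((c * ((L : ℤ) + 2)) % ((L : ℤ) + 2) - 2 + (c * ((L : ℤ) + 2)) / ((L : ℤ) + 2) * L)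
        else p' ((c * ((L : ℤ) + 2)) / ((L : ℤ) + 2) * L)) = _
      rw [h.1, h.2, if_neg (by norm_num)]
  have hPper : ∀ x, ((L : ℤ) + 2) ∣ x - 0 → P x = P (x + 2) := by
    rintro x ⟨c, hc⟩
    have e1 : x = c * ((L : ℤ) + 2) := by
      rw [sub_zero] at hc
      rw [hc]
      ring
    have e2 : x + 2 = 2 + c * ((L : ℤ) + 2) := by rw [e1]; ring
    rw [e2, hP1 c 2 le_rfl (by omega), e1, hP2 c]
    have e3 : (2 : ℤ) - 2 + c * L = c * L := by ring
    rw [e3]
  have hPup : (fun k => P (up L 0 k)) = p' := by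
    funext k
    obtain ⟨c, g, hk, hg0, hg1, -⟩ := CpR_decomp hL k
    show P (up L 0 k) = p' k
    rw [hk, CpR_up c hg0 hg1, hP1 c (g + 2) (by omega) (by omega)]
    have e3 : g + 2 - 2 + c * (L : ℤ) = g + c * L := by ring
    rw [e3]
  have hP3 : ∀ c j : ℤ, 0 ≤ j → j < L → P (j + 3 + c * (L + 2)) = p' (j + 1 + c * L) := by
    intro c j hj0 hj1
    rcases lt_or_eq_of_le (by omega : j + 3 ≤ (L : ℤ) + 2) with h | h
    · rw [hP1 c (j + 3) (by omega) (by omega)]
      have e3 : j + 3 - 2 + c * (L : ℤ) = j + 1 + c * L := by ring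
      rw [e3]
    · have e1 : j + 3 + c * ((L : ℤ) + 2) = (c + 1) * (L + 2) := by rw [h]; ring
      have e2 : j + 1 + c * (L : ℤ) = (c + 1) * L := by
        have : j + 1 = (L : ℤ) := by omega
        rw [this]
        ring
      rw [e1, e2]
      exact hP2 (c + 1)
  have htp : ∀ c : ℤ, ∀ j : ℕ, j < L → tp L t ((j : ℤ) + c * L) = t j := by
    intro c j hj
    unfold tp
    have hj' : (j : ℤ) < L := by exact_mod_cast hj
    rw [(CpR_dm (c := c) (Int.natCast_nonneg j) hj').2, Int.toNat_natCast]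
  have key : Cpt (row t α) p' ↔ Cpt (Pat.e 0 (Pat.rotInv (tl t α L))) P := by
    rw [← ins_row, cpt_ins, hPup]
    exact ⟨fun h => ⟨hPper, h⟩, fun h => h.2⟩
  rw [key, CpR_e]
  constructor
  · rintro ⟨-, P2, h2, h3⟩
    rw [cpt_rotInv, stage t α L le_rfl] at h3
    obtain ⟨p, hp, hA, hB, hC⟩ := h3
    refine ⟨p, hp, ?_⟩
    intro k
    obtain ⟨c, g, hk, hg0, hg1, -⟩ := CpR_decomp hL k
    obtain ⟨j, rfl⟩ := Int.eq_ofNat_of_zero_le hg0
    have hj : j < L := by exact_mod_cast hg1
    rw [hk, htp c j hj]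
    constructor
    · intro htj
      have h4 := (hC c j hj).1 htj
      have e1 : (j : ℤ) + 1 + c * (L + 2) + 1 = ((j : ℤ) + 2) + c * (L + 2) := by ring
      have h5 : P2 ((j : ℤ) + 1 + c * (L + 2) + 1) = p ((j : ℤ) + 1 + c * L) := h4
      rw [e1, h2 _ (by
        have e2 : (j : ℤ) + 2 + c * (L + 2) - 0 - 1 = ((j : ℤ) + 1) + c * (L + 2) := by ring
        rw [e2]
        exact CpR_nd c (by omega) (by omega)), hP1 c ((j : ℤ) + 2) (by omega) (by omega)] at h5
      have e3 : (j : ℤ) + 2 - 2 + c * (L : ℤ) = j + c * L := by ring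
      have e4 : (j : ℤ) + c * (L : ℤ) + 1 = j + 1 + c * L := by ring
      rw [e3] at h5
      rw [e4]
      exact h5
    · intro htj
      have h4 := (hC c j hj).2 htj
      have e1 : (j : ℤ) + 2 + c * (L + 2) + 1 = ((j : ℤ) + 3) + c * (L + 2) := by ring
      have h5 : p ((j : ℤ) + c * L) = P2 ((j : ℤ) + 2 + c * (L + 2) + 1) := h4
      rw [e1, h2 _ (by
        have e2 : (j : ℤ) + 3 + c * (L + 2) - 0 - 1 = ((j : ℤ) + 2) + c * (L + 2) := by ring
        rw [e2]
        exact CpR_nd c (by omega) (by omega)), hP3 c j (by omega) (by omega)] at h5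
      have e4 : (j : ℤ) + c * (L : ℤ) + 1 = j + 1 + c * L := by ring
      rw [e4]
      exact h5
  · rintro ⟨p, hp, hc⟩
    refine ⟨hPper, ?_⟩
    classical
    refine ⟨fun x => if ((L : ℤ) + 2) ∣ x - 0 - 1 then p ((x - 0 - 1) / (L + 2) * L) else P x, fun x hx => if_neg hx, ?_⟩
    rw [cpt_rotInv, stage t α L le_rfl]
    refine ⟨p, hp, ?_, ?_, ?_⟩
    · intro c
      show (if ((L : ℤ) + 2) ∣ c * ((L : ℤ) + 2) + 1 - 0 - 1 then p ((c * ((L : ℤ) + 2) + 1 - 0 - 1) / (L + 2) * L)
        else P (c * ((L : ℤ) + 2) + 1)) = _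
      have e1 : c * ((L : ℤ) + 2) + 1 - 0 - 1 = 0 + c * (L + 2) := by ring
      rw [e1, (CpR_dm (c := c) (le_refl (0 : ℤ)) (by omega : (0 : ℤ) < (L : ℤ) + 2)).1,
        if_pos (by rw [zero_add]; exact Dvd.intro_left c rfl)]
    · intro c g hg1 hg2
      omega
    · intro c j hj
      have hj' : (j : ℤ) < L := by exact_mod_cast hj
      have h1 := hc ((j : ℤ) + c * L)
      rw [htp c j hj] at h1
      have e4 : (j : ℤ) + c * (L : ℤ) + 1 = j + 1 + c * L := by ring
      rw [e4] at h1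
      constructor
      · intro htj
        show (if ((L : ℤ) + 2) ∣ (j : ℤ) + 1 + c * (L + 2) + 1 - 0 - 1 then _ else P ((j : ℤ) + 1 + c * (L + 2) + 1)) = _
        have e1 : (j : ℤ) + 1 + c * (L + 2) + 1 - 0 - 1 = ((j : ℤ) + 1) + c * (L + 2) := by ring
        have e2 : (j : ℤ) + 1 + c * (L + 2) + 1 = ((j : ℤ) + 2) + c * (L + 2) := by ring
        rw [if_neg (by rw [e1]; exact CpR_nd c (by omega) (by omega)), e2, hP1 c ((j : ℤ) + 2) (by omega) (by omega)]
        have e3 : (j : ℤ) + 2 - 2 + c * (L : ℤ) = j + c * L := by ring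
        rw [e3]
        exact h1.1 htj
      · intro htj
        show _ = (if ((L : ℤ) + 2) ∣ (j : ℤ) + 2 + c * (L + 2) + 1 - 0 - 1 then _ else P ((j : ℤ) + 2 + c * (L + 2) + 1))
        have e1 : (j : ℤ) + 2 + c * (L + 2) + 1 - 0 - 1 = ((j : ℤ) + 2) + c * (L + 2) := by ring
        have e2 : (j : ℤ) + 2 + c * (L + 2) + 1 = ((j : ℤ) + 3) + c * (L + 2) := by ring
        rw [if_neg (by rw [e1]; exact CpR_nd c (by omega) (by omega)), e2, hP3 c j (by omega) hj']
        exact h1.2 htj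

end CY
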