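import Pool.Agent.Lib.MP_216314_pr.Z.CpR

/-!
# The start pattern; several rows

`a0`: `f x = x - 1` for even `x`, `x + 1` for odd `x`. `cpt_a0`: arc `{2j-1, 2j}`: `(p (2j-1) ≠ p (2j)) ↔ (p (2j) ≠ p (2j+1))`.
`cpt_rows`: induction on `m` with `cpt_row`.
-/

set_option autoImplicit false

noncomputable section

namespace CY

open Finset

/-- the pattern with the arcs `(2j-1, 2j)` -/
def a0 (L : ℕ) (hE : Even L) (hL : 0 < L) : Pat L where
  f x := if x % 2 = 0 then x - 1 else x + 1
  pos := hL
  inv x := by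
    split_ifs <;> omega
  per x := by
    obtain ⟨r, hr⟩ := hE
    have hr' : (L : ℤ) = r + r := by exact_mod_cast hr
    split_ifs <;> omega
  ne x := by
    split_ifs <;> omega
  nc x y h1 h2 := by
    exfalso
    revert h2
    split_ifs <;> intro h2 <;> omega

theorem cpt_a0 (L : ℕ) (hE : Even L) (hL : 0 < L) (p : ℤ → Bool) :
    Cpt (a0 L hE hL) p ↔ ∀ j : ℤ, p (2 * j - 1) = p (2 * j + 1) := by
  constructor
  · intro h j
    have h1 := h (2 * j)
    have h2 : (a0 L hE hL).f (2 * j) = 2 * j - 1 := by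
      show (if (2 * j) % 2 = 0 then 2 * j - 1 else 2 * j + 1) = 2 * j - 1
      rw [if_pos (by omega)]
    have h3 : 2 * j - 1 + 1 = 2 * j := by omega
    rw [h2, h3] at h1
    revert h1
    generalize p (2 * j) = a
    generalize p (2 * j + 1) = b
    generalize p (2 * j - 1) = c
    revert a b c
    decide
  · intro h x
    show (p x ≠ p (x + 1)) ↔ (p (if x % 2 = 0 then x - 1 else x + 1) ≠
      p ((if x % 2 = 0 then x - 1 else x + 1) + 1))
    split_ifs with hx
    · obtain ⟨j, rfl⟩ : ∃ j, x = 2 * j := ⟨x / 2, by omega⟩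
      have h3 : 2 * j - 1 + 1 = 2 * j := by omega
      rw [h3, ← h j]
      exact ne_comm
    · obtain ⟨j, rfl⟩ : ∃ j, x = 2 * j - 1 := ⟨(x + 1) / 2, by omega⟩
      have h3 : 2 * j - 1 + 1 = 2 * j := by omega
      rw [h3, ← h j]
      exact ne_comm

/-- `m` rows above the pattern `α`; the row number `h` (between the heights `h` and `h+1`) has the tiles `t h` -/
def rows {L : ℕ} (t : ℕ → ℕ → Bool) (α : Pat L) : ℕ → Pat L
  | 0 => α
  | h + 1 => row (t h) (rows t α h)

theorem cpt_rows {L : ℕ} (t : ℕ → ℕ → Bool) (α : Pat L) (m : ℕ) (p : ℤ → Bool) :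
    Cpt (rows t α m) p ↔ ∃ P : ℕ → ℤ → Bool, P m = p ∧ Cpt α (P 0) ∧
      ∀ h, h < m → ∀ k : ℤ, (tp L (t h) k = true → P (h + 1) k = P h (k + 1)) ∧
        (tp L (t h) k = false → P h k = P (h + 1) (k + 1)) := by
  induction m generalizing p with
  | zero =>
    constructor
    · intro h
      exact ⟨fun _ => p, rfl, h, fun h hh => absurd hh (Nat.not_lt_zero h)⟩
    · rintro ⟨P, h1, h2, _⟩
      rw [h1] at h2
      exact h2
  | succ m ih =>
    show Cpt (row (t m) (rows t α m)) p ↔ _
    rw [cpt_row]
    constructor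
    · rintro ⟨p0, h1, h2⟩
      obtain ⟨P, hP1, hP2, hP3⟩ := (ih p0).1 h1
      refine ⟨Function.update P (m + 1) p, Function.update_self _ _ _, ?_, ?_⟩
      · rw [Function.update_of_ne (by omega)]
        exact hP2
      · intro h hh k
        rcases Nat.lt_or_ge h m with h3 | h3
        · rw [Function.update_of_ne (by omega), Function.update_of_ne (by omega)]
          exact hP3 h h3 k
        · obtain rfl : h = m := by omega
          rw [Function.update_self, Function.update_of_ne (by omega), hP1]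
          exact h2 k
    · rintro ⟨P, hP1, hP2, hP3⟩
      refine ⟨P m, (ih (P m)).2 ⟨P, rfl, hP2, fun h hh => hP3 h (by omega)⟩, fun k => ?_⟩
      have h3 := hP3 m (by omega) k
      rw [hP1] at h3
      exact h3

private theorem CpS_congr {L : ℕ} {t t' : ℕ → ℕ → Bool} (α : Pat L) (m : ℕ)
    (h : ∀ k, k < m → t k = t' k) : rows t α m = rows t' α m := by
  induction m with
  | zero => rfl
  | succ m ih =>
    show row (t m) (rows t α m) = row (t' m) (rows t' α m)
    rw [ih (fun k hk => h k (by omega)), h m (by omega)]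

private theorem CpS_lin {A B : Type*} [Fintype A] [DecidableEq A] [DecidableEq B] (f : A → B)
    (a : A) : lin f (Pi.single a 1) = Pi.single (f a) 1 := by
  funext b
  show ∑ c, (if f c = b then (Pi.single a 1 : A → ℂ) c else 0) = _
  rw [sum_eq_single a]
  · rw [Pi.single_eq_same, Pi.single_apply]
    by_cases h : f a = b
    · rw [if_pos h, if_pos h.symm]
    · rw [if_neg h, if_neg (Ne.symm h)]
  · intro c _ hc
    rw [Pi.single_eq_of_ne hc]
    split_ifs <;> rfl
  · intro h
    exact absurd (mem_univ a) h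

private theorem CpS_TT {L : ℕ} (β : Pat L) : TT (Pi.single β 1 : V L) =
    ((2 : ℂ) ^ L)⁻¹ • ∑ s : Fin L → Bool, (Pi.single (row (ext s) β) 1 : V L) := by
  unfold TT
  rw [LinearMap.smul_apply, LinearMap.sum_apply]
  congr 1
  refine sum_congr rfl fun s _ => ?_
  exact CpS_lin _ _

/-- iteration of the transfer operator as an average over the tiles of `m` rows -/
theorem TT_iterate {L : ℕ} (α : Pat L) (m : ℕ) :
    (TT^[m]) (Pi.single α 1) = ((2 : ℂ) ^ (L * m))⁻¹ •
      ∑ t : Fin m → Fin L → Bool, (Pi.single (rows (fun h => if hh : h < m then ext (t ⟨h, hh⟩) else fun _ => false) α m) 1 : V L) := by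
  induction m with
  | zero =>
    rw [Function.iterate_zero, id, Nat.mul_zero, pow_zero, inv_one, one_smul,
      Fintype.sum_unique]
    rfl
  | succ m ih =>
    rw [Function.iterate_succ_apply', ih, map_smul, map_sum]
    have e1 : ∀ t : Fin m → Fin L → Bool,
        TT (Pi.single (rows (fun h => if hh : h < m then ext (t ⟨h, hh⟩) else fun _ => false) α m) 1 :
          V L) = ((2 : ℂ) ^ L)⁻¹ • ∑ s : Fin L → Bool,
            (Pi.single (row (ext s)
              (rows (fun h => if hh : h < m then ext (t ⟨h, hh⟩) else fun _ => false) α m)) 1 : V L) :=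
      fun t => CpS_TT _
    rw [sum_congr rfl fun t _ => e1 t, ← smul_sum, smul_smul, Nat.mul_succ, pow_add, mul_inv]
    congr 1
    rw [← Equiv.sum_comp (Fin.snocEquiv (fun _ : Fin (m + 1) => Fin L → Bool)),
      Fintype.sum_prod_type, sum_comm]
    refine sum_congr rfl fun s _ => sum_congr rfl fun t _ => ?_
    have e2 : rows (fun h => if hh : h < m + 1 then
          ext ((Fin.snocEquiv (fun _ : Fin (m + 1) => Fin L → Bool)) (s, t) ⟨h, hh⟩)
            else fun _ => false) α (m + 1) =
        row (ext s)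
          (rows (fun h => if hh : h < m then ext (t ⟨h, hh⟩) else fun _ => false) α m) := by
      show row (if hh : m < m + 1 then
          ext ((Fin.snocEquiv (fun _ : Fin (m + 1) => Fin L → Bool)) (s, t) ⟨m, hh⟩)
            else fun _ => false) (rows _ α m) = _
      rw [dif_pos (Nat.lt_succ_self m)]
      have e3 : (Fin.snocEquiv (fun _ : Fin (m + 1) => Fin L → Bool)) (s, t)
          ⟨m, Nat.lt_succ_self m⟩ = s :=
        Fin.snoc_last (α := fun _ : Fin (m + 1) => Fin L → Bool) s t
      rw [e3]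
      congr 1
      refine CpS_congr α m fun k hk => ?_
      rw [dif_pos (by omega : k < m + 1), dif_pos hk]
      have e4 : (Fin.snocEquiv (fun _ : Fin (m + 1) => Fin L → Bool)) (s, t)
          ⟨k, by omega⟩ = t ⟨k, hk⟩ :=
        Fin.snoc_castSucc (α := fun _ : Fin (m + 1) => Fin L → Bool) _ _ (⟨k, hk⟩ : Fin m)
      rw [e4]
    rw [e2]

end CY
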