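import Pool.Agent.Lib.MP_216314_pr.Z.PsiDef

/-!
# Points with an inserted pair of entries; identities for `F`
-/

set_option autoImplicit false

noncomputable section

namespace CY

open Finset

/-- the point `(y_0, .., y_{p-1}, a, b, y_p, ...)` -/
def insP (p : ℕ) (a b : ℂ) (y : ℕ → ℂ) : ℕ → ℂ :=
  fun k => if k < p then y k else if k = p then a else if k = p + 1 then b else y (k - 2)

/-- the factor of the fusion relation -/
def Kf (q : ℂ) (L : ℕ) (a : ℂ) (y : ℕ → ℂ) : ℂ := (1 - q ^ 2) * a * ∏ j ∈ range L, (y j - q * a) ^ 2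

private theorem FusA_sw_left (i : ℕ) (z : ℕ → ℂ) : sw i z i = z (i + 1) := by
  unfold sw
  rw [Equiv.swap_apply_left]

private theorem FusA_sw_right (i : ℕ) (z : ℕ → ℂ) : sw i z (i + 1) = z i := by
  unfold sw
  rw [Equiv.swap_apply_right]

private theorem FusA_sw_ne (i : ℕ) (z : ℕ → ℂ) {k : ℕ} (h1 : k ≠ i) (h2 : k ≠ i + 1) :
    sw i z k = z k := by
  unfold sw
  rw [Equiv.swap_apply_of_ne_of_ne h1 h2]

theorem insP_zero_apply (a b : ℂ) (y : ℕ → ℂ) : insP 0 a b y 0 = a ∧ insP 0 a b y 1 = b ∧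
    ∀ k, insP 0 a b y (k + 2) = y k := by
  refine ⟨rfl, rfl, fun k => ?_⟩
  unfold insP
  rw [if_neg (by omega), if_neg (by omega), if_neg (by omega)]
  rfl

theorem sw_insP (a b : ℂ) (y : ℕ → ℂ) : sw 0 (insP 0 a b y) = insP 0 b a y := by
  funext k
  match k with
  | 0 => exact FusA_sw_left 0 _
  | 1 => exact FusA_sw_right 0 _
  | (k + 2) =>
    rw [FusA_sw_ne 0 _ (by omega) (by omega), (insP_zero_apply a b y).2.2 k,
      (insP_zero_apply b a y).2.2 k]

/-- exchange of the second member of the pair with the next entry, then of the first one -/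
theorem sw_sw_insP (a b : ℂ) (y : ℕ → ℂ) : sw 0 (sw 1 (insP 0 a b y)) = insP 1 a b y := by
  funext k
  match k with
  | 0 =>
    rw [FusA_sw_left, FusA_sw_left]
    rfl
  | 1 =>
    rw [FusA_sw_right 0, FusA_sw_ne 1 _ (by omega) (by omega)]
    rfl
  | 2 =>
    rw [FusA_sw_ne 0 _ (by omega) (by omega), FusA_sw_right 1]
    rfl
  | (k + 3) =>
    rw [FusA_sw_ne 0 _ (by omega) (by omega), FusA_sw_ne 1 _ (by omega) (by omega)]
    unfold insP
    rw [if_neg (by omega), if_neg (by omega), if_neg (by omega), if_neg (by omega),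
      if_neg (by omega), if_neg (by omega)]

theorem sw_insP_far (i : ℕ) (a b : ℂ) (y : ℕ → ℂ) : sw (i + 2) (insP 0 a b y) = insP 0 a b (sw i y) := by
  funext k
  match k with
  | 0 =>
    rw [FusA_sw_ne _ _ (by omega) (by omega)]
    rfl
  | 1 =>
    rw [FusA_sw_ne _ _ (by omega) (by omega)]
    rfl
  | (k + 2) =>
    rw [(insP_zero_apply a b (sw i y)).2.2 k]
    by_cases h1 : k = i
    · subst h1
      rw [FusA_sw_left, FusA_sw_left]
      exact (insP_zero_apply a b y).2.2 (k + 1)
    · by_cases h2 : k = i + 1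
      · subst h2
        rw [FusA_sw_right i]
        have h3 := FusA_sw_right (i + 2) (insP 0 a b y)
        rw [(insP_zero_apply a b y).2.2 i] at h3
        exact h3
      · rw [FusA_sw_ne _ _ (by omega) (by omega), FusA_sw_ne _ _ h1 h2]
        exact (insP_zero_apply a b y).2.2 k

theorem cyc_insP_one {L : ℕ} (hL : 0 < L) (a b : ℂ) (y : ℕ → ℂ) :
    cyc (L + 2) (insP 1 a b y) = insP 0 a b (cyc L y) := by
  funext k
  match k with
  | 0 =>
    unfold cyc
    rw [if_pos (by omega)]
    rfl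
  | 1 =>
    unfold cyc
    rw [if_pos (by omega)]
    rfl
  | (k + 2) =>
    rw [(insP_zero_apply a b (cyc L y)).2.2 k]
    unfold cyc
    rcases lt_trichotomy (k + 1) L with h | h | h
    · rw [if_pos (by omega), if_pos h]
      unfold insP
      rw [if_neg (by omega), if_neg (by omega), if_neg (by omega)]
      rfl
    · rw [if_neg (by omega), if_pos (by omega), if_neg (by omega), if_pos h]
      rfl
    · rw [if_neg (by omega), if_neg (by omega), if_neg (by omega), if_neg (by omega)]
      unfold insP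
      rw [if_neg (by omega)]
      by_cases h1 : k + 2 = 1
      · omega
      · rw [if_neg h1]
        by_cases h2 : k + 2 = 1 + 1
        · omega
        · rw [if_neg h2]
          rfl

/-- the rotated point `(b, y_0, .., y_{L-1}, a)` -/
theorem cyc_insP_zero {L : ℕ} (a b : ℂ) (y : ℕ → ℂ) (k : ℕ) :
    cyc (L + 2) (insP 0 a b y) k = if k = 0 then b else if k ≤ L then y (k - 1) else
      if k = L + 1 then a else y (k - 2) := by
  unfold cyc
  match k with
  | 0 =>
    rw [if_pos (by omega), if_pos rfl]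
    rfl
  | (k + 1) =>
    rw [if_neg (by omega : ¬ (k + 1 = 0))]
    rcases lt_trichotomy k L with h | h | h
    · rw [if_pos (by omega), if_pos (by omega)]
      exact (insP_zero_apply a b y).2.2 k
    · rw [if_neg (by omega), if_pos (by omega), if_neg (by omega), if_pos (by omega)]
      rfl
    · rw [if_neg (by omega), if_neg (by omega), if_neg (by omega), if_neg (by omega)]
      unfold insP
      rw [if_neg (by omega), if_neg (by omega), if_neg (by omega)]

theorem sw_sw (i : ℕ) (z : ℕ → ℂ) : sw i (sw i z) = z := by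
  funext k
  unfold sw
  rw [Equiv.swap_apply_self]

theorem sw_left (i : ℕ) (z : ℕ → ℂ) : sw i z i = z (i + 1) := by
  exact FusA_sw_left i z

theorem sw_right (i : ℕ) (z : ℕ → ℂ) : sw i z (i + 1) = z i := by
  exact FusA_sw_right i z

theorem sw_of_ne (i : ℕ) (z : ℕ → ℂ) {k : ℕ} (h1 : k ≠ i) (h2 : k ≠ i + 1) : sw i z k = z k := by
  exact FusA_sw_ne i z h1 h2

theorem Kf_sw (q : ℂ) {L i : ℕ} (hi : i + 1 < L) (a : ℂ) (y : ℕ → ℂ) : Kf q L a (sw i y) = Kf q L a y := by
  unfold Kf
  congr 1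
  refine Finset.prod_equiv (Equiv.swap i (i + 1)) (fun j => ?_) (fun j _ => rfl)
  rw [Finset.mem_range, Finset.mem_range, Equiv.swap_apply_def]
  split_ifs <;> omega

theorem Kf_cyc (q : ℂ) (L : ℕ) (a : ℂ) (y : ℕ → ℂ) : Kf q L a (cyc L y) = Kf q L a y := by
  unfold Kf
  congr 1
  match L with
  | 0 => rfl
  | (n + 1) =>
    rw [Finset.prod_range_succ, Finset.prod_range_succ' (fun j => (y j - q * a) ^ 2)]
    have h1 : cyc (n + 1) y n = y 0 := by
      unfold cyc
      rw [if_neg (by omega), if_pos rfl]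
    rw [h1]
    congr 1
    apply Finset.prod_congr rfl
    intro j hj
    rw [Finset.mem_range] at hj
    have h2 : cyc (n + 1) y j = y (j + 1) := by
      unfold cyc
      rw [if_pos (by omega)]
    rw [h2]

section

variable {q : ℂ} (hq : q ^ 2 + q + 1 = 0)
include hq

theorem q_cube : q ^ 3 = 1 := by
  linear_combination (q - 1) * hq

theorem F_fus_zero (a : ℂ) : F q a (q ^ 2 * a) = 0 := by
  unfold F
  linear_combination (-a * q * (q - 1)) * hq

theorem F_fus (a : ℂ) : F q (q ^ 2 * a) a = (1 - q ^ 2) * a := by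
  unfold F
  linear_combination (a * (q - 1)) * hq

/-- the coefficient of `I_0` vanishes -/
theorem fus_coef_zero (a y : ℂ) : F q y a * F q y (q ^ 2 * a) + (y - a) * F q y (q ^ 2 * a) +
    (y - a) * (y - q ^ 2 * a) = 0 := by
  unfold F
  linear_combination (q ^ 4 * a ^ 2 - q ^ 3 * a ^ 2 - q ^ 3 * a * y + q ^ 2 * a ^ 2 - a * y +
    y ^ 2) * hq

/-- the coefficient of `I_1` -/
theorem fus_coef_one (a y : ℂ) : F q y a * (y - q ^ 2 * a) = F q a y * F q (q ^ 2 * a) y := by
  unfold F
  linear_combination (q ^ 3 * a * y - q ^ 2 * a * y - q ^ 2 * y ^ 2 + q * y ^ 2) * hq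

theorem fus_K (a y : ℂ) : F q (q ^ 2 * a) y * F q y a = -(y - q * a) ^ 2 := by
  unfold F
  linear_combination (-q ^ 3 * a ^ 2 + q ^ 2 * a ^ 2 + 2 * q ^ 2 * a * y - 2 * q * a * y -
    q * y ^ 2 + y ^ 2) * hq

end

end CY
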