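import Pool.Agent.Lib.MP_216314_pr.Z.FusA

/-!
# Fusion: the reduced vector and its relations

`Ψ = ev P` with `IsPsi q (L+2) P`. `φ a y` is the vector of the components at the patterns `ins 0 α` of `Ψ (a, q² a, y)`.

`fus_range` (`a ≠ 0`): `exch` at `i = 0` with `z_1 = q² z_0`: `F q (z 0) (z 1) = 0` (F_fus_zero), `F q (z 1) (z 0) = (1-q²) a`
(F_fus), `z 1 - z 0 = (q² - 1) a`, so `(1-q²) a • (Ψ - E 0 Ψ) = 0`, `q² ≠ 1`; then `exists_I`.
`phi_exch`: `exch` at `i + 2`, `sw_insP_far`, `E_I_zero`, injectivity of `I 0`.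
`phi_move`: `exch` at `1` for `z = (a, q² a, y_0, ..)` and at `0` for `sw 1 z`, `E_I_right` (E 1 (I 0 v) = I 1 v), `E_I_left`
(E 0 (I 1 v) = I 0 v), `E_I`, `fus_coef_zero`, `fus_coef_one`, division by `F q a (y 0) * F q (q² a) (y 0)`.
`phi_rot`: `rot` at the point `insP 1 ..`, `cyc_insP_one`, `R_I` with `i = 1`.
`phi_ref`: `rot` at the point `insP 0 ..`, `R_I_zero`, `IS_apply`, `IsRef.insS`, `ref` at the point `(q² a, y_0, .., y_{L-1}, a)`
(`cyc_insP_zero`): the product over the pairs `i < j` of `{0, .., L+1}` splits into `(0, L+1)`: `F q (q² a) a = (1-q²) a`, the pairs `(0, j+1)`,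
`(j+1, L+1)`: product of `F q (q² a) (y j) * F q (y j) a = -(y j - q a)²` (`fus_K`), `L` even so the signs cancel, and the pairs of `y`.
-/

set_option autoImplicit false

noncomputable section

namespace CY

open Finset

/-- the reduced vector -/
def phi (q : ℂ) {L : ℕ} (P : Pat (L + 2) → MvPolynomial ℕ ℂ) (a : ℂ) (y : ℕ → ℂ) : V L :=
  fun α => ev P (insP 0 a (q ^ 2 * a) y) (Pat.ins 0 α)

/-- product over the pairs -/
theorem FusB_last (G : ℂ → ℂ → ℂ) (N : ℕ) (u : ℕ → ℂ) :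
    ∏ i ∈ range (N + 1), ∏ j ∈ Ioo i (N + 1), G (u i) (u j) =
      (∏ i ∈ range N, ∏ j ∈ Ioo i N, G (u i) (u j)) * ∏ i ∈ range N, G (u i) (u N) := by
  rw [Finset.prod_range_succ]
  have h1 : Ioo N (N + 1) = (∅ : Finset ℕ) := by
    ext x
    simp only [Finset.mem_Ioo, Finset.notMem_empty, iff_false]
    omega
  rw [h1, Finset.prod_empty, mul_one, ← Finset.prod_mul_distrib]
  refine Finset.prod_congr rfl fun i hi => ?_
  rw [Finset.mem_range] at hi
  have h2 : Ioo i (N + 1) = insert N (Ioo i N) := by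
    ext x
    simp only [Finset.mem_Ioo, Finset.mem_insert]
    omega
  rw [h2, Finset.prod_insert (by simp), mul_comm]

theorem FusB_first (G : ℂ → ℂ → ℂ) (N : ℕ) (u : ℕ → ℂ) :
    ∏ i ∈ range (N + 1), ∏ j ∈ Ioo i (N + 1), G (u i) (u j) =
      (∏ j ∈ range N, G (u 0) (u (j + 1))) *
        ∏ i ∈ range N, ∏ j ∈ Ioo i N, G (u (i + 1)) (u (j + 1)) := by
  rw [Finset.prod_range_succ', mul_comm]
  have h1 : Ioo 0 (N + 1) = (range N).map (addRightEmbedding 1) := by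
    ext x
    simp only [Finset.mem_Ioo, Finset.mem_map, Finset.mem_range, addRightEmbedding_apply]
    constructor
    · intro h
      exact ⟨x - 1, by omega, by omega⟩
    · rintro ⟨y, hy, rfl⟩
      omega
  have h2 : ∀ i, Ioo (i + 1) (N + 1) = (Ioo i N).map (addRightEmbedding 1) := by
    intro i
    ext x
    simp only [Finset.mem_Ioo, Finset.mem_map, addRightEmbedding_apply]
    constructor
    · intro h
      exact ⟨x - 1, by omega, by omega⟩
    · rintro ⟨y, hy, rfl⟩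
      omega
  rw [h1, Finset.prod_map]
  refine congrArg₂ _ rfl (Finset.prod_congr rfl fun i _ => ?_)
  rw [h2, Finset.prod_map]
  rfl

section

variable {q : ℂ} (hq : q ^ 2 + q + 1 = 0) {L : ℕ} (hL : 0 < L) {P : Pat (L + 2) → MvPolynomial ℕ ℂ}
  (hP : IsPsi q (L + 2) P)
include hq

omit hq in
theorem FusB_ne (hq : q ^ 2 + q + 1 = 0) {a : ℂ} (ha : a ≠ 0) : (1 - q ^ 2) * a ≠ 0 := by
  refine mul_ne_zero ?_ ha
  intro h
  have h1 : q ^ 2 = 1 := by linear_combination -h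
  have h2 : q = -2 := by linear_combination hq - h1
  rw [h2] at h1
  norm_num at h1

include hL hP

theorem fus_range {a : ℂ} (ha : a ≠ 0) (y : ℕ → ℂ) :
    ev P (insP 0 a (q ^ 2 * a) y) = I 0 (phi q P a y) := by
  obtain ⟨e0, e1, -⟩ := insP_zero_apply a (q ^ 2 * a) y
  have h1 := hP.exch (insP 0 a (q ^ 2 * a) y) 0 (by omega)
  rw [zero_add, e0, e1, F_fus_zero hq, F_fus hq, zero_smul, Nat.cast_zero] at h1
  have h2 : E (0 : ℤ) (ev P (insP 0 a (q ^ 2 * a) y)) = ev P (insP 0 a (q ^ 2 * a) y) := by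
    have h3 : q ^ 2 * a - a = -((1 - q ^ 2) * a) := by ring
    rw [h3, neg_smul, ← sub_eq_add_neg, ← smul_sub] at h1
    have h4 := (smul_eq_zero.1 h1).resolve_left (FusB_ne hq ha)
    exact (sub_eq_zero.1 h4).symm
  exact exists_I hL 0 _ h2

theorem phi_exch {a : ℂ} (ha : a ≠ 0) (y : ℕ → ℂ) (i : ℕ) (hi : i + 1 < L) :
    F q (y (i + 1)) (y i) • phi q P a y + (y (i + 1) - y i) • E (i : ℤ) (phi q P a y) =
      F q (y i) (y (i + 1)) • phi q P a (sw i y) := by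
  obtain ⟨-, -, e2⟩ := insP_zero_apply a (q ^ 2 * a) y
  have h1 := hP.exch (insP 0 a (q ^ 2 * a) y) (i + 2) (by omega)
  have e3 : insP 0 a (q ^ 2 * a) y (i + 2 + 1) = y (i + 1) := e2 (i + 1)
  rw [e3, e2 i, sw_insP_far, fus_range hq hL hP ha, fus_range hq hL hP ha] at h1
  have h2 : ((i + 2 : ℕ) : ℤ) = (i : ℤ) + 2 := by push_cast; ring
  rw [h2, E_I_zero (i : ℤ) (by omega) (by omega)] at h1
  apply I_inj 0
  rw [map_add, LinearMap.map_smul, LinearMap.map_smul, LinearMap.map_smul]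
  exact h1

theorem phi_move {a : ℂ} (ha : a ≠ 0) (y : ℕ → ℂ) (h1 : F q a (y 0) ≠ 0) (h2 : F q (q ^ 2 * a) (y 0) ≠ 0) :
    ev P (insP 1 a (q ^ 2 * a) y) = I 1 (phi q P a y) := by
  obtain ⟨e0, e1, e2⟩ := insP_zero_apply a (q ^ 2 * a) y
  have e2' : insP 0 a (q ^ 2 * a) y (1 + 1) = y 0 := e2 0
  set z := insP 0 a (q ^ 2 * a) y with hz
  have g1 := hP.exch z 1 (by omega)
  have g2 := hP.exch (sw 1 z) 0 (by omega)
  have s0 : sw 1 z 0 = a := by rw [sw_of_ne 1 z (by omega) (by omega), e0]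
  have s1 : sw 1 z (0 + 1) = y 0 := by rw [zero_add, sw_left, e2']
  have s2 : sw 0 (sw 1 z) = insP 1 a (q ^ 2 * a) y := sw_sw_insP a (q ^ 2 * a) y
  rw [s0, s1, s2, Nat.cast_zero] at g2
  rw [e1, e2', hz, fus_range hq hL hP ha, Nat.cast_one] at g1
  have a1 : E (1 : ℤ) (I 0 (phi q P a y)) = I 1 (phi q P a y) := E_I_right 0 _
  have a2 : E (0 : ℤ) (I 1 (phi q P a y)) = I 0 (phi q P a y) := E_I_left 0 _
  have a3 : E (0 : ℤ) (I 0 (phi q P a y)) = I 0 (phi q P a y) := E_I 0 _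
  rw [a1] at g1
  set φ0 := I 0 (phi q P a y) with hφ0
  set φ1 := I 1 (phi q P a y) with hφ1
  rw [← hz] at g1
  set Z := ev P (sw 1 z) with hZ
  set W := ev P (insP 1 a (q ^ 2 * a) y) with hW
  have c0 := fus_coef_zero hq a (y 0)
  have c1 := fus_coef_one hq a (y 0)
  -- multiply the second relation by `F q b (y 0)`
  have h3 : (F q a (y 0) * F q (q ^ 2 * a) (y 0)) • W = (F q a (y 0) * F q (q ^ 2 * a) (y 0)) • φ1 := by
    have h4 : (F q (q ^ 2 * a) (y 0) * F q a (y 0)) • W =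
        F q (y 0) a • (F q (q ^ 2 * a) (y 0) • Z) + (y 0 - a) • E 0 (F q (q ^ 2 * a) (y 0) • Z) := by
      rw [mul_smul, ← g2, map_smul, smul_add, smul_comm (F q (q ^ 2 * a) (y 0)) (F q (y 0) a),
        smul_comm (F q (q ^ 2 * a) (y 0)) (y 0 - a)]
    rw [mul_comm (F q a (y 0)), h4, ← g1, map_add, map_smul, map_smul, a2, a3, smul_add, smul_add,
      smul_smul, smul_smul, smul_smul, smul_smul]
    have h5 : (F q (y 0) a * F q (y 0) (q ^ 2 * a)) • φ0 + (F q (y 0) a * (y 0 - q ^ 2 * a)) • φ1 +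
        (((y 0 - a) * F q (y 0) (q ^ 2 * a)) • φ0 + ((y 0 - a) * (y 0 - q ^ 2 * a)) • φ0) =
        (F q (y 0) a * F q (y 0) (q ^ 2 * a) + (y 0 - a) * F q (y 0) (q ^ 2 * a) +
          (y 0 - a) * (y 0 - q ^ 2 * a)) • φ0 + (F q (y 0) a * (y 0 - q ^ 2 * a)) • φ1 := by
      module
    rw [h5, c0, zero_smul, zero_add, c1, mul_comm]
  have h6 : F q a (y 0) * F q (q ^ 2 * a) (y 0) ≠ 0 := mul_ne_zero h1 h2
  have h7 : (F q a (y 0) * F q (q ^ 2 * a) (y 0)) • (W - φ1) = 0 := by rw [smul_sub, h3, sub_self]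
  exact sub_eq_zero.1 ((smul_eq_zero.1 h7).resolve_left h6)

theorem phi_rot {a : ℂ} (ha : a ≠ 0) (y : ℕ → ℂ) (h1 : F q a (y 0) ≠ 0) (h2 : F q (q ^ 2 * a) (y 0) ≠ 0) :
    phi q P a (cyc L y) = R (phi q P a y) := by
  have g1 := hP.rot (insP 1 a (q ^ 2 * a) y)
  rw [cyc_insP_one hL, phi_move hq hL hP ha y h1 h2, fus_range hq hL hP ha, R_I, sub_self] at g1
  exact I_inj 0 g1

theorem phi_ref (hE : Even L) {a : ℂ} (ha : a ≠ 0) (y : ℕ → ℂ) (α : Pat L) (hα : IsRef α) :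
    phi q P a y α = Kf q L a y * ∏ i ∈ range L, ∏ j ∈ Ioo i L, F q (y i) (y j) := by
  have g1 := hP.rot (insP 0 a (q ^ 2 * a) y)
  rw [fus_range hq hL hP ha, R_I_zero] at g1
  have g2 : ev P (cyc (L + 2) (insP 0 a (q ^ 2 * a) y)) (Pat.insS α) = phi q P a y α := by
    rw [g1, IS_apply]
  rw [← g2, hP.ref _ _ hα.insS]
  set w := cyc (L + 2) (insP 0 a (q ^ 2 * a) y) with hw
  have w0 : w 0 = q ^ 2 * a := by rw [hw, cyc_insP_zero, if_pos rfl]
  have w1 : ∀ k, k < L → w (k + 1) = y k := by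
    intro k hk
    rw [hw, cyc_insP_zero, if_neg (by omega), if_pos (by omega), Nat.add_sub_cancel]
  have w2 : w (L + 1) = a := by
    rw [hw, cyc_insP_zero, if_neg (by omega), if_neg (by omega), if_pos rfl]
  have h3 : ∏ i ∈ range (L + 2), ∏ j ∈ Ioo i (L + 2), F q (w i) (w j) =
      (∏ i ∈ range (L + 1), ∏ j ∈ Ioo i (L + 1), F q (w i) (w j)) *
        ∏ i ∈ range (L + 1), F q (w i) (w (L + 1)) := FusB_last (F q) (L + 1) w
  rw [h3, FusB_first (F q) L w, Finset.prod_range_succ', w2, w0]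
  have h4 : ∏ j ∈ range L, F q (q ^ 2 * a) (w (j + 1)) = ∏ j ∈ range L, F q (q ^ 2 * a) (y j) :=
    Finset.prod_congr rfl fun j hj => by rw [w1 j (Finset.mem_range.1 hj)]
  have h5 : ∏ i ∈ range L, ∏ j ∈ Ioo i L, F q (w (i + 1)) (w (j + 1)) =
      ∏ i ∈ range L, ∏ j ∈ Ioo i L, F q (y i) (y j) :=
    Finset.prod_congr rfl fun i hi => Finset.prod_congr rfl fun j hj => by
      rw [w1 i (Finset.mem_range.1 hi), w1 j (Finset.mem_Ioo.1 hj).2]
  have h6 : ∏ i ∈ range L, F q (w (i + 1)) a = ∏ i ∈ range L, F q (y i) a :=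
    Finset.prod_congr rfl fun j hj => by rw [w1 j (Finset.mem_range.1 hj)]
  rw [h4, h5, h6, F_fus hq]
  have h7 : (∏ j ∈ range L, F q (q ^ 2 * a) (y j)) * ∏ i ∈ range L, F q (y i) a =
      ∏ j ∈ range L, (y j - q * a) ^ 2 := by
    rw [← Finset.prod_mul_distrib]
    have h8 : ∏ j ∈ range L, F q (q ^ 2 * a) (y j) * F q (y j) a = ∏ j ∈ range L, -(y j - q * a) ^ 2 :=
      Finset.prod_congr rfl fun j _ => fus_K hq a (y j)
    rw [h8, Finset.prod_neg, Finset.card_range, hE.neg_one_pow, one_mul]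
  unfold Kf
  rw [← h7]
  ring

end

end CY
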