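import Pool.Agent.Lib.MP_216314_pr.Z.FusB
import Pool.Agent.Lib.MP_216314_pr.Z.Ex

/-!
# Fusion

Fix `a ≠ 0` and let `S` be the set of the `y` with distinct first `L` entries and `F q a (y j) ≠ 0`, `F q (q² a) (y j) ≠ 0`
for `j < L`: `Orb L S`. `χ y = phi a y - Kf a y • ev P'' y` satisfies `SolOn q L S` (`phi_exch`, `phi_rot`, `Kf_sw`, `Kf_cyc`, `exch`, `rot`
of `P''`) and its reference component vanishes (`phi_ref`, `ref`), so `χ = 0` on `S` (`sol_unique`). Hence the fusion relation holds for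
`a ≠ 0`, `y ∈ S`. Both sides are polynomials in `(a, y_0, ..)`: `bind₁` of `P β` and an explicit polynomial; their difference vanishes where the
nonzero polynomial `X_0 * ∏_{i<j} (X_{i+1} - X_{j+1}) * ∏_j F(X_0, X_{j+1}) F(q² X_0, X_{j+1})` does not vanish (`poly_generic`).
-/

set_option autoImplicit false

noncomputable section

namespace CY

open Finset

/-- density: a polynomial vanishing where another nonzero polynomial does not vanish is zero -/
theorem poly_generic {P Q : MvPolynomial ℕ ℂ} (hQ : Q ≠ 0)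
    (h : ∀ x : ℕ → ℂ, MvPolynomial.eval x Q ≠ 0 → MvPolynomial.eval x P = 0) : P = 0 := by
  have h1 : P * Q = 0 := by
    refine MvPolynomial.funext fun x => ?_
    rw [map_mul, map_zero]
    by_cases hx : MvPolynomial.eval x Q = 0
    · rw [hx, mul_zero]
    · rw [h x hx, zero_mul]
  exact (mul_eq_zero.1 h1).resolve_right hQ

/-- the generic points -/
def FusD_S (q : ℂ) (L : ℕ) (a : ℂ) : Set (ℕ → ℂ) :=
  {y | (∀ i j, i < L → j < L → i ≠ j → y i ≠ y j) ∧
    ∀ j, j < L → F q a (y j) ≠ 0 ∧ F q (q ^ 2 * a) (y j) ≠ 0}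

/-- exchange is a permutation of the first entries -/
theorem FusD_swap {L i : ℕ} (hi : i + 1 < L) (k : ℕ) (hk : k < L) : Equiv.swap i (i + 1) k < L := by
  rw [Equiv.swap_apply_def]
  split_ifs <;> omega

theorem FusD_orb (q : ℂ) (L : ℕ) (a : ℂ) : Orb L (FusD_S q L a) := by
  refine ⟨?_, ?_, ?_⟩
  · rintro z ⟨h1, h2⟩ i hi
    refine ⟨fun k l hk hl hkl => ?_, fun k hk => ?_⟩
    · exact h1 _ _ (FusD_swap hi k hk) (FusD_swap hi l hl) (fun h => hkl ((Equiv.swap i (i + 1)).injective h))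
    · exact h2 _ (FusD_swap hi k hk)
  · rintro z ⟨h1, h2⟩
    have key : ∀ k, k < L → ∃ m, m < L ∧ CY.cyc L z k = z m ∧ (m = k + 1 ∨ (m = 0 ∧ k + 1 = L)) := by
      intro k hk
      unfold CY.cyc
      by_cases h3 : k + 1 < L
      · exact ⟨k + 1, h3, if_pos h3, Or.inl rfl⟩
      · have h4 : k + 1 = L := by omega
        exact ⟨0, by omega, by rw [if_neg h3, if_pos h4], Or.inr ⟨rfl, h4⟩⟩
    refine ⟨fun k l hk hl hkl => ?_, fun k hk => ?_⟩
    · obtain ⟨m, hm, e1, hm2⟩ := key k hk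
      obtain ⟨m', hm', e2, hm2'⟩ := key l hl
      rw [e1, e2]
      exact h1 m m' hm hm' (by omega)
    · obtain ⟨m, hm, e1, -⟩ := key k hk
      rw [e1]
      exact h2 m hm
  · rintro z ⟨h1, -⟩ i j hi hj hij
    exact h1 i j hi hj hij

section

variable {q : ℂ} (hq : q ^ 2 + q + 1 = 0) {L : ℕ} (hL : 0 < L) (hE : Even L)
  {P : Pat (L + 2) → MvPolynomial ℕ ℂ} (hP : IsPsi q (L + 2) P)
  {P' : Pat L → MvPolynomial ℕ ℂ} (hP' : IsPsi q L P')
include hq hL hE hP hP'

theorem FusD_gen {a : ℂ} (ha : a ≠ 0) (y : ℕ → ℂ) (hy : y ∈ FusD_S q L a) :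
    ev P (insP 0 a (q ^ 2 * a) y) = Kf q L a y • I 0 (ev P' y) := by
  set χ : (ℕ → ℂ) → V L := fun y => phi q P a y - Kf q L a y • ev P' y with hχ
  have hsol : SolOn q L (FusD_S q L a) χ := by
    refine ⟨?_, ?_⟩
    · intro z hz i hi
      have g1 := phi_exch hq hL hP ha z i hi
      have g2 := hP'.exch z i hi
      show F q (z (i + 1)) (z i) • (phi q P a z - Kf q L a z • ev P' z) +
        (z (i + 1) - z i) • E (i : ℤ) (phi q P a z - Kf q L a z • ev P' z) =
        F q (z i) (z (i + 1)) • (phi q P a (sw i z) - Kf q L a (sw i z) • ev P' (sw i z))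
      rw [Kf_sw q hi, smul_sub (F q (z i) (z (i + 1))), ← g1,
        smul_comm (F q (z i) (z (i + 1))) (Kf q L a z), ← g2, map_sub, map_smul]
      module
    · intro z hz
      have hz0 := hz.2 0 hL
      have g1 := phi_rot hq hL hP ha z hz0.1 hz0.2
      show phi q P a (cyc L z) - Kf q L a (cyc L z) • ev P' (cyc L z) = R (phi q P a z - Kf q L a z • ev P' z)
      rw [g1, Kf_cyc, hP'.rot, map_sub, map_smul]
  have h0 : ∀ z ∈ FusD_S q L a, ∀ α, IsRef α → χ z α = 0 := by
    intro z _ α hα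
    show phi q P a z α - Kf q L a z * ev P' z α = 0
    rw [phi_ref hq hL hP hE ha z α hα, hP'.ref z α hα, sub_self]
  have h1 := sol_unique hq (FusD_orb q L a) hsol h0 y hy
  have h2 : phi q P a y = Kf q L a y • ev P' y := sub_eq_zero.1 h1
  rw [fus_range hq hL hP ha, h2, map_smul]

/-- fusion at `z_1 = q² z_0` -/
theorem fusion (a : ℂ) (y : ℕ → ℂ) :
    ev P (insP 0 a (q ^ 2 * a) y) = Kf q L a y • I 0 (ev P' y) := by
  have hq0 : q ≠ 0 := by
    intro h
    rw [h] at hq
    norm_num at hq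
  -- the coordinates are `x 0 = a`, `x (k + 1) = y k`
  set f : ℕ → MvPolynomial ℕ ℂ := fun k => if k = 0 then MvPolynomial.X 0 else if k = 1 then
    MvPolynomial.C (q ^ 2) * MvPolynomial.X 0 else MvPolynomial.X (k - 1) with hf
  have hLf : ∀ (β : Pat (L + 2)) (x : ℕ → ℂ), MvPolynomial.eval x (MvPolynomial.bind₁ f (P β)) =
      ev P (insP 0 (x 0) (q ^ 2 * x 0) (fun k => x (k + 1))) β := by
    intro β x
    rw [MvPolynomial.eval, MvPolynomial.eval₂Hom_bind₁]
    show MvPolynomial.eval (fun k => MvPolynomial.eval x (f k)) (P β) =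
      MvPolynomial.eval (insP 0 (x 0) (q ^ 2 * x 0) (fun k => x (k + 1))) (P β)
    have h1 : (fun k => MvPolynomial.eval x (f k)) = insP 0 (x 0) (q ^ 2 * x 0) (fun k => x (k + 1)) := by
      funext k
      rw [hf]
      unfold insP
      by_cases k0 : k = 0
      · subst k0
        simp
      by_cases k1 : k = 1
      · subst k1
        simp
      · have k2 : ¬ k = 0 + 1 := by omega
        beta_reduce
        rw [if_neg k0, if_neg k1, if_neg (Nat.not_lt_zero k), if_neg k0, if_neg k2, MvPolynomial.eval_X]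
        congr 1
        omega
    rw [h1]
  set Kp : MvPolynomial ℕ ℂ := MvPolynomial.C (1 - q ^ 2) * MvPolynomial.X 0 * ∏ j ∈ range L,
    (MvPolynomial.X (j + 1) - MvPolynomial.C q * MvPolynomial.X 0) ^ 2 with hKp
  have hKe : ∀ x : ℕ → ℂ, MvPolynomial.eval x Kp = Kf q L (x 0) (fun k => x (k + 1)) := by
    intro x
    rw [hKp]
    unfold Kf
    simp only [map_mul, map_prod, map_pow, map_sub, MvPolynomial.eval_C, MvPolynomial.eval_X]
  set Rp : Pat (L + 2) → MvPolynomial ℕ ℂ := fun β => Kp * ∑ α : Pat L,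
    if Pat.ins 0 α = β then MvPolynomial.rename (fun k => k + 1) (P' α) else 0 with hRp
  have hRe : ∀ (β : Pat (L + 2)) (x : ℕ → ℂ), MvPolynomial.eval x (Rp β) =
      (Kf q L (x 0) (fun k => x (k + 1)) • I 0 (ev P' (fun k => x (k + 1)))) β := by
    intro β x
    rw [hRp, Pi.smul_apply, smul_eq_mul]
    unfold I
    rw [lin_apply, map_mul, hKe, map_sum]
    refine congrArg₂ _ rfl (Finset.sum_congr rfl fun α _ => ?_)
    split_ifs
    · rw [MvPolynomial.eval_rename]
      rfl
    · rw [map_zero]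
  set Q : MvPolynomial ℕ ℂ := MvPolynomial.X 0 *
    (∏ i ∈ range L, ∏ j ∈ (range L).erase i, (MvPolynomial.X (i + 1) - MvPolynomial.X (j + 1))) *
    ∏ j ∈ range L, ((MvPolynomial.C q * MvPolynomial.X 0 - MvPolynomial.C (q ^ 2) * MvPolynomial.X (j + 1)) *
      (MvPolynomial.C q * (MvPolynomial.C (q ^ 2) * MvPolynomial.X 0) -
        MvPolynomial.C (q ^ 2) * MvPolynomial.X (j + 1))) with hQ
  have hQ0 : Q ≠ 0 := by
    have key : ∀ (p : MvPolynomial ℕ ℂ) (x : ℕ → ℂ), MvPolynomial.eval x p ≠ 0 → p ≠ 0 := by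
      intro p x hx h0
      apply hx
      rw [h0, map_zero]
    rw [hQ]
    refine mul_ne_zero (mul_ne_zero ?_ ?_) ?_
    · exact key _ (fun _ => 1) (by rw [MvPolynomial.eval_X]; exact one_ne_zero)
    · refine Finset.prod_ne_zero_iff.2 fun i _ => Finset.prod_ne_zero_iff.2 fun j hj => ?_
      have hij : j ≠ i := Finset.ne_of_mem_erase hj
      refine key _ (fun k => if k = i + 1 then 1 else 0) ?_
      rw [map_sub, MvPolynomial.eval_X, MvPolynomial.eval_X, if_pos rfl, if_neg (by omega)]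
      norm_num
    · refine Finset.prod_ne_zero_iff.2 fun j _ => mul_ne_zero ?_ ?_
      · refine key _ (fun k => if k = j + 1 then 1 else 0) ?_
        rw [map_sub, map_mul, map_mul, MvPolynomial.eval_X, MvPolynomial.eval_X, MvPolynomial.eval_C,
          MvPolynomial.eval_C, if_pos rfl, if_neg (by omega), mul_zero, mul_one, zero_sub, neg_ne_zero]
        exact pow_ne_zero 2 hq0
      · refine key _ (fun k => if k = j + 1 then 1 else 0) ?_
        rw [map_sub, map_mul, map_mul, map_mul, MvPolynomial.eval_X, MvPolynomial.eval_X, MvPolynomial.eval_C,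
          MvPolynomial.eval_C, if_pos rfl, if_neg (by omega), mul_zero, mul_zero, mul_one, zero_sub, neg_ne_zero]
        exact pow_ne_zero 2 hq0
  have main : ∀ β : Pat (L + 2), MvPolynomial.bind₁ f (P β) - Rp β = 0 := by
    intro β
    refine poly_generic hQ0 fun x hx => ?_
    rw [hQ] at hx
    simp only [map_mul, map_prod, map_sub, MvPolynomial.eval_C, MvPolynomial.eval_X] at hx
    have hx1 := left_ne_zero_of_mul (left_ne_zero_of_mul hx)
    have hx2 := right_ne_zero_of_mul (left_ne_zero_of_mul hx)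
    have hx3 := right_ne_zero_of_mul hx
    rw [Finset.prod_ne_zero_iff] at hx2 hx3
    rw [map_sub, hLf, hRe, sub_eq_zero]
    refine congrFun (FusD_gen hq hL hE hP hP' hx1 _ ⟨?_, ?_⟩) β
    · intro i j hi hj hij
      have h1 := hx2 i (Finset.mem_range.2 hi)
      rw [Finset.prod_ne_zero_iff] at h1
      have h2 := h1 j (Finset.mem_erase.2 ⟨hij.symm, Finset.mem_range.2 hj⟩)
      exact sub_ne_zero.1 h2
    · intro j hj
      have h1 := hx3 j (Finset.mem_range.2 hj)
      exact ⟨left_ne_zero_of_mul h1, right_ne_zero_of_mul h1⟩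
  funext β
  have h1 := congrArg (MvPolynomial.eval (fun k => if k = 0 then a else y (k - 1))) (main β)
  rw [map_sub, map_zero, hLf, hRe, sub_eq_zero] at h1
  have h2 : (fun k => (fun k => if k = 0 then a else y (k - 1)) (k + 1)) = y := by
    funext k
    beta_reduce
    rw [if_neg (Nat.succ_ne_zero k), Nat.add_sub_cancel]
  rw [h2, if_pos rfl] at h1
  exact h1

/-- fusion at `z_0 = q² z_1` -/
theorem fusion' {a : ℂ} (ha : a ≠ 0) (y : ℕ → ℂ) :
    E 0 (ev P (insP 0 (q ^ 2 * a) a y)) = Kf q L a y • I 0 (ev P' y) := by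
  rw [← fusion hq hL hE hP hP' a y]
  obtain ⟨e0, e1, -⟩ := insP_zero_apply (q ^ 2 * a) a y
  have h1 := hP.exch (insP 0 (q ^ 2 * a) a y) 0 (by omega)
  rw [zero_add, e0, e1, F_fus_zero hq, F_fus hq, zero_smul, zero_add, Nat.cast_zero, sw_insP] at h1
  have h2 : a - q ^ 2 * a = (1 - q ^ 2) * a := by ring
  rw [h2] at h1
  have h3 : (1 - q ^ 2) * a ≠ 0 := by
    refine mul_ne_zero ?_ ha
    intro h
    have h4 : q ^ 2 = 1 := by linear_combination -h
    have h5 : q = -2 := by linear_combination hq - h4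
    rw [h5] at h4
    norm_num at h4
  have h4 : ((1 - q ^ 2) * a) • (E 0 (ev P (insP 0 (q ^ 2 * a) a y)) - ev P (insP 0 a (q ^ 2 * a) y)) = 0 := by
    rw [smul_sub, h1, sub_self]
  exact sub_eq_zero.1 ((smul_eq_zero.1 h4).resolve_left h3)

end

end CY
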