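import Pool.Agent.Lib.MP_216314_pr.Z.WDef

/-!
# Generic points; moving an entry to the front; recursion at the zeros

`mov`: induction on `k`: `sw (k-1)` exchanges the entries `k-1`, `k`.
`mov_second`: apply `mov` to the function `z ↦ f (consN s z)` (symmetric under `sw i`, `i + 1 < L`, since `consN s (sw i z) = sw (i+1) (consN s z)`).
`gen_cofinite`: a finite set of exceptions: `s = 0`, `s³ = (y j)³`.
-/

set_option autoImplicit false

noncomputable section

namespace CY

open Finset

/-- nonzero entries with distinct cubes -/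
def Gen (L : ℕ) (z : ℕ → ℂ) : Prop :=
  (∀ i, i < L → z i ≠ 0) ∧ ∀ i j, i < L → j < L → i ≠ j → z i ^ 3 ≠ z j ^ 3

/-- removal of the entry `k` -/
def del (k : ℕ) (z : ℕ → ℂ) : ℕ → ℂ := fun l => if l < k then z l else z (l + 1)

/-- symmetric function of the first `L` entries -/
def SymF (L : ℕ) (f : (ℕ → ℂ) → ℂ) : Prop := ∀ i, i + 1 < L → ∀ z, f (sw i z) = f z

theorem consN_self (z : ℕ → ℂ) : consN (z 0) (fun k => z (k + 1)) = z := by
  funext k
  rcases k with _ | k
  · simp [consN]
  · simp [consN]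

theorem consN_sw (s : ℂ) (i : ℕ) (z : ℕ → ℂ) : consN s (sw i z) = sw (i + 1) (consN s z) := by
  funext k
  rcases k with _ | k
  · rw [sw_of_ne (i + 1) (consN s z) (by omega) (by omega)]
    simp [consN]
  · have e : ∀ (w : ℕ → ℂ) (m : ℕ), consN s w (m + 1) = w m := fun w m => by simp [consN]
    rw [e]
    by_cases h1 : k = i
    · subst h1
      rw [sw_left, sw_left, e]
    · by_cases h2 : k = i + 1
      · subst h2
        rw [sw_right, sw_right, e]
      · rw [sw_of_ne i z h1 h2, sw_of_ne (i + 1) (consN s z) (by omega) (by omega), e]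

theorem del_consN (s : ℂ) (k : ℕ) (z : ℕ → ℂ) : del (k + 1) (consN s z) = consN s (del k z) := by
  funext l
  rcases l with _ | l
  · simp [consN, del]
  · have e : ∀ (w : ℕ → ℂ) (m : ℕ), consN s w (m + 1) = w m := fun w m => by simp [consN]
    rw [e]
    unfold del
    by_cases h : l < k
    · rw [if_pos (by omega), if_pos h, e]
    · rw [if_neg (by omega), if_neg h, e]

theorem mov {L : ℕ} {f : (ℕ → ℂ) → ℂ} (hf : SymF L f) {k : ℕ} (hk : k < L) (z : ℕ → ℂ) :
    f z = f (consN (z k) (del k z)) := by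
  induction k generalizing z with
  | zero =>
    have h0 : del 0 z = fun k => z (k + 1) := by
      funext l
      simp [del]
    rw [h0, consN_self]
  | succ k ih =>
    have h1 := hf k hk z
    rw [← h1, ih (by omega) (sw k z), sw_left]
    have h2 : del k (sw k z) = del (k + 1) z := by
      funext l
      unfold del
      by_cases a1 : l < k
      · rw [if_pos a1, if_pos (by omega), sw_of_ne k z (by omega) (by omega)]
      · rw [if_neg a1]
        by_cases a2 : l = k
        · subst a2
          rw [if_pos (by omega), sw_right]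
        · rw [if_neg (by omega), sw_of_ne k z (by omega) (by omega)]
    rw [h2]

theorem SymF.cons {L : ℕ} {f : (ℕ → ℂ) → ℂ} (hf : SymF (L + 1) f) (s : ℂ) : SymF L (fun z => f (consN s z)) := by
  intro i hi z
  show f (consN s (sw i z)) = f (consN s z)
  rw [consN_sw]
  exact hf (i + 1) (by omega) _

theorem mov_second {L : ℕ} {f : (ℕ → ℂ) → ℂ} (hf : SymF (L + 1) f) (s : ℂ) {k : ℕ} (hk : k < L) (z : ℕ → ℂ) :
    f (consN s z) = f (insP 0 s (z k) (del k z)) := by
  have h := mov (hf.cons s) hk z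
  have h' : f (consN s z) = f (consN s (consN (z k) (CY.del k z))) := h
  rw [h', consN_consN]

theorem Gen.del {L : ℕ} {z : ℕ → ℂ} (h : Gen (L + 1) z) (k : ℕ) : Gen L (CY.del k z) := by
  refine ⟨?_, ?_⟩
  · intro i hi
    unfold CY.del
    by_cases a : i < k
    · rw [if_pos a]; exact h.1 i (by omega)
    · rw [if_neg a]; exact h.1 (i + 1) (by omega)
  · intro i j hi hj hij
    unfold CY.del
    by_cases a : i < k
    · by_cases b : j < k
      · rw [if_pos a, if_pos b]; exact h.2 i j (by omega) (by omega) hij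
      · rw [if_pos a, if_neg b]; exact h.2 i (j + 1) (by omega) (by omega) (by omega)
    · by_cases b : j < k
      · rw [if_neg a, if_pos b]; exact h.2 (i + 1) j (by omega) (by omega) (by omega)
      · rw [if_neg a, if_neg b]; exact h.2 (i + 1) (j + 1) (by omega) (by omega) (by omega)

theorem Gen.cons_iff {L : ℕ} {s : ℂ} {z : ℕ → ℂ} : Gen (L + 1) (consN s z) ↔
    Gen L z ∧ s ≠ 0 ∧ ∀ j, j < L → s ^ 3 ≠ z j ^ 3 := by
  have e : ∀ (m : ℕ), consN s z (m + 1) = z m := fun m => by simp [consN]
  have e0 : consN s z 0 = s := by simp [consN]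
  constructor
  · intro h
    refine ⟨⟨?_, ?_⟩, ?_, ?_⟩
    · intro i hi
      have := h.1 (i + 1) (by omega)
      rwa [e] at this
    · intro i j hi hj hij
      have := h.2 (i + 1) (j + 1) (by omega) (by omega) (by omega)
      rwa [e, e] at this
    · have := h.1 0 (by omega)
      rwa [e0] at this
    · intro j hj
      have := h.2 0 (j + 1) (by omega) (by omega) (by omega)
      rwa [e0, e] at this
  · rintro ⟨h1, h2, h3⟩
    refine ⟨?_, ?_⟩
    · intro i hi
      rcases i with _ | i
      · rw [e0]; exact h2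
      · rw [e]; exact h1.1 i (by omega)
    · intro i j hi hj hij
      rcases i with _ | i
      · rcases j with _ | j
        · exact absurd rfl hij
        · rw [e0, e]; exact h3 j (by omega)
      · rcases j with _ | j
        · rw [e0, e]; exact (h3 i (by omega)).symm
        · rw [e, e]; exact h1.2 i j (by omega) (by omega) (by omega)

theorem gen_cofinite {L : ℕ} {z : ℕ → ℂ} (h : Gen L z) : {s : ℂ | ¬ Gen (L + 1) (consN s z)}.Finite := by
  have hsub : {s : ℂ | ¬ Gen (L + 1) (consN s z)} ⊆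
      (({0} : Finset ℂ) ∪ (range L).biUnion (fun j => (Polynomial.nthRoots 3 (z j ^ 3)).toFinset) : Finset ℂ) := by
    intro s hs
    have hs : ¬ Gen (L + 1) (consN s z) := hs
    rw [Gen.cons_iff] at hs
    rw [Finset.mem_coe, Finset.mem_union, Finset.mem_singleton, Finset.mem_biUnion]
    by_contra hc
    rw [not_or] at hc
    apply hs
    refine ⟨h, hc.1, ?_⟩
    intro j hj he
    apply hc.2
    refine ⟨j, Finset.mem_range.mpr hj, ?_⟩
    rw [Multiset.mem_toFinset, Polynomial.mem_nthRoots (by norm_num)]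
    exact he
  exact Set.Finite.subset (Finset.finite_toSet _) hsub

/-- the numbers `z_j`, `q z_j`, `q² z_j` are all distinct -/
theorem Gen.card {q : ℂ} (hq : q ^ 2 + q + 1 = 0) {L : ℕ} {z : ℕ → ℂ} (h : Gen L z) :
    ((range L).biUnion (fun j => ({z j, q * z j, q ^ 2 * z j} : Finset ℂ))).card = 3 * L := by
  have q3 : q ^ 3 = 1 := by linear_combination (q - 1) * hq
  have q1 : q ≠ 1 := by
    intro h1
    rw [h1] at hq
    norm_num at hq
  have q0 : q ≠ 0 := by
    intro h1
    rw [h1] at hq
    norm_num at hq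
  have q2 : q ^ 2 ≠ 1 := by
    intro h2
    apply q1
    have : q = q ^ 3 := by rw [pow_succ, h2, one_mul]
    rw [this, q3]
  have cube : ∀ j x, x ∈ ({z j, q * z j, q ^ 2 * z j} : Finset ℂ) → x ^ 3 = z j ^ 3 := by
    intro j x hx
    rw [Finset.mem_insert, Finset.mem_insert, Finset.mem_singleton] at hx
    rcases hx with hx | hx | hx
    · rw [hx]
    · rw [hx]; linear_combination (z j ^ 3) * q3
    · rw [hx]; linear_combination (z j ^ 3 * (q ^ 3 + 1)) * q3
  rw [Finset.card_biUnion]
  · have : ∀ j ∈ range L, ({z j, q * z j, q ^ 2 * z j} : Finset ℂ).card = 3 := by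
      intro j hj
      have hj0 := h.1 j (Finset.mem_range.mp hj)
      rw [Finset.card_eq_three]
      refine ⟨z j, q * z j, q ^ 2 * z j, ?_, ?_, ?_, rfl⟩
      · intro he
        apply q1
        have : q * z j = 1 * z j := by rw [one_mul]; exact he.symm
        exact mul_right_cancel₀ hj0 this
      · intro he
        apply q2
        have : q ^ 2 * z j = 1 * z j := by rw [one_mul]; exact he.symm
        exact mul_right_cancel₀ hj0 this
      · intro he
        apply q1
        have h4 : q = q ^ 2 := mul_right_cancel₀ hj0 he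
        have h5 : q * 1 = q * q := by rw [mul_one, ← pow_two]; exact h4
        exact (mul_left_cancel₀ q0 h5).symm
    rw [Finset.sum_congr rfl this, Finset.sum_const, Finset.card_range, smul_eq_mul, mul_comm]
  · intro i hi j hj hij
    have hi' : i < L := by simpa using hi
    have hj' : j < L := by simpa using hj
    show Disjoint ({z i, q * z i, q ^ 2 * z i} : Finset ℂ) ({z j, q * z j, q ^ 2 * z j} : Finset ℂ)
    rw [Finset.disjoint_left]
    intro x hx hx'
    have a1 := cube i x hx
    have a2 := cube j x hx'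
    exact h.2 i j hi' hj' hij (a1.symm.trans a2)

/-- a polynomial of degree less than `3 L` with all these zeros vanishes -/
theorem Gen.poly_zero {q : ℂ} (hq : q ^ 2 + q + 1 = 0) {L : ℕ} {z : ℕ → ℂ} (h : Gen L z) {p : Polynomial ℂ}
    (hp : p.natDegree ≤ 3 * L) (hc : p.coeff (3 * L) = 0)
    (h0 : ∀ j, j < L → p.eval (z j) = 0 ∧ p.eval (q * z j) = 0 ∧ p.eval (q ^ 2 * z j) = 0) : p = 0 := by
  have hdeg : p.degree < ((((range L).biUnion (fun j => ({z j, q * z j, q ^ 2 * z j} : Finset ℂ))).card : ℕ) : WithBot ℕ) := by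
    rw [Gen.card hq h, Polynomial.degree_lt_iff_coeff_zero]
    intro m hm
    rcases Nat.lt_or_ge (3 * L) m with h1 | h1
    · exact Polynomial.coeff_eq_zero_of_natDegree_lt (lt_of_le_of_lt hp h1)
    · have : m = 3 * L := le_antisymm h1 hm
      rw [this]; exact hc
  refine Polynomial.eq_zero_of_degree_lt_of_eval_finset_eq_zero _ hdeg ?_
  intro x hx
  rw [Finset.mem_biUnion] at hx
  obtain ⟨j, hj, hx⟩ := hx
  have h1 := h0 j (Finset.mem_range.mp hj)
  rw [Finset.mem_insert, Finset.mem_insert, Finset.mem_singleton] at hx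
  rcases hx with hx | hx | hx
  · rw [hx]; exact h1.1
  · rw [hx]; exact h1.2.1
  · rw [hx]; exact h1.2.2

/-- two functions with the same recursion agree when an entry is `q` or `q²` times another one -/
theorem rec_agree {q : ℂ} (hq : q ^ 2 + q + 1 = 0) {L : ℕ} {f g f' g' : (ℕ → ℂ) → ℂ}
    (hf : SymF (L + 2) f) (hg : SymF (L + 2) g) (κ : ℂ → (ℕ → ℂ) → ℂ)
    (h1 : ∀ a, a ≠ 0 → ∀ y, (∀ j, j < L → y j ≠ a ∧ y j ≠ q ^ 2 * a) → f (insP 0 a (q ^ 2 * a) y) = κ a y * f' y)
    (h2 : ∀ a, a ≠ 0 → ∀ y, (∀ j, j < L → y j ≠ a ∧ y j ≠ q ^ 2 * a) → g (insP 0 a (q ^ 2 * a) y) = κ a y * g' y)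
    (h3 : ∀ y, Gen L y → f' y = g' y) {z : ℕ → ℂ} (hz : Gen (L + 1) z) {k : ℕ} (hk : k < L + 1) :
    f (consN (q * z k) z) = g (consN (q * z k) z) ∧ f (consN (q ^ 2 * z k) z) = g (consN (q ^ 2 * z k) z) := by
  have q3 : q ^ 3 = 1 := by linear_combination (q - 1) * hq
  have q0 : q ≠ 0 := by
    intro h1
    rw [h1] at hq
    norm_num at hq
  have hz0 := hz.1 k hk
  have hcub : ∀ j, j < L → (CY.del k z j) ^ 3 ≠ z k ^ 3 := by
    intro j hj
    unfold CY.del
    by_cases a : j < k
    · rw [if_pos a]; exact hz.2 j k (by omega) hk (by omega)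
    · rw [if_neg a]; exact hz.2 (j + 1) k (by omega) hk (by omega)
  have hne : ∀ (c : ℂ), c ^ 3 = 1 → ∀ j, j < L → CY.del k z j ≠ c * z k := by
    intro c hc j hj he
    apply hcub j hj
    rw [he, mul_pow, hc, one_mul]
  have q6 : (q ^ 2) ^ 3 = 1 := by rw [← pow_mul, mul_comm, pow_mul, q3, one_pow]
  have hG : Gen L (CY.del k z) := hz.del k
  have e3 := h3 _ hG
  constructor
  · have hy : ∀ j, j < L → CY.del k z j ≠ q * z k ∧ CY.del k z j ≠ q ^ 2 * (q * z k) := by
      intro j hj
      refine ⟨hne q q3 j hj, ?_⟩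
      have e : q ^ 2 * (q * z k) = 1 * z k := by
        rw [← mul_assoc, ← pow_succ, q3]
      rw [e]
      exact hne 1 (one_pow 3) j hj
    have e : q ^ 2 * (q * z k) = z k := by
      rw [← mul_assoc, ← pow_succ, q3, one_mul]
    have f1 := h1 (q * z k) (mul_ne_zero q0 hz0) (CY.del k z) hy
    have g1 := h2 (q * z k) (mul_ne_zero q0 hz0) (CY.del k z) hy
    rw [e] at f1 g1
    rw [mov_second hf (q * z k) hk z, mov_second hg (q * z k) hk z, f1, g1, e3]
  · have hy : ∀ j, j < L → CY.del k z j ≠ z k ∧ CY.del k z j ≠ q ^ 2 * z k := by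
      intro j hj
      refine ⟨?_, hne (q ^ 2) q6 j hj⟩
      have := hne 1 (one_pow 3) j hj
      rwa [one_mul] at this
    have f1 := h1 (z k) hz0 (CY.del k z) hy
    have g1 := h2 (z k) hz0 (CY.del k z) hy
    have f2 : f (insP 0 (q ^ 2 * z k) (z k) (CY.del k z)) = f (insP 0 (z k) (q ^ 2 * z k) (CY.del k z)) := by
      rw [← sw_insP]
      exact hf 0 (by omega) _
    have g2 : g (insP 0 (q ^ 2 * z k) (z k) (CY.del k z)) = g (insP 0 (z k) (q ^ 2 * z k) (CY.del k z)) := by
      rw [← sw_insP]
      exact hg 0 (by omega) _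
    rw [mov_second hf (q ^ 2 * z k) hk z, mov_second hg (q ^ 2 * z k) hk z, f2, g2, f1, g1, e3]

end CY
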