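import Pool.Agent.Lib.MP_216314_pr.Z.Cau
import Pool.Agent.Lib.MP_216314_pr.Z.Mov

/-!
# The sum as a determinant

`M i j = (q - q²)(1/F(z_i, z_j) + w/F(z_j, z_i))`. As `1/F(z_i,z_j) = q²/(z_i - q z_j)` and `1/F(z_j,z_i) = -1/(q² z_i - q z_j)`, row `i` is the sum of two
rows: `(1 - q)/(z_i - q z_j)` (value `false`) and `w (q² - q)/(q² z_i - q z_j)` (value `true`). Expand the determinant
(`Matrix.detRowAlternating`, `MultilinearMap.map_add_univ`, or sum over `σ : Fin L → Bool`), each term is a product of constants times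
`det_cauchy` with `x_i = z_i` or `q² z_i`, `y_j = q z_j`. Diagonal factors: `(1-q)/(z_i - q z_i) = 1/z_i`, `w (q²-q)/(q² z_i - q z_i) = w/z_i`.
A pair `i < j` contributes `(x_j - x_i) q (z_i - z_j)/((x_i - q z_j)(x_j - q z_i))`, which is
`(z_i - z_j)²/T_ij` if `σ_i = σ_j`, `(z_j - q² z_i)(z_j - z_i)/(z_j - q z_i)²` for `σ_i = true, σ_j = false`, and
`(z_i - q² z_j)(z_i - z_j)/(z_i - q z_j)²` for `σ_i = false, σ_j = true`; times `T_ij²/(z_i - z_j)²` (`T_ij = (z_j - q z_i)(z_j - q² z_i) = (z_i - q z_j)(z_i - q² z_j)`)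
this is `gg q (σ i) (σ j) (z i) (z j)`. (`T_ij ≠ 0`, `z_i ≠ z_j` by distinct cubes.)
-/

set_option autoImplicit false

noncomputable section

namespace CY

open Finset

/-- the matrix -/
def MM (q w : ℂ) (L : ℕ) (z : ℕ → ℂ) : Matrix (Fin L) (Fin L) ℂ :=
  Matrix.of fun i j => (q - q ^ 2) * (1 / F q (z i) (z j) + w / F q (z j) (z i))

/-- the two parts of the matrix -/
private def HomBR (q w : ℂ) {L : ℕ} (z : ℕ → ℂ) (b : Bool) (i j : Fin L) : ℂ :=
  (if b then w * (q ^ 2 - q) else 1 - q) * ((if b then q ^ 2 * z i else z i) - q * z j)⁻¹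

private theorem HomB_expand {L : ℕ} (R : Bool → Fin L → Fin L → ℂ) :
    (Matrix.of fun i j : Fin L => ∑ b : Bool, R b i j).det =
      ∑ τ : Fin L → Bool, (Matrix.of fun i j : Fin L => R (τ i) i j).det := by
  simp only [← Matrix.det_transpose (Matrix.of _)]
  simp only [Matrix.det_apply', Matrix.transpose_apply, Matrix.of_apply]
  rw [Finset.sum_comm]
  refine Finset.sum_congr rfl fun π _ => ?_
  rw [← Finset.mul_sum]
  congr 1
  rw [Finset.prod_univ_sum, Fintype.piFinset_univ]

private theorem HomB_pair {q : ℂ} (hq : q ^ 2 + q + 1 = 0) (s t : Bool) (a b : ℂ) (hab : a ≠ b)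
    (h1 : (if s then q ^ 2 * a else a) ≠ q * b) (h2 : (if t then q ^ 2 * b else b) ≠ q * a) :
    gg q s t a b * (a - b) ^ 2 = (a ^ 2 + a * b + b ^ 2) ^ 2 *
      ((((if t then q ^ 2 * b else b) - (if s then q ^ 2 * a else a)) * (q * a - q * b)) /
        (((if s then q ^ 2 * a else a) - q * b) * ((if t then q ^ 2 * b else b) - q * a))) := by
  have hba : b - a ≠ 0 := sub_ne_zero.mpr (Ne.symm hab)
  have hab' : a - b ≠ 0 := sub_ne_zero.mpr hab
  rw [← mul_div_assoc, eq_div_iff (mul_ne_zero (sub_ne_zero.mpr h1) (sub_ne_zero.mpr h2))]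
  cases s <;> cases t
  · simp only [gg, if_true, Bool.false_eq_true, if_false]
    linear_combination ((a ^ 2 + a * b + b ^ 2) * (a - b) ^ 2 * a * b) * hq
  · simp only [gg, if_true, Bool.false_eq_true, if_false]
    have e : (a - q ^ 2 * b) ^ 3 / (a - b) * (a - b) ^ 2 = (a - q ^ 2 * b) ^ 3 * (a - b) := by
      field_simp
    rw [e]
    linear_combination ((a - q ^ 2 * b) * (a - b) * q *
      ((a ^ 2 + a * b + b ^ 2) + (a - q * b) * (a - q ^ 2 * b)) * (a * b - (q - 1) * b ^ 2)) * hq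
  · simp only [gg, if_true, Bool.true_eq_false, Bool.false_eq_true, if_false]
    have e : (b - q ^ 2 * a) ^ 3 / (b - a) * (a - b) ^ 2 = (b - q ^ 2 * a) ^ 3 * (b - a) := by
      rw [div_mul_eq_mul_div, div_eq_iff hba]; ring
    rw [e]
    linear_combination ((b - q ^ 2 * a) * (b - a) * q *
      ((a ^ 2 + a * b + b ^ 2) + (b - q * a) * (b - q ^ 2 * a)) * (a * b - (q - 1) * a ^ 2)) * hq
  · simp only [gg, if_true]
    linear_combination ((a ^ 2 + a * b + b ^ 2) * (a - b) ^ 2 * q ^ 2 * a * b) * hq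

private theorem HomB_ne {q : ℂ} (hq : q ^ 2 + q + 1 = 0) {L : ℕ} {z : ℕ → ℂ} (hz : Gen L z)
    (i j : Fin L) : z i ≠ q * z j ∧ q ^ 2 * z i ≠ q * z j := by
  have hq0 : q ≠ 0 := by rintro rfl; norm_num at hq
  have hq3 : q ^ 3 = 1 := by linear_combination (q - 1) * hq
  have hq1 : q ≠ 1 := by rintro rfl; norm_num at hq
  by_cases hij : i = j
  · subst hij
    have hzi := hz.1 i i.2
    constructor
    · intro h
      have : (q - 1) * z i = 0 := by linear_combination -h
      rcases mul_eq_zero.mp this with h | h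
      · exact hq1 (by linear_combination h)
      · exact hzi h
    · intro h
      have : q * (q - 1) * z i = 0 := by linear_combination h
      rcases mul_eq_zero.mp this with h | h
      · rcases mul_eq_zero.mp h with h | h
        · exact hq0 h
        · exact hq1 (by linear_combination h)
      · exact hzi h
  · have hc := hz.2 i j i.2 j.2 (fun h => hij (Fin.ext h))
    constructor
    · intro h
      apply hc
      rw [h, mul_pow, hq3, one_mul]
    · intro h
      apply hc
      have h6 : (q ^ 2) ^ 3 = 1 := by rw [← pow_mul, mul_comm, pow_mul, hq3, one_pow]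
      calc z i ^ 3 = (q ^ 2 * z i) ^ 3 := by rw [mul_pow, h6, one_mul]
        _ = z j ^ 3 := by rw [h, mul_pow, hq3, one_mul]

theorem WW_det {q : ℂ} (hq : q ^ 2 + q + 1 = 0) (w : ℂ) {L : ℕ} {z : ℕ → ℂ} (hz : Gen L z) :
    WW q w L z * ∏ i : Fin L, ∏ j ∈ Ioi i, (z i - z j) ^ 2 =
      (∏ i : Fin L, z i) * (∏ i : Fin L, ∏ j ∈ Ioi i, (z i ^ 2 + z i * z j + z j ^ 2) ^ 2) *
        (MM q w L z).det := by
  have hq0 : q ≠ 0 := by rintro rfl; norm_num at hq
  have hq3 : q ^ 3 = 1 := by linear_combination (q - 1) * hq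
  have hq1 : q ≠ 1 := by rintro rfl; norm_num at hq
  have hMM : MM q w L z = Matrix.of fun i j : Fin L => ∑ b : Bool, HomBR q w z b i j := by
    ext i j
    simp only [MM, Matrix.of_apply, Fintype.sum_bool, HomBR, if_true]
    have hij := HomB_ne hq hz i j
    have h1 : F q (z i) (z j) = q * (z i - q * z j) := by unfold F; ring
    have h2 : F q (z j) (z i) = -(q ^ 2 * z i - q * z j) := by unfold F; ring
    rw [h1, h2]
    have h3 : z i - q * z j ≠ 0 := sub_ne_zero.mpr hij.1
    have h4 : q ^ 2 * z i - q * z j ≠ 0 := sub_ne_zero.mpr hij.2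
    simp only [Bool.false_eq_true, if_false]
    field_simp
    ring
  have hD : ∀ τ : Fin L → Bool, wt w τ * pp q τ z * ∏ i : Fin L, ∏ j ∈ Ioi i, (z i - z j) ^ 2 =
      (∏ i : Fin L, z i) * (∏ i : Fin L, ∏ j ∈ Ioi i, (z i ^ 2 + z i * z j + z j ^ 2) ^ 2) *
        (Matrix.of fun i j : Fin L => HomBR q w z (τ i) i j).det := by
    intro τ
    set x : Fin L → ℂ := fun i => if τ i then q ^ 2 * z i else z i with hxdef
    set y : Fin L → ℂ := fun j => q * z j with hydef
    have hx : ∀ i j : Fin L, x i ≠ y j := by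
      intro i j
      simp only [hxdef, hydef]
      split_ifs
      · exact (HomB_ne hq hz i j).2
      · exact (HomB_ne hq hz i j).1
    have hdet : (Matrix.of fun i j : Fin L => HomBR q w z (τ i) i j).det =
        (∏ i : Fin L, (if τ i then w * (q ^ 2 - q) else 1 - q)) *
          ((∏ i : Fin L, ∏ j ∈ Ioi i, ((x j - x i) * (y i - y j))) /
            ∏ i : Fin L, ∏ j : Fin L, (x i - y j)) := by
      rw [← det_cauchy L x y hx, ← Matrix.det_mul_column]
      rfl
    have hden : ∏ i : Fin L, ∏ j : Fin L, (x i - y j) =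
        (∏ i : Fin L, (x i - y i)) *
          ∏ i : Fin L, ∏ j ∈ Ioi i, ((x i - y j) * (x j - y i)) := by
      rw [Finset.prod_prod_Ioi_mul_eq_prod_prod_off_diag (fun j i => x i - y j),
        ← Finset.prod_mul_distrib]
      exact Finset.prod_congr rfl fun i _ => Fintype.prod_eq_mul_prod_compl i _
    have hw : (∏ i : Fin L, z i) * ((∏ i : Fin L, (if τ i then w * (q ^ 2 - q) else 1 - q)) /
        ∏ i : Fin L, (x i - y i)) = wt w τ := by
      rw [← Finset.prod_div_distrib, ← Finset.prod_mul_distrib]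
      unfold wt
      refine Finset.prod_congr rfl fun i _ => ?_
      have hzi := hz.1 i i.2
      have hxi := sub_ne_zero.mpr (hx i i)
      rw [mul_div_assoc', div_eq_iff hxi]
      simp only [hxdef, hydef]
      split_ifs <;> ring
    have hp : pp q τ z * ∏ i : Fin L, ∏ j ∈ Ioi i, (z i - z j) ^ 2 =
        (∏ i : Fin L, ∏ j ∈ Ioi i, (z i ^ 2 + z i * z j + z j ^ 2) ^ 2) *
          ((∏ i : Fin L, ∏ j ∈ Ioi i, ((x j - x i) * (y i - y j))) /
            ∏ i : Fin L, ∏ j ∈ Ioi i, ((x i - y j) * (x j - y i))) := by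
      unfold pp
      simp only [← Finset.prod_mul_distrib, ← Finset.prod_div_distrib]
      refine Finset.prod_congr rfl fun i _ => Finset.prod_congr rfl fun j hj => ?_
      have hij : i < j := Finset.mem_Ioi.mp hj
      have hne : z i ≠ z j := by
        intro h
        exact hz.2 i j i.2 j.2 (fun h => hij.ne (Fin.ext h)) (by rw [h])
      exact HomB_pair hq (τ i) (τ j) (z i) (z j) hne (hx i j) (hx j i)
    calc wt w τ * pp q τ z * ∏ i : Fin L, ∏ j ∈ Ioi i, (z i - z j) ^ 2
        = wt w τ * (pp q τ z * ∏ i : Fin L, ∏ j ∈ Ioi i, (z i - z j) ^ 2) := by ring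
      _ = _ := by
        rw [hp, ← hw, hdet, hden]
        simp only [div_eq_mul_inv, mul_inv]
        ring
  rw [hMM, HomB_expand, Finset.mul_sum, ← Finset.sum_congr rfl fun τ _ => hD τ, ← Finset.sum_mul]
  rfl

end CY
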