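import Pool.Agent.Lib.MP_216314_pr.Z.HomB

/-!
# Change of variables

`z = zs q s = (1 + q² s)/(1 + q s)`, `ts s = -s/(1-s)`. Identities (`s`, `s'` with nonvanishing denominators):
`F q z z' (1 + q s)(1 + q s') = (q - q²)(1 - s' + s s') = (q - q²)(1 - s')(1 - s t')`,
`F q z' z (1 + q s)(1 + q s') = (q - q²)(1 - s + s s') = (q - q²)(1 - s')(1 - s - t')`, `t' = ts s'`,
so `MM i j = (1 + q s_i)(1 + q s_j)/(1 - s_j) * KK w (s_i) (ts s_j)`. `z - z' = (q² - q)(s - s')/((1 + q s)(1 + q s'))`.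
-/

set_option autoImplicit false

noncomputable section

namespace CY

open Finset

def zs (q s : ℂ) : ℂ := (1 + q ^ 2 * s) / (1 + q * s)

def ts (s : ℂ) : ℂ := -s / (1 - s)

/-- the kernel -/
def KK (w s t : ℂ) : ℂ := 1 / (1 - s * t) + w / (1 - s - t)

private theorem HomC_entry {q : ℂ} (hq : q ^ 2 + q + 1 = 0) (hq12 : q - q ^ 2 ≠ 0) (w : ℂ)
    {a b : ℂ} (ha : 1 + q * a ≠ 0) (hb : 1 + q * b ≠ 0) (hb1 : b ≠ 1)
    (hab : 1 - b + a * b ≠ 0) (hba : 1 - a + b * a ≠ 0) :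
    (q - q ^ 2) * (1 / F q (zs q a) (zs q b) + w / F q (zs q b) (zs q a)) =
      (1 + q * a) * ((1 + q * b) / (1 - b) * KK w a (ts b)) := by
  have h1b : 1 - b ≠ 0 := sub_ne_zero.mpr (Ne.symm hb1)
  have hza : zs q a * (1 + q * a) = 1 + q ^ 2 * a := div_mul_cancel₀ _ ha
  have hzb : zs q b * (1 + q * b) = 1 + q ^ 2 * b := div_mul_cancel₀ _ hb
  have e1 : F q (zs q a) (zs q b) = (q - q ^ 2) * (1 - b + a * b) / ((1 + q * a) * (1 + q * b)) := by
    rw [eq_div_iff (mul_ne_zero ha hb)]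
    unfold F
    linear_combination (q * (1 + q * b)) * hza - (q ^ 2 * (1 + q * a)) * hzb +
      (q - 1) * (-b * q + a * b * (q - q ^ 2)) * hq
  have e2 : F q (zs q b) (zs q a) = (q - q ^ 2) * (1 - a + b * a) / ((1 + q * a) * (1 + q * b)) := by
    rw [eq_div_iff (mul_ne_zero ha hb)]
    unfold F
    linear_combination (q * (1 + q * a)) * hzb - (q ^ 2 * (1 + q * b)) * hza +
      (q - 1) * (-a * q + b * a * (q - q ^ 2)) * hq
  have e3 : 1 - a * ts b = (1 - b + a * b) / (1 - b) := by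
    unfold ts; field_simp; ring
  have e4 : 1 - a - ts b = (1 - a + b * a) / (1 - b) := by
    unfold ts; field_simp; ring
  unfold KK
  rw [e1, e2, e3, e4]
  clear e1 e2 e3 e4 hza hzb hq
  generalize q - q ^ 2 = X at *
  generalize 1 + q * a = U at *
  generalize 1 + q * b = V at *
  field_simp

section

variable {q : ℂ} (hq : q ^ 2 + q + 1 = 0)
include hq

theorem zs_sub {s s' : ℂ} (h : 1 + q * s ≠ 0) (h' : 1 + q * s' ≠ 0) :
    zs q s - zs q s' = (q ^ 2 - q) * (s - s') / ((1 + q * s) * (1 + q * s')) := by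
  unfold zs
  rw [div_sub_div _ _ h h']
  congr 1
  ring

theorem MM_det (w : ℂ) {L : ℕ} (s : ℕ → ℂ) (h : ∀ i, i < L → 1 + q * s i ≠ 0 ∧ s i ≠ 1)
    (h2 : ∀ i j, i < L → j < L → 1 - s j + s i * s j ≠ 0) :
    (MM q w L (fun k => zs q (s k))).det =
      (∏ i : Fin L, (1 + q * s i) ^ 2 / (1 - s i)) *
        (Matrix.of fun i j : Fin L => KK w (s i) (ts (s j))).det := by
  have hq12 : q - q ^ 2 ≠ 0 := by
    intro h0
    have h3 : (3 : ℂ) = 0 := by linear_combination 4 * hq - (2 * q + 1) * hq - (2 * q + 1) * h0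
    norm_num at h3
  have hM : MM q w L (fun k => zs q (s k)) =
      Matrix.of fun i j : Fin L => (1 + q * s i) *
        (Matrix.of fun i j : Fin L => ((1 + q * s j) / (1 - s j)) *
          (Matrix.of fun i j : Fin L => KK w (s i) (ts (s j))) i j) i j := by
    ext i j
    simp only [MM, Matrix.of_apply]
    exact HomC_entry hq hq12 w (h i i.2).1 (h j j.2).1 (h j j.2).2 (h2 i j i.2 j.2) (h2 j i j.2 i.2)
  rw [hM, Matrix.det_mul_column, Matrix.det_mul_row, ← mul_assoc, ← Finset.prod_mul_distrib]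
  congr 1
  refine Finset.prod_congr rfl fun i _ => ?_
  ring

end

end CY
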