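import Pool.Agent.Lib.MP_216314_pr.Z.RelB

/-!
# Linearisation: operators on vectors indexed by patterns
-/

set_option autoImplicit false

noncomputable section

namespace CY

open Finset

/-- linear extension (push forward) of a map -/
def lin {A B : Type*} [Fintype A] [DecidableEq B] (f : A → B) : (A → ℂ) →ₗ[ℂ] (B → ℂ) where
  toFun v b := ∑ a, if f a = b then v a else 0
  map_add' v w := by
    funext b
    show (∑ a, if f a = b then v a + w a else 0) = (∑ a, if f a = b then v a else 0) +
      ∑ a, if f a = b then w a else 0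
    rw [← Finset.sum_add_distrib]
    refine Finset.sum_congr rfl fun a _ => ?_
    split_ifs
    · rfl
    · rw [add_zero]
  map_smul' c v := by
    funext b
    show (∑ a, if f a = b then c * v a else 0) = c * ∑ a, if f a = b then v a else 0
    rw [Finset.mul_sum]
    refine Finset.sum_congr rfl fun a _ => ?_
    split_ifs
    · rfl
    · rw [mul_zero]

section

variable {A B C : Type*} [Fintype A] [Fintype B] [DecidableEq A] [DecidableEq B] [DecidableEq C]

theorem lin_apply (f : A → B) (v : A → ℂ) (b : B) : lin f v b = ∑ a, if f a = b then v a else 0 := rfl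

theorem lin_lin (f : A → B) (g : B → C) (v : A → ℂ) : lin g (lin f v) = lin (fun a => g (f a)) v := by
  funext c
  show (∑ b, if g b = c then (∑ a, if f a = b then v a else 0) else 0) = ∑ a, if g (f a) = c then v a else 0
  have h1 : ∀ b ∈ (univ : Finset B), (if g b = c then (∑ a, if f a = b then v a else 0) else 0) =
      ∑ a, if g b = c then (if f a = b then v a else 0) else 0 := by
    intro b _
    split_ifs
    · rfl
    · rw [Finset.sum_const_zero]
  rw [Finset.sum_congr rfl h1, Finset.sum_comm]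
  refine Finset.sum_congr rfl fun a _ => ?_
  rw [Finset.sum_eq_single (f a)]
  · rw [if_pos rfl]
  · intro b _ hb
    rw [if_neg (Ne.symm hb), ite_self]
  · intro h
    exact absurd (Finset.mem_univ _) h

theorem lin_id (v : A → ℂ) : lin (fun a : A => a) v = v := by
  funext b
  show (∑ a, if a = b then v a else 0) = v b
  rw [Finset.sum_eq_single b]
  · rw [if_pos rfl]
  · intro a _ ha
    rw [if_neg ha]
  · intro h
    exact absurd (Finset.mem_univ _) h

theorem sum_lin (f : A → B) (v : A → ℂ) : ∑ b, lin f v b = ∑ a, v a := by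
  show (∑ b, ∑ a, if f a = b then v a else 0) = ∑ a, v a
  rw [Finset.sum_comm]
  refine Finset.sum_congr rfl fun a _ => ?_
  rw [Finset.sum_eq_single (f a)]
  · rw [if_pos rfl]
  · intro b _ hb
    rw [if_neg (Ne.symm hb)]
  · intro h
    exact absurd (Finset.mem_univ _) h

theorem lin_inj_apply {f : A → B} (hf : Function.Injective f) (v : A → ℂ) (a : A) :
    lin f v (f a) = v a := by
  rw [lin_apply, Finset.sum_eq_single a]
  · rw [if_pos rfl]
  · intro a' _ ha
    rw [if_neg (fun h => ha (hf h))]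
  · intro h
    exact absurd (Finset.mem_univ _) h

theorem lin_apply_of_not {f : A → B} (v : A → ℂ) (b : B) (h : ∀ a, f a ≠ b) : lin f v b = 0 := by
  rw [lin_apply]
  exact Finset.sum_eq_zero fun a _ => if_neg (h a)

theorem lin_injective {f : A → B} (hf : Function.Injective f) : Function.Injective (lin f) := by
  intro v w h
  funext a
  rw [← lin_inj_apply hf v a, ← lin_inj_apply hf w a, h]

theorem lin_congr {f g : A → B} (h : ∀ a, f a = g a) (v : A → ℂ) : lin f v = lin g v := by
  have h1 : f = g := funext h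
  rw [h1]

/-- a vector supported on the range of an injective map is a push forward -/
theorem eq_lin_comp {f : A → B} (hf : Function.Injective f) (v : B → ℂ)
    (h : ∀ b, (∀ a, f a ≠ b) → v b = 0) : v = lin f (fun a => v (f a)) := by
  funext b
  by_cases hb : ∃ a, f a = b
  · obtain ⟨a, rfl⟩ := hb
    rw [lin_inj_apply hf]
  · have h1 : ∀ a, f a ≠ b := fun a ha => hb ⟨a, ha⟩
    rw [h b h1, lin_apply_of_not _ b h1]

end

/-- vectors indexed by the patterns -/
abbrev V (L : ℕ) := Pat L → ℂ

/-- the monoid operators -/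
def E {L : ℕ} (i : ℤ) : V L →ₗ[ℂ] V L := lin (Pat.e i)

/-- the insertion operators -/
def I {L : ℕ} (i : ℤ) : V L →ₗ[ℂ] V (L + 2) := lin (Pat.ins i)

/-- the insertion at the seam -/
def IS {L : ℕ} : V L →ₗ[ℂ] V (L + 2) := lin Pat.insS

/-- rotation -/
def R {L : ℕ} : V L →ₗ[ℂ] V L := lin Pat.rot

/-- inverse rotation -/
def RI {L : ℕ} : V L →ₗ[ℂ] V L := lin Pat.rotInv

/-- `q + q² e_i` -/
def Xo {L : ℕ} (q : ℂ) (i : ℤ) : V L →ₗ[ℂ] V L := q • LinearMap.id + q ^ 2 • E i

theorem Xo_apply {L : ℕ} (q : ℂ) (i : ℤ) (v : V L) : Xo q i v = q • v + q ^ 2 • E i v := rfl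

section

variable {L : ℕ}

theorem E_E (i : ℤ) (v : V L) : E i (E i v) = E i v := by
  unfold E
  rw [lin_lin]
  exact lin_congr (fun α => Pat.e_idem α i) v

theorem E_braid (h : 2 < L) (i : ℤ) (v : V L) : E i (E (i + 1) (E i v)) = E i v := by
  unfold E
  rw [lin_lin, lin_lin]
  exact lin_congr (fun α => Pat.e_braid α h i) v

theorem E_braid' (h : 2 < L) (i : ℤ) (v : V L) : E (i + 1) (E i (E (i + 1) v)) = E (i + 1) v := by
  unfold E
  rw [lin_lin, lin_lin]
  exact lin_congr (fun α => Pat.e_braid' α h i) v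

theorem E_comm (i j : ℤ) (h1 : ¬ (L : ℤ) ∣ i - j) (h2 : ¬ (L : ℤ) ∣ i - j - 1)
    (h3 : ¬ (L : ℤ) ∣ i - j + 1) (v : V L) : E i (E j v) = E j (E i v) := by
  unfold E
  rw [lin_lin, lin_lin]
  exact lin_congr (fun α => Pat.e_comm α i j h1 h2 h3) v

theorem E_period (i : ℤ) (v : V L) : E (i + L) v = E i v := by
  unfold E
  exact lin_congr (fun α => Pat.e_add_period α i) v

theorem R_E (i : ℤ) (v : V L) : R (E i v) = E (i - 1) (R v) := by
  unfold E R
  rw [lin_lin, lin_lin]
  exact lin_congr (fun α => Pat.rot_e α i) v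

theorem RI_E (i : ℤ) (v : V L) : RI (E i v) = E (i + 1) (RI v) := by
  unfold E RI
  rw [lin_lin, lin_lin]
  exact lin_congr (fun α => Pat.rotInv_e α i) v

theorem R_RI (v : V L) : R (RI v) = v := by
  unfold R RI
  rw [lin_lin]
  exact (lin_congr (fun α => Pat.rot_rotInv α) v).trans (lin_id v)

theorem RI_R (v : V L) : RI (R v) = v := by
  unfold R RI
  rw [lin_lin]
  exact (lin_congr (fun α => Pat.rotInv_rot α) v).trans (lin_id v)

theorem sum_E (i : ℤ) (v : V L) : ∑ α, E i v α = ∑ α, v α := by
  exact sum_lin (Pat.e i) v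

theorem sum_R (v : V L) : ∑ α, R v α = ∑ α, v α := by
  exact sum_lin Pat.rot v

theorem sum_I (i : ℤ) (v : V L) : ∑ α, I i v α = ∑ α, v α := by
  exact sum_lin (Pat.ins i) v

theorem I_inj (i : ℤ) : Function.Injective (I i : V L →ₗ[ℂ] V (L + 2)) := by
  exact lin_injective (Pat.ins_injective i)

theorem IS_inj : Function.Injective (IS : V L →ₗ[ℂ] V (L + 2)) := by
  exact lin_injective insS_injective

theorem E_I (i : ℤ) (v : V L) : E i (I i v) = I i v := by
  unfold E I
  rw [lin_lin]
  exact lin_congr (fun α => Pat.e_ins α i) v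

theorem E_I_right (i : ℤ) (v : V L) : E (i + 1) (I i v) = I (i + 1) v := by
  unfold E I
  rw [lin_lin]
  exact lin_congr (fun α => Pat.e_ins_right α i) v

theorem E_I_left (i : ℤ) (v : V L) : E i (I (i + 1) v) = I i v := by
  unfold E I
  rw [lin_lin]
  exact lin_congr (fun α => Pat.e_ins_left α i) v

theorem E_I_zero (k : ℤ) (h0 : 0 ≤ k) (h1 : k + 1 < L) (v : V L) : E (k + 2) (I 0 v) = I 0 (E k v) := by
  unfold E I
  rw [lin_lin, lin_lin]
  exact lin_congr (fun α => Pat.e_ins_zero α k h0 h1) v

theorem E_I_far (i k : ℤ) (h : ¬ (L : ℤ) ∣ k + 1 - i) (v : V L) : E (up L i k) (I i v) = I i (E k v) := by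
  unfold E I
  rw [lin_lin, lin_lin]
  exact lin_congr (fun α => Pat.e_ins_far α i k h) v

theorem R_I (i : ℤ) (v : V L) : R (I i v) = I (i - 1) (R v) := by
  unfold R I
  rw [lin_lin, lin_lin]
  exact lin_congr (fun α => Pat.rot_ins α i) v

theorem RI_I_last (v : V L) : RI (I (L : ℤ) v) = IS v := by
  unfold RI I IS
  rw [lin_lin]
  exact lin_congr (fun α => Pat.rotInv_ins_last α) v

theorem R_I_zero (v : V L) : R (I 0 v) = IS v := by
  unfold R I IS
  rw [lin_lin]
  exact lin_congr (fun _ => rfl) v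

/-- a vector fixed by `e i` is an insertion (period at least 4) -/
theorem exists_I (hL : 0 < L) (i : ℤ) (v : V (L + 2)) (h : E i v = v) :
    v = I i (fun α => v (Pat.ins i α)) := by
  refine eq_lin_comp (Pat.ins_injective i) v ?_
  intro β hβ
  have h1 : E i v β = 0 := by
    unfold E
    refine lin_apply_of_not v β ?_
    intro γ hγ
    obtain ⟨α, hα⟩ := Pat.exists_ins_e hL i γ
    exact hβ α (hα.trans hγ)
  rw [h] at h1
  exact h1

/-- the component of `R v`, `I v`, `IS v` -/
theorem R_apply (v : V L) (α : Pat L) : R v (Pat.rot α) = v α := by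
  exact lin_inj_apply (Function.LeftInverse.injective (g := Pat.rotInv) Pat.rotInv_rot) v α

theorem I_apply (i : ℤ) (v : V L) (α : Pat L) : I i v (Pat.ins i α) = v α := by
  exact lin_inj_apply (Pat.ins_injective i) v α

theorem IS_apply (v : V L) (α : Pat L) : IS v (Pat.insS α) = v α := by
  exact lin_inj_apply insS_injective v α

end

end CY
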