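import Pool.Agent.Lib.MP_216314_pr.Z.RelB

/-!
# Loops around a gap

`cls β α x`: the class of the site `x` under the two involutions. `NAt g β α`: the number of finite classes with an odd
number of sites to the left of the gap `g` (between the sites `g - 1` and `g`): these are the loops around this gap.
-/

set_option autoImplicit false

noncomputable section

namespace CY

open Finset

/-- one step along an arc of `β` or `α` -/
def Stp {L : ℕ} (β α : Pat L) (x y : ℤ) : Prop := y = β.f x ∨ y = α.f x

/-- the class of `x` -/
def cls {L : ℕ} (β α : Pat L) (x : ℤ) : Set ℤ := {y | Relation.ReflTransGen (Stp β α) x y}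

/-- the loops around the gap `g` -/
def loopsAt {L : ℕ} (g : ℤ) (β α : Pat L) : Set (Set ℤ) :=
  {C | ∃ x, C = cls β α x ∧ C.Finite ∧ Odd (C ∩ Set.Iio g).ncard}

/-- the number of loops around the gap `g` -/
def NAt {L : ℕ} (g : ℤ) (β α : Pat L) : ℕ := (loopsAt g β α).ncard

/-- the number of loops around the marked gap (between the sites `-1` and `0`) -/
def NL {L : ℕ} (β α : Pat L) : ℕ := NAt 0 β α

section

variable {L : ℕ} (β α : Pat L)

theorem mem_cls_self (x : ℤ) : x ∈ cls β α x := Relation.ReflTransGen.refl

theorem cls_closed_left {x y : ℤ} (h : y ∈ cls β α x) : β.f y ∈ cls β α x :=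
  Relation.ReflTransGen.tail h (Or.inl rfl)

theorem cls_closed_right {x y : ℤ} (h : y ∈ cls β α x) : α.f y ∈ cls β α x :=
  Relation.ReflTransGen.tail h (Or.inr rfl)

theorem stp_symm {x y : ℤ} (h : Stp β α x y) : Stp β α y x := by
  rcases h with rfl | rfl
  · exact Or.inl (β.inv x).symm
  · exact Or.inr (α.inv x).symm

theorem cls_symm {x y : ℤ} (h : y ∈ cls β α x) : x ∈ cls β α y := by
  have h1 : Relation.ReflTransGen (Stp β α) x y := h
  show Relation.ReflTransGen (Stp β α) y x
  induction h1 with
  | refl => exact Relation.ReflTransGen.refl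
  | tail _ hb ih => exact Relation.ReflTransGen.head (stp_symm β α hb) (ih ‹_›)

theorem cls_eq {x y : ℤ} (h : y ∈ cls β α x) : cls β α y = cls β α x := by
  ext z
  constructor
  · intro hz
    exact Relation.ReflTransGen.trans h hz
  · intro hz
    exact Relation.ReflTransGen.trans (cls_symm β α h) hz

/-- a class is contained in every set which contains the point and is closed under both involutions -/
theorem cls_subset {x : ℤ} {S : Set ℤ} (hx : x ∈ S) (h1 : ∀ y ∈ S, β.f y ∈ S)
    (h2 : ∀ y ∈ S, α.f y ∈ S) : cls β α x ⊆ S := by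
  intro z hz
  have h3 : Relation.ReflTransGen (Stp β α) x z := hz
  clear hz
  induction h3 with
  | refl => exact hx
  | tail _ hb ih =>
    rcases hb with rfl | rfl
    · exact h1 _ ih
    · exact h2 _ ih

theorem cls_comm (x : ℤ) : cls β α x = cls α β x := by
  apply Set.Subset.antisymm
  · exact cls_subset β α (mem_cls_self α β x) (fun y hy => cls_closed_right α β hy)
      (fun y hy => cls_closed_left α β hy)
  · exact cls_subset α β (mem_cls_self β α x) (fun y hy => cls_closed_right β α hy)
      (fun y hy => cls_closed_left β α hy)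

theorem cls_add_period (x : ℤ) : cls β α (x + L) = (fun y => y + (L : ℤ)) '' cls β α x := by
  apply Set.Subset.antisymm
  · refine cls_subset β α ⟨x, mem_cls_self β α x, rfl⟩ ?_ ?_
    · rintro _ ⟨y, hy, rfl⟩
      exact ⟨β.f y, cls_closed_left β α hy, (β.per y).symm⟩
    · rintro _ ⟨y, hy, rfl⟩
      exact ⟨α.f y, cls_closed_right β α hy, (α.per y).symm⟩
  · rintro _ ⟨y, hy, rfl⟩
    have h1 : cls β α x ⊆ {z | z + (L : ℤ) ∈ cls β α (x + L)} := by
      refine cls_subset β α (mem_cls_self β α _) ?_ ?_
      · intro z hz
        show β.f z + (L : ℤ) ∈ cls β α (x + L)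
        rw [← β.per]
        exact cls_closed_left β α hz
      · intro z hz
        show α.f z + (L : ℤ) ∈ cls β α (x + L)
        rw [← α.per]
        exact cls_closed_right β α hz
    exact h1 hy

end

end CY
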