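import Pool.Agent.Lib.MP_216314_pr.Z.NDef

/-!
# Loops and regions

`Reg α g g'`: no arc of `α` separates the gaps `g` and `g'` (the gap `g` is between the sites `g-1` and `g`).
`gcls β α g`: the class of the gap `g` for the equivalence generated by the regions of `β` and the regions of `α`.

(1) parity: for a finite class `C` of sites and `Reg α g g'` (`g ≤ g'`): `C ∩ [g, g')` is closed under `α` (an arc from inside to
outside of `[g, g')` would separate), so it has an even number of elements (fixed point free involution).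
(2) `N_g = 0` if `gcls g` is infinite: a finite class `C` with odd parity at `g` has odd parity at all gaps of `gcls g`; but at
gaps to the left of `C` the parity is `0` and to the right it is `|C|`, which is even; so `gcls g` is contained in an interval.
(3) if `K = gcls g` is finite, let `m` be its least element, `s = m - 1`. `α s > s`: otherwise with `t = α s < s` the gaps `t` and
`m = s + 1` are not separated (the arc `(t, s)` contains neither; any other arc containing exactly one of them would cross it), so
`t ∈ K`, contradiction. The same for `β`. For every site `y` of the class `C` of `s`: `y ∈ C` implies `y + 1 ∈ K` or `y ∈ K` (as gaps):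
if `y + 1 ∈ K` and `t = α y`: if `t > y` then `Reg α (y+1) t`, so the gap `t ∈ K`; if `t < y` then `Reg α (y+1) t` again (both outside of
the arc, adjacent to its ends), `t ∈ K`; if `y ∈ K` (gap `y`) then with `t = α y`: `Reg α y (t+1)` in both cases. Hence `C` is finite and
all its elements are `≥ m - 1 = s`, so `|C ∩ (-∞, m)| = 1`, and the parity is constant on `K ∋ g`: `C ∈ loopsAt g`.
-/

set_option autoImplicit false

noncomputable section

namespace CY

open Finset

/-- no arc of `α` separates the gaps `g` and `g'` -/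
def Reg {L : ℕ} (α : Pat L) (g g' : ℤ) : Prop := ∀ x, (x < g ∧ g ≤ α.f x) ↔ (x < g' ∧ g' ≤ α.f x)

/-- the class of the gap `g` -/
def gcls {L : ℕ} (β α : Pat L) (g : ℤ) : Set ℤ :=
  {g' | Relation.ReflTransGen (fun a b => Reg β a b ∨ Reg α a b) g g'}

section

variable {L : ℕ} (β α : Pat L)

theorem reg_symm {g g' : ℤ} (h : Reg α g g') : Reg α g' g := fun x => (h x).symm

/-- the two gaps inside of an arc and adjacent to its ends -/
theorem reg_inside (x : ℤ) (h : x < α.f x) : Reg α (x + 1) (α.f x) := by
  intro z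
  constructor
  · rintro ⟨h1, h2⟩
    rcases lt_or_eq_of_le (show z ≤ x by omega) with h3 | h3
    · have h4 := α.nc z x h3 (by omega)
      exact ⟨by omega, by omega⟩
    · subst h3
      exact ⟨h, le_rfl⟩
  · rintro ⟨h1, h2⟩
    rcases lt_or_eq_of_le h2 with h3 | h3
    · have h4 := α.nc z (α.f x) h1 h3
      rw [α.inv x] at h4
      exact ⟨by omega, by omega⟩
    · have h4 : x = z := by
        have := congrArg α.f h3
        rwa [α.inv, α.inv] at this
      subst h4
      exact ⟨by omega, by omega⟩

/-- the two gaps outside of an arc and adjacent to its ends -/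
theorem reg_outside (x : ℤ) (h : x < α.f x) : Reg α x (α.f x + 1) := by
  intro z
  constructor
  · rintro ⟨h1, h2⟩
    have h0 : x ≠ α.f z := by
      intro h3
      have := congrArg α.f h3
      rw [α.inv] at this
      omega
    have h4 := α.nc z x h1 (lt_of_le_of_ne h2 h0)
    exact ⟨by omega, by omega⟩
  · rintro ⟨h1, h2⟩
    have h0 : z ≠ α.f x := by
      intro h3
      subst h3
      rw [α.inv] at h2
      omega
    have h4 := α.nc z (α.f x) (by omega) (by omega)
    rw [α.inv x] at h4
    exact ⟨by omega, by omega⟩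

theorem even_card {C : Set ℤ} (hC : C.Finite) (h : ∀ y ∈ C, α.f y ∈ C) : Even C.ncard := by
  classical
  have hm : ∀ y, y ∈ hC.toFinset ↔ y ∈ C := fun y => by simp
  have h1 : ∑ _x ∈ hC.toFinset, (1 : ZMod 2) = 0 := by
    refine Finset.sum_involution (fun a _ => α.f a) ?_ ?_ ?_ ?_
    · intro a _
      decide
    · intro a _ _
      exact α.ne a
    · intro a ha
      exact (hm _).2 (h a ((hm a).1 ha))
    · intro a _
      exact α.inv a
  rw [Finset.sum_const, nsmul_eq_mul, mul_one] at h1
  rw [Set.ncard_eq_toFinset_card C hC]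
  exact (ZMod.natCast_eq_zero_iff_even).1 h1

theorem NKa_parity_le {C : Set ℤ} (hC : C.Finite) (h : ∀ y ∈ C, α.f y ∈ C) {g g' : ℤ} (hg : Reg α g g')
    (hle : g ≤ g') : Odd (C ∩ Set.Iio g).ncard ↔ Odd (C ∩ Set.Iio g').ncard := by
  have h1 : C ∩ Set.Iio g' = (C ∩ Set.Iio g) ∪ (C ∩ Set.Ico g g') := by
    ext y
    simp only [Set.mem_inter_iff, Set.mem_Iio, Set.mem_union, Set.mem_Ico]
    constructor
    · rintro ⟨hy, hy2⟩
      rcases lt_or_ge y g with h3 | h3
      · exact Or.inl ⟨hy, h3⟩
      · exact Or.inr ⟨hy, h3, hy2⟩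
    · rintro (⟨hy, hy2⟩ | ⟨hy, hy2, hy3⟩)
      · exact ⟨hy, by omega⟩
      · exact ⟨hy, hy3⟩
  have hd : Disjoint (C ∩ Set.Iio g) (C ∩ Set.Ico g g') := by
    rw [Set.disjoint_left]
    rintro y ⟨_, hy⟩ ⟨_, hy2⟩
    simp only [Set.mem_Iio, Set.mem_Ico] at hy hy2
    omega
  have hev : Even (C ∩ Set.Ico g g').ncard := by
    refine even_card α (hC.subset Set.inter_subset_left) ?_
    rintro y ⟨hy, hy2⟩
    simp only [Set.mem_Ico] at hy2
    refine ⟨h y hy, ?_⟩
    simp only [Set.mem_Ico]
    constructor
    · by_contra h3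
      have h4 := (hg (α.f y)).1 ⟨by omega, by rw [α.inv]; omega⟩
      rw [α.inv] at h4
      omega
    · by_contra h3
      have h4 := (hg y).2 ⟨by omega, by omega⟩
      omega
  rw [h1, Set.ncard_union_eq hd (hC.subset Set.inter_subset_left) (hC.subset Set.inter_subset_left)]
  rw [Nat.odd_add]
  exact ⟨fun _ => by tauto, fun _ => by tauto⟩

/-- parity on regions -/
theorem parity_reg {C : Set ℤ} (hC : C.Finite) (h : ∀ y ∈ C, α.f y ∈ C) {g g' : ℤ} (hg : Reg α g g') :
    Odd (C ∩ Set.Iio g).ncard ↔ Odd (C ∩ Set.Iio g').ncard := by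
  rcases le_total g g' with hle | hle
  · exact NKa_parity_le α hC h hg hle
  · exact (NKa_parity_le α hC h (reg_symm α hg) hle).symm

theorem parity_gcls {C : Set ℤ} (hC : C.Finite) (h : ∀ y ∈ C, α.f y ∈ C) (h' : ∀ y ∈ C, β.f y ∈ C)
    {g g' : ℤ} (hg : g' ∈ gcls β α g) : Odd (C ∩ Set.Iio g).ncard ↔ Odd (C ∩ Set.Iio g').ncard := by
  have hg' : Relation.ReflTransGen (fun a b => Reg β a b ∨ Reg α a b) g g' := hg
  induction hg' with
  | refl => exact Iff.rfl
  | tail h1 h2 ih =>
    refine (ih h1).trans ?_
    rcases h2 with h2 | h2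
    · exact parity_reg β hC h' h2
    · exact parity_reg α hC h h2

end

end CY
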