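import Pool.Agent.Lib.MP_216314_pr.Z.NKa
import Pool.Agent.Lib.MP_216314_pr.Z.NFin

/-!
# Parity of the number of loops around the two sides of a strand

(1) For a finite class `C` and a site `y ∉ C`: the parity of `|C ∩ (-∞, y)|` is the same for `y` and `α y` (the set `C ∩ (y, α y)` is
closed under `α` by noncrossing), and for `y` and `β y`; so it is constant on the class of `y`. If the class of `0` is infinite, it is
unbounded, and far away the parity is even; so no loop surrounds the gap `0` or the gap `1`.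
(2) If the class `C₀` of the site `0` is finite: for the classes `C ≠ C₀` the sets `C ∩ Iio 0` and `C ∩ Iio 1` are equal; for `C₀` the
cardinality changes by one.
-/

set_option autoImplicit false

noncomputable section

namespace CY

open Finset

section

variable {L : ℕ} (β α : Pat L)

private theorem NP_Iio_succ {C : Set ℤ} {y : ℤ} (hy : y ∉ C) : C ∩ Set.Iio (y + 1) = C ∩ Set.Iio y := by
  ext z
  simp only [Set.mem_inter_iff, Set.mem_Iio]
  constructor
  · rintro ⟨h1, h2⟩
    refine ⟨h1, ?_⟩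
    have : z ≠ y := fun h => hy (h ▸ h1)
    omega
  · rintro ⟨h1, h2⟩
    exact ⟨h1, by omega⟩

theorem parity_site {C : Set ℤ} (hC : C.Finite) (h : ∀ y ∈ C, α.f y ∈ C) {y : ℤ} (hy : y ∉ C) :
    Odd (C ∩ Set.Iio y).ncard ↔ Odd (C ∩ Set.Iio (α.f y)).ncard := by
  have hay : α.f y ∉ C := fun h' => hy (by
    have := h _ h'
    rwa [α.inv] at this)
  rcases lt_or_gt_of_ne (α.ne y) with hlt | hlt
  · -- α y < y
    have h1 := reg_inside α (α.f y) (by rw [α.inv]; exact hlt)
    rw [α.inv] at h1
    have h2 := parity_reg α hC h h1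
    rw [NP_Iio_succ hay] at h2
    exact h2.symm
  · have h1 := reg_inside α y hlt
    have h2 := parity_reg α hC h h1
    rw [NP_Iio_succ hy] at h2
    exact h2

private theorem NP_cls_parity {C : Set ℤ} (hC : C.Finite) (h : ∀ y ∈ C, α.f y ∈ C) (h' : ∀ y ∈ C, β.f y ∈ C)
    {x : ℤ} (hx : x ∉ C) {y : ℤ} (hy : y ∈ cls β α x) :
    y ∉ C ∧ (Odd (C ∩ Set.Iio x).ncard ↔ Odd (C ∩ Set.Iio y).ncard) := by
  have hcl : cls β α x ⊆ {y | y ∉ C ∧ (Odd (C ∩ Set.Iio x).ncard ↔ Odd (C ∩ Set.Iio y).ncard)} := by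
    apply cls_subset β α
    · exact ⟨hx, Iff.rfl⟩
    · rintro y ⟨h1, h2⟩
      refine ⟨fun h3 => h1 ?_, h2.trans (parity_site β hC h' h1)⟩
      have := h' _ h3
      rwa [β.inv] at this
    · rintro y ⟨h1, h2⟩
      refine ⟨fun h3 => h1 ?_, h2.trans (parity_site α hC h h1)⟩
      have := h _ h3
      rwa [α.inv] at this
  exact hcl hy

private theorem NP_closed {C : Set ℤ} (z : ℤ) (hz : C = cls β α z) :
    (∀ y ∈ C, α.f y ∈ C) ∧ (∀ y ∈ C, β.f y ∈ C) := by
  subst hz
  exact ⟨fun y hy => cls_closed_right β α hy, fun y hy => cls_closed_left β α hy⟩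

private theorem NP_not_odd {x : ℤ} (hinf : (cls β α x).Infinite) {C : Set ℤ} (z : ℤ) (hz : C = cls β α z)
    (hC : C.Finite) : x ∉ C ∧ ¬ Odd (C ∩ Set.Iio x).ncard := by
  have hx : x ∉ C := by
    intro hx
    rw [hz] at hx
    have := cls_eq β α hx
    rw [this] at hinf
    rw [hz] at hC
    exact hinf hC
  refine ⟨hx, ?_⟩
  obtain ⟨h, h'⟩ := NP_closed β α z hz
  obtain ⟨a, ha⟩ := hC.bddBelow
  obtain ⟨b, hb⟩ := hC.bddAbove
  have : ∃ y ∈ cls β α x, y ∉ Set.Icc a b := by
    by_contra hcon
    push Not at hcon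
    exact hinf ((Set.finite_Icc a b).subset hcon)
  obtain ⟨y, hy, hyab⟩ := this
  rw [(NP_cls_parity β α hC h h' hx hy).2]
  rw [Set.mem_Icc, not_and_or, not_le, not_le] at hyab
  rcases hyab with hya | hyb
  · have : C ∩ Set.Iio y = ∅ := by
      ext t
      simp only [Set.mem_inter_iff, Set.mem_Iio, Set.mem_empty_iff_false, iff_false, not_and, not_lt]
      intro ht
      exact le_trans hya.le (ha ht)
    rw [this, Set.ncard_empty]
    decide
  · have : C ∩ Set.Iio y = C := by
      ext t
      simp only [Set.mem_inter_iff, Set.mem_Iio, and_iff_left_iff_imp]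
      intro ht
      exact lt_of_le_of_lt (hb ht) hyb
    rw [this, Nat.not_odd_iff_even]
    exact even_card α hC h

/-- an infinite class is unbounded, hence outside of every loop -/
theorem NAt_of_infinite {x : ℤ} (h : (cls β α x).Infinite) : NAt x β α = 0 ∧ NAt (x + 1) β α = 0 := by
  have h0 : loopsAt x β α = ∅ := by
    ext C
    simp only [Set.mem_empty_iff_false, iff_false]
    rintro ⟨z, hz, hC, hodd⟩
    exact (NP_not_odd β α h z hz hC).2 hodd
  have h1 : loopsAt (x + 1) β α = ∅ := by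
    ext C
    simp only [Set.mem_empty_iff_false, iff_false]
    rintro ⟨z, hz, hC, hodd⟩
    have h2 := NP_not_odd β α h z hz hC
    rw [NP_Iio_succ h2.1] at hodd
    exact h2.2 hodd
  unfold NAt
  rw [h0, h1, Set.ncard_empty]
  exact ⟨rfl, rfl⟩

theorem NAt_succ_of_finite {x : ℤ} (h : (cls β α x).Finite) :
    NAt (x + 1) β α = NAt x β α + 1 ∨ NAt x β α = NAt (x + 1) β α + 1 := by
  set C₀ := cls β α x with hC₀
  have hx : x ∈ C₀ := mem_cls_self β α x
  have hcard : (C₀ ∩ Set.Iio (x + 1)).ncard = (C₀ ∩ Set.Iio x).ncard + 1 := by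
    have e : C₀ ∩ Set.Iio (x + 1) = insert x (C₀ ∩ Set.Iio x) := by
      ext z
      simp only [Set.mem_inter_iff, Set.mem_Iio, Set.mem_insert_iff]
      constructor
      · rintro ⟨h1, h2⟩
        rcases eq_or_ne z x with h3 | h3
        · exact Or.inl h3
        · exact Or.inr ⟨h1, by omega⟩
      · rintro (h1 | ⟨h1, h2⟩)
        · subst h1
          exact ⟨hx, by omega⟩
        · exact ⟨h1, by omega⟩
    rw [e]
    apply Set.ncard_insert_of_notMem
    · simp
    · exact h.subset Set.inter_subset_left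
  have hne : ∀ C, C ≠ C₀ → (C ∈ loopsAt (x + 1) β α ↔ C ∈ loopsAt x β α) := by
    intro C hC
    have aux : ∀ z, C = cls β α z → x ∉ C := by
      intro z hz hxC
      apply hC
      rw [hz] at hxC ⊢
      rw [hC₀]
      exact (cls_eq β α hxC).symm
    constructor
    · rintro ⟨z, hz, hf, hodd⟩
      rw [NP_Iio_succ (aux z hz)] at hodd
      exact ⟨z, hz, hf, hodd⟩
    · rintro ⟨z, hz, hf, hodd⟩
      refine ⟨z, hz, hf, ?_⟩
      rw [NP_Iio_succ (aux z hz)]
      exact hodd
  have hm : ∀ g, C₀ ∈ loopsAt g β α ↔ Odd (C₀ ∩ Set.Iio g).ncard := by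
    intro g
    constructor
    · rintro ⟨z, _, _, hodd⟩
      exact hodd
    · intro hodd
      exact ⟨x, rfl, h, hodd⟩
  by_cases hodd : Odd (C₀ ∩ Set.Iio x).ncard
  · right
    have hn : C₀ ∉ loopsAt (x + 1) β α := by
      rw [hm, hcard, Nat.not_odd_iff_even]
      exact hodd.add_one
    have e : loopsAt x β α = insert C₀ (loopsAt (x + 1) β α) := by
      ext C
      rw [Set.mem_insert_iff]
      by_cases hC : C = C₀
      · subst hC
        simp [hm, hodd]
      · simp [hC, hne C hC]
    unfold NAt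
    rw [e, Set.ncard_insert_of_notMem hn (loopsAt_finite β α _)]
  · left
    have hn : C₀ ∉ loopsAt x β α := by
      rw [hm]
      exact hodd
    have hodd' : Odd (C₀ ∩ Set.Iio (x + 1)).ncard := by
      rw [hcard]
      rw [Nat.not_odd_iff_even] at hodd
      exact hodd.add_one
    have e : loopsAt (x + 1) β α = insert C₀ (loopsAt x β α) := by
      ext C
      rw [Set.mem_insert_iff]
      by_cases hC : C = C₀
      · subst hC
        simp [hm, hodd']
      · simp [hC, hne C hC]
    unfold NAt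
    rw [e, Set.ncard_insert_of_notMem hn (loopsAt_finite β α _)]

open Classical in
/-- the sign rule -/
theorem sign_rule (x : ℤ) : ((-1 : ℂ)) ^ NAt x β α + (-1) ^ NAt (x + 1) β α =
    if (cls β α x).Infinite then 2 else 0 := by
  by_cases h : (cls β α x).Infinite
  · rw [if_pos h, (NAt_of_infinite β α h).1, (NAt_of_infinite β α h).2]
    norm_num
  · rw [if_neg h]
    rcases NAt_succ_of_finite β α (Set.not_infinite.1 h) with h1 | h1
    · rw [h1, pow_succ]
      ring
    · rw [h1, pow_succ]
      ring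

end

end CY
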