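import Pool.Agent.Lib.MP_216314_pr.Z.ZDef

/-!
# Elementary properties of patterns; finiteness
-/

set_option autoImplicit false

noncomputable section

namespace CY

open Finset

namespace Pat

variable {L : ℕ} (α : Pat L)

theorem per_mul (x k : ℤ) : α.f (x + k * L) = α.f x + k * L := by
  induction k using Int.induction_on with
  | zero => simp
  | succ k ih =>
    have h1 := α.per (x + k * L)
    have e : x + ((k : ℤ) + 1) * L = x + k * L + L := by ring
    rw [e, h1, ih]
    ring
  | pred k ih =>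
    have h1 := α.per (x + (-(k : ℤ) - 1) * L)
    have e : x + (-(k : ℤ) - 1) * L + L = x + -(k : ℤ) * L := by ring
    rw [e, ih] at h1
    linarith

theorem per_sub (x : ℤ) : α.f (x - L) = α.f x - L := by
  have h := α.per_mul x (-1)
  have e : x + -1 * (L : ℤ) = x - L := by ring
  rw [e] at h
  rw [h]
  ring

theorem inj {x y : ℤ} (h : α.f x = α.f y) : x = y := by
  have h1 := congrArg α.f h
  rwa [α.inv, α.inv] at h1

private theorem PatA_lt (x : ℤ) : α.f x < x + L := by
  have hL : (0 : ℤ) < L := by exact_mod_cast α.pos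
  by_contra hc
  rcases lt_or_eq_of_le (not_lt.mp hc) with h1 | h1
  · have h2 := α.nc x (x + L) (by linarith) h1
    rw [α.per] at h2
    linarith [h2.2]
  · have h2 := α.inv x
    rw [← h1, α.per, ← h1] at h2
    linarith

/-- arcs are shorter than the period -/
theorem lt_per (x : ℤ) : |α.f x - x| < L := by
  have h1 := α.PatA_lt x
  have h2 := α.PatA_lt (α.f x)
  rw [α.inv] at h2
  rw [abs_lt]
  constructor <;> linarith

private theorem PatA_even (s : Finset ℤ) (g : ℤ → ℤ) (h1 : ∀ x ∈ s, g x ∈ s)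
    (h2 : ∀ x ∈ s, g (g x) = x) (h3 : ∀ x ∈ s, g x ≠ x) : Even s.card := by
  have h4 : ∑ _x ∈ s, (1 : ZMod 2) = 0 := by
    refine Finset.sum_involution (fun a _ => g a) ?_ ?_ ?_ ?_
    · intro a _
      decide
    · intro a ha _
      exact h3 a ha
    · intro a ha
      exact h1 a ha
    · intro a ha
      exact h2 a ha
  rw [Finset.sum_const, nsmul_eq_mul, mul_one] at h4
  have h5 : 2 ∣ s.card := (ZMod.natCast_eq_zero_iff _ 2).1 h4
  exact (even_iff_two_dvd).2 h5

theorem even (α : Pat L) : Even L := by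
  have hL : (0 : ℤ) < L := by exact_mod_cast α.pos
  have hL0 : (L : ℤ) ≠ 0 := by omega
  have h := PatA_even (Ico (0 : ℤ) L) (fun x => α.f x % L) ?_ ?_ ?_
  · rw [Int.card_Ico, sub_zero, Int.toNat_natCast] at h
    exact h
  · intro x _
    rw [Finset.mem_Ico]
    exact ⟨Int.emod_nonneg _ hL0, Int.emod_lt_of_pos _ hL⟩
  · intro x hx
    rw [Finset.mem_Ico] at hx
    have e : α.f x % L = α.f x + (-(α.f x / L)) * L := by
      have h1 := Int.emod_add_mul_ediv (α.f x) L
      linarith
    show α.f (α.f x % L) % L = x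
    have h2 : α.f (α.f x % L) = x + (-(α.f x / L)) * L := by
      rw [e, α.per_mul, α.inv]
    rw [h2, Int.add_mul_emod_self_right]
    exact Int.emod_eq_of_lt hx.1 hx.2
  · intro x hx h0
    rw [Finset.mem_Ico] at hx
    have h1 : (L : ℤ) ∣ α.f x - x := by
      refine ⟨α.f x / L, ?_⟩
      have h1 := Int.emod_add_mul_ediv (α.f x) L
      have h0' : α.f x % L = x := h0
      linarith
    have h2 := α.lt_per x
    have h3 := Int.eq_zero_of_abs_lt_dvd h1 h2
    exact α.ne x (by linarith)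

theorem two_le (α : Pat L) : 2 ≤ L := by
  have h1 := α.pos
  obtain ⟨k, hk⟩ := α.even
  omega

private theorem PatA_par (x : ℤ) (h : x < α.f x) : Odd (α.f x - x) := by
  have h1 := PatA_even (Ioo x (α.f x)) α.f
    (fun y hy => by
      rw [Finset.mem_Ioo] at hy ⊢
      exact α.nc x y hy.1 hy.2)
    (fun y _ => α.inv y) (fun y _ => α.ne y)
  rw [Int.card_Ioo] at h1
  obtain ⟨k, hk⟩ := h1
  refine ⟨k, ?_⟩
  omega

/-- the partner has the other parity -/
theorem parity (x : ℤ) : Odd (α.f x - x) := by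
  rcases lt_or_gt_of_ne (α.ne x) with h | h
  · have h1 := α.PatA_par (α.f x) (by rw [α.inv]; exact h)
    rw [α.inv] at h1
    obtain ⟨k, hk⟩ := h1
    exact ⟨-k - 1, by omega⟩
  · exact α.PatA_par x h

end Pat

instance (L : ℕ) : Finite (Pat L) := by
  have hb : ∀ (α : Pat L) (i : Fin L), (α.f ((i : ℕ) : ℤ) - ((i : ℕ) : ℤ) + L).toNat < 2 * L := by
    intro α i
    have h1 := abs_lt.1 (α.lt_per ((i : ℕ) : ℤ))
    omega
  refine Finite.of_injective (fun (α : Pat L) (i : Fin L) =>
    (⟨(α.f ((i : ℕ) : ℤ) - ((i : ℕ) : ℤ) + L).toNat, hb α i⟩ : Fin (2 * L))) ?_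
  intro α β hab
  apply Pat.ext
  funext x
  have hL : (0 : ℤ) < L := by exact_mod_cast α.pos
  have hL0 : (L : ℤ) ≠ 0 := by omega
  have h0 : 0 ≤ x % L := Int.emod_nonneg _ hL0
  have h1 : x % L < L := Int.emod_lt_of_pos _ hL
  have hi : (x % L).toNat < L := by omega
  have h2 : (α.f (((x % L).toNat : ℕ) : ℤ) - (((x % L).toNat : ℕ) : ℤ) + L).toNat =
      (β.f (((x % L).toNat : ℕ) : ℤ) - (((x % L).toNat : ℕ) : ℤ) + L).toNat :=
    congrArg Fin.val (congrFun hab ⟨(x % L).toNat, hi⟩)
  rw [Int.toNat_of_nonneg h0] at h2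
  have h3 := abs_lt.1 (α.lt_per (x % L))
  have h4 := abs_lt.1 (β.lt_per (x % L))
  have h5 : α.f (x % L) = β.f (x % L) := by omega
  have h6 : x % L + (x / L) * L = x := by
    have h7 := Int.emod_add_mul_ediv x L
    linarith
  have e1 := α.per_mul (x % L) (x / L)
  have e2 := β.per_mul (x % L) (x / L)
  rw [h6] at e1 e2
  rw [e1, e2, h5]

instance (L : ℕ) : Fintype (Pat L) := Fintype.ofFinite _

instance (L : ℕ) : DecidableEq (Pat L) := Classical.decEq _

end CY
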