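import Pool.Agent.Lib.MP_216314_pr.Z.PatA

/-!
# The monoids `e i` acting on patterns: involution, periodicity, no fixed points

Write `R` for the sites congruent to `i` or `i+1`. If `α x ∈ R` for an `x ∈ R` then `α` maps `R` to `R`: by periodicity it is
enough to treat `α i` and `α (i+1)`: `α i ≡ i` is impossible (`α i = i + k L` gives `i = α (α i) = i + 2 k L`, `k = 0`, no fixed points), so
`α i ≡ i + 1` and then `α (i+1) ≡ i`. Hence for `x ∉ R` with `α x = u ∈ R`, the partner `v = u ± 1` of `u` in `R` has `α v ∉ R`, and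
`eFun x = α v`, `eFun (α v) = x`.
-/

set_option autoImplicit false

noncomputable section

namespace CY

open Finset

namespace Pat

variable {L : ℕ} (α : Pat L)

theorem PatEa_shift {x y : ℤ} (h : (L : ℤ) ∣ x - y) : α.f x = α.f y + (x - y) := by
  obtain ⟨k, hk⟩ := h
  have h1 := α.per_mul y k
  have h2 : y + k * L = x := by linarith [mul_comm (L : ℤ) k]
  rw [h2] at h1
  rw [h1]
  linarith [mul_comm (L : ℤ) k]

theorem not_dvd_self (x : ℤ) : ¬ (L : ℤ) ∣ α.f x - x := by
  intro h
  have h1 := α.PatEa_shift h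
  rw [α.inv x] at h1
  exact α.ne x (by linarith)

theorem PatEa_not_dvd_one (α : Pat L) : ¬ (L : ℤ) ∣ 1 := by
  intro h
  have h2 := two_le α
  have h3 := Int.le_of_dvd one_pos h
  omega

theorem eFun_inv (i x : ℤ) : eFun L i α.f (eFun L i α.f x) = x := by
  have h1 := PatEa_not_dvd_one α
  by_cases c1 : (L : ℤ) ∣ x - i
  · have e : eFun L i α.f x = x + 1 := by simp only [eFun, if_pos c1]
    have c2 : ¬ (L : ℤ) ∣ (x + 1) - i := fun h => h1 (by
      have := dvd_sub h c1
      have h3 : x + 1 - i - (x - i) = 1 := by ring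
      rwa [h3] at this)
    have c3 : (L : ℤ) ∣ (x + 1) - i - 1 := by
      have h3 : x + 1 - i - 1 = x - i := by ring
      rwa [h3]
    rw [e]
    simp only [eFun, if_neg c2, if_pos c3]
    ring
  by_cases c2 : (L : ℤ) ∣ x - i - 1
  · have e : eFun L i α.f x = x - 1 := by simp only [eFun, if_neg c1, if_pos c2]
    have c3 : (L : ℤ) ∣ (x - 1) - i := by
      have h3 : x - 1 - i = x - i - 1 := by ring
      rwa [h3]
    rw [e]
    simp only [eFun, if_pos c3]
    ring
  by_cases c3 : (L : ℤ) ∣ α.f x - i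
  · have e : eFun L i α.f x = α.f (α.f x + 1) := by simp only [eFun, if_neg c1, if_neg c2, if_pos c3]
    rw [e]
    have hy : α.f (α.f (α.f x + 1)) = α.f x + 1 := α.inv _
    have d1 : ¬ (L : ℤ) ∣ α.f (α.f x + 1) - i := by
      intro h
      have h3 : (L : ℤ) ∣ α.f x - α.f (α.f x + 1) := by
        have := dvd_sub c3 h
        have h4 : α.f x - i - (α.f (α.f x + 1) - i) = α.f x - α.f (α.f x + 1) := by ring
        rwa [h4] at this
      have h4 := α.PatEa_shift h3
      rw [α.inv, hy] at h4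
      apply c2
      have h5 : x - i - 1 = (α.f x - i) + (α.f x - α.f (α.f x + 1)) := by linarith
      rw [h5]
      exact dvd_add c3 h3
    have d2 : ¬ (L : ℤ) ∣ α.f (α.f x + 1) - i - 1 := by
      intro h
      apply α.not_dvd_self (α.f x + 1)
      have := dvd_sub h c3
      have h4 : α.f (α.f x + 1) - i - 1 - (α.f x - i) = α.f (α.f x + 1) - (α.f x + 1) := by ring
      rwa [h4] at this
    have d3 : ¬ (L : ℤ) ∣ α.f (α.f (α.f x + 1)) - i := by
      rw [hy]
      intro h
      apply h1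
      have := dvd_sub h c3
      have h4 : α.f x + 1 - i - (α.f x - i) = 1 := by ring
      rwa [h4] at this
    have d4 : (L : ℤ) ∣ α.f (α.f (α.f x + 1)) - i - 1 := by
      rw [hy]
      have h4 : α.f x + 1 - i - 1 = α.f x - i := by ring
      rwa [h4]
    have e2 : eFun L i α.f (α.f (α.f x + 1)) = α.f (α.f (α.f (α.f x + 1)) - 1) := by
      simp only [eFun, if_neg d1, if_neg d2, if_neg d3, if_pos d4]
    rw [e2, hy]
    have h6 : α.f x + 1 - 1 = α.f x := by ring
    rw [h6, α.inv]
  by_cases c4 : (L : ℤ) ∣ α.f x - i - 1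
  · have e : eFun L i α.f x = α.f (α.f x - 1) := by
      simp only [eFun, if_neg c1, if_neg c2, if_neg c3, if_pos c4]
    rw [e]
    have hy : α.f (α.f (α.f x - 1)) = α.f x - 1 := α.inv _
    have d1 : ¬ (L : ℤ) ∣ α.f (α.f x - 1) - i := by
      intro h
      apply α.not_dvd_self (α.f x - 1)
      have := dvd_sub h c4
      have h4 : α.f (α.f x - 1) - i - (α.f x - i - 1) = α.f (α.f x - 1) - (α.f x - 1) := by ring
      rwa [h4] at this
    have d2 : ¬ (L : ℤ) ∣ α.f (α.f x - 1) - i - 1 := by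
      intro h
      have h3 : (L : ℤ) ∣ α.f x - α.f (α.f x - 1) := by
        have := dvd_sub c4 h
        have h4 : α.f x - i - 1 - (α.f (α.f x - 1) - i - 1) = α.f x - α.f (α.f x - 1) := by ring
        rwa [h4] at this
      have h4 := α.PatEa_shift h3
      rw [α.inv, hy] at h4
      apply c1
      have h5 : x - i = (α.f x - i - 1) + (α.f x - α.f (α.f x - 1)) := by linarith
      rw [h5]
      exact dvd_add c4 h3
    have d3 : (L : ℤ) ∣ α.f (α.f (α.f x - 1)) - i := by
      rw [hy]
      have h4 : α.f x - 1 - i = α.f x - i - 1 := by ring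
      rwa [h4]
    have e2 : eFun L i α.f (α.f (α.f x - 1)) = α.f (α.f (α.f (α.f x - 1)) + 1) := by
      simp only [eFun, if_neg d1, if_neg d2, if_pos d3]
    rw [e2, hy]
    have h6 : α.f x - 1 + 1 = α.f x := by ring
    rw [h6, α.inv]
  · have e : eFun L i α.f x = α.f x := by
      simp only [eFun, if_neg c1, if_neg c2, if_neg c3, if_neg c4]
    rw [e]
    have h5 : α.f (α.f x) = x := α.inv x
    have d1 : ¬ (L : ℤ) ∣ α.f (α.f x) - i := by rwa [h5]
    have d2 : ¬ (L : ℤ) ∣ α.f (α.f x) - i - 1 := by rwa [h5]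
    have e2 : eFun L i α.f (α.f x) = α.f (α.f x) := by
      simp only [eFun, if_neg c3, if_neg c4, if_neg d1, if_neg d2]
    rw [e2, h5]

theorem PatEa_dvd_add (x i : ℤ) : (L : ℤ) ∣ (x + L) - i ↔ (L : ℤ) ∣ x - i := by
  have h : x + L - i = (x - i) + L := by ring
  rw [h]
  exact dvd_add_self_right

theorem PatEa_dvd_add1 (x i : ℤ) : (L : ℤ) ∣ (x + L) - i - 1 ↔ (L : ℤ) ∣ x - i - 1 := by
  have h : x + L - i - 1 = (x - i - 1) + L := by ring
  rw [h]
  exact dvd_add_self_right

theorem eFun_per (i x : ℤ) : eFun L i α.f (x + L) = eFun L i α.f x + L := by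
  unfold eFun
  rw [α.per x]
  simp only [PatEa_dvd_add, PatEa_dvd_add1]
  by_cases c1 : (L : ℤ) ∣ x - i
  · simp only [if_pos c1]; ring
  by_cases c2 : (L : ℤ) ∣ x - i - 1
  · simp only [if_neg c1, if_pos c2]; ring
  by_cases c3 : (L : ℤ) ∣ α.f x - i
  · simp only [if_neg c1, if_neg c2, if_pos c3]
    have h : α.f x + L + 1 = (α.f x + 1) + L := by ring
    rw [h, α.per]
  by_cases c4 : (L : ℤ) ∣ α.f x - i - 1
  · simp only [if_neg c1, if_neg c2, if_neg c3, if_pos c4]
    have h : α.f x + L - 1 = (α.f x - 1) + L := by ring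
    rw [h, α.per]
  · simp only [if_neg c1, if_neg c2, if_neg c3, if_neg c4]

theorem eFun_ne (i x : ℤ) : eFun L i α.f x ≠ x := by
  unfold eFun
  by_cases c1 : (L : ℤ) ∣ x - i
  · simp only [if_pos c1]; omega
  by_cases c2 : (L : ℤ) ∣ x - i - 1
  · simp only [if_neg c1, if_pos c2]; omega
  by_cases c3 : (L : ℤ) ∣ α.f x - i
  · simp only [if_neg c1, if_neg c2, if_pos c3]
    intro h
    have h2 := congrArg α.f h
    rw [α.inv] at h2
    omega
  by_cases c4 : (L : ℤ) ∣ α.f x - i - 1
  · simp only [if_neg c1, if_neg c2, if_neg c3, if_pos c4]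
    intro h
    have h2 := congrArg α.f h
    rw [α.inv] at h2
    omega
  · simp only [if_neg c1, if_neg c2, if_neg c3, if_neg c4]
    exact α.ne x

end Pat

end CY
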