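import Pool.Agent.Lib.MP_216314_pr.Z.PatA
import Pool.Agent.Lib.MP_216314_pr.Z.PatEa

/-!
# The monoids `e i` acting on patterns: noncrossing

Let `u ≡ i`, `v = u + 1`, `a = α u`, `b = α v`, and assume that `a`, `b` are not congruent to `i`, `i+1`. The new arc is `{a, b}`. By
noncrossing of `α` there are three cases: `a < u` and `v < b` (arcs side by side, new arc contains `u`, `v`); `b < a` and `v < b`
(arcs nested, `u < v < b < a`); `b < a < u` (nested on the left). In each case a site `y` strictly between the ends of the new arc which is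
not in `R` has its partner between the ends: use `nc` for the arcs `{a,u}` and `{b,v}` and `y`; if the partner of `y` is in `R`, say
`α y = u' ≡ i` or `v' ≡ i+1` then use the translated arcs. Also the arcs of `α` which do not meet `R`: a site `y` inside of such an arc
has partner inside; if `α y ∈ R` is inside then so is its neighbour in `R` (as the ends of the arc are not in `R`), and its partner.
`lt_per`: arcs are shorter than `L`.
-/

set_option autoImplicit false

noncomputable section

namespace CY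

open Finset

namespace Pat

variable {L : ℕ} (α : Pat L)

private theorem PatEb_cases (i x : ℤ) :
    eFun L i α.f x = x + 1 ∨ eFun L i α.f x = x - 1 ∨
    ((¬ (L : ℤ) ∣ x - i ∧ ¬ (L : ℤ) ∣ x - i - 1) ∧
      (((¬ (L : ℤ) ∣ α.f x - i ∧ ¬ (L : ℤ) ∣ α.f x - i - 1) ∧ eFun L i α.f x = α.f x) ∨
        ((L : ℤ) ∣ α.f x - i ∧ eFun L i α.f x = α.f (α.f x + 1)) ∨
        ((L : ℤ) ∣ α.f x - i - 1 ∧ eFun L i α.f x = α.f (α.f x - 1)))) := by
  unfold eFun
  by_cases h1 : (L : ℤ) ∣ x - i
  · left
    rw [if_pos h1]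
  by_cases h2 : (L : ℤ) ∣ x - i - 1
  · right
    left
    rw [if_neg h1, if_pos h2]
  right
  right
  refine ⟨⟨h1, h2⟩, ?_⟩
  by_cases h3 : (L : ℤ) ∣ α.f x - i
  · right
    left
    refine ⟨h3, ?_⟩
    rw [if_neg h1, if_neg h2, if_pos h3]
  by_cases h4 : (L : ℤ) ∣ α.f x - i - 1
  · right
    right
    refine ⟨h4, ?_⟩
    rw [if_neg h1, if_neg h2, if_neg h3, if_pos h4]
  left
  refine ⟨⟨h3, h4⟩, ?_⟩
  rw [if_neg h1, if_neg h2, if_neg h3, if_neg h4]

private theorem PatEb_in {x w w' : ℤ} (h1 : x < w) (h2 : w < α.f x) (h : w' = w + 1 ∨ w' = w - 1)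
    (n1 : w' ≠ x) (n2 : w' ≠ α.f x) : x < α.f w' ∧ α.f w' < α.f x :=
  α.nc x w' (by omega) (by omega)

private theorem PatEb_shortA (u : ℤ) (h : ¬ (L : ℤ) ∣ α.f u - (u + 1)) :
    α.f (u + 1) - α.f u < L := by
  have h1 := abs_lt.1 (α.lt_per u)
  have h2 := abs_lt.1 (α.lt_per (u + 1))
  have h3 := α.ne u
  have h4 := α.ne (u + 1)
  have h5 : (2 : ℤ) ≤ L := by exact_mod_cast α.two_le
  by_contra hc
  have h6 : α.f u + L ≠ u + 1 := by
    intro h7
    apply h
    refine ⟨-1, ?_⟩
    linarith
  have h8 : u + 1 < α.f u + L := by omega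
  have h9 : α.f (α.f u + L) = u + L := by rw [α.per, α.inv]
  have h10 : α.f u + L ≠ α.f (u + 1) := by
    intro h11
    rw [h11, α.inv] at h9
    omega
  have h12 := (α.nc (u + 1) (α.f u + L) h8 (by omega)).2
  rw [h9] at h12
  omega

private theorem PatEb_shortB (u : ℤ) :
    α.f u - α.f (u + 1) < L := by
  have h1 := abs_lt.1 (α.lt_per u)
  have h2 := abs_lt.1 (α.lt_per (u + 1))
  have h3 := α.ne u
  by_contra hc
  have h4 : u < α.f u := by omega
  have h5 : α.f (u + 1) < u := by omega
  have h6 := (α.nc (α.f (u + 1)) u h5 (by rw [α.inv]; omega)).2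
  rw [α.inv] at h6
  omega

private theorem PatEb_far {x g k : ℤ} (hL0 : 0 < L) (h : g - x < L) (h1 : x < x + k * L)
    (h2 : x + k * L < g) : False := by
  have hL : (0 : ℤ) < L := by exact_mod_cast hL0
  have h3 : 0 < k * L := by linarith
  have h4 : 0 < k := pos_of_mul_pos_left h3 hL.le
  have h5 : 1 * (L : ℤ) ≤ k * L := mul_le_mul_of_nonneg_right (by omega) hL.le
  omega

private theorem PatEb_mix {x g k : ℤ} (h0 : x < g + k * L) (h1 : g + k * L < g) (h2 : g < x + k * L) :
    False := by
  linarith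

private theorem PatEb_nx (i x y : ℤ) (h1 : x < y) (h2 : y < eFun L i α.f x)
    (h3 : eFun L i α.f x < eFun L i α.f y) : False := by
  rcases α.PatEb_cases i x with hx | hx | ⟨⟨hx1, hx2⟩, hx3⟩
  · omega
  · omega
  rcases α.PatEb_cases i y with hy | hy | ⟨⟨hy1, hy2⟩, hy3⟩
  · omega
  · omega
  rcases hx3 with ⟨⟨a1, a2⟩, ex⟩ | ⟨a1, ex⟩ | ⟨a1, ex⟩
  · rw [ex] at h2 h3
    rcases hy3 with ⟨-, ey⟩ | ⟨b1, ey⟩ | ⟨b1, ey⟩
    · rw [ey] at h3
      have := α.nc x y h1 h2
      omega
    · rw [ey] at h3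
      obtain ⟨c1, c2⟩ := α.nc x y h1 h2
      have b2 : (L : ℤ) ∣ α.f y + 1 - i - 1 := by
        have e : α.f y + 1 - i - 1 = α.f y - i := by ring
        rw [e]
        exact b1
      have := α.PatEb_in c1 c2 (Or.inl rfl) (fun h => hx2 (h ▸ b2)) (fun h => a2 (h ▸ b2))
      omega
    · rw [ey] at h3
      obtain ⟨c1, c2⟩ := α.nc x y h1 h2
      have b2 : (L : ℤ) ∣ α.f y - 1 - i := by
        have e : α.f y - 1 - i = α.f y - i - 1 := by ring
        rw [e]
        exact b1
      have := α.PatEb_in c1 c2 (Or.inr rfl) (fun h => hx1 (h ▸ b2)) (fun h => a1 (h ▸ b2))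
      omega
  · rcases hy3 with ⟨⟨b1, b2⟩, ey⟩ | ⟨b1, ey⟩ | ⟨b1, ey⟩
    · rw [ex] at h2 h3
      rw [ey] at h3
      obtain ⟨c1, c2⟩ := α.nc y _ h2 h3
      rw [α.inv] at c1 c2
      have := (α.PatEb_in c1 c2 (w' := α.f x) (Or.inr (by ring)) (fun h => hy1 (h ▸ a1))
        (fun h => b1 (h ▸ a1))).1
      rw [α.inv] at this
      omega
    · obtain ⟨k, hk⟩ : (L : ℤ) ∣ α.f y - α.f x := by
        have e : α.f y - α.f x = (α.f y - i) - (α.f x - i) := by ring
        rw [e]
        exact dvd_sub b1 a1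
      have e1 : α.f y = α.f x + k * L := by linarith
      have e2 : y = x + k * L := by
        have := congrArg α.f e1
        rw [α.inv, α.per_mul, α.inv] at this
        exact this
      have hs := α.PatEb_shortA (α.f x) (by
        rw [α.inv]
        intro h
        apply hx2
        have e : x - i - 1 = (x - (α.f x + 1)) + (α.f x - i) := by ring
        rw [e]
        exact dvd_add h a1)
      rw [α.inv, ← ex] at hs
      rw [e2] at h1 h2
      exact PatEb_far α.pos hs h1 h2
    · obtain ⟨k, hk⟩ : (L : ℤ) ∣ α.f y - (α.f x + 1) := by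
        have e : α.f y - (α.f x + 1) = (α.f y - i - 1) - (α.f x - i) := by ring
        rw [e]
        exact dvd_sub b1 a1
      have e1 : α.f y = α.f x + 1 + k * L := by linarith
      have e2 : y = eFun L i α.f x + k * L := by
        have := congrArg α.f e1
        rw [α.inv, α.per_mul, ← ex] at this
        exact this
      have e3 : eFun L i α.f y = x + k * L := by
        have e : α.f x + 1 + k * L - 1 = α.f x + k * L := by ring
        rw [ey, e1, e, α.per_mul, α.inv]
      rw [e3] at h3
      rw [e2] at h1 h2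
      exact PatEb_mix h1 h2 h3
  · rcases hy3 with ⟨⟨b1, b2⟩, ey⟩ | ⟨b1, ey⟩ | ⟨b1, ey⟩
    · rw [ex] at h2 h3
      rw [ey] at h3
      obtain ⟨c1, c2⟩ := α.nc y _ h2 h3
      rw [α.inv] at c1 c2
      have := (α.PatEb_in c1 c2 (w' := α.f x) (Or.inl (by ring)) (fun h => hy2 (h ▸ a1))
        (fun h => b2 (h ▸ a1))).1
      rw [α.inv] at this
      omega
    · obtain ⟨k, hk⟩ : (L : ℤ) ∣ α.f y - (α.f x - 1) := by
        have e : α.f y - (α.f x - 1) = (α.f y - i) - (α.f x - i - 1) := by ring
        rw [e]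
        exact dvd_sub b1 a1
      have e1 : α.f y = α.f x - 1 + k * L := by linarith
      have e2 : y = eFun L i α.f x + k * L := by
        have := congrArg α.f e1
        rw [α.inv, α.per_mul, ← ex] at this
        exact this
      have e3 : eFun L i α.f y = x + k * L := by
        have e : α.f x - 1 + k * L + 1 = α.f x + k * L := by ring
        rw [ey, e1, e, α.per_mul, α.inv]
      rw [e3] at h3
      rw [e2] at h1 h2
      exact PatEb_mix h1 h2 h3
    · obtain ⟨k, hk⟩ : (L : ℤ) ∣ α.f y - α.f x := by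
        have e : α.f y - α.f x = (α.f y - i - 1) - (α.f x - i - 1) := by ring
        rw [e]
        exact dvd_sub b1 a1
      have e1 : α.f y = α.f x + k * L := by linarith
      have e2 : y = x + k * L := by
        have := congrArg α.f e1
        rw [α.inv, α.per_mul, α.inv] at this
        exact this
      have hs := α.PatEb_shortB (α.f x - 1)
      rw [sub_add_cancel, α.inv, ← ex] at hs
      rw [e2] at h1 h2
      exact PatEb_far α.pos hs h1 h2

theorem eFun_nc (i x y : ℤ) (h1 : x < y) (h2 : y < eFun L i α.f x) :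
    x < eFun L i α.f y ∧ eFun L i α.f y < eFun L i α.f x := by
  have e1 : eFun L i α.f (eFun L i α.f y) = y := α.eFun_inv i y
  have e2 : eFun L i α.f (eFun L i α.f x) = x := α.eFun_inv i x
  have n1 : eFun L i α.f y ≠ eFun L i α.f x := by
    intro h
    rw [h, e2] at e1
    omega
  have n2 : eFun L i α.f y ≠ x := by
    intro h
    rw [h] at e1
    omega
  constructor
  · by_contra hc
    exact α.PatEb_nx i (eFun L i α.f y) x (by omega) (by rw [e1]; exact h1) (by rw [e1]; exact h2)
  · by_contra hc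
    exact α.PatEb_nx i x y h1 h2 (by omega)

end Pat

end CY
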