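import Pool.Agent.Lib.MP_216314_pr.Z.PatEa
import Pool.Agent.Lib.MP_216314_pr.Z.PatEb

/-!
# The monoids `e i` acting on patterns
-/

set_option autoImplicit false

noncomputable section

namespace CY

open Finset

namespace Pat

variable {L : ℕ} (α : Pat L)

/-- the monoid `e i` -/
def e (i : ℤ) (α : Pat L) : Pat L :=
  ⟨eFun L i α.f, α.pos, α.eFun_inv i, α.eFun_per i, α.eFun_ne i, α.eFun_nc i⟩

theorem e_f (i x : ℤ) : (e i α).f x = eFun L i α.f x := rfl

theorem e_left (i : ℤ) : (e i α).f i = i + 1 := by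
  simp [e_f, eFun]

theorem e_right (i : ℤ) : (e i α).f (i + 1) = i := by
  have h2 : 2 ≤ L := α.two_le
  have h1 : ¬ (L : ℤ) ∣ i + 1 - i := by
    rw [add_sub_cancel_left]
    intro h
    have := Int.le_of_dvd one_pos h
    omega
  have h3 : (L : ℤ) ∣ i + 1 - i - 1 := ⟨0, by ring⟩
  rw [e_f, eFun, if_neg h1, if_pos h3]
  ring

end Pat

end CY
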