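import Pool.Agent.Lib.MP_216314_pr.Z.PatA

/-!
# Relabelling of the sites when a small arc is inserted

`up L i` is strictly monotone, `up (k + L) = up k + (L + 2)`, its range is the complement of the sites congruent to `i`, `i+1` modulo
`L + 2`, and `dn` is its inverse there. All by `Int.ediv` / `Int.emod` arithmetic: write `k - i = L * a + r`, `0 ≤ r < L`, so
`up L i k = i + (L + 2) * a + r + 2`; write `x - i = (L + 2) * a + r`, `0 ≤ r < L + 2`, so `dn L i x = i + L * a + r - 2`.
(Helpful: `Int.ediv_eq_iff_of_pos`-like lemmas, `Int.ediv_emod_unique`, `Int.add_mul_ediv_left`; nonlinear terms: generalise `L * a`.)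
-/

set_option autoImplicit false

noncomputable section

namespace CY

open Finset

variable {L : ℕ}

private theorem PatU_uniq {N m a r : ℤ} (h : m = N * a + r) (h0 : 0 ≤ r) (h1 : r < N) :
    m / N = a := by
  have hN : 0 < N := lt_of_le_of_lt h0 h1
  exact ((Int.ediv_emod_unique hN).2 ⟨by rw [h]; ring, h0, h1⟩).1

private theorem PatU_div {N : ℤ} (hN : 0 < N) (m : ℤ) :
    ∃ a r : ℤ, m = N * a + r ∧ 0 ≤ r ∧ r < N ∧ m / N = a := by
  refine ⟨m / N, m % N, ?_, Int.emod_nonneg _ hN.ne', Int.emod_lt_of_pos _ hN, rfl⟩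
  exact (Int.mul_ediv_add_emod m N).symm

private theorem PatU_not_dvd {N a r : ℤ} (h0 : 0 < r) (h1 : r < N) : ¬ N ∣ N * a + r := by
  intro h
  rw [Int.dvd_add_right (dvd_mul_right N a)] at h
  have := Int.le_of_dvd h0 h
  omega

theorem up_add (hL : 0 < L) (i k : ℤ) : up L i (k + L) = up L i k + (L + 2) := by
  have hL' : (0 : ℤ) < L := by exact_mod_cast hL
  obtain ⟨a, r, h, h0, h1, h2⟩ := PatU_div hL' (k - i)
  have h3 : (k + L - i) / (L : ℤ) = a + 1 := PatU_uniq (r := r) (by linarith) h0 h1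
  unfold up
  rw [h2, h3]
  ring

theorem up_strictMono (hL : 0 < L) (i : ℤ) : StrictMono (up L i) := by
  intro k k' hk
  have hL' : (0 : ℤ) < L := by exact_mod_cast hL
  have h1 : (k - i) / (L : ℤ) ≤ (k' - i) / L := Int.ediv_le_ediv hL' (by omega)
  unfold up
  omega

theorem dn_up (hL : 0 < L) (i k : ℤ) : dn L i (up L i k) = k := by
  have hL' : (0 : ℤ) < L := by exact_mod_cast hL
  obtain ⟨a, r, h, h0, h1, h2⟩ := PatU_div hL' (k - i)
  have h3 : (k + 2 + 2 * a - i) / (L + 2 : ℤ) = a :=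
    PatU_uniq (r := r + 2) (by linarith) (by omega) (by omega)
  unfold dn up
  rw [h2, h3]
  ring

theorem up_dn (hL : 0 < L) (i x : ℤ) (h1 : ¬ (L + 2 : ℤ) ∣ x - i) (h2 : ¬ (L + 2 : ℤ) ∣ x - i - 1) :
    up L i (dn L i x) = x := by
  have hL' : (0 : ℤ) < L := by exact_mod_cast hL
  obtain ⟨a, r, h, h0, h3, h4⟩ := PatU_div (N := (L : ℤ) + 2) (by omega) (x - i)
  have hr0 : r ≠ 0 := by
    intro hr
    apply h1
    rw [h, hr, add_zero]
    exact dvd_mul_right _ _
  have hr1 : r ≠ 1 := by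
    intro hr
    apply h2
    rw [h, hr, add_sub_cancel_right]
    exact dvd_mul_right _ _
  have h5 : (x - 2 - 2 * a - i) / (L : ℤ) = a :=
    PatU_uniq (r := r - 2) (by linarith) (by omega) (by omega)
  unfold up dn
  rw [h4, h5]
  ring

theorem up_not_left (hL : 0 < L) (i k : ℤ) : ¬ (L + 2 : ℤ) ∣ up L i k - i := by
  have hL' : (0 : ℤ) < L := by exact_mod_cast hL
  obtain ⟨a, r, h, h0, h1, h2⟩ := PatU_div hL' (k - i)
  have h3 : up L i k - i = (L + 2 : ℤ) * a + (r + 2) := by
    unfold up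
    rw [h2]
    linarith
  rw [h3]
  exact PatU_not_dvd (by omega) (by omega)

theorem up_not_right (hL : 0 < L) (i k : ℤ) : ¬ (L + 2 : ℤ) ∣ up L i k - i - 1 := by
  have hL' : (0 : ℤ) < L := by exact_mod_cast hL
  obtain ⟨a, r, h, h0, h1, h2⟩ := PatU_div hL' (k - i)
  have h3 : up L i k - i - 1 = (L + 2 : ℤ) * a + (r + 1) := by
    unfold up
    rw [h2]
    linarith
  rw [h3]
  exact PatU_not_dvd (by omega) (by omega)

/-- `up (i + 1)` and `up i` agree outside of the sites congruent to `i` modulo `L` -/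
theorem up_succ_of_not (hL : 0 < L) (i k : ℤ) (h : ¬ (L : ℤ) ∣ k - i) : up L (i + 1) k = up L i k := by
  have hL' : (0 : ℤ) < L := by exact_mod_cast hL
  obtain ⟨a, r, h3, h0, h1, h2⟩ := PatU_div hL' (k - i)
  have hr0 : r ≠ 0 := by
    intro hr
    apply h
    rw [h3, hr, add_zero]
    exact dvd_mul_right _ _
  have h5 : (k - (i + 1)) / (L : ℤ) = a :=
    PatU_uniq (r := r - 1) (by linarith) (by omega) (by omega)
  unfold up
  rw [h2, h5]

theorem up_succ_of_dvd (hL : 0 < L) (i k : ℤ) (h : (L : ℤ) ∣ k - i) :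
    up L (i + 1) k = up L i k - 2 := by
  have hL' : (0 : ℤ) < L := by exact_mod_cast hL
  obtain ⟨a, ha⟩ := h
  have h2 : (k - i) / (L : ℤ) = a := PatU_uniq (r := 0) (by linarith) (le_refl 0) hL'
  have h5 : (k - (i + 1)) / (L : ℤ) = a - 1 :=
    PatU_uniq (r := (L : ℤ) - 1) (by linarith) (by omega) (by omega)
  unfold up
  rw [h2, h5]
  ring

/-- the insertion at `i` puts the old site `i` to the site `i + 2`, the old site `i - 1` to the site `i - 1` -/
theorem up_self (i : ℤ) : up L i i = i + 2 := by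
  unfold up
  rw [sub_self, Int.zero_ediv, mul_zero, add_zero]

theorem up_pred (hL : 0 < L) (i : ℤ) : up L i (i - 1) = i - 1 := by
  have hL' : (0 : ℤ) < L := by exact_mod_cast hL
  have h5 : (i - 1 - i) / (L : ℤ) = -1 :=
    PatU_uniq (r := (L : ℤ) - 1) (by linarith) (by omega) (by omega)
  unfold up
  rw [h5]
  ring

theorem up_shift (i k : ℤ) : up L i (k + 1) = up L (i - 1) k + 1 := by
  unfold up
  have h : k + 1 - i = k - (i - 1) := by ring
  rw [h]
  ring

theorem up_period (hL : 0 < L) (i k : ℤ) : up L (i + (L + 2)) k = up L i (k - 2) := by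
  have hL' : (0 : ℤ) < L := by exact_mod_cast hL
  obtain ⟨a, r, h, h0, h1, h2⟩ := PatU_div hL' (k - 2 - i)
  have h5 : (k - (i + (L + 2))) / (L : ℤ) = a - 1 :=
    PatU_uniq (r := r) (by linarith) h0 h1
  unfold up
  rw [h2, h5]
  ring

/-- consecutive old sites stay consecutive, except for the sites `i - 1`, `i` modulo `L` -/
theorem up_step (hL : 0 < L) (i k : ℤ) (h : ¬ (L : ℤ) ∣ k + 1 - i) : up L i (k + 1) = up L i k + 1 := by
  have hL' : (0 : ℤ) < L := by exact_mod_cast hL
  obtain ⟨a, r, h3, h0, h1, h2⟩ := PatU_div hL' (k + 1 - i)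
  have hr0 : r ≠ 0 := by
    intro hr
    apply h
    rw [h3, hr, add_zero]
    exact dvd_mul_right _ _
  have h5 : (k - i) / (L : ℤ) = a :=
    PatU_uniq (r := r - 1) (by linarith) (by omega) (by omega)
  unfold up
  rw [h2, h5]
  ring

/-- for `0 ≤ i ≤ L` the negative sites stay negative and the nonnegative sites stay nonnegative -/
theorem up_neg_iff (hL : 0 < L) {i : ℤ} (h0 : 0 ≤ i) (h1 : i ≤ L) (k : ℤ) : up L i k < 0 ↔ k < 0 := by
  have hL' : (0 : ℤ) < L := by exact_mod_cast hL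
  unfold up
  constructor
  · intro h
    by_contra hk
    have h2 : -1 ≤ (k - i) / (L : ℤ) := by
      rw [Int.le_ediv_iff_mul_le hL']
      omega
    omega
  · intro h
    have h2 : (k - i) / (L : ℤ) < 0 := by
      rw [Int.ediv_lt_iff_lt_mul hL']
      omega
    omega

end CY
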