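import Pool.Agent.Lib.MP_216314_pr.Z.FusA

/-!
# Expansion of the solution in two of the variables

`pt k s t y` is the point with `s` at the place `0`, `t` at the place `k ≥ 1` and the entries of `y` at the other places.
`expand`: for every component, `MvPolynomial.eval_eq'` or `eval_eq`: `∑_m coeff m * ∏ z_l^(m l)`; sort the monomials by `(m 0, m k)`;
`ω a b α = ∑_{m ∈ support, m 0 = a, m k = b} coeff m (P α) * ∏_{l ≠ 0, k} (entry of y)^(m l)`; monomials have `m 0, m k ≤ L - 1` (`deg`) and
`m 0 + m k ≤ 2L - 3` (`pair`).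
-/

set_option autoImplicit false

noncomputable section

namespace CY

open Finset

/-- `s` at the place `0`, `t` at the place `k`, the entries of `y` elsewhere -/
def pt (k : ℕ) (s t : ℂ) (y : ℕ → ℂ) : ℕ → ℂ :=
  fun l => if l = 0 then s else if l < k then y (l - 1) else if l = k then t else y (l - 2)

theorem pt_one (s t : ℂ) (y : ℕ → ℂ) : pt 1 s t y = insP 0 s t y := by
  funext l
  unfold pt insP
  rcases Nat.lt_trichotomy l 1 with h | h | h
  · have h0 : l = 0 := by omega
    subst h0
    simp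
  · subst h
    simp
  · have h1 : ¬ l = 0 := by omega
    have h2 : ¬ l < 1 := by omega
    have h3 : ¬ l = 1 := by omega
    have h4 : ¬ l < 0 := by omega
    rw [if_neg h1, if_neg h2, if_neg h3, if_neg h4, if_neg h1]

theorem sw_pt {k : ℕ} (hk : 0 < k) (s t : ℂ) (y : ℕ → ℂ) : sw k (pt k s t y) = pt (k + 1) s t y := by
  funext l
  unfold sw
  by_cases h1 : l = k
  · subst h1
    rw [Equiv.swap_apply_left]
    unfold pt
    have e1 : ¬ l + 1 = 0 := by omega
    have e2 : ¬ l + 1 < l := by omega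
    have e3 : ¬ l + 1 = l := by omega
    have e4 : ¬ l = 0 := by omega
    have e5 : l < l + 1 := by omega
    rw [if_neg e1, if_neg e2, if_neg e3, if_neg e4, if_pos e5]
    congr 1
  · by_cases h2 : l = k + 1
    · subst h2
      rw [Equiv.swap_apply_right]
      unfold pt
      have e1 : ¬ k = 0 := by omega
      have e2 : ¬ k < k := by omega
      have e3 : ¬ k + 1 = 0 := by omega
      have e4 : ¬ k + 1 < k + 1 := by omega
      rw [if_neg e1, if_neg e2, if_pos rfl, if_neg e3, if_neg e4, if_pos rfl]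
    · rw [Equiv.swap_apply_of_ne_of_ne h1 h2]
      unfold pt
      by_cases h3 : l = 0
      · rw [if_pos h3, if_pos h3]
      · rw [if_neg h3, if_neg h3]
        by_cases h4 : l < k
        · have h5 : l < k + 1 := by omega
          rw [if_pos h4, if_pos h5]
        · have h5 : ¬ l < k + 1 := by omega
          rw [if_neg h4, if_neg h5, if_neg h1, if_neg h2]

theorem pt_apply_self {k : ℕ} (hk : 0 < k) (s t : ℂ) (y : ℕ → ℂ) : pt k s t y k = t := by
  unfold pt
  have e1 : ¬ k = 0 := by omega
  have e2 : ¬ k < k := by omega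
  rw [if_neg e1, if_neg e2, if_pos rfl]

theorem pt_apply_succ {k : ℕ} (hk : 0 < k) (s t : ℂ) (y : ℕ → ℂ) : pt k s t y (k + 1) = y (k - 1) := by
  have _ := hk
  unfold pt
  have e1 : ¬ k + 1 = 0 := by omega
  have e2 : ¬ k + 1 < k := by omega
  have e3 : ¬ k + 1 = k := by omega
  rw [if_neg e1, if_neg e2, if_neg e3]
  congr 1

theorem cyc_pt (L : ℕ) (s t : ℂ) (y : ℕ → ℂ) : cyc (L + 2) (pt 1 t s y) = pt (L + 1) s t y := by
  funext l
  unfold cyc
  by_cases h1 : l + 1 < L + 2
  · rw [if_pos h1]
    unfold pt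
    by_cases h2 : l = 0
    · subst h2
      simp
    · have e1 : ¬ l + 1 = 0 := by omega
      have e2 : ¬ l + 1 < 1 := by omega
      have e3 : ¬ l + 1 = 1 := by omega
      have e4 : l < L + 1 := by omega
      rw [if_neg e1, if_neg e2, if_neg e3, if_neg h2, if_pos e4]
      congr 1
  · rw [if_neg h1]
    by_cases h2 : l + 1 = L + 2
    · rw [if_pos h2]
      have h3 : l = L + 1 := by omega
      subst h3
      rw [pt_apply_self (by omega)]
      unfold pt
      rw [if_pos rfl]
    · rw [if_neg h2]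
      unfold pt
      have e1 : ¬ l = 0 := by omega
      have e2 : ¬ l < 1 := by omega
      have e3 : ¬ l = 1 := by omega
      have e4 : ¬ l < L + 1 := by omega
      have e5 : ¬ l = L + 1 := by omega
      rw [if_neg e1, if_neg e2, if_neg e3, if_neg e1, if_neg e4, if_neg e5]

/-- finite double expansion in powers of `s`, `t` (degrees less than `n`) -/
def Bip {W : Type*} [AddCommMonoid W] [Module ℂ W] (n : ℕ) (f : ℂ → ℂ → W) (ω : ℕ → ℕ → W) : Prop :=
  ∀ s t : ℂ, f s t = ∑ a ∈ range n, ∑ b ∈ range n, (s ^ a * t ^ b) • ω a b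

theorem TopA_pt_ne {k l : ℕ} (h0 : l ≠ 0) (h1 : l ≠ k) (s t : ℂ) (y : ℕ → ℂ) :
    pt k s t y l = pt k 0 0 y l := by
  unfold pt
  rw [if_neg h0, if_neg h0]
  by_cases h2 : l < k
  · rw [if_pos h2, if_pos h2]
  · rw [if_neg h2, if_neg h2, if_neg h1, if_neg h1]

theorem TopA_prod {k : ℕ} (h0 : 0 < k) (m : ℕ →₀ ℕ) (s t : ℂ) (y : ℕ → ℂ) :
    ∏ l ∈ m.support, pt k s t y l ^ m l =
      s ^ m 0 * t ^ m k * ∏ l ∈ ((insert 0 (insert k m.support)).erase 0).erase k, pt k 0 0 y l ^ m l := by
  classical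
  have h1 : ∏ l ∈ m.support, pt k s t y l ^ m l =
      ∏ l ∈ insert 0 (insert k m.support), pt k s t y l ^ m l := by
    apply Finset.prod_subset
    · intro l hl
      rw [Finset.mem_insert, Finset.mem_insert]
      exact Or.inr (Or.inr hl)
    · intro l _ hl
      rw [Finsupp.notMem_support_iff] at hl
      rw [hl, pow_zero]
  have h2 : (0 : ℕ) ∈ insert 0 (insert k m.support) := Finset.mem_insert_self _ _
  have h3 : k ∈ (insert 0 (insert k m.support)).erase 0 := by
    rw [Finset.mem_erase]
    exact ⟨by omega, Finset.mem_insert_of_mem (Finset.mem_insert_self _ _)⟩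
  rw [h1, ← Finset.mul_prod_erase _ _ h2, ← Finset.mul_prod_erase _ _ h3, pt_apply_self h0]
  have h4 : pt k s t y 0 = s := by
    unfold pt
    rw [if_pos rfl]
  rw [h4, mul_assoc]
  congr 2
  apply Finset.prod_congr rfl
  intro l hl
  rw [Finset.mem_erase, Finset.mem_erase] at hl
  rw [TopA_pt_ne hl.2.1 hl.1 s t y]

theorem expand {q : ℂ} {L : ℕ} {P : Pat L → MvPolynomial ℕ ℂ} (hP : IsPsi q L P) {k : ℕ} (h0 : 0 < k)
    (hk : k < L) (y : ℕ → ℂ) :
    ∃ ω : ℕ → ℕ → V L, Bip L (fun s t => ev P (pt k s t y)) ω ∧ ∀ a b, 2 * L - 3 < a + b → ω a b = 0 := by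
  classical
  refine ⟨fun a b α => ∑ m ∈ (P α).support.filter (fun m => (m 0, m k) = (a, b)),
    (P α).coeff m * ∏ l ∈ ((insert 0 (insert k m.support)).erase 0).erase k, pt k 0 0 y l ^ m l, ?_, ?_⟩
  · intro s t
    funext α
    show MvPolynomial.eval (pt k s t y) (P α) = _
    rw [MvPolynomial.eval_eq]
    have hmap : ∀ m ∈ (P α).support, (m 0, m k) ∈ range L ×ˢ range L := by
      intro m hm
      have h1 := hP.deg α m hm 0
      have h2 := hP.deg α m hm k
      rw [Finset.mem_product, Finset.mem_range, Finset.mem_range]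
      constructor
      · show m 0 < L
        omega
      · show m k < L
        omega
    rw [← Finset.sum_fiberwise_of_maps_to hmap, Finset.sum_product]
    rw [Finset.sum_apply]
    apply Finset.sum_congr rfl
    intro a _
    rw [Finset.sum_apply]
    apply Finset.sum_congr rfl
    intro b _
    rw [Pi.smul_apply, smul_eq_mul, Finset.mul_sum]
    apply Finset.sum_congr rfl
    intro m hm
    have h3 := (Finset.mem_filter.1 hm).2
    rw [Prod.mk.injEq] at h3
    rw [TopA_prod h0, h3.1, h3.2]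
    ring
  · intro a b hab
    funext α
    show ∑ m ∈ (P α).support.filter (fun m => (m 0, m k) = (a, b)),
      (P α).coeff m * ∏ l ∈ ((insert 0 (insert k m.support)).erase 0).erase k, pt k 0 0 y l ^ m l = 0
    have h1 : (P α).support.filter (fun m => (m 0, m k) = (a, b)) = ∅ := by
      rw [Finset.filter_eq_empty_iff]
      intro m hm h2
      rw [Prod.mk.injEq] at h2
      have h3 := hP.pair α m hm 0 k (by omega) hk (by omega)
      omega
    rw [h1, Finset.sum_empty]

theorem TopA_coef {n : ℕ} {c : ℕ → ℂ} (h : ∀ s : ℂ, ∑ a ∈ range n, s ^ a * c a = 0) {a : ℕ} (ha : a < n) :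
    c a = 0 := by
  have h1 : (∑ a ∈ range n, Polynomial.C (c a) * Polynomial.X ^ a : Polynomial ℂ) = 0 := by
    apply Polynomial.funext
    intro s
    rw [Polynomial.eval_finsetSum, Polynomial.eval_zero, ← h s]
    apply Finset.sum_congr rfl
    intro b _
    rw [Polynomial.eval_mul, Polynomial.eval_C, Polynomial.eval_pow, Polynomial.eval_X, mul_comm]
  have h2 := congrArg (fun p : Polynomial ℂ => p.coeff a) h1
  simp only [Polynomial.finsetSum_coeff, Polynomial.coeff_C_mul_X_pow, Polynomial.coeff_zero] at h2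
  rw [Finset.sum_ite_eq (range n) a (fun b => c b), if_pos (Finset.mem_range.2 ha)] at h2
  exact h2

/-- the coefficients of a double expansion are unique -/
theorem Bip.unique {L n : ℕ} {f : ℂ → ℂ → V L} {ω ω' : ℕ → ℕ → V L} (h : Bip n f ω) (h' : Bip n f ω')
    {a b : ℕ} (ha : a < n) (hb : b < n) : ω a b = ω' a b := by
  funext α
  have h1 : ∀ t s : ℂ, ∑ a ∈ range n, s ^ a * (∑ b ∈ range n, t ^ b * (ω a b α - ω' a b α)) = 0 := by
    intro t s
    have h2 := congrFun ((h s t).symm.trans (h' s t)) α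
    simp only [Finset.sum_apply, Pi.smul_apply, smul_eq_mul] at h2
    have h3 : ∑ a ∈ range n, s ^ a * (∑ b ∈ range n, t ^ b * (ω a b α - ω' a b α)) =
        ∑ a ∈ range n, ∑ b ∈ range n, s ^ a * t ^ b * ω a b α -
          ∑ a ∈ range n, ∑ b ∈ range n, s ^ a * t ^ b * ω' a b α := by
      rw [← Finset.sum_sub_distrib]
      apply Finset.sum_congr rfl
      intro a _
      rw [Finset.mul_sum, ← Finset.sum_sub_distrib]
      apply Finset.sum_congr rfl
      intro b _
      ring
    rw [h3, h2, sub_self]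
  have h2 : ∀ t : ℂ, ∑ b ∈ range n, t ^ b * (ω a b α - ω' a b α) = 0 := fun t =>
    TopA_coef (h1 t) ha
  have h3 := TopA_coef h2 hb
  exact sub_eq_zero.1 h3

end CY
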