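import Pool.Agent.Lib.MP_216314_pr.Z.TopA

/-!
# Exchange relations for the highest coefficients

Compare coefficients in a polynomial identity in `s`, `t` with values in `V L` (`Bip.unique` for the expansions of both sides with `n = d + 3`;
or for each pattern component, evaluate polynomials in `s` with coefficients polynomials in `t`).
`cmp`: `F q u t = q u - q² t`, `F q t u = q t - q² u`. Coefficient of `s^d t^d`:
`-q² f_{d,d-1} + q u f_{d,d} - A f_{d,d-1} + u A f_{d,d} = q g_{d,d-1} - q² u g_{d,d}`, so `q g_{d,d-1} = -(q² f + A f)_{d,d-1}`; multiply by `q²`.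
Coefficient of `s^{d-1} t^{d+1}`: `-q² f_{d-1,d} - A f_{d-1,d} = q g_{d-1,d}`.
`cmp_zero`: coefficient of `s^{d+1} t^{d-1}` in `F q t s • f s t + (t - s) • A (f s t) = F q s t • f t s`:
`-q² f_{d,d-1} - A f_{d,d-1} = q f_{d-1,d}`.
-/

set_option autoImplicit false

noncomputable section

namespace CY

open Finset

section TopBaux

variable {W W' : Type*} [AddCommGroup W] [Module ℂ W] [AddCommGroup W'] [Module ℂ W']

private theorem TopB_sumif {n : ℕ} (X : ℕ → W) (c : ℕ → ℂ) :
    ∑ b ∈ range (n + 1), c b • (if b < n then X b else 0) = ∑ b ∈ range n, c b • X b := by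
  rw [sum_range_succ, if_neg (lt_irrefl n), smul_zero, add_zero]
  refine sum_congr rfl fun b hb => ?_
  rw [if_pos (mem_range.1 hb)]

private theorem TopB_sumif' {n : ℕ} (X : ℕ → W) (c : ℕ → ℂ) :
    ∑ b ∈ range (n + 1), c b • (if 1 ≤ b then X (b - 1) else 0) = ∑ b ∈ range n, c (b + 1) • X b := by
  rw [sum_range_succ', if_neg (by omega), smul_zero, add_zero]
  refine sum_congr rfl fun b _ => ?_
  rw [if_pos (by omega), Nat.add_sub_cancel]

private theorem TopB_up {n : ℕ} {f : ℂ → ℂ → W} {ω : ℕ → ℕ → W} (h : Bip n f ω) :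
    Bip (n + 1) f (fun a b => if a < n then (if b < n then ω a b else 0) else 0) := by
  intro s t
  rw [h s t, sum_range_succ, sum_eq_zero (s := range (n + 1)) (f := fun b => (s ^ n * t ^ b) •
    (if n < n then (if b < n then ω n b else 0) else 0)) (fun b _ => by rw [if_neg (lt_irrefl n), smul_zero]),
    add_zero]
  refine sum_congr rfl fun a ha => ?_
  rw [← TopB_sumif (fun b => ω a b) (fun b => s ^ a * t ^ b)]
  refine sum_congr rfl fun b _ => ?_
  show _ = (s ^ a * t ^ b) • (if a < n then (if b < n then ω a b else 0) else 0)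
  rw [if_pos (mem_range.1 ha)]

private theorem TopB_mulT {n : ℕ} {f : ℂ → ℂ → W} {ω : ℕ → ℕ → W} (h : Bip n f ω) :
    Bip (n + 1) (fun s t => t • f s t) (fun a b => if a < n then (if 1 ≤ b then ω a (b - 1) else 0) else 0) := by
  intro s t
  show t • f s t = _
  rw [h s t, sum_range_succ, sum_eq_zero (s := range (n + 1)) (f := fun b => (s ^ n * t ^ b) •
    (if n < n then (if 1 ≤ b then ω n (b - 1) else 0) else 0)) (fun b _ => by rw [if_neg (lt_irrefl n), smul_zero]),
    add_zero, smul_sum]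
  refine sum_congr rfl fun a ha => ?_
  have h1 : ∑ b ∈ range (n + 1), (s ^ a * t ^ b) • (if a < n then (if 1 ≤ b then ω a (b - 1) else 0) else 0) =
      ∑ b ∈ range (n + 1), (s ^ a * t ^ b) • (if 1 ≤ b then ω a (b - 1) else 0) := by
    refine sum_congr rfl fun b _ => ?_
    rw [if_pos (mem_range.1 ha)]
  rw [h1, TopB_sumif' (fun b => ω a b) (fun b => s ^ a * t ^ b), smul_sum]
  refine sum_congr rfl fun b _ => ?_
  rw [smul_smul]
  congr 1
  ring

private theorem TopB_swap {n : ℕ} {f : ℂ → ℂ → W} {ω : ℕ → ℕ → W} (h : Bip n f ω) :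
    Bip n (fun s t => f t s) (fun a b => ω b a) := by
  intro s t
  show f t s = _
  rw [h t s, sum_comm]
  refine sum_congr rfl fun a _ => sum_congr rfl fun b _ => ?_
  rw [mul_comm]

private theorem TopB_lin {n : ℕ} {f : ℂ → ℂ → W} {ω : ℕ → ℕ → W} (h : Bip n f ω) (A : W →ₗ[ℂ] W') :
    Bip n (fun s t => A (f s t)) (fun a b => A (ω a b)) := by
  intro s t
  show A (f s t) = _
  rw [h s t, map_sum]
  refine sum_congr rfl fun a _ => ?_
  rw [map_sum]
  refine sum_congr rfl fun b _ => ?_
  rw [map_smul]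

private theorem TopB_add {n : ℕ} {f g : ℂ → ℂ → W} {ω η : ℕ → ℕ → W} (h : Bip n f ω) (h' : Bip n g η) :
    Bip n (fun s t => f s t + g s t) (fun a b => ω a b + η a b) := by
  intro s t
  show f s t + g s t = _
  rw [h s t, h' s t, ← sum_add_distrib]
  refine sum_congr rfl fun a _ => ?_
  rw [← sum_add_distrib]
  refine sum_congr rfl fun b _ => ?_
  rw [smul_add]

private theorem TopB_smul {n : ℕ} {f : ℂ → ℂ → W} {ω : ℕ → ℕ → W} (h : Bip n f ω) (c : ℂ) :
    Bip n (fun s t => c • f s t) (fun a b => c • ω a b) := by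
  intro s t
  show c • f s t = _
  rw [h s t, smul_sum]
  refine sum_congr rfl fun a _ => ?_
  rw [smul_sum]
  refine sum_congr rfl fun b _ => ?_
  rw [smul_smul, smul_smul, mul_comm]

private theorem TopB_congr {n : ℕ} {f g : ℂ → ℂ → W} {ω : ℕ → ℕ → W} (h : Bip n f ω) (e : ∀ s t, g s t = f s t) :
    Bip n g ω := by
  intro s t
  rw [e, h s t]

private theorem TopB_fin {q : ℂ} (hq : q ^ 2 + q + 1 = 0) {x y z : W} (h : -(q ^ 2) • x + -(1 : ℂ) • y = q • z) :
    z = -(q • x + q ^ 2 • y) := by
  have h1 : q ^ 3 = 1 := by linear_combination (q - 1) * hq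
  have h2 : q ^ 2 • (q • z) = z := by
    rw [smul_smul]
    have : q ^ 2 * q = 1 := by rw [← h1]; ring
    rw [this, one_smul]
  rw [← h2, ← h, smul_add, smul_smul, smul_smul]
  have e1 : q ^ 2 * -(q ^ 2) = -q := by linear_combination (-q) * h1
  have e2 : q ^ 2 * -(1 : ℂ) = -(q ^ 2) := by ring
  rw [e1, e2, neg_smul, neg_smul, neg_add]

end TopBaux

section

variable {q : ℂ} (hq : q ^ 2 + q + 1 = 0) {L d : ℕ} (hd : 1 ≤ d) (A : V L →ₗ[ℂ] V L)
include hq hd

theorem cmp (u : ℂ) {f g : ℂ → ℂ → V L} {ω η : ℕ → ℕ → V L} (hf : Bip (d + 1) f ω) (hg : Bip (d + 1) g η)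
    (h0 : ω d d = 0) (h0' : η d d = 0)
    (h : ∀ s t, F q u t • f s t + (u - t) • A (f s t) = F q t u • g s t) :
    η d (d - 1) = -(q • ω d (d - 1) + q ^ 2 • A (ω d (d - 1))) ∧
      η (d - 1) d = -(q • ω (d - 1) d + q ^ 2 • A (ω (d - 1) d)) := by
  have hAf := TopB_lin hf A
  have l1 := TopB_add (TopB_add (TopB_smul (TopB_up hf) (q * u)) (TopB_smul (TopB_mulT hf) (-(q ^ 2))))
    (TopB_add (TopB_smul (TopB_up hAf) u) (TopB_smul (TopB_mulT hAf) (-1)))
  have r1 := TopB_add (TopB_smul (TopB_mulT hg) q) (TopB_smul (TopB_up hg) (-(q ^ 2 * u)))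
  have r2 := TopB_congr r1 (g := fun s t => F q u t • f s t + (u - t) • A (f s t)) (fun s t => by
    have e : F q t u = q * t + -(q ^ 2 * u) := by
      unfold F
      ring
    show F q u t • f s t + (u - t) • A (f s t) = q • (t • g s t) + (-(q ^ 2 * u)) • g s t
    rw [h s t, smul_smul, ← add_smul, e])
  have l2 := TopB_congr l1 (g := fun s t => F q u t • f s t + (u - t) • A (f s t)) (fun s t => by
    show F q u t • f s t + (u - t) • A (f s t) =
      (q * u) • f s t + (-(q ^ 2)) • (t • f s t) + (u • A (f s t) + (-1 : ℂ) • (t • A (f s t)))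
    rw [smul_smul, smul_smul, ← add_smul, ← add_smul]
    congr 1
    · congr 1
      unfold F
      ring
    · congr 1
      ring)
  constructor
  · have := Bip.unique l2 r2 (a := d) (b := d) (by omega) (by omega)
    simp only [if_pos (Nat.lt_succ_self d), if_pos hd, h0, h0', map_zero, smul_zero, zero_add, add_zero] at this
    exact TopB_fin hq this
  · have := Bip.unique l2 r2 (a := d - 1) (b := d + 1) (by omega) (by omega)
    have a1 : d - 1 < d + 1 := by omega
    have a2 : ¬ d + 1 < d + 1 := by omega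
    have a3 : 1 ≤ d + 1 := by omega
    simp only [if_pos a1, if_neg a2, if_pos a3, Nat.add_sub_cancel, smul_zero, zero_add, add_zero] at this
    exact TopB_fin hq this

theorem cmp_zero {f : ℂ → ℂ → V L} {ω : ℕ → ℕ → V L} (hf : Bip (d + 1) f ω) (h0 : ω d d = 0)
    (h : ∀ s t, F q t s • f s t + (t - s) • A (f s t) = F q s t • f t s) :
    ω (d - 1) d = -(q • ω d (d - 1) + q ^ 2 • A (ω d (d - 1))) := by
  have hsw := TopB_swap hf
  have hAf := TopB_lin hsw A
  -- after exchanging the names of the variables: `F q s t • f t s + (s - t) • A (f t s) = F q t s • f s t`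
  have l1 := TopB_add (TopB_add (TopB_swap (TopB_smul (TopB_mulT (TopB_swap hsw)) q)) (TopB_smul (TopB_mulT hsw) (-(q ^ 2))))
    (TopB_add (TopB_swap (TopB_mulT (TopB_swap hAf))) (TopB_smul (TopB_mulT hAf) (-1)))
  have r1 := TopB_add (TopB_smul (TopB_mulT hf) q) (TopB_swap (TopB_smul (TopB_mulT (TopB_swap hf)) (-(q ^ 2))))
  have r2 := TopB_congr r1 (g := fun s t => F q s t • f t s + (s - t) • A (f t s)) (fun s t => by
    show F q s t • f t s + (s - t) • A (f t s) = q • (t • f s t) + (-(q ^ 2)) • (s • f s t)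
    rw [h t s, smul_smul, smul_smul, ← add_smul]
    congr 1
    unfold F
    ring)
  have l2 := TopB_congr l1 (g := fun s t => F q s t • f t s + (s - t) • A (f t s)) (fun s t => by
    show F q s t • f t s + (s - t) • A (f t s) =
      q • (s • f t s) + (-(q ^ 2)) • (t • f t s) + (s • A (f t s) + (-1 : ℂ) • (t • A (f t s)))
    rw [smul_smul, smul_smul, smul_smul, ← add_smul, ← add_smul]
    congr 1
    · congr 1
      unfold F
      ring
    · congr 1
      ring)
  have := Bip.unique l2 r2 (a := d - 1) (b := d + 1) (by omega) (by omega)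
  have a1 : d - 1 < d + 1 := by omega
  have a2 : ¬ d + 1 < d + 1 := by omega
  have a3 : 1 ≤ d + 1 := by omega
  simp only [if_pos a1, if_neg a2, if_pos a3, Nat.add_sub_cancel, smul_zero, zero_add, add_zero] at this
  exact TopB_fin hq this

end

end CY
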