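import Pool.Agent.Lib.MP_216314_pr.Z.TopS

/-!
# Fusion of the highest coefficients (proof in the header of `TopS`)
-/

set_option autoImplicit false

noncomputable section

namespace CY

open Finset

section

variable {q : ℂ} (hq : q ^ 2 + q + 1 = 0) {L : ℕ} (hL : 0 < L) (hE : Even L)
  {P : Pat (L + 2) → MvPolynomial ℕ ℂ} (hP : IsPsi q (L + 2) P)
  {P' : Pat L → MvPolynomial ℕ ℂ} (hP' : IsPsi q L P')
include hq hL hE hP hP'

theorem top_fus (y : ℕ → ℂ) {ω : ℕ → ℕ → V (L + 2)}
    (hω : Bip (L + 2) (fun s t => ev P (insP 0 s t y)) ω) (h0 : ∀ a b, 2 * (L + 2) - 3 < a + b → ω a b = 0) :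
    ω (L + 1) L + q ^ 2 • ω L (L + 1) = (1 - q ^ 2) • I 0 (ev P' y) := by
  have hq3 : q ^ 3 = 1 := q_cube hq
  have hq0 : q ≠ 0 := by
    intro h
    rw [h] at hq3
    norm_num at hq3
  funext γ
  set v : ℂ := (I 0 (ev P' y) : V (L + 2)) γ with hv
  let pL : Polynomial ℂ := ∑ a ∈ range (L + 2), ∑ b ∈ range (L + 2),
    Polynomial.C ((q ^ 2) ^ b * ω a b γ) * Polynomial.X ^ (a + b)
  let pR : Polynomial ℂ := Polynomial.C ((1 - q ^ 2) * v) * (Polynomial.X *
    ∏ j ∈ range L, (Polynomial.C (y j) - Polynomial.C q * Polynomial.X) ^ 2)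
  have hpe : pL = pR := by
    apply Polynomial.funext
    intro s
    have h1 := hω s (q ^ 2 * s)
    have h2 := fusion hq hL hE hP hP' s y
    have h3 : (∑ a ∈ range (L + 2), ∑ b ∈ range (L + 2), (s ^ a * (q ^ 2 * s) ^ b) • ω a b : V (L + 2)) γ =
        (Kf q L s y • I 0 (ev P' y) : V (L + 2)) γ := by
      rw [← h2, ← h1]
    rw [Finset.sum_apply] at h3
    simp only [Finset.sum_apply, Pi.smul_apply, smul_eq_mul] at h3
    rw [← hv] at h3
    have h4 : pL.eval s = ∑ a ∈ range (L + 2), ∑ b ∈ range (L + 2), s ^ a * (q ^ 2 * s) ^ b * ω a b γ := by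
      simp only [pL, Polynomial.eval_finsetSum, Polynomial.eval_mul, Polynomial.eval_C, Polynomial.eval_pow,
        Polynomial.eval_X]
      refine Finset.sum_congr rfl fun a _ => Finset.sum_congr rfl fun b _ => ?_
      rw [mul_pow, pow_add]
      ring
    have h5 : pR.eval s = Kf q L s y * v := by
      simp only [pR, Kf, Polynomial.eval_mul, Polynomial.eval_C, Polynomial.eval_X, Polynomial.eval_prod,
        Polynomial.eval_pow, Polynomial.eval_sub]
      ring
    rw [h4, h5, h3]
  have hc : pL.coeff (2 * L + 1) = pR.coeff (2 * L + 1) := by rw [hpe]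
  have hR : pR.coeff (2 * L + 1) = (1 - q ^ 2) * v * (q ^ 2) ^ L := by
    simp only [pR, Polynomial.coeff_C_mul, Polynomial.coeff_X_mul]
    congr 1
    have h1 : ∀ j ∈ range L, ((Polynomial.C (y j) - Polynomial.C q * Polynomial.X : Polynomial ℂ) ^ 2).natDegree ≤ 2 := by
      intro j _
      refine (Polynomial.natDegree_pow_le_of_le (m := 1) 2 ?_).trans (by norm_num)
      refine (Polynomial.natDegree_sub_le _ _).trans ?_
      rw [Polynomial.natDegree_C]
      refine max_le (by norm_num) ((Polynomial.natDegree_C_mul_le _ _).trans ?_)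
      rw [Polynomial.natDegree_X]
    have h2 := Polynomial.coeff_prod_of_natDegree_le (s := range L)
      (f := fun j => (Polynomial.C (y j) - Polynomial.C q * Polynomial.X : Polynomial ℂ) ^ 2) 2 h1
    rw [card_range, mul_comm L 2] at h2
    rw [h2]
    have h3 : ∀ j ∈ range L, ((Polynomial.C (y j) - Polynomial.C q * Polynomial.X : Polynomial ℂ) ^ 2).coeff 2 = q ^ 2 := by
      intro j _
      have e : (Polynomial.C (y j) - Polynomial.C q * Polynomial.X : Polynomial ℂ) ^ 2 =
          Polynomial.C (q ^ 2) * Polynomial.X ^ 2 + (Polynomial.C (-(2 * y j * q)) * Polynomial.X + Polynomial.C (y j ^ 2)) := by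
        simp only [map_neg, map_mul, map_pow, map_ofNat]
        ring
      rw [e, Polynomial.coeff_add, Polynomial.coeff_add, Polynomial.coeff_C_mul_X_pow, Polynomial.coeff_C_mul,
        Polynomial.coeff_X, Polynomial.coeff_C]
      norm_num
    rw [Finset.prod_congr rfl h3, Finset.prod_const, card_range]
  have hLc : pL.coeff (2 * L + 1) = (q ^ 2) ^ L * ω (L + 1) L γ + (q ^ 2) ^ (L + 1) * ω L (L + 1) γ := by
    simp only [pL, Polynomial.finsetSum_coeff, Polynomial.coeff_C_mul, Polynomial.coeff_X_pow]
    have h1 : ∀ a ∈ range (L + 2), (∑ b ∈ range (L + 2), (q ^ 2) ^ b * ω a b γ * (if 2 * L + 1 = a + b then 1 else 0)) =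
        (if a = L + 1 then (q ^ 2) ^ L * ω (L + 1) L γ else 0) +
          (if a = L then (q ^ 2) ^ (L + 1) * ω L (L + 1) γ else 0) := by
      intro a ha
      have ha' := mem_range.1 ha
      by_cases h2 : a = L + 1
      · subst h2
        rw [Finset.sum_eq_single L]
        · rw [if_pos (by omega), if_pos rfl, if_neg (by omega)]
          ring
        · intro b _ hb
          rw [if_neg (by omega), mul_zero]
        · intro h
          exact absurd (mem_range.2 (by omega)) h
      · by_cases h3 : a = L
        · subst h3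
          rw [Finset.sum_eq_single (a + 1)]
          · rw [if_pos (by omega), if_neg h2, if_pos rfl]
            ring
          · intro b _ hb
            rw [if_neg (by omega), mul_zero]
          · intro h
            exact absurd (mem_range.2 (by omega)) h
        · rw [if_neg h2, if_neg h3, add_zero]
          refine Finset.sum_eq_zero fun b hb => ?_
          have hb' := mem_range.1 hb
          rw [if_neg (by omega), mul_zero]
    rw [Finset.sum_congr rfl h1, Finset.sum_add_distrib, Finset.sum_ite_eq', Finset.sum_ite_eq',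
      if_pos (mem_range.2 (by omega)), if_pos (mem_range.2 (by omega))]
  rw [hLc, hR] at hc
  have hne : (q ^ 2) ^ L ≠ 0 := pow_ne_zero _ (pow_ne_zero _ hq0)
  have hfin : ω (L + 1) L γ + q ^ 2 * ω L (L + 1) γ = (1 - q ^ 2) * v := by
    apply mul_left_cancel₀ hne
    rw [pow_succ] at hc
    linear_combination hc
  simpa [Pi.add_apply, Pi.smul_apply, smul_eq_mul] using hfin

end

end CY
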