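import Pool.Agent.Lib.MP_216314_pr.Z.TopJ
import Pool.Agent.Lib.MP_216314_pr.Z.TopU

/-!
# The highest coefficient
-/

set_option autoImplicit false

noncomputable section

namespace CY

open Finset

section

variable {q : ℂ} (hq : q ^ 2 + q + 1 = 0) {L : ℕ} (hL : 0 < L) (hE : Even L)
  {P : Pat (L + 2) → MvPolynomial ℕ ℂ} (hP : IsPsi q (L + 2) P)
  {P' : Pat L → MvPolynomial ℕ ℂ} (hP' : IsPsi q L P')
include hq hL hE hP hP'

/-- the highest coefficient -/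
theorem top_coeff (y : ℕ → ℂ) {ω : ℕ → ℕ → V (L + 2)}
    (hω : Bip (L + 2) (fun s t => ev P (insP 0 s t y)) ω) (h0 : ∀ a b, 2 * (L + 2) - 3 < a + b → ω a b = 0) :
    ω (L + 1) L = q • Jo q L (I 0 (ev P' y)) - q ^ 2 • I 0 (ev P' y) ∧
      E 0 (Jo q L (I 0 (ev P' y))) = I 0 (ev P' y) := by
  obtain ⟨h1, h2, h3⟩ := top_J hq hL hE hP y hω h0
  have h4 := top_fus hq hL hE hP hP' y hω h0
  have h5 : E 0 (I 0 (ev P' y)) = (I 0 (ev P' y) : V (L + 2)) := E_I 0 _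
  exact top_solve hq (E 0) (Jo q L) _ _ _ h3 h1 h2 h4 h5

end

end CY
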