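import Pool.Agent.Lib.MP_216314_pr.Z.TopC
import Pool.Agent.Lib.MP_216314_pr.Z.Form

/-!
# The form on the highest coefficients

`Xo_inv`: `(q + q² e)(q² + q e) = 1` (`e² = e`, `q³ = 1`; note `(q²)² = q`). `Xo_I`: `X_{i+1} ι_i = q ι_i + q² ι_{i+1} = Y_i ι_{i+1}` with
`Y_i = Xo (q²) i = q² + q⁴ e_i` (`E_I_right`, `E_I_left`). `ch_I`: `ch q 1 n (I 0 v) = dh q 0 n (I n v)` for `n ≤ L`, by induction: `X_{n+1}` commutes with
`Y_0, .., Y_{n-1}` (`E_comm`, period `L + 2`, `n + 1 ≤ L`). `Jo_I`: apply `RI` (`RI_E`, `RI_I_last`).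
`form_chain`: `BB (dh (q²) 1 L a) (dh q 1 L b) = BB a b`: `dh (q²) 1 L = X_1 ... X_L` (as `((q²)²) = q`), move the `X_i` to the right (`BB_Xo`,
`1 ≤ i ≤ L`, so `L + 2` does not divide `i + 1`): `X_L ... X_1 Y_1 ... Y_L = 1`.
`form_top`: `BB (q² J' ι' - q ι') (q J ι - q² ι) = q³ BB(J' ι', J ι) - q⁴ BB(J' ι', ι) - q² BB(ι', J ι) + q³ BB(ι', ι)`, where
`BB(J' ι', J ι) = BB (IS v') (IS v) = x BB v' v`, `BB(J' ι', ι) = BB(J' ι', E ι) = BB(E J' ι', ι) = BB(ι', ι) = BB v' v`, the same for the other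
mixed term; the sum is `(x - q - q² + 1) BB v' v`.
-/

set_option autoImplicit false

noncomputable section

namespace CY

open Finset

/-- `Y_a Y_{a+1} ... Y_{a+n-1}`, `Y_i = q² + q⁴ e_i` -/
def dh {L : ℕ} (q : ℂ) (a : ℤ) : ℕ → (V L →ₗ[ℂ] V L)
  | 0 => LinearMap.id
  | n + 1 => (dh q a n).comp (Xo (q ^ 2) (a + n))

private theorem TopF_nd {M d : ℤ} (h0 : 0 < d) (h1 : d < M) : ¬ M ∣ d := by
  intro h
  exact absurd (Int.le_of_dvd h0 h) (not_le.mpr h1)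

section

variable {q : ℂ} (hq : q ^ 2 + q + 1 = 0)
include hq

private theorem TopF_q4 : (q ^ 2) ^ 2 = q := by
  linear_combination (q ^ 2 - q) * hq

private theorem TopF_q2 : (q ^ 2) ^ 2 + q ^ 2 + 1 = 0 := by
  linear_combination (q ^ 2 - q + 1) * hq

theorem Xo_inv {L : ℕ} (i : ℤ) (v : V L) : Xo q i (Xo (q ^ 2) i v) = v := by
  simp only [Xo_apply, map_add, map_smul, E_E, TopF_q4 hq]
  funext α
  simp only [Pi.add_apply, Pi.smul_apply, smul_eq_mul]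
  linear_combination (v α * (q - 1) + E i v α * q ^ 2) * hq

theorem Xo_I {L : ℕ} (i : ℤ) (v : V L) : Xo q (i + 1) (I i v) = Xo (q ^ 2) i (I (i + 1) v) := by
  simp only [Xo_apply, TopF_q4 hq, E_I_right, E_I_left]
  exact add_comm _ _

omit hq in
private theorem TopF_XX {M : ℕ} (r s : ℂ) (i j : ℤ) (h1 : ¬ (M : ℤ) ∣ i - j) (h2 : ¬ (M : ℤ) ∣ i - j - 1)
    (h3 : ¬ (M : ℤ) ∣ i - j + 1) (w : V M) : Xo r i (Xo s j w) = Xo s j (Xo r i w) := by
  simp only [Xo_apply, map_add, map_smul, E_comm i j h1 h2 h3]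
  funext α
  simp only [Pi.add_apply, Pi.smul_apply, smul_eq_mul]
  ring

omit hq in
private theorem TopF_Xdh {L n : ℕ} (hn : n + 1 ≤ L) (m : ℕ) (hm : m ≤ n) (w : V (L + 2)) :
    Xo q (1 + n) (dh q 0 m w) = dh q 0 m (Xo q (1 + n) w) := by
  induction m generalizing w with
  | zero => rfl
  | succ m ih =>
    show Xo q (1 + n) (dh q 0 m (Xo (q ^ 2) (0 + m) w)) = dh q 0 m (Xo (q ^ 2) (0 + m) (Xo q (1 + n) w))
    rw [ih (by omega), TopF_XX q (q ^ 2) (1 + n) (0 + m) (TopF_nd (by omega) (by omega))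
      (TopF_nd (by omega) (by omega)) (TopF_nd (by omega) (by omega))]

theorem ch_I {L n : ℕ} (hn : n ≤ L) (v : V L) : ch q 1 n (I 0 v) = dh q 0 n (I (n : ℤ) v) := by
  induction n with
  | zero => rfl
  | succ n ih =>
    show Xo q (1 + n) (ch q 1 n (I 0 v)) = dh q 0 n (Xo (q ^ 2) (0 + n) (I ((n + 1 : ℕ) : ℤ) v))
    rw [ih (by omega), TopF_Xdh hn n le_rfl]
    have h1 : (1 + n : ℤ) = n + 1 := by ring
    have h2 : (0 + n : ℤ) = n := by ring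
    have h3 : ((n + 1 : ℕ) : ℤ) = n + 1 := by push_cast; ring
    rw [h1, h2, h3, Xo_I hq]

omit hq in
private theorem TopF_RI {M : ℕ} (n : ℕ) (w : V M) : RI (dh q 0 n w) = dh q 1 n (RI w) := by
  induction n generalizing w with
  | zero => rfl
  | succ n ih =>
    show RI (dh q 0 n (Xo (q ^ 2) (0 + n) w)) = dh q 1 n (Xo (q ^ 2) (1 + n) (RI w))
    rw [ih]
    have h1 : (0 + n + 1 : ℤ) = 1 + n := by ring
    simp only [Xo_apply, map_add, map_smul, RI_E, h1]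

theorem Jo_I {L : ℕ} (hL : 0 < L) (v : V L) : Jo q L (I 0 v) = dh q 1 L (IS v) := by
  show RI (ch q 1 L (I 0 v)) = _
  rw [ch_I hq le_rfl, TopF_RI, RI_I_last]

private theorem TopF_chain (x : ℂ) {L : ℕ} (n : ℕ) (hn : n ≤ L) (a b : V (L + 2)) :
    BB x (dh (q ^ 2) 1 n a) (dh q 1 n b) = BB x a b := by
  induction n generalizing a b with
  | zero => rfl
  | succ n ih =>
    show BB x (dh (q ^ 2) 1 n (Xo ((q ^ 2) ^ 2) (1 + n) a)) (dh q 1 n (Xo (q ^ 2) (1 + n) b)) = BB x a b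
    rw [ih (by omega), TopF_q4 hq, BB_Xo x q (TopF_nd (by omega) (by push_cast; omega)), Xo_inv hq]

theorem form_chain (x : ℂ) {L : ℕ} (a b : V (L + 2)) :
    BB x (dh (q ^ 2) 1 L a) (dh q 1 L b) = BB x a b :=
  TopF_chain hq x L le_rfl a b

theorem form_top (x : ℂ) {L : ℕ} (hL : 0 < L) (v' v : V L)
    (h1 : E 0 (Jo (q ^ 2) L (I 0 v')) = (I 0 v' : V (L + 2)))
    (h2 : E 0 (Jo q L (I 0 v)) = (I 0 v : V (L + 2))) :
    BB x ((q ^ 2) • Jo (q ^ 2) L (I 0 v') - (q ^ 2) ^ 2 • (I 0 v' : V (L + 2)))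
      (q • Jo q L (I 0 v) - q ^ 2 • (I 0 v : V (L + 2))) = (x + 2) * BB x v' v := by
  have hnd : ¬ ((L + 2 : ℕ) : ℤ) ∣ 0 + 1 := TopF_nd (by omega) (by push_cast; omega)
  have hI : BB x (I 0 v' : V (L + 2)) (I 0 v : V (L + 2)) = BB x v' v :=
    BB_I x le_rfl (by omega) v' v
  have e1 : BB x (Jo (q ^ 2) L (I 0 v')) (Jo q L (I 0 v)) = x * BB x v' v := by
    rw [Jo_I (TopF_q2 hq) hL, Jo_I hq hL, form_chain hq, BB_IS]
  have e2 : BB x (Jo (q ^ 2) L (I 0 v')) (I 0 v : V (L + 2)) = BB x v' v := by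
    have h3 := BB_E x hnd (Jo (q ^ 2) L (I 0 v')) (I 0 v : V (L + 2))
    rw [h1, E_I] at h3
    rw [← h3, hI]
  have e3 : BB x (I 0 v' : V (L + 2)) (Jo q L (I 0 v)) = BB x v' v := by
    have h3 := BB_E x hnd (I 0 v' : V (L + 2)) (Jo q L (I 0 v))
    rw [h2, E_I] at h3
    rw [h3, hI]
  simp only [map_sub, map_smul, LinearMap.sub_apply, LinearMap.smul_apply, smul_eq_mul, e1, e2, e3, hI]
  linear_combination (BB x v' v * (x * (q - 1) + (q ^ 4 - 2 * q ^ 3 + 2 * q - 2))) * hq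

end

end CY
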