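import Pool.Agent.Lib.MP_216314_pr.Z.TopS

/-!
# Rotation of the highest coefficients (proof in the header of `TopS`)
-/

set_option autoImplicit false

noncomputable section

namespace CY

open Finset

section

variable {q : ℂ} (hq : q ^ 2 + q + 1 = 0) {L : ℕ} (hL : 0 < L) (hE : Even L)
  {P : Pat (L + 2) → MvPolynomial ℕ ℂ} (hP : IsPsi q (L + 2) P)
include hq hL hE hP

private theorem topJ_zero (y : ℕ → ℂ) {ω : ℕ → ℕ → V (L + 2)}
    (hω : Bip (L + 2) (fun s t => ev P (insP 0 s t y)) ω) (h0 : ∀ a b, 2 * (L + 2) - 3 < a + b → ω a b = 0) :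
    ω L (L + 1) = -(q • ω (L + 1) L + q ^ 2 • E 0 (ω (L + 1) L)) := by
  have hd : 1 ≤ L + 1 := by omega
  have h00 : ω (L + 1) (L + 1) = 0 := h0 _ _ (by omega)
  have key := cmp_zero hq hd (E 0 : V (L + 2) →ₗ[ℂ] V (L + 2)) (f := fun s t => ev P (insP 0 s t y))
    (ω := ω) hω h00 (fun s t => ?_)
  · exact key
  · have h1 := hP.exch (insP 0 s t y) 0 (by omega)
    rw [sw_insP] at h1
    obtain ⟨e0, e1, -⟩ := insP_zero_apply s t y
    rw [zero_add, e0, e1] at h1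
    exact h1

private theorem topJ_ind (y : ℕ → ℂ) {ω : ℕ → ℕ → V (L + 2)}
    (hω : Bip (L + 2) (fun s t => ev P (insP 0 s t y)) ω) (h0 : ∀ a b, 2 * (L + 2) - 3 < a + b → ω a b = 0)
    (k : ℕ) (hk : k ≤ L) :
    ∃ ω' : ℕ → ℕ → V (L + 2), Bip (L + 2) (fun s t => ev P (pt (k + 1) s t y)) ω' ∧
      (∀ a b, 2 * (L + 2) - 3 < a + b → ω' a b = 0) ∧
      ω' (L + 1) L = (-1 : ℂ) ^ k • ch q 1 k (ω (L + 1) L) ∧
      ω' L (L + 1) = (-1 : ℂ) ^ k • ch q 1 k (ω L (L + 1)) := by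
  induction k with
  | zero =>
    refine ⟨ω, ?_, h0, ?_, ?_⟩
    · intro s t
      rw [← hω s t]
      show ev P (pt (0 + 1) s t y) = ev P (insP 0 s t y)
      rw [zero_add, pt_one]
    · rw [pow_zero, one_smul]; rfl
    · rw [pow_zero, one_smul]; rfl
  | succ k ih =>
    obtain ⟨ω1, hb1, hz1, ha1, ha2⟩ := ih (by omega)
    obtain ⟨ω2, hb2, hz2⟩ := expand hP (k := k + 2) (by omega) (by omega) y
    have hd : 1 ≤ L + 1 := by omega
    have key := cmp hq hd (E ((k + 1 : ℕ) : ℤ) : V (L + 2) →ₗ[ℂ] V (L + 2)) (y k)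
      (f := fun s t => ev P (pt (k + 1) s t y)) (g := fun s t => ev P (pt (k + 2) s t y))
      (ω := ω1) (η := ω2) hb1 hb2 (hz1 _ _ (by omega)) (hz2 _ _ (by omega)) (fun s t => ?_)
    · obtain ⟨k1, k2⟩ := key
      have hcast : ((k + 1 : ℕ) : ℤ) = 1 + (k : ℤ) := by push_cast; ring
      have hch : ∀ w : V (L + 2), ch q 1 (k + 1) w
          = q • ch q 1 k w + q ^ 2 • E ((k + 1 : ℕ) : ℤ) (ch q 1 k w) := by
        intro w
        rw [hcast]
        rfl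
      refine ⟨ω2, hb2, hz2, ?_, ?_⟩
      · have k1' : ω2 (L + 1) L = -(q • ω1 (L + 1) L + q ^ 2 • E ((k + 1 : ℕ) : ℤ) (ω1 (L + 1) L)) := k1
        rw [k1', ha1, hch, map_smul, pow_succ]
        module
      · have k2' : ω2 L (L + 1) = -(q • ω1 L (L + 1) + q ^ 2 • E ((k + 1 : ℕ) : ℤ) (ω1 L (L + 1))) := k2
        rw [k2', ha2, hch, map_smul, pow_succ]
        module
    · have h1 := hP.exch (pt (k + 1) s t y) (k + 1) (by omega)
      rw [sw_pt (Nat.succ_pos k), pt_apply_self (Nat.succ_pos k), pt_apply_succ (Nat.succ_pos k)] at h1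
      exact h1

private theorem topJ_rot (y : ℕ → ℂ) {ω : ℕ → ℕ → V (L + 2)}
    (hω : Bip (L + 2) (fun s t => ev P (insP 0 s t y)) ω) :
    Bip (L + 2) (fun s t => ev P (pt (L + 1) s t y)) (fun a b => R (ω b a)) := by
  intro s t
  show ev P (pt (L + 1) s t y) = _
  have h1 := hP.rot (pt 1 t s y)
  rw [cyc_pt, pt_one] at h1
  have h2 := hω t s
  rw [h1]
  have h3 : ev P (insP 0 t s y) = ∑ a ∈ range (L + 2), ∑ b ∈ range (L + 2), (t ^ a * s ^ b) • ω a b := h2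
  rw [h3, map_sum, Finset.sum_comm]
  refine Finset.sum_congr rfl fun a _ => ?_
  rw [map_sum]
  refine Finset.sum_congr rfl fun b _ => ?_
  rw [map_smul, mul_comm]

theorem top_J (y : ℕ → ℂ) {ω : ℕ → ℕ → V (L + 2)}
    (hω : Bip (L + 2) (fun s t => ev P (insP 0 s t y)) ω) (h0 : ∀ a b, 2 * (L + 2) - 3 < a + b → ω a b = 0) :
    Jo q L (ω (L + 1) L) = ω L (L + 1) ∧ Jo q L (ω L (L + 1)) = ω (L + 1) L ∧
      ω L (L + 1) = -(q • ω (L + 1) L + q ^ 2 • E 0 (ω (L + 1) L)) := by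
  obtain ⟨ω', hb, -, h1, h2⟩ := topJ_ind hq hL hE hP y hω h0 L le_rfl
  have hr := topJ_rot hq hL hE hP y hω
  have hpow : (-1 : ℂ) ^ L = 1 := Even.neg_one_pow hE
  rw [hpow, one_smul] at h1 h2
  have u1 : ω' (L + 1) L = R (ω L (L + 1)) := Bip.unique hb hr (by omega) (by omega)
  have u2 : ω' L (L + 1) = R (ω (L + 1) L) := Bip.unique hb hr (by omega) (by omega)
  refine ⟨?_, ?_, topJ_zero hq hL hE hP y hω h0⟩
  · show RI (ch q 1 L (ω (L + 1) L)) = _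
    rw [← h1, u1, RI_R]
  · show RI (ch q 1 L (ω L (L + 1))) = _
    rw [← h2, u2, RI_R]

end

end CY
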