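import Pool.Agent.Lib.MP_216314_pr.Z.TopB
import Pool.Agent.Lib.MP_216314_pr.Z.FusD

/-!
# The two highest coefficients

Period `M = L + 2`, `d = L + 1`. For `1 ≤ k ≤ L + 1` let `ω^k` be the coefficients of `ev P (pt k s t y)` (`expand`).
`exch` at `k` (`1 ≤ k ≤ L`), with `pt_apply_self`, `pt_apply_succ`, `sw_pt`, and `cmp`: `ω^{k+1}_{d,d-1} = - Xo q k ω^k_{d,d-1}`, the same for
`(d-1, d)`. `rot` at `pt 1 t s y`, `cyc_pt`: `ω^{L+1}_{a,b} = R ω^1_{b,a}`. Hence with `Ω1 = ω^1_{d,d-1}`, `Ω2 = ω^1_{d-1,d}` and `L` even: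
`R Ω2 = ch q 1 L Ω1`, `R Ω1 = ch q 1 L Ω2`. `exch` at `0` and `cmp_zero`: `Ω2 = - Xo q 0 Ω1`.
Fusion: `ev P (pt 1 s (q² s) y) = Kf q L s y • I 0 (ev P' y)`: compare the coefficients of `s^(2L+1)`; on the left only `(a,b) = (d,d-1), (d-1,d)`
(`a + b = 2M - 3`), on the right the leading coefficient of `Kf q L s y` in `s` is `(1 - q²) q^(2L)`:
`q^(2L) Ω1 + q^(2(L+1)) Ω2 = (1-q²) q^(2L) I_0 Ψ''`.
Algebra (`top_solve`): `Ω2 = -q Ω1 - q² E Ω1`, so `-q E Ω1 = (1-q²) ι`, `E Ω1 = (q - q²) ι`, `Ω2 = -q Ω1 - (1-q) ι`; apply `J = RI ∘ ch`: `Ω1 = -q Ω2 - (1-q) J ι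
= q² Ω1 + q (1-q) ι - (1-q) J ι`, `1 - q² = -q² (1 - q)`: `Ω1 = q J ι - q² ι`; and `E J ι = ι` follows from `E Ω1 = (q-q²) ι` and `E ι = ι`.
-/

set_option autoImplicit false

noncomputable section

namespace CY

open Finset

/-- `X_{a+n-1} ... X_{a+1} X_a` -/
def ch {L : ℕ} (q : ℂ) (a : ℤ) : ℕ → (V L →ₗ[ℂ] V L)
  | 0 => LinearMap.id
  | n + 1 => (Xo q (a + n)).comp (ch q a n)

/-- `J = ρ⁻¹ X_L ... X_1` on the vectors of period `L + 2` -/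
def Jo (q : ℂ) (L : ℕ) : V (L + 2) →ₗ[ℂ] V (L + 2) := RI.comp (ch q 1 L)

/-- algebra of the two coefficients -/
theorem top_solve {q : ℂ} (hq : q ^ 2 + q + 1 = 0) {W : Type*} [AddCommGroup W] [Module ℂ W]
    (A J : W →ₗ[ℂ] W) (Ω1 Ω2 ι : W) (h1 : Ω2 = -(q • Ω1 + q ^ 2 • A Ω1)) (h2 : J Ω1 = Ω2)
    (h3 : J Ω2 = Ω1) (h4 : Ω1 + q ^ 2 • Ω2 = (1 - q ^ 2) • ι) (h5 : A ι = ι) :
    Ω1 = q • J ι - q ^ 2 • ι ∧ A (J ι) = ι := by
  have q3 : q ^ 3 = 1 := by linear_combination (q - 1) * hq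
  have hq1 : (1 : ℂ) - q ≠ 0 := by
    intro h
    have h2 : q = 1 := by linear_combination -h
    rw [h2] at hq
    norm_num at hq
  have hq0 : q ≠ 0 := by
    intro h
    rw [h] at hq
    norm_num at hq
  have e0 : (-q) • A Ω1 = (1 - q ^ 2) • ι := by
    rw [← h4, h1]
    have a1 : Ω1 + q ^ 2 • -(q • Ω1 + q ^ 2 • A Ω1) = (1 - q ^ 3) • Ω1 + (-(q ^ 3 * q)) • A Ω1 := by
      module
    rw [a1, q3, sub_self, zero_smul, zero_add, one_mul]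
  have e1 : A Ω1 = (q - q ^ 2) • ι := by
    have a1 : A Ω1 = (-(q ^ 2)) • ((-q) • A Ω1) := by
      rw [smul_smul]
      have : -(q ^ 2) * -q = 1 := by linear_combination (q - 1) * hq
      rw [this, one_smul]
    rw [a1, e0, smul_smul]
    have : -(q ^ 2) * (1 - q ^ 2) = q - q ^ 2 := by linear_combination (q * (q - 1)) * hq
    rw [this]
  have e2 : Ω2 = -(q • Ω1) - (1 - q) • ι := by
    rw [h1, e1]
    have a1 : -(q • Ω1 + q ^ 2 • (q - q ^ 2) • ι) = -(q • Ω1) - (q ^ 3 - q ^ 3 * q) • ι := by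
      module
    rw [a1, q3, one_mul]
  have e3 : Ω1 = q ^ 2 • Ω1 + (q * (1 - q)) • ι - (1 - q) • J ι := by
    have a1 : J Ω2 = -(q • J Ω1) - (1 - q) • J ι := by
      conv_lhs => rw [e2]
      rw [map_sub, map_neg, map_smul, map_smul]
    rw [h3, h2] at a1
    conv_lhs => rw [a1, e2]
    module
  have e4 : Ω1 = q • J ι - q ^ 2 • ι := by
    have a1 : (1 - q) • Ω1 = (1 - q) • (q • J ι - q ^ 2 • ι) := by
      have a2 : (1 - q ^ 2) • Ω1 = (q * (1 - q)) • ι - (1 - q) • J ι := by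
        have a3 : (1 - q ^ 2) • Ω1 = Ω1 - q ^ 2 • Ω1 := by module
        rw [a3]
        conv_lhs => rw [show Ω1 - q ^ 2 • Ω1 = (Ω1) - q ^ 2 • Ω1 from rfl]
        have a4 : Ω1 - q ^ 2 • Ω1 = (q ^ 2 • Ω1 + (q * (1 - q)) • ι - (1 - q) • J ι) - q ^ 2 • Ω1 := by
          rw [← e3]
        rw [a4]; module
      have a5 : (1 - q) • Ω1 = (-q) • ((1 - q ^ 2) • Ω1) := by
        rw [smul_smul]
        have : -q * (1 - q ^ 2) = 1 - q := by linear_combination (q - 1) * hq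
        rw [this]
      rw [a5, a2]
      module
    exact smul_right_injective W hq1 a1
  refine ⟨e4, ?_⟩
  have a1 : A Ω1 = q • A (J ι) - q ^ 2 • ι := by
    conv_lhs => rw [e4]
    rw [map_sub, map_smul, map_smul, h5]
  rw [e1] at a1
  have a2 : q • A (J ι) = q • ι := by
    have a3 : q • A (J ι) = (q • A (J ι) - q ^ 2 • ι) + q ^ 2 • ι := by module
    rw [a3, ← a1]; module
  exact smul_right_injective W hq0 a2

end CY
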