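import Pool.Agent.Lib.MP_216314_pr.Z.WDef

/-!
# The sum as a function of one variable

`hg s t b : Polynomial ℂ` is the polynomial `(X - b) * gg q s t X b`, of degree `≤ 3` with `X³`-coefficient `1`:
`s = t`: `(X - b)(X² + X b + b²)`; `s = true, t = false`: `-(b - q² X)³` (`(q²)³ = 1`); `s = false, t = true`: `(X - q² b)³`.
`rr = ∑_σ wt σ pp σ z (∏_j hg false (σ j) (z j) + w ∏_j hg true (σ j) (z j))` (by `WW_cons`): degree `≤ 3m`, coefficient of `X^(3m)`:
`(1 + w) WW m z`. Zero at `X = z_k` (`rr_zero`): for `s = σ_k` the factor `hg s s (z_k)` vanishes at `z_k`. The remaining terms are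
`(s, σ) = (false, σ with σ_k = true)` and `(true, σ' with σ'_k = false)`; pair `σ` with `σ' = update σ k false`; the factor `k`:
`hg false true z_k z_k = (z_k - q² z_k)³`, `hg true false z_k z_k = -(z_k - q² z_k)³`; the weights are `w` times the weight of the other
indices in both cases; the other factors: `pp σ z` contains `∏_{j ≠ k} gg true (σ j) z_k z_j` and we multiply by
`∏_{j≠k} (z_k - z_j) gg false (σ j) z_k z_j`; for `σ'` the roles of `true` and `false` are exchanged; so the two terms cancel.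
-/

set_option autoImplicit false

noncomputable section

namespace CY

open Finset

/-- `(X - b) gg q s t X b` as a polynomial -/
def hg (q : ℂ) (s t : Bool) (b : ℂ) : Polynomial ℂ :=
  if s = t then (Polynomial.X - Polynomial.C b) * (Polynomial.X ^ 2 + Polynomial.X * Polynomial.C b + Polynomial.C b ^ 2)
  else if s then -(Polynomial.C b - Polynomial.C (q ^ 2) * Polynomial.X) ^ 3
  else (Polynomial.X - Polynomial.C (q ^ 2 * b)) ^ 3

/-- the numerator polynomial -/
def rr (q w : ℂ) (m : ℕ) (z : ℕ → ℂ) : Polynomial ℂ :=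
  ∑ σ : Fin m → Bool, Polynomial.C (wt w σ * pp q σ z) *
    ((∏ j : Fin m, hg q false (σ j) (z j)) + Polynomial.C w * ∏ j : Fin m, hg q true (σ j) (z j))

theorem WPol_hg_eval (q : ℂ) (s t : Bool) {a b : ℂ} (h : a ≠ b) :
    (hg q s t b).eval a = (a - b) * gg q s t a b := by
  have h1 : a - b ≠ 0 := sub_ne_zero.2 h
  have h2 : b - a ≠ 0 := sub_ne_zero.2 h.symm
  cases s <;> cases t
  · simp [hg, gg]
    exact Or.inl (mul_comm _ _)
  · simp only [hg, gg, Bool.false_eq_true, if_false]
    simp only [Polynomial.eval_pow, Polynomial.eval_sub, Polynomial.eval_X, Polynomial.eval_C]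
    rw [mul_div_cancel₀ _ h1]
  · simp only [hg, gg, Bool.true_eq_false, if_false, if_true]
    simp only [Polynomial.eval_neg, Polynomial.eval_pow, Polynomial.eval_sub, Polynomial.eval_mul,
      Polynomial.eval_X, Polynomial.eval_C]
    rw [eq_comm, ← neg_sub b a, neg_mul, mul_div_cancel₀ _ h2]
  · simp [hg, gg]
    exact Or.inl (mul_comm _ _)

theorem WPol_hg_self (q : ℂ) (s : Bool) (a : ℂ) : (hg q s s a).eval a = 0 := by
  simp [hg]

theorem WPol_hg_ft (q : ℂ) (a : ℂ) : (hg q false true a).eval a = (a - q ^ 2 * a) ^ 3 := by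
  simp [hg]

theorem WPol_hg_tf (q : ℂ) (a : ℂ) : (hg q true false a).eval a = -(a - q ^ 2 * a) ^ 3 := by
  simp [hg]

theorem WPol_hg_eq (q : ℂ) (s t : Bool) (b : ℂ) : ∃ c0 c1 c2 : ℂ, hg q s t b =
    Polynomial.C (if s = true ∧ t = false then q ^ 6 else 1) * Polynomial.X ^ 3 +
      Polynomial.C c2 * Polynomial.X ^ 2 + Polynomial.C c1 * Polynomial.X + Polynomial.C c0 := by
  cases s <;> cases t
  · refine ⟨-b ^ 3, 0, 0, ?_⟩
    simp only [hg, if_true, Bool.false_eq_true, false_and, if_false, map_neg, map_pow, map_zero, map_one]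
    ring
  · refine ⟨-(q ^ 2 * b) ^ 3, 3 * (q ^ 2 * b) ^ 2, -3 * (q ^ 2 * b), ?_⟩
    simp only [hg, Bool.false_eq_true, false_and, if_false, map_neg, map_pow, map_mul, map_one]
    simp only [map_ofNat]
    ring
  · refine ⟨-b ^ 3, 3 * b ^ 2 * q ^ 2, -3 * b * q ^ 4, ?_⟩
    simp only [hg, Bool.true_eq_false, and_self, if_true, if_false, map_neg, map_pow, map_mul]
    simp only [map_ofNat]
    ring
  · refine ⟨-b ^ 3, 0, 0, ?_⟩
    simp only [hg, if_true, Bool.true_eq_false, and_false, if_false, map_neg, map_pow, map_zero, map_one]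
    ring

theorem WPol_hg_deg (q : ℂ) (s t : Bool) (b : ℂ) : (hg q s t b).natDegree ≤ 3 := by
  obtain ⟨c0, c1, c2, h⟩ := WPol_hg_eq q s t b
  rw [h]
  exact Polynomial.natDegree_cubic_le

theorem WPol_hg_coeff {q : ℂ} (hq : q ^ 2 + q + 1 = 0) (s t : Bool) (b : ℂ) : (hg q s t b).coeff 3 = 1 := by
  obtain ⟨c0, c1, c2, h⟩ := WPol_hg_eq q s t b
  rw [h]
  have h6 : q ^ 6 = 1 := by linear_combination (q ^ 4 - q ^ 3 + q - 1) * hq
  simp only [Polynomial.coeff_add, Polynomial.coeff_C_mul, Polynomial.coeff_X_pow, Polynomial.coeff_X,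
    Polynomial.coeff_C]
  rw [h6]
  simp

theorem WPol_split {m : ℕ} (k : Fin m) (g : Fin m → Fin m → ℂ) (hg : ∀ i j, g i j = g j i) :
    ∏ i, ∏ j ∈ Ioi i, g i j =
      (∏ j ∈ univ.erase k, g k j) * ∏ i ∈ univ.erase k, ∏ j ∈ (Ioi i).erase k, g i j := by
  classical
  rw [← Finset.mul_prod_erase univ (fun i => ∏ j ∈ Ioi i, g i j) (mem_univ k)]
  have h1 : ∀ i ∈ univ.erase k, ∏ j ∈ Ioi i, g i j =
      (if i < k then g k i else 1) * ∏ j ∈ (Ioi i).erase k, g i j := by
    intro i hi
    by_cases h : i < k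
    · rw [if_pos h, ← Finset.mul_prod_erase (Ioi i) (fun j => g i j) (mem_Ioi.2 h), hg i k]
    · rw [if_neg h, one_mul, Finset.erase_eq_of_notMem]
      rw [mem_Ioi]
      exact h
  rw [Finset.prod_congr rfl h1, Finset.prod_mul_distrib, ← mul_assoc]
  refine congrArg (fun x => x * ∏ i ∈ univ.erase k, ∏ j ∈ (Ioi i).erase k, g i j) ?_
  have h2 : ∀ j ∈ univ.erase k, g k j = (if k < j then g k j else 1) * (if j < k then g k j else 1) := by
    intro j hj
    have hjk : j ≠ k := (Finset.mem_erase.1 hj).1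
    rcases lt_or_gt_of_ne hjk with h | h
    · rw [if_neg (not_lt.2 h.le), if_pos h, one_mul]
    · rw [if_pos h, if_neg (not_lt.2 h.le), mul_one]
  rw [Finset.prod_congr rfl h2, Finset.prod_mul_distrib]
  refine congrArg (fun x => x * ∏ j ∈ univ.erase k, (if j < k then g k j else 1)) ?_
  rw [← Finset.prod_filter]
  refine Finset.prod_congr ?_ fun _ _ => rfl
  ext j
  rw [mem_Ioi, mem_filter, mem_erase]
  constructor
  · intro h
    exact ⟨⟨(ne_of_lt h).symm, mem_univ _⟩, h⟩
  · intro h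
    exact h.2

theorem WPol_wt {m : ℕ} (w : ℂ) (k : Fin m) (σ : Fin m → Bool) (s : Bool) :
    wt w (Function.update σ k s) = (if s then w else 1) * ∏ i ∈ univ.erase k, (if σ i then w else 1) := by
  classical
  unfold wt
  rw [← Finset.mul_prod_erase univ _ (mem_univ k), Function.update_self]
  refine congrArg (fun x => (if s then w else 1) * x) ?_
  refine Finset.prod_congr rfl fun i hi => ?_
  rw [Function.update_of_ne (Finset.mem_erase.1 hi).1]

theorem WPol_pp {m : ℕ} (q : ℂ) (z : ℕ → ℂ) (k : Fin m) (σ : Fin m → Bool) (s : Bool) :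
    pp q (Function.update σ k s) z = (∏ j ∈ univ.erase k, gg q s (σ j) (z k) (z j)) *
      ∏ i ∈ univ.erase k, ∏ j ∈ (Ioi i).erase k, gg q (σ i) (σ j) (z i) (z j) := by
  classical
  unfold pp
  rw [WPol_split k (fun i j => gg q (Function.update σ k s i) (Function.update σ k s j) (z i) (z j))
    (fun i j => gg_symm q _ _ _ _)]
  have h1 : ∀ j ∈ univ.erase k, gg q (Function.update σ k s k) (Function.update σ k s j) (z k) (z j) =
      gg q s (σ j) (z k) (z j) := by
    intro j hj
    rw [Function.update_self, Function.update_of_ne (Finset.mem_erase.1 hj).1]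
  have h2 : ∀ i ∈ univ.erase k, ∏ j ∈ (Ioi i).erase k,
      gg q (Function.update σ k s i) (Function.update σ k s j) (z i) (z j) =
      ∏ j ∈ (Ioi i).erase k, gg q (σ i) (σ j) (z i) (z j) := by
    intro i hi
    refine Finset.prod_congr rfl fun j hj => ?_
    rw [Function.update_of_ne (Finset.mem_erase.1 hi).1, Function.update_of_ne (Finset.mem_erase.1 hj).1]
  rw [Finset.prod_congr rfl h1, Finset.prod_congr rfl h2]

theorem WPol_hh {m : ℕ} (q : ℂ) (z : ℕ → ℂ) (k : Fin m) (hd : ∀ j, j ≠ k → z k ≠ z j) (σ : Fin m → Bool)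
    (s t : Bool) :
    ∏ j : Fin m, (hg q t (Function.update σ k s j) (z j)).eval (z k) =
      (hg q t s (z k)).eval (z k) * ((∏ j ∈ univ.erase k, (z k - z j)) *
        ∏ j ∈ univ.erase k, gg q t (σ j) (z k) (z j)) := by
  classical
  rw [← Finset.mul_prod_erase univ _ (mem_univ k), Function.update_self, ← Finset.prod_mul_distrib]
  refine congrArg (fun x => (hg q t s (z k)).eval (z k) * x) ?_
  refine Finset.prod_congr rfl fun j hj => ?_
  rw [Function.update_of_ne (Finset.mem_erase.1 hj).1, WPol_hg_eval q t (σ j) (hd j (Finset.mem_erase.1 hj).1)]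

/-- one term of `rr`, evaluated at `a` -/
def WPol_term (q w : ℂ) {m : ℕ} (z : ℕ → ℂ) (a : ℂ) (σ : Fin m → Bool) : ℂ :=
  wt w σ * pp q σ z * ((∏ j : Fin m, (hg q false (σ j) (z j)).eval a) +
    w * ∏ j : Fin m, (hg q true (σ j) (z j)).eval a)

theorem WPol_rr_eval (q w : ℂ) (m : ℕ) (z : ℕ → ℂ) (a : ℂ) :
    (rr q w m z).eval a = ∑ σ : Fin m → Bool, WPol_term q w z a σ := by
  unfold rr WPol_term
  rw [Polynomial.eval_finsetSum]
  refine Finset.sum_congr rfl fun σ _ => ?_
  rw [Polynomial.eval_mul, Polynomial.eval_C, Polynomial.eval_add, Polynomial.eval_mul, Polynomial.eval_C,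
    Polynomial.eval_prod, Polynomial.eval_prod]

theorem WPol_pair {m : ℕ} (q w : ℂ) (z : ℕ → ℂ) (k : Fin m) (hd : ∀ j, j ≠ k → z k ≠ z j) (σ : Fin m → Bool) :
    WPol_term q w z (z k) (Function.update σ k true) + WPol_term q w z (z k) (Function.update σ k false) = 0 := by
  unfold WPol_term
  rw [WPol_wt, WPol_wt, WPol_pp, WPol_pp, WPol_hh q z k hd σ true false, WPol_hh q z k hd σ true true,
    WPol_hh q z k hd σ false false, WPol_hh q z k hd σ false true, WPol_hg_self, WPol_hg_self, WPol_hg_ft,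
    WPol_hg_tf]
  simp only [if_true, Bool.false_eq_true, if_false]
  ring

section

variable {q : ℂ} (hq : q ^ 2 + q + 1 = 0) (w : ℂ) (m : ℕ) (z : ℕ → ℂ)

theorem rr_eval (a : ℂ) (h : ∀ j, j < m → a ≠ z j) :
    (rr q w m z).eval a = WW q w (m + 1) (consN a z) * ∏ j ∈ range m, (a - z j) := by
  rw [WPol_rr_eval, WW_cons, Finset.sum_mul]
  refine Finset.sum_congr rfl fun σ _ => ?_
  unfold WPol_term
  have h1 : ∀ t : Bool, ∏ j : Fin m, (hg q t (σ j) (z j)).eval a =
      (∏ j ∈ range m, (a - z j)) * ∏ j : Fin m, gg q t (σ j) a (z j) := by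
    intro t
    rw [Finset.prod_range, ← Finset.prod_mul_distrib]
    exact Finset.prod_congr rfl fun j _ => WPol_hg_eval q t (σ j) (h j j.2)
  rw [h1, h1]
  ring

theorem rr_degree : (rr q w m z).natDegree ≤ 3 * m := by
  unfold rr
  have h1 : ∀ (t : Bool) (σ : Fin m → Bool), (∏ j : Fin m, hg q t (σ j) (z j)).natDegree ≤ 3 * m := by
    intro t σ
    refine (Polynomial.natDegree_prod_le _ _).trans ?_
    refine (Finset.sum_le_sum fun j _ => WPol_hg_deg q t (σ j) (z j)).trans ?_
    rw [Finset.sum_const, Finset.card_univ, Fintype.card_fin, smul_eq_mul, mul_comm]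
  refine Polynomial.natDegree_sum_le_of_forall_le _ _ fun σ _ => ?_
  refine (Polynomial.natDegree_C_mul_le _ _).trans ?_
  refine (Polynomial.natDegree_add_le _ _).trans (max_le (h1 false σ) ?_)
  exact (Polynomial.natDegree_C_mul_le _ _).trans (h1 true σ)

include hq

theorem rr_coeff : (rr q w m z).coeff (3 * m) = (1 + w) * WW q w m z := by
  have h1 : ∀ (t : Bool) (σ : Fin m → Bool), (∏ j : Fin m, hg q t (σ j) (z j)).coeff (3 * m) = 1 := by
    intro t σ
    have h2 := Polynomial.coeff_prod_of_natDegree_le (s := (univ : Finset (Fin m)))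
      (fun j => hg q t (σ j) (z j)) 3 (fun j _ => WPol_hg_deg q t (σ j) (z j))
    rw [Finset.card_univ, Fintype.card_fin, mul_comm] at h2
    rw [h2]
    exact Finset.prod_eq_one fun j _ => WPol_hg_coeff hq t (σ j) (z j)
  unfold rr WW
  rw [Polynomial.finsetSum_coeff, Finset.mul_sum]
  refine Finset.sum_congr rfl fun σ _ => ?_
  rw [Polynomial.coeff_C_mul, Polynomial.coeff_add, Polynomial.coeff_C_mul, h1, h1]
  ring

theorem rr_zero (k : ℕ) (hk : k < m) (hd : ∀ i j, i < m → j < m → i ≠ j → z i ≠ z j) :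
    (rr q w m z).eval (z k) = 0 := by
  classical
  have hd' : ∀ j : Fin m, j ≠ ⟨k, hk⟩ → z ((⟨k, hk⟩ : Fin m) : ℕ) ≠ z j := by
    intro j hj
    exact hd k j hk j.2 fun h => hj (Fin.ext h.symm)
  rw [WPol_rr_eval]
  refine Finset.sum_involution (fun σ _ => Function.update σ ⟨k, hk⟩ (!σ ⟨k, hk⟩)) ?_ ?_ ?_ ?_
  · intro σ _
    have h1 := WPol_pair q w z ⟨k, hk⟩ hd' σ
    cases h : σ ⟨k, hk⟩
    · have h2 : Function.update σ ⟨k, hk⟩ false = σ := by
        rw [← h, Function.update_eq_self]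
      rw [h2] at h1
      rw [add_comm]
      exact h1
    · have h2 : Function.update σ ⟨k, hk⟩ true = σ := by
        rw [← h, Function.update_eq_self]
      rw [h2] at h1
      exact h1
  · intro σ _ _ h
    have h1 := congrFun h ⟨k, hk⟩
    rw [Function.update_self] at h1
    cases h2 : σ ⟨k, hk⟩ <;> rw [h2] at h1 <;> simp at h1
  · intro σ _
    exact mem_univ _
  · intro σ _
    show Function.update (Function.update σ ⟨k, hk⟩ (!σ ⟨k, hk⟩)) ⟨k, hk⟩
      (!(Function.update σ ⟨k, hk⟩ (!σ ⟨k, hk⟩) ⟨k, hk⟩)) = σ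
    rw [Function.update_self, Bool.not_not, Function.update_idem, Function.update_eq_self]

end

end CY
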