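import Pool.Agent.Lib.MP_216314_pr.Z.WDef

/-!
# Recursion of the sum at `z_1 = q² z_0`

`insP 0 a (q² a) z = consN a (consN (q² a) z)`, `WW_cons` twice. The pair factor of the first two places: `gg s s a (q² a) = a²(1 + q² + q⁴) = 0`,
`gg true false a (q² a) = (q² a - q² a)³/.. = 0`, `gg false true a (q² a) = (a - q⁴ a)³/(a - q² a) = a² (1-q)³/(1-q²) = 3 q² a²`. So only
`σ_0 = false`, `σ_1 = true` contributes, with weight `w`. For the other indices `j` with entry `u = z j` (`u ≠ a`, `u ≠ q² a`):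
`σ_j = false`: `gg false false a u * gg true false (q² a) u = (u - q a)(u - q² a) (u - q⁴ a)³/(u - q² a) = (u - q a)^4`;
`σ_j = true`: `gg false true a u * gg true true (q² a) u = (a - q² u)³/(a - u) * (u - a)(u - q a)` (`q^4 a² + q² a u + u² = (u - a)(u - q a)`),
`(a - q² u)³ = -(u - q a)³`: again `(u - q a)^4`.
-/

set_option autoImplicit false

noncomputable section

namespace CY

open Finset

private theorem WRec_wt (w : ℂ) {L : ℕ} (s : Bool) (τ : Fin L → Bool) :
    wt w (Fin.cons s τ : Fin (L + 1) → Bool) = (if s then w else 1) * wt w τ := by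
  unfold wt
  rw [Fin.prod_univ_succ, Fin.cons_zero]
  simp only [Fin.cons_succ]

private theorem WRec_pp (q b : ℂ) {L : ℕ} (s : Bool) (τ : Fin L → Bool) (z : ℕ → ℂ) :
    pp q (Fin.cons s τ : Fin (L + 1) → Bool) (consN b z) =
      (∏ j : Fin L, gg q s (τ j) b (z j)) * pp q τ z := by
  unfold pp
  rw [Fin.prod_univ_succ, Fin.prod_Ioi_zero]
  simp only [Fin.prod_Ioi_succ, Fin.cons_zero, Fin.cons_succ]
  rfl

private theorem WRec_sum {L : ℕ} (F : (Fin (L + 1) → Bool) → ℂ) :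
    ∑ σ : Fin (L + 1) → Bool, F σ =
      ∑ τ : Fin L → Bool, (F (Fin.cons false τ) + F (Fin.cons true τ)) := by
  rw [← (Fin.consEquiv (fun _ : Fin (L + 1) => Bool)).sum_comp, Fintype.sum_prod_type,
    Fintype.sum_bool, Finset.sum_add_distrib, add_comm]
  rfl

private theorem WRec_prod (q b : ℂ) {L : ℕ} (s s' : Bool) (a : ℂ) (τ : Fin L → Bool) (z : ℕ → ℂ) :
    ∏ j : Fin (L + 1), gg q s ((Fin.cons s' τ : Fin (L + 1) → Bool) j) a (consN b z j) =
      gg q s s' a b * ∏ j : Fin L, gg q s (τ j) a (z j) := by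
  rw [Fin.prod_univ_succ]
  simp only [Fin.cons_zero, Fin.cons_succ]
  rfl

private theorem WRec_pair {q : ℂ} (hq : q ^ 2 + q + 1 = 0) {a u : ℂ} (h1 : u ≠ a) (h2 : u ≠ q ^ 2 * a)
    (t : Bool) : gg q true t (q ^ 2 * a) u * gg q false t a u = (u - q * a) ^ 4 := by
  have h3 : q ^ 3 = 1 := by linear_combination (q - 1) * hq
  cases t with
  | false =>
    have e1 : gg q true false (q ^ 2 * a) u = (u - q ^ 2 * (q ^ 2 * a)) ^ 3 / (u - q ^ 2 * a) := by
      unfold gg
      simp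
    have e2 : gg q false false a u = a ^ 2 + a * u + u ^ 2 := by
      unfold gg
      simp
    have h4 : u - q ^ 2 * a ≠ 0 := sub_ne_zero.2 h2
    have h5 : u - q ^ 2 * (q ^ 2 * a) = u - q * a := by linear_combination (-q * a) * h3
    have h6 : a ^ 2 + a * u + u ^ 2 = (u - q * a) * (u - q ^ 2 * a) := by
      linear_combination (a * u) * hq - a ^ 2 * h3
    rw [e1, e2, h5, h6]
    field_simp
  | true =>
    have e1 : gg q true true (q ^ 2 * a) u = (q ^ 2 * a) ^ 2 + (q ^ 2 * a) * u + u ^ 2 := by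
      unfold gg
      simp
    have e2 : gg q false true a u = (a - q ^ 2 * u) ^ 3 / (a - u) := by
      unfold gg
      simp
    have h4 : a - u ≠ 0 := sub_ne_zero.2 h1.symm
    have h5 : a - q ^ 2 * u = -(q ^ 2) * (u - q * a) := by linear_combination (-a) * h3
    have h6 : (q ^ 2 * a) ^ 2 + (q ^ 2 * a) * u + u ^ 2 = -((a - u) * (u - q * a)) := by
      linear_combination (q * a ^ 2) * h3 + (a * u) * hq
    have h7 : (q ^ 2) ^ 3 = 1 := by linear_combination (q ^ 3 + 1) * h3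
    rw [e1, e2, h5, h6]
    rw [← mul_div_assoc, div_eq_iff h4]
    linear_combination ((a - u) * (u - q * a) ^ 4) * h7

private theorem WRec_a {q : ℂ} (hq : q ^ 2 + q + 1 = 0) {a : ℂ} (ha : a ≠ 0) :
    gg q false false a (q ^ 2 * a) = 0 ∧ gg q true true a (q ^ 2 * a) = 0 ∧
      gg q true false a (q ^ 2 * a) = 0 ∧ gg q false true a (q ^ 2 * a) = 3 * q ^ 2 * a ^ 2 := by
  have h3 : q ^ 3 = 1 := by linear_combination (q - 1) * hq
  have h0 : a ^ 2 + a * (q ^ 2 * a) + (q ^ 2 * a) ^ 2 = 0 := by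
    linear_combination (q * a ^ 2) * h3 + a ^ 2 * hq
  have hq1 : q ≠ 1 := by
    rintro rfl
    norm_num at hq
  have hq2 : 1 - q ^ 2 ≠ 0 := by
    intro h
    have h4 : q = -2 := by linear_combination hq + h
    rw [h4] at hq
    norm_num at hq
  refine ⟨?_, ?_, ?_, ?_⟩
  · unfold gg
    simpa using h0
  · unfold gg
    simpa using h0
  · unfold gg
    simp
  · have e : gg q false true a (q ^ 2 * a) = (a - q ^ 2 * (q ^ 2 * a)) ^ 3 / (a - q ^ 2 * a) := by
      unfold gg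
      simp
    have h4 : a - q ^ 2 * a ≠ 0 := by
      have h5 : a - q ^ 2 * a = a * (1 - q ^ 2) := by ring
      rw [h5]
      exact mul_ne_zero ha hq2
    rw [e, div_eq_iff h4]
    have h5 : a - q ^ 2 * (q ^ 2 * a) = a * (1 - q) := by linear_combination (-q * a) * h3
    rw [h5]
    linear_combination (a ^ 3 * (3 * q ^ 2 - 4 * q + 1)) * hq

theorem WW_rec {q : ℂ} (hq : q ^ 2 + q + 1 = 0) (w : ℂ) {L : ℕ} {a : ℂ} (ha : a ≠ 0) (z : ℕ → ℂ)
    (h : ∀ j, j < L → z j ≠ a ∧ z j ≠ q ^ 2 * a) :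
    WW q w (L + 2) (insP 0 a (q ^ 2 * a) z) =
      w * (3 * q ^ 2 * a ^ 2) * (∏ j ∈ range L, (z j - q * a) ^ 4) * WW q w L z := by
  obtain ⟨g1, g2, g3, g4⟩ := WRec_a hq ha
  have hprod : ∀ τ : Fin L → Bool,
      (∏ j : Fin L, gg q true (τ j) (q ^ 2 * a) (z j)) * (∏ j : Fin L, gg q false (τ j) a (z j)) =
        ∏ j ∈ range L, (z j - q * a) ^ 4 := by
    intro τ
    rw [← Finset.prod_mul_distrib, Finset.prod_range]
    refine Finset.prod_congr rfl fun j _ => ?_
    obtain ⟨h1, h2⟩ := h j j.2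
    exact WRec_pair hq h1 h2 (τ j)
  rw [← consN_consN, WW_cons, WRec_sum]
  unfold WW
  rw [Finset.mul_sum]
  refine Finset.sum_congr rfl fun τ _ => ?_
  rw [WRec_prod, WRec_prod, WRec_prod, WRec_prod, WRec_wt, WRec_wt, WRec_pp, WRec_pp, g1, g2, g3, g4,
    ← hprod τ]
  simp only [Bool.false_eq_true, if_false, if_true]
  ring

end CY
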