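import Pool.Agent.Lib.MP_216314_pr.Z.WDef

/-!
# Symmetry of the sum

For a function `h i j = h j i` on `Fin L`, the product over the pairs `i < j` is invariant under every permutation `π` of `Fin L`
(`pair_perm`): reindex the set of pairs `(i,j)` with `i < j` by `(i,j) ↦ (π i, π j)` if `π i < π j`, `(π j, π i)` otherwise (a bijection).
Then `WW (sw i z)`: reindex the sum over `σ` by `σ ∘ swap i (i+1)`.
-/

set_option autoImplicit false

noncomputable section

namespace CY

open Finset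

theorem pair_perm {L : ℕ} (h : Fin L → Fin L → ℂ) (hs : ∀ i j, h i j = h j i) (π : Equiv.Perm (Fin L)) :
    ∏ i : Fin L, ∏ j ∈ Ioi i, h (π i) (π j) = ∏ i : Fin L, ∏ j ∈ Ioi i, h i j := by
  set d : Fin L → Fin L → ℂ := fun i j => ((j : ℕ) : ℂ) - ((i : ℕ) : ℂ) with hd
  have hd1 : ∀ i j, d i j = -d j i := fun i j => by simp only [hd]; ring
  have h1 := π.prod_Ioi_comp_eq_sign_mul_prod hd1
  have h2 := π.prod_Ioi_comp_eq_sign_mul_prod (f := fun i j => h i j * d i j)
    (fun i j => by show h i j * d i j = -(h j i * d j i); rw [hs i j, hd1 i j]; ring)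
  simp only [Finset.prod_mul_distrib] at h2
  rw [h1] at h2
  have hne : ∏ i : Fin L, ∏ j ∈ Ioi i, d i j ≠ 0 := by
    refine Finset.prod_ne_zero_iff.2 fun i _ => Finset.prod_ne_zero_iff.2 fun j hj => ?_
    have h3 : (i : ℕ) < (j : ℕ) := Fin.lt_def.1 (Finset.mem_Ioi.1 hj)
    simp only [hd]
    rw [sub_ne_zero]
    exact fun h4 => h3.ne' (Nat.cast_injective h4)
  have hsg : ((Equiv.Perm.sign π : ℤ) : ℂ) ≠ 0 := by
    rcases Int.units_eq_one_or (Equiv.Perm.sign π) with h3 | h3 <;> rw [h3] <;> simp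
  refine mul_right_cancel₀ (mul_ne_zero hsg hne) ?_
  rw [h2]
  ring

theorem WW_sw (q w : ℂ) {L i : ℕ} (hi : i + 1 < L) (z : ℕ → ℂ) : WW q w L (sw i z) = WW q w L z := by
  set π : Equiv.Perm (Fin L) := Equiv.swap ⟨i, by omega⟩ ⟨i + 1, hi⟩ with hπ
  have hπ2 : ∀ k, π (π k) = k := fun k => Equiv.swap_apply_self _ _ _
  have hz : ∀ k : Fin L, sw i z k = z (π k) := by
    intro k
    unfold sw
    congr 1
    rw [hπ]
    rw [Equiv.swap_apply_def, Equiv.swap_apply_def]
    simp only [Fin.ext_iff]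
    split_ifs <;> rfl
  have hpp : ∀ σ : Fin L → Bool, pp q σ (sw i z) = pp q (σ ∘ π) z := by
    intro σ
    have h1 := pair_perm (fun a b => gg q ((σ ∘ π) a) ((σ ∘ π) b) (z a) (z b))
      (fun a b => gg_symm _ _ _ _ _) π
    unfold pp
    rw [← h1]
    refine Finset.prod_congr rfl fun a _ => Finset.prod_congr rfl fun b _ => ?_
    simp only [Function.comp_apply]
    rw [hπ2, hπ2, hz, hz]
  have hwt : ∀ σ : Fin L → Bool, wt w (σ ∘ π) = wt w σ := by
    intro σ
    unfold wt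
    exact Equiv.prod_comp π (fun k => if σ k then w else 1)
  unfold WW
  have hs : ∑ σ : Fin L → Bool, wt w σ * pp q σ z = ∑ σ : Fin L → Bool, wt w (σ ∘ π) * pp q (σ ∘ π) z :=
    ((Equiv.arrowCongr π (Equiv.refl Bool)).symm.sum_comp (fun σ => wt w σ * pp q σ z)).symm
  rw [hs]
  exact Finset.sum_congr rfl fun σ _ => by rw [hwt, hpp]

end CY
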