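import Pool.Agent.Lib.MP_216314_pr.Z.Mov
import Pool.Agent.Lib.MP_216314_pr.Z.WSym
import Pool.Agent.Lib.MP_216314_pr.Z.WRec
import Pool.Agent.Lib.MP_216314_pr.Z.WPol

/-!
# The induction step for `E = W`

`f` : a symmetric function of `L + 2` variables with the recursion of `W`, the double expansion `hc`, and the highest coefficient
`(1+w)² f'`; `f' = W` at the generic points of `L` variables. Then `f = W` at the generic points of `L + 2` variables.

Step A (`stepA`), for generic `y` (`L` entries) and every `t` different from the `y j`: `cE(t) = ∑_b c (2L+2) b t^b` (degree `≤ 2L`) equals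
`(1 + w) W_{L+1}(t, y)`. Consider the polynomial `C = cE * ∏_{j<L} (X - y j) - (1+w) rr L y`; degree `≤ 3L`, coefficient of `X^(3L)`:
`(1+w)² f' y - (1+w) (1+w) W_L(y) = 0` (`rr_coeff`). Zeros: `y j` (`rr_zero`); `t = q y k` or `q² y k` (then `t ≠ y j` for all `j`): there
`f (insP 0 s t y) = W (insP 0 s t y)` for all `s` with `Gen (L+1) (consN s y)` (all but finitely many `s`, `gen_cofinite`): both functions are
symmetric, `insP 0 s t y = consN s (consN t y)` has the same value as `consN t (consN s y)` (`sw 0`), and `rec_agree` with `z = consN s y`, entry `k + 1`.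
The polynomial identity in `s`: `(∑_a ∑_b s^a t^b c a b) * (s - t) ∏ (s - y j) = rr (L+1) (consN t y)` evaluated at `s` (`rr_eval`), for infinitely many
`s`, so the coefficients of `s^(3(L+1))` agree: `cE(t) = (1+w) W_{L+1}(t, y)` (`rr_coeff`, `rr_degree`); so `C(t) = 0`. `Gen.poly_zero` gives `C = 0`.

Step B: `z = (z_0, z_1, y)` generic, `z' = (z_1, y)`. The polynomial in `s`: `f(s, z') ∏_{j < L+1}(s - z'_j) - rr (L+1) z'`: degree `≤ 3(L+1)`, highest
coefficient `cE(z_1) - (1+w) W_{L+1}(z') = 0` (step A), zeros `z'_j` (`rr_zero`), `q z'_j`, `q² z'_j` (`rec_agree` with `z = z'`; `rr_eval` applies as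
`q z'_j` is different from all `z'_i`). `Gen.poly_zero`: it is `0`; evaluate at `s = z_0`.
-/

set_option autoImplicit false

noncomputable section

namespace CY

open Finset

private theorem UA_sw (s t : ℂ) (y : ℕ → ℂ) : sw 0 (consN t (consN s y)) = consN s (consN t y) := by
  funext k
  show consN t (consN s y) (Equiv.swap 0 (0 + 1) k) = consN s (consN t y) k
  by_cases hk0 : k = 0
  · subst hk0
    rw [Equiv.swap_apply_left]
    rfl
  · by_cases hk1 : k = 1
    · subst hk1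
      have : Equiv.swap 0 (0 + 1) 1 = 0 := Equiv.swap_apply_right 0 1
      rw [this]
      rfl
    · have h1 : Equiv.swap 0 (0 + 1) k = k := Equiv.swap_apply_of_ne_of_ne hk0 (by omega)
      rw [h1]
      have h2 : ¬ (k - 1 = 0) := by omega
      simp only [consN, if_neg hk0, if_neg h2]

private theorem UA_front {q : ℂ} (hq : q ^ 2 + q + 1 = 0) (w : ℂ) {L : ℕ} {f f' : (ℕ → ℂ) → ℂ}
    (hf : SymF (L + 2) f)
    (h1 : ∀ a, a ≠ 0 → ∀ y, f (insP 0 a (q ^ 2 * a) y) =
      w * (3 * q ^ 2 * a ^ 2) * (∏ j ∈ range L, (y j - q * a) ^ 4) * f' y)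
    (h3 : ∀ y, Gen L y → f' y = WW q w L y) {y : ℕ → ℂ} {s : ℂ} (hs : Gen (L + 1) (consN s y)) {k : ℕ}
    (hk : k < L) {t0 : ℂ} (ht0 : t0 = q * y k ∨ t0 = q ^ 2 * y k) :
    f (insP 0 s t0 y) = WW q w (L + 2) (consN s (consN t0 y)) := by
  have hg : SymF (L + 2) (WW q w (L + 2)) := fun i hi z => WW_sw q w hi z
  have hr := rec_agree hq hf hg (fun a y => w * (3 * q ^ 2 * a ^ 2) * ∏ j ∈ range L, (y j - q * a) ^ 4)
    (fun a ha y _ => h1 a ha y) (fun a ha y h => WW_rec hq w ha y h) h3 hs (k := k + 1) (by omega)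
  have e : consN s y (k + 1) = y k := by
    simp only [consN, if_neg (Nat.succ_ne_zero k), Nat.add_sub_cancel]
  rw [e] at hr
  rw [← consN_consN, ← UA_sw s t0 y, hf 0 (by omega), hg 0 (by omega)]
  rcases ht0 with rfl | rfl
  · exact hr.1
  · exact hr.2

private theorem UA_prod (m : ℕ) (b : ℕ → ℂ) :
    (∏ j ∈ range m, (Polynomial.X - Polynomial.C (b j)) : Polynomial ℂ).natDegree ≤ m ∧
      (∏ j ∈ range m, (Polynomial.X - Polynomial.C (b j)) : Polynomial ℂ).coeff m = 1 := by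
  induction m with
  | zero => simp
  | succ m ih =>
    obtain ⟨i1, i2⟩ := ih
    rw [Finset.prod_range_succ]
    have h1 : (Polynomial.X - Polynomial.C (b m) : Polynomial ℂ).natDegree ≤ 1 :=
      (Polynomial.natDegree_X_sub_C (b m)).le
    refine ⟨?_, ?_⟩
    · exact Polynomial.natDegree_mul_le.trans (by omega)
    · rw [Polynomial.coeff_mul_add_eq_of_natDegree_le i1 h1, i2, Polynomial.coeff_sub,
        Polynomial.coeff_X_one, Polynomial.coeff_C_succ]
      ring

private theorem UA_prod_eval (m : ℕ) (b : ℕ → ℂ) (s : ℂ) :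
    (∏ j ∈ range m, (Polynomial.X - Polynomial.C (b j)) : Polynomial ℂ).eval s = ∏ j ∈ range m, (s - b j) := by
  rw [Polynomial.eval_prod]
  refine Finset.prod_congr rfl fun j _ => ?_
  rw [Polynomial.eval_sub, Polynomial.eval_X, Polynomial.eval_C]

private theorem UA_sum_deg (N : ℕ) (c : ℕ → ℂ) :
    (∑ a ∈ range (N + 1), Polynomial.C (c a) * Polynomial.X ^ a : Polynomial ℂ).natDegree ≤ N ∧
      ∀ n, n ≤ N → (∑ a ∈ range (N + 1), Polynomial.C (c a) * Polynomial.X ^ a : Polynomial ℂ).coeff n = c n := by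
  refine ⟨?_, ?_⟩
  · refine Polynomial.natDegree_sum_le_of_forall_le _ _ fun a ha => ?_
    exact (Polynomial.natDegree_C_mul_X_pow_le _ _).trans (by have := mem_range.1 ha; omega)
  · intro n hn
    rw [Polynomial.finsetSum_coeff, Finset.sum_eq_single n]
    · rw [Polynomial.coeff_C_mul, Polynomial.coeff_X_pow, if_pos rfl, mul_one]
    · intro k _ hk
      rw [Polynomial.coeff_C_mul, Polynomial.coeff_X_pow, if_neg (Ne.symm hk), mul_zero]
    · intro h
      exact absurd (mem_range.2 (by omega)) h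

private theorem UA_sum_eval (N : ℕ) (c : ℕ → ℂ) (s : ℂ) :
    (∑ a ∈ range N, Polynomial.C (c a) * Polynomial.X ^ a : Polynomial ℂ).eval s = ∑ a ∈ range N, s ^ a * c a := by
  rw [Polynomial.eval_finsetSum]
  refine Finset.sum_congr rfl fun a _ => ?_
  rw [Polynomial.eval_mul, Polynomial.eval_C, Polynomial.eval_pow, Polynomial.eval_X, mul_comm]

private theorem UA_claim {q : ℂ} (hq : q ^ 2 + q + 1 = 0) (w : ℂ) {L : ℕ} {f f' : (ℕ → ℂ) → ℂ}
    (hf : SymF (L + 2) f)
    (h1 : ∀ a, a ≠ 0 → ∀ y, f (insP 0 a (q ^ 2 * a) y) =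
      w * (3 * q ^ 2 * a ^ 2) * (∏ j ∈ range L, (y j - q * a) ^ 4) * f' y)
    (h3 : ∀ y, Gen L y → f' y = WW q w L y) {y : ℕ → ℂ} (hy : Gen L y) {c : ℕ → ℕ → ℂ}
    (hc1 : ∀ s t : ℂ, f (insP 0 s t y) =
        ∑ a ∈ range (2 * L + 3), ∑ b ∈ range (2 * L + 3), s ^ a * t ^ b * c a b) {k : ℕ}
    (hk : k < L) {t0 : ℂ} (ht0 : t0 = q * y k ∨ t0 = q ^ 2 * y k) :
    ∑ b ∈ range (2 * L + 3), t0 ^ b * c (2 * L + 2) b = (1 + w) * WW q w (L + 1) (consN t0 y) := by
  obtain ⟨P, hP⟩ : ∃ P : Polynomial ℂ, P = ∑ a ∈ range (2 * L + 2 + 1),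
    Polynomial.C (∑ b ∈ range (2 * L + 3), t0 ^ b * c a b) * Polynomial.X ^ a := ⟨_, rfl⟩
  obtain ⟨R, hR⟩ : ∃ R : Polynomial ℂ, R = ∏ j ∈ range (L + 1),
    (Polynomial.X - Polynomial.C (consN t0 y j)) := ⟨_, rfl⟩
  have hPe : ∀ s, P.eval s = f (insP 0 s t0 y) := by
    intro s
    rw [hP, UA_sum_eval, hc1]
    refine Finset.sum_congr rfl fun a _ => ?_
    rw [Finset.mul_sum]
    refine Finset.sum_congr rfl fun b _ => ?_
    ring
  have key : P * R = rr q w (L + 1) (consN t0 y) := by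
    apply Polynomial.eq_of_infinite_eval_eq
    have hfin : ({s : ℂ | ¬ Gen (L + 1) (consN s y)} ∪
        (((range (L + 1)).image fun j => consN t0 y j : Finset ℂ) : Set ℂ)).Finite :=
      (gen_cofinite hy).union (Finset.finite_toSet _)
    refine hfin.infinite_compl.mono ?_
    intro s hs
    rw [Set.mem_compl_iff, Set.mem_union, not_or] at hs
    obtain ⟨hs1, hs2⟩ := hs
    have hs1' : Gen (L + 1) (consN s y) := not_not.1 hs1
    have hs2' : ∀ j, j < L + 1 → s ≠ consN t0 y j := by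
      intro j hj he
      exact hs2 (Finset.mem_coe.2 (mem_image.2 ⟨j, mem_range.2 hj, he.symm⟩))
    show Polynomial.eval s (P * R) = Polynomial.eval s (rr q w (L + 1) (consN t0 y))
    rw [Polynomial.eval_mul, hPe, hR, UA_prod_eval, rr_eval w (L + 1) (consN t0 y) s hs2',
      UA_front hq w hf h1 h3 hs1' hk ht0]
  have h5 := congrArg (fun Q : Polynomial ℂ => Q.coeff (3 * (L + 1))) key
  have h6 : (P * R).coeff (3 * (L + 1)) = (rr q w (L + 1) (consN t0 y)).coeff (3 * (L + 1)) := h5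
  rw [rr_coeff hq] at h6
  have h7 : 3 * (L + 1) = (2 * L + 2) + (L + 1) := by omega
  obtain ⟨p1, p2⟩ := UA_sum_deg (2 * L + 2) (fun a => ∑ b ∈ range (2 * L + 3), t0 ^ b * c a b)
  obtain ⟨r1, r2⟩ := UA_prod (L + 1) (consN t0 y)
  rw [h7, hP, hR, Polynomial.coeff_mul_add_eq_of_natDegree_le p1 r1, p2 _ le_rfl, r2, mul_one] at h6
  exact h6

section

variable {q : ℂ} (hq : q ^ 2 + q + 1 = 0) (w : ℂ) {L : ℕ} {f f' : (ℕ → ℂ) → ℂ} (hf : SymF (L + 2) f)
  (h1 : ∀ a, a ≠ 0 → ∀ y, f (insP 0 a (q ^ 2 * a) y) =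
    w * (3 * q ^ 2 * a ^ 2) * (∏ j ∈ range L, (y j - q * a) ^ 4) * f' y)
  (hc : ∀ y, ∃ c : ℕ → ℕ → ℂ, (∀ s t : ℂ, f (insP 0 s t y) =
        ∑ a ∈ range (2 * L + 3), ∑ b ∈ range (2 * L + 3), s ^ a * t ^ b * c a b) ∧
      (∀ b, 2 * L < b → c (2 * L + 2) b = 0) ∧ c (2 * L + 2) (2 * L) = (1 + w) ^ 2 * f' y)
  (h3 : ∀ y, Gen L y → f' y = WW q w L y)
include hq hf h1 hc h3

theorem stepA {y : ℕ → ℂ} (hy : Gen L y) {c : ℕ → ℕ → ℂ}
    (hc1 : ∀ s t : ℂ, f (insP 0 s t y) =
        ∑ a ∈ range (2 * L + 3), ∑ b ∈ range (2 * L + 3), s ^ a * t ^ b * c a b)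
    (hc2 : ∀ b, 2 * L < b → c (2 * L + 2) b = 0) (hc3 : c (2 * L + 2) (2 * L) = (1 + w) ^ 2 * f' y)
    {t : ℂ} (ht : ∀ j, j < L → t ≠ y j) :
    ∑ b ∈ range (2 * L + 3), t ^ b * c (2 * L + 2) b = (1 + w) * WW q w (L + 1) (consN t y) := by
  obtain ⟨P, hP⟩ : ∃ P : Polynomial ℂ, P = ∑ b ∈ range (2 * L + 2 + 1),
    Polynomial.C (c (2 * L + 2) b) * Polynomial.X ^ b := ⟨_, rfl⟩
  obtain ⟨R, hR⟩ : ∃ R : Polynomial ℂ, R = ∏ j ∈ range L,
    (Polynomial.X - Polynomial.C (y j)) := ⟨_, rfl⟩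
  have hPe : ∀ s, P.eval s = ∑ b ∈ range (2 * L + 3), s ^ b * c (2 * L + 2) b := by
    intro s
    rw [hP, UA_sum_eval]
  have hRe : ∀ s, R.eval s = ∏ j ∈ range L, (s - y j) := by
    intro s
    rw [hR, UA_prod_eval]
  obtain ⟨p1, p2⟩ := UA_sum_deg (2 * L + 2) (fun b => c (2 * L + 2) b)
  obtain ⟨r1, r2⟩ := UA_prod L y
  rw [← hP] at p1 p2
  rw [← hR] at r1 r2
  have hPd : P.natDegree ≤ 2 * L := by
    rw [Polynomial.natDegree_le_iff_coeff_eq_zero]
    intro n hn
    by_cases hn2 : n ≤ 2 * L + 2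
    · rw [p2 n hn2]
      exact hc2 n hn
    · exact Polynomial.coeff_eq_zero_of_natDegree_lt (by omega)
  have hy0 : ∀ j, j < L → y j ≠ 0 := hy.1
  have hne : ∀ i j, i < L → j < L → i ≠ j → y i ≠ y j := by
    intro i j hi hj hij he
    exact hy.2 i j hi hj hij (by rw [he])
  have hq3 : q ^ 3 = 1 := by linear_combination (q - 1) * hq
  have hq1 : q ≠ 1 := by
    rintro rfl
    norm_num at hq
  have hq21 : q ^ 2 ≠ 1 := by
    intro h
    have h8 : q = -2 := by linear_combination hq - h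
    rw [h8] at hq
    norm_num at hq
  -- the values at the special points
  have hsp : ∀ k, k < L → ∀ t0 : ℂ, t0 = q * y k ∨ t0 = q ^ 2 * y k →
      (P * R - Polynomial.C (1 + w) * rr q w L y).eval t0 = 0 := by
    intro k hk t0 ht0
    have h5 := UA_claim hq w hf h1 h3 hy hc1 hk ht0
    have h6 : ∀ j, j < L → t0 ≠ y j := by
      intro j hj he
      have hc3 : t0 ^ 3 = y k ^ 3 := by
        rcases ht0 with h | h
        · rw [h]
          linear_combination (y k ^ 3) * hq3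
        · rw [h]
          linear_combination (y k ^ 3 * (q ^ 3 + 1)) * hq3
      by_cases hjk : j = k
      · subst hjk
        have h0 := hy0 j hj
        rcases ht0 with h | h
        · rw [h] at he
          exact hq1 (mul_right_cancel₀ h0 (he.trans (one_mul _).symm))
        · rw [h] at he
          exact hq21 (mul_right_cancel₀ h0 (he.trans (one_mul _).symm))
      · rw [he] at hc3
        exact hy.2 j k hj hk hjk hc3
    rw [Polynomial.eval_sub, Polynomial.eval_mul, Polynomial.eval_mul, Polynomial.eval_C, hPe, hRe,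
      rr_eval w L y t0 h6, h5]
    ring
  have hzero : P * R - Polynomial.C (1 + w) * rr q w L y = 0 := by
    refine Gen.poly_zero hq hy ?_ ?_ ?_
    · refine (Polynomial.natDegree_sub_le _ _).trans (max_le ?_ ?_)
      · exact Polynomial.natDegree_mul_le.trans (by omega)
      · exact (Polynomial.natDegree_C_mul_le _ _).trans (rr_degree w L y)
    · have h7 : 3 * L = 2 * L + L := by omega
      rw [Polynomial.coeff_sub, Polynomial.coeff_C_mul, rr_coeff hq, h7,
        Polynomial.coeff_mul_add_eq_of_natDegree_le hPd r1, p2 _ (by omega), r2, hc3, h3 y hy]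
      ring
    · intro j hj
      refine ⟨?_, hsp j hj _ (Or.inl rfl), hsp j hj _ (Or.inr rfl)⟩
      rw [Polynomial.eval_sub, Polynomial.eval_mul, Polynomial.eval_mul, hRe, rr_zero hq w L y j hj hne,
        Finset.prod_eq_zero (mem_range.2 hj) (sub_self _)]
      ring
  have h8 := congrArg (fun Q : Polynomial ℂ => Q.eval t) hzero
  have h9 : (P * R - Polynomial.C (1 + w) * rr q w L y).eval t = (0 : Polynomial ℂ).eval t := h8
  rw [Polynomial.eval_sub, Polynomial.eval_mul, Polynomial.eval_mul, Polynomial.eval_C, hPe, hRe,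
    rr_eval w L y t ht, Polynomial.eval_zero] at h9
  have h10 : ∏ j ∈ range L, (t - y j) ≠ 0 :=
    Finset.prod_ne_zero_iff.2 fun j hj => sub_ne_zero.2 (ht j (mem_range.1 hj))
  refine mul_right_cancel₀ h10 ?_
  linear_combination h9

end

end CY
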