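import Pool.Agent.Lib.MP_216314_pr.Z.UA

/-!
# The induction step: step B (proof in the header of `UA`)
-/

set_option autoImplicit false

noncomputable section

namespace CY

open Finset

section

variable {q : ℂ} (hq : q ^ 2 + q + 1 = 0) (w : ℂ) {L : ℕ} {f f' : (ℕ → ℂ) → ℂ} (hf : SymF (L + 2) f)
  (h1 : ∀ a, a ≠ 0 → ∀ y, f (insP 0 a (q ^ 2 * a) y) =
    w * (3 * q ^ 2 * a ^ 2) * (∏ j ∈ range L, (y j - q * a) ^ 4) * f' y)
  (hc : ∀ y, ∃ c : ℕ → ℕ → ℂ, (∀ s t : ℂ, f (insP 0 s t y) =
        ∑ a ∈ range (2 * L + 3), ∑ b ∈ range (2 * L + 3), s ^ a * t ^ b * c a b) ∧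
      (∀ b, 2 * L < b → c (2 * L + 2) b = 0) ∧ c (2 * L + 2) (2 * L) = (1 + w) ^ 2 * f' y)
  (h3 : ∀ y, Gen L y → f' y = WW q w L y)
include hq hf h1 hc h3

theorem step {z : ℕ → ℂ} (hz : Gen (L + 2) z) : f z = WW q w (L + 2) z := by
  have hq3 : q ^ 3 = 1 := by linear_combination (q - 1) * hq
  have hq0 : q ≠ 0 := by rintro rfl; norm_num at hq
  have hq1 : q ≠ 1 := by rintro rfl; norm_num at hq
  set z' : ℕ → ℂ := fun k => z (k + 1) with hz'
  set y : ℕ → ℂ := fun k => z' (k + 1) with hy'
  have ez : consN (z 0) z' = z := consN_self z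
  have ez' : consN (z 1) y = z' := consN_self z'
  have hGz' : Gen (L + 1) z' := by
    have h := hz
    rw [← ez, Gen.cons_iff] at h
    exact h.1
  have hGy : Gen L y := by
    have h := hGz'
    rw [← ez', Gen.cons_iff] at h
    exact h.1
  have hzj : ∀ j, j < L + 1 → z 0 ≠ z' j := by
    intro j hj h
    exact hz.2 0 (j + 1) (by omega) (by omega) (by omega) (by rw [h])
  have hty : ∀ j, j < L → z 1 ≠ y j := by
    intro j hj h
    exact hz.2 1 (j + 2) (by omega) (by omega) (by omega) (by rw [h])
  obtain ⟨c, hc1, hc2, hc3⟩ := hc y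
  have hA := stepA hq w hf h1 hc h3 hGy hc1 hc2 hc3 hty
  rw [ez'] at hA
  -- the polynomials
  set pf : Polynomial ℂ := ∑ a ∈ range (2 * L + 3),
    Polynomial.C (∑ b ∈ range (2 * L + 3), z 1 ^ b * c a b) * Polynomial.X ^ a with hpf
  set pd : Polynomial ℂ := ∏ j ∈ range (L + 1), (Polynomial.X - Polynomial.C (z' j)) with hpd
  have hpfe : ∀ s, pf.eval s = f (consN s z') := by
    intro s
    have e : consN s z' = insP 0 s (z 1) y := by rw [← consN_consN, ez']
    rw [e, hc1, hpf, Polynomial.eval_finset_sum]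
    refine Finset.sum_congr rfl fun a _ => ?_
    rw [Polynomial.eval_mul, Polynomial.eval_C, Polynomial.eval_pow, Polynomial.eval_X,
      Finset.sum_mul]
    exact Finset.sum_congr rfl fun b _ => by ring
  have hpde : ∀ s, pd.eval s = ∏ j ∈ range (L + 1), (s - z' j) := by
    intro s
    rw [hpd, Polynomial.eval_prod]
    exact Finset.prod_congr rfl fun j _ => by simp
  have hpfd : pf.natDegree ≤ 2 * L + 2 := by
    refine Polynomial.natDegree_sum_le_of_forall_le _ _ fun a ha => ?_
    refine (Polynomial.natDegree_C_mul_X_pow_le _ _).trans ?_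
    have := Finset.mem_range.mp ha
    omega
  have hpdm : pd.Monic := Polynomial.monic_prod_of_monic _ _ fun j _ => Polynomial.monic_X_sub_C _
  have hpdd : pd.natDegree = L + 1 := by
    rw [hpd, Polynomial.natDegree_prod_of_monic _ _ fun j _ => Polynomial.monic_X_sub_C _]
    simp
  have hpfc : pf.coeff (2 * L + 2) = ∑ b ∈ range (2 * L + 3), z 1 ^ b * c (2 * L + 2) b := by
    rw [hpf, Polynomial.finset_sum_coeff]
    simp only [Polynomial.coeff_C_mul, Polynomial.coeff_X_pow]
    rw [Finset.sum_eq_single (2 * L + 2)]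
    · simp
    · intro a _ ha
      rw [if_neg (Ne.symm ha), mul_zero]
    · intro h
      exact absurd (Finset.mem_range.mpr (by omega)) h
  have hprodc : (pf * pd).coeff (3 * (L + 1)) = pf.coeff (2 * L + 2) := by
    have e : 3 * (L + 1) = (2 * L + 2) + (L + 1) := by ring
    rw [e, Polynomial.coeff_mul_add_eq_of_natDegree_le hpfd hpdd.le]
    have : pd.coeff (L + 1) = 1 := by rw [← hpdd]; exact hpdm
    rw [this, mul_one]
  have hp0 : pf * pd - rr q w (L + 1) z' = 0 := by
    refine Gen.poly_zero hq hGz' ?_ ?_ ?_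
    · refine (Polynomial.natDegree_sub_le _ _).trans (max_le ?_ (rr_degree w (L + 1) z'))
      refine (Polynomial.natDegree_mul_le).trans ?_
      rw [hpdd]
      omega
    · rw [Polynomial.coeff_sub, hprodc, hpfc, hA, rr_coeff hq, sub_self]
    · intro j hj
      have hagree := rec_agree hq hf (g := WW q w (L + 2)) (f' := f') (g' := WW q w L)
        (fun i hi u => WW_sw q w hi u)
        (fun a y => w * (3 * q ^ 2 * a ^ 2) * (∏ j ∈ range L, (y j - q * a) ^ 4))
        (fun a ha y _ => h1 a ha y) (fun a ha y hy => WW_rec hq w ha y hy) h3 hGz' hj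
      have hzj0 := hGz'.1 j hj
      refine ⟨?_, ?_, ?_⟩
      · rw [Polynomial.eval_sub, Polynomial.eval_mul, hpde,
          Finset.prod_eq_zero (Finset.mem_range.mpr hj) (sub_self _), mul_zero,
          rr_zero hq w (L + 1) z' j hj (fun i j hi hj hij h => hGz'.2 i j hi hj hij (by rw [h])),
          sub_zero]
      · rw [Polynomial.eval_sub, Polynomial.eval_mul, hpde, hpfe, rr_eval w (L + 1) z' (q * z' j),
          hagree.1, sub_self]
        intro i hi h
        by_cases hij : i = j
        · subst hij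
          have : (q - 1) * z' i = 0 := by linear_combination h
          rcases mul_eq_zero.mp this with h | h
          · exact hq1 (by linear_combination h)
          · exact hzj0 h
        · apply hGz'.2 i j hi hj hij
          rw [← h, mul_pow, hq3, one_mul]
      · rw [Polynomial.eval_sub, Polynomial.eval_mul, hpde, hpfe,
          rr_eval w (L + 1) z' (q ^ 2 * z' j), hagree.2, sub_self]
        intro i hi h
        by_cases hij : i = j
        · subst hij
          have : (q ^ 2 - 1) * z' i = 0 := by linear_combination h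
          rcases mul_eq_zero.mp this with h | h
          · have : q ^ 3 = q := by linear_combination q * h
            exact hq1 (by rw [← this, hq3])
          · exact hzj0 h
        · apply hGz'.2 i j hi hj hij
          have h6 : (q ^ 2) ^ 3 = 1 := by rw [← pow_mul, mul_comm, pow_mul, hq3, one_pow]
          rw [← h, mul_pow, h6, one_mul]
  have hfin : (pf * pd - rr q w (L + 1) z').eval (z 0) = 0 := by rw [hp0, Polynomial.eval_zero]
  rw [Polynomial.eval_sub, Polynomial.eval_mul, hpde, hpfe, rr_eval w (L + 1) z' (z 0) hzj, ez,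
    ← sub_mul] at hfin
  have hne : ∏ j ∈ range (L + 1), (z 0 - z' j) ≠ 0 :=
    Finset.prod_ne_zero_iff.mpr fun j hj => sub_ne_zero.mpr (hzj j (Finset.mem_range.mp hj))
  exact sub_eq_zero.mp ((mul_eq_zero.mp hfin).resolve_right hne)

end

end CY
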