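import Mathlib

/-!
# Link patterns on the cylinder as periodic involutions of the integers

`Pat L`: the `L`-periodic noncrossing fixed point free involutions of `ℤ` (sites `0..L-1` of a circle, lifted to the
universal cover). The seam (marked gap) is the gap between the sites `-1` and `0`.
-/

set_option autoImplicit false

noncomputable section

namespace CY

open Finset

/-- link pattern of period `L` -/
@[ext] structure Pat (L : ℕ) where
  f : ℤ → ℤ
  pos : 0 < L
  inv : ∀ x, f (f x) = x
  per : ∀ x, f (x + L) = f x + L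
  ne : ∀ x, f x ≠ x
  nc : ∀ x y, x < y → y < f x → x < f y ∧ f y < f x

/-- the monoid `e i` on functions: the sites congruent to `i`, `i+1` are joined, their former partners are joined -/
def eFun (L : ℕ) (i : ℤ) (f : ℤ → ℤ) (x : ℤ) : ℤ :=
  if (L : ℤ) ∣ x - i then x + 1
  else if (L : ℤ) ∣ x - i - 1 then x - 1
  else if (L : ℤ) ∣ f x - i then f (f x + 1)
  else if (L : ℤ) ∣ f x - i - 1 then f (f x - 1)
  else f x

/-- new labels of the old sites when the small arc `(i, i+1)` is inserted (old period `L`, new period `L+2`) -/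
def up (L : ℕ) (i k : ℤ) : ℤ := k + 2 + 2 * ((k - i) / L)

/-- old labels; inverse of `up` -/
def dn (L : ℕ) (i x : ℤ) : ℤ := x - 2 - 2 * ((x - i) / (L + 2 : ℤ))

def insFun (L : ℕ) (i : ℤ) (f : ℤ → ℤ) (x : ℤ) : ℤ :=
  if (L + 2 : ℤ) ∣ x - i then x + 1
  else if (L + 2 : ℤ) ∣ x - i - 1 then x - 1
  else up L i (f (dn L i x))

def capFun (L : ℕ) (i : ℤ) (f : ℤ → ℤ) (x : ℤ) : ℤ := dn L i (eFun (L + 2) i f (up L i x))

end CY
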